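import Mathlib
import Pool.Agent.Lib.MP_6d896a_gt.LG.SPDefs
import Pool.Agent.Lib.MP_6d896a_gt.LG.Defs2

/-!
Project FK (the Kannan-Lovasz-Simonovits inequality from the thin shell inequality): definitions.

Part A: joint cumulants of a function with linear functionals, for the exponential family
`exp (⟨c, x⟩ - ⟨B x, x⟩ / 2) μ`, and the diffusion operators on the space of parameters.
`AppN` is the interface with part B.
-/

set_option autoImplicit false

namespace Pool.Agent.Lib.MP_6d896a_gt.FK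

open MeasureTheory Filter Topology Set
open Pool.Agent.Lib.MP_6d896a_gt.LG (BS Cv Thin CovL SP VarE CovLe)
open scoped ENNReal NNReal ContDiff

abbrev Eu (n : ℕ) := EuclideanSpace ℝ (Fin n)
/-- matrices as functions -/
abbrev MM (n : ℕ) := Fin n → Fin n → ℝ
/-- states: tilt vector and matrix factor -/
abbrev SS (n : ℕ) := Eu n × MM n

variable {n : ℕ}

/-! ### Part A: the exponential family -/

/-- quadratic form -/
noncomputable def qf (B : MM n) (x : Eu n) : ℝ := ∑ i, ∑ j, B i j * (x i * x j)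

/-- the admissible states: symmetric positive semidefinite matrices -/
def Dom (n : ℕ) : Set (SS n) := {s | (∀ i j, s.2 i j = s.2 j i) ∧ ∀ x, 0 ≤ qf s.2 x}

/-- the exponent -/
noncomputable def ex (s : SS n) (x : Eu n) : ℝ := inner ℝ s.1 x - qf s.2 x / 2

/-- unnormalised moment -/
noncomputable def Nf (μ : Measure (Eu n)) (ψ : Eu n → ℝ) (s : SS n) : ℝ :=
  ∫ x, ψ x * Real.exp (ex s x) ∂μ

/-- expectation in the state `s` -/
noncomputable def mo (μ : Measure (Eu n)) (ψ : Eu n → ℝ) (s : SS n) : ℝ :=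
  Nf μ ψ s / Nf μ (fun _ => 1) s

/-- linear functional -/
noncomputable def ln (w : Eu n) (x : Eu n) : ℝ := inner ℝ x w

/-- variance in the state `s` -/
noncomputable def Vr (μ : Measure (Eu n)) (ψ : Eu n → ℝ) (s : SS n) : ℝ :=
  mo μ (fun x => ψ x ^ 2) s - mo μ ψ s ^ 2

/-- bounded functions -/
structure BF (μ : Measure (Eu n)) (ψ : Eu n → ℝ) : Prop where
  ms : AEStronglyMeasurable ψ μ
  bd : ∃ C : ℝ, ∀ᵐ x ∂μ, |ψ x| ≤ C

/-- the standing assumptions -/
structure Hy (μ : Measure (Eu n)) (R : ℝ) : Prop where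
  pr : IsProbabilityMeasure μ
  R1 : 1 ≤ R
  bs : BS R μ

/-- derivative with respect to the tilt vector -/
noncomputable def D (v : Eu n) (G : SS n → ℝ) (s : SS n) : ℝ := fderiv ℝ G s (v, 0)

/-- joint cumulants of `ψ` with linear functionals -/
noncomputable def F (μ : Measure (Eu n)) (ψ : Eu n → ℝ) : List (Eu n) → SS n → ℝ
  | [] => mo μ ψ
  | v :: L => D v (F μ ψ L)

/-- the diffusion operator of a frame -/
noncomputable def Bq (μ : Measure (Eu n)) (q : Fin n → Eu n) (G : SS n → ℝ) (s : SS n) : ℝ :=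
  fderiv ℝ G s (∑ k, mo μ (ln (q k)) s • q k, fun i j => ∑ k, q k i * q k j) +
    1 / 2 * ∑ k, D (q k) (D (q k) G) s

/-- contraction of a cumulant of linear functionals with a cumulant of `ψ` -/
noncomputable def XX (μ : Measure (Eu n)) (ψ : Eu n → ℝ) (q : Fin n → Eu n) (P Q : List (Eu n))
    (s : SS n) : ℝ :=
  ∑ k, F μ (ln (q k)) P s * F μ ψ (q k :: Q) s

/-! ### norms of functions of lists of vectors of a frame -/

/-- inner product of two functions of lists of length `m` of vectors of the frame `q` -/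
noncomputable def ip (q : Fin n → Eu n) : ℕ → (List (Eu n) → ℝ) → (List (Eu n) → ℝ) → ℝ
  | 0, Φ, Ψ => Φ [] * Ψ []
  | m + 1, Φ, Ψ => ∑ i, ip q m (fun L => Φ (q i :: L)) (fun L => Ψ (q i :: L))

/-- squared norm -/
noncomputable def nsq (q : Fin n → Eu n) (m : ℕ) (Φ : List (Eu n) → ℝ) : ℝ := ip q m Φ Φ

/-- multilinear functions of lists -/
def ML (Φ : List (Eu n) → ℝ) : Prop :=
  ∀ (L L' : List (Eu n)) (a b : ℝ) (v w : Eu n),
    Φ (L ++ (a • v + b • w) :: L') = a * Φ (L ++ v :: L') + b * Φ (L ++ w :: L')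

/-- symmetric functions of lists -/
def Sm (Φ : List (Eu n) → ℝ) : Prop := ∀ L L' : List (Eu n), L.Perm L' → Φ L = Φ L'

/-- the frame has covariance at most one in the state `s` -/
def Fr (μ : Measure (Eu n)) (q : Fin n → Eu n) (s : SS n) : Prop :=
  ∀ c : Fin n → ℝ, ∑ i, ∑ j, c i * c j * F μ (ln (q j)) [q i] s ≤ ∑ i, c i ^ 2

/-- the higher order thin shell inequality of order `m` -/
def SB (μ : Measure (Eu n)) (m : ℕ) (K : ℝ) : Prop :=
  ∀ s ∈ Dom n, ∀ q : Fin n → Eu n, Fr μ q s → ∀ ψ, BF μ ψ →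
    nsq q m (fun L => F μ ψ L s) ≤ K * Vr μ ψ s

/-- functions bounded by one -/
def B1 (μ : Measure (Eu n)) (ψ : Eu n → ℝ) : Prop :=
  AEStronglyMeasurable ψ μ ∧ ∀ᵐ x ∂μ, |ψ x| ≤ 1

/-- regularised covariance form -/
noncomputable def Ab (μ : Measure (Eu n)) (δ : ℝ) (v w : Eu n) (s : SS n) : ℝ :=
  F μ (ln w) [v] s + δ * inner ℝ v w

/-- orthonormal frames of the regularised covariance form -/
def Ofr (μ : Measure (Eu n)) (δ : ℝ) (q : Fin n → Eu n) (s : SS n) : Prop :=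
  ∀ i j, Ab μ δ (q i) (q j) s = if i = j then 1 else 0

/-- the regularised inequality of order `m` with the constant `K` -/
def KS (μ : Measure (Eu n)) (δ ε : ℝ) (m : ℕ) (K : ℝ) : Prop :=
  ∀ s ∈ Dom n, ∀ q : Fin n → Eu n, Ofr μ δ q s → ∀ ψ, B1 μ ψ →
    nsq q m (fun L => F μ ψ L s) ≤ K * (Vr μ ψ s + ε)

/-- the smooth minorant of the norm of the cumulants of order `m + 1` -/
noncomputable def Lj (μ : Measure (Eu n)) (δ : ℝ) (ψ : Eu n → ℝ) (q : Fin n → Eu n) (m : ℕ)
    (s : SS n) : ℝ :=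
  (m + 2) * nsq q (m + 1) (fun L => F μ ψ L s) -
    (m + 1) * ∑ i, ∑ j, Ab μ δ (q i) (q j) s *
      ip q m (fun L => F μ ψ (q i :: L) s) (fun L => F μ ψ (q j :: L) s)

/-- the exhaustion function -/
noncomputable def hh (s : SS n) : ℝ := Real.sqrt (1 + ‖s.1‖ ^ 2) + ∑ i, s.2 i i

/-- the objective function; the orders are `m + 2` and `m + 1` -/
noncomputable def Ob (μ : Measure (Eu n)) (ψ : Eu n → ℝ) (m : ℕ) (β κ ε ε' : ℝ)
    (p : SS n × (Fin n → Eu n)) : ℝ :=
  nsq p.2 (m + 2) (fun L => F μ ψ L p.1) + β * nsq p.2 (m + 1) (fun L => F μ ψ L p.1) -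
    κ * (Vr μ ψ p.1 + ε) - ε' * hh p.1

/-- the constants -/
noncomputable def sc (C : ℝ) (m : ℕ) : ℝ := C ^ (m - 1) * m.factorial

/-- the bound of the drift -/
noncomputable def bet (S : ℕ → ℝ) (m : ℕ) : ℝ :=
  ∑ j ∈ Finset.Icc 1 m, (m.choose j : ℝ) * S j * S (m - j + 1)

/-- the part of the drift of order `m + 2` which only contains the orders between `2` and
`m + 1` -/
noncomputable def BB (S : ℕ → ℝ) (m : ℕ) : ℝ :=
  ∑ j ∈ Finset.Icc 2 (m + 1), ((m + 2).choose j : ℝ) * S j * S (m + 3 - j)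

/-! ### Part B: Appell functionals -/

/-- continuous functions with compact support -/
def CC (ψ : Eu n → ℝ) : Prop := Continuous ψ ∧ HasCompactSupport ψ

/-- functionals `ψ ↦ E (ψ p_L)` with the Appell polynomials `p_L` of the measure `exp (-V)`, and
the higher order thin shell inequalities -/
structure AppN (V : Eu n → ℝ) (N : List (Fin n) → (Eu n → ℝ) → ℝ) (Q : ℕ → ℝ) : Prop where
  nil : ∀ ψ, CC ψ → N [] ψ = UC.Ex V ψ
  lin : ∀ (L : List (Fin n)) (a b : ℝ) (ψ φ : Eu n → ℝ), CC ψ → CC φ →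
    N L (fun x => a * ψ x + b * φ x) = a * N L ψ + b * N L φ
  perm : ∀ (L L' : List (Fin n)) (ψ : Eu n → ℝ), CC ψ → L.Perm L' → N L ψ = N L' ψ
  ibp : ∀ u, UC.TT u → ∀ L : List (Fin n), L ≠ [] →
    N L (fun x => - UC.LL V u x) = ∑ r : Fin L.length, N (L.eraseIdx r) (UC.pd (L.get r) u)
  bd : ∀ m, 1 ≤ m → ∀ ψ, CC ψ → ∑ I : Fin m → Fin n, N (List.ofFn I) ψ ^ 2 ≤ Q m * VarE V ψ

end Pool.Agent.Lib.MP_6d896a_gt.FK
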