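import Mathlib

/-!
# FK: symmetrisers of tensors and the doubling lemma

Tensors of order `N` are functions `(Fin N → ι) → ℝ`; permutations of the positions act by
precomposition; `prj B` is the average over the permutations which move only positions of `B`.
-/

set_option autoImplicit false
set_option linter.unusedSectionVars false

namespace Pool.Agent.Lib.MP_6d896a_gt.FK

variable {N : ℕ} {ι : Type} [Fintype ι]

/-- inner product of tensors -/
def tip (Z W : (Fin N → ι) → ℝ) : ℝ := ∑ I, Z I * W I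

/-- square of the norm of a tensor -/
def tsq (Z : (Fin N → ι) → ℝ) : ℝ := ∑ I, Z I ^ 2

/-- action of a permutation of the positions -/
def tact (σ : Equiv.Perm (Fin N)) (Z : (Fin N → ι) → ℝ) : (Fin N → ι) → ℝ :=
  fun I => Z fun i => I (σ i)

/-- permutations which move only elements of `B` -/
def pms (B : Finset (Fin N)) : Finset (Equiv.Perm (Fin N)) :=
  Finset.univ.filter fun σ => ∀ i, i ∉ B → σ i = i

/-- invariance under all permutations of the positions in `B` -/
def TInv (B : Finset (Fin N)) (Z : (Fin N → ι) → ℝ) : Prop := ∀ σ ∈ pms B, tact σ Z = Z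

/-- average over the permutations of the positions in `B` -/
noncomputable def prj (B : Finset (Fin N)) (Z : (Fin N → ι) → ℝ) : (Fin N → ι) → ℝ :=
  fun I => (∑ σ ∈ pms B, tact σ Z I) / (pms B).card

theorem mem_pms {B : Finset (Fin N)} {σ : Equiv.Perm (Fin N)} :
    σ ∈ pms B ↔ ∀ i, i ∉ B → σ i = i := by
  simp [pms]

theorem one_mem_pms (B : Finset (Fin N)) : (1 : Equiv.Perm (Fin N)) ∈ pms B :=
  mem_pms.mpr fun _ _ => rfl

theorem mul_mem_pms {B : Finset (Fin N)} {σ τ : Equiv.Perm (Fin N)} (hσ : σ ∈ pms B)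
    (hτ : τ ∈ pms B) : σ * τ ∈ pms B := by
  rw [mem_pms] at *
  intro i hi
  rw [Equiv.Perm.mul_apply, hτ i hi, hσ i hi]

theorem inv_mem_pms {B : Finset (Fin N)} {σ : Equiv.Perm (Fin N)} (hσ : σ ∈ pms B) :
    σ⁻¹ ∈ pms B := by
  rw [mem_pms] at *
  intro i hi
  rw [Equiv.Perm.inv_eq_iff_eq, hσ i hi]

theorem pms_mono {B C : Finset (Fin N)} (h : B ⊆ C) {σ : Equiv.Perm (Fin N)} (hσ : σ ∈ pms B) :
    σ ∈ pms C := by
  rw [mem_pms] at *
  exact fun i hi => hσ i fun h' => hi (h h')

theorem swap_mem_pms {B : Finset (Fin N)} {p q : Fin N} (hp : p ∈ B) (hq : q ∈ B) :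
    Equiv.swap p q ∈ pms B := by
  rw [mem_pms]
  intro i hi
  exact Equiv.swap_apply_of_ne_of_ne (fun h => hi (h ▸ hp)) (fun h => hi (h ▸ hq))

theorem card_pms_pos (B : Finset (Fin N)) : (0 : ℝ) < (pms B).card := by
  exact_mod_cast Finset.card_pos.mpr ⟨1, one_mem_pms B⟩

omit [Fintype ι] in
theorem tact_mul (σ τ : Equiv.Perm (Fin N)) (Z : (Fin N → ι) → ℝ) :
    tact σ (tact τ Z) = tact (σ * τ) Z := rfl

omit [Fintype ι] in
theorem tact_one (Z : (Fin N → ι) → ℝ) : tact 1 Z = Z := rfl

theorem tip_self (Z : (Fin N → ι) → ℝ) : tip Z Z = tsq Z :=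
  Finset.sum_congr rfl fun I _ => by ring

theorem tip_comm (Z W : (Fin N → ι) → ℝ) : tip Z W = tip W Z :=
  Finset.sum_congr rfl fun I _ => by ring

theorem tsq_nonneg (Z : (Fin N → ι) → ℝ) : 0 ≤ tsq Z :=
  Finset.sum_nonneg fun I _ => sq_nonneg _

theorem tip_act (σ : Equiv.Perm (Fin N)) (Z W : (Fin N → ι) → ℝ) :
    tip (tact σ Z) (tact σ W) = tip Z W := by
  unfold tip tact
  exact Equiv.sum_comp (Equiv.arrowCongr σ⁻¹ (Equiv.refl ι)) fun I => Z I * W I

theorem tsq_act (σ : Equiv.Perm (Fin N)) (Z : (Fin N → ι) → ℝ) : tsq (tact σ Z) = tsq Z := by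
  rw [← tip_self, ← tip_self, tip_act]

theorem tip_act_left (σ : Equiv.Perm (Fin N)) (Z W : (Fin N → ι) → ℝ) :
    tip (tact σ Z) W = tip Z (tact σ⁻¹ W) := by
  rw [← tip_act σ Z (tact σ⁻¹ W), tact_mul, mul_inv_cancel, tact_one]

theorem prj_inv (B : Finset (Fin N)) (Z : (Fin N → ι) → ℝ) : TInv B (prj B Z) := by
  intro τ hτ
  funext I
  show (∑ σ ∈ pms B, tact σ Z fun i => I (τ i)) / _ = (∑ σ ∈ pms B, tact σ Z I) / _
  congr 1
  apply Finset.sum_bij (fun σ _ => τ * σ)
  · intro σ hσ; exact mul_mem_pms hτ hσ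
  · intro σ _ σ' _ h; exact mul_left_cancel h
  · intro σ hσ
    exact ⟨τ⁻¹ * σ, mul_mem_pms (inv_mem_pms hτ) hσ, by group⟩
  · intro σ _; rfl

theorem prj_of_inv {B : Finset (Fin N)} {Z : (Fin N → ι) → ℝ} (h : TInv B Z) : prj B Z = Z := by
  funext I
  unfold prj
  rw [Finset.sum_congr rfl fun σ hσ => by rw [h σ hσ], Finset.sum_const, nsmul_eq_mul]
  field_simp [(card_pms_pos B).ne']

theorem TInv.mono {B C : Finset (Fin N)} {Z : (Fin N → ι) → ℝ} (h : TInv C Z) (hBC : B ⊆ C) :
    TInv B Z := fun σ hσ => h σ (pms_mono hBC hσ)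

theorem tip_sum_right {κ : Type} (s : Finset κ) (Z : (Fin N → ι) → ℝ)
    (W : κ → (Fin N → ι) → ℝ) : tip Z (fun I => ∑ k ∈ s, W k I) = ∑ k ∈ s, tip Z (W k) := by
  unfold tip
  rw [Finset.sum_comm]
  exact Finset.sum_congr rfl fun _ _ => Finset.mul_sum _ _ _

theorem tip_prj (B : Finset (Fin N)) (Z W : (Fin N → ι) → ℝ) :
    tip Z (prj B W) = (∑ σ ∈ pms B, tip Z (tact σ W)) / (pms B).card := by
  have h : tip Z (prj B W) = tip Z (fun I => ∑ σ ∈ pms B, tact σ W I) / (pms B).card := by
    unfold tip prj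
    rw [Finset.sum_div]
    exact Finset.sum_congr rfl fun I _ => by ring
  rw [h, tip_sum_right]

theorem prj_symm (B : Finset (Fin N)) (Z W : (Fin N → ι) → ℝ) :
    tip (prj B Z) W = tip Z (prj B W) := by
  rw [tip_comm, tip_prj, tip_prj]
  congr 1
  apply Finset.sum_bij (fun σ _ => σ⁻¹)
  · intro σ hσ; exact inv_mem_pms hσ
  · intro σ _ σ' _ h; exact inv_injective h
  · intro σ hσ
    exact ⟨σ⁻¹, inv_mem_pms hσ, inv_inv σ⟩
  · intro σ _
    rw [tip_comm, tip_act_left]

theorem tsq_prj (B : Finset (Fin N)) (Z : (Fin N → ι) → ℝ) :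
    tsq (prj B Z) = tip Z (prj B Z) := by
  rw [← tip_self, prj_symm, prj_of_inv (prj_inv B Z)]

theorem prj_prj {B C : Finset (Fin N)} (h : C ⊆ B) (Z : (Fin N → ι) → ℝ) :
    prj B (prj C Z) = prj B Z := by
  funext I
  unfold prj
  have h1 : ∀ σ ∈ pms B, tact σ (fun I => (∑ τ ∈ pms C, tact τ Z I) / (pms C).card) I =
      (∑ τ ∈ pms C, tact (σ * τ) Z I) / (pms C).card := fun σ _ => rfl
  rw [Finset.sum_congr rfl h1, ← Finset.sum_div, Finset.sum_comm]
  have h2 : ∀ τ ∈ pms C, ∑ σ ∈ pms B, tact (σ * τ) Z I = ∑ σ ∈ pms B, tact σ Z I := by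
    intro τ hτ
    have hτ' := pms_mono h hτ
    apply Finset.sum_bij (fun σ _ => σ * τ)
    · intro σ hσ; exact mul_mem_pms hσ hτ'
    · intro σ _ σ' _ h; exact mul_right_cancel h
    · intro σ hσ
      exact ⟨σ * τ⁻¹, mul_mem_pms hσ (inv_mem_pms hτ'), by group⟩
    · intro σ _; rfl
  rw [Finset.sum_congr rfl h2, Finset.sum_const, nsmul_eq_mul]
  have := (card_pms_pos C).ne'
  field_simp

/-- averaging over `B` keeps the invariance under a disjoint block -/
theorem TInv.prj_disj {B C : Finset (Fin N)} {Z : (Fin N → ι) → ℝ} (h : TInv C Z)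
    (hBC : Disjoint B C) : TInv C (prj B Z) := by
  intro τ hτ
  have hcomm : ∀ σ ∈ pms B, τ * σ = σ * τ := by
    intro σ hσ
    ext i
    rw [mem_pms] at hσ hτ
    rw [Equiv.Perm.mul_apply, Equiv.Perm.mul_apply]
    by_cases hB : i ∈ B
    · have hC : i ∉ C := Finset.disjoint_left.mp hBC hB
      rw [hτ i hC]
      have : σ i ∉ C := by
        intro h'
        have hB' : σ i ∉ B := fun h'' => Finset.disjoint_left.mp hBC h'' h'
        have := hσ (σ i) hB'
        have h3 := σ.injective this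
        rw [h3] at h'
        exact hC h'
      rw [hτ _ this]
    · rw [hσ i hB]
      by_cases hC : i ∈ C
      · have : τ i ∉ B := by
          intro h'
          have hC' : τ i ∉ C := fun h'' => Finset.disjoint_left.mp hBC h' h''
          have := hτ (τ i) hC'
          have h3 := τ.injective this
          rw [h3] at h'
          exact hB h'
        rw [hσ _ this]
      · rw [hτ i hC, hσ i hB]
  funext I
  show (∑ σ ∈ pms B, tact (τ * σ) Z I) / _ = (∑ σ ∈ pms B, tact σ Z I) / _
  congr 1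
  apply Finset.sum_congr rfl
  intro σ hσ
  rw [hcomm σ hσ, ← tact_mul, h τ hτ]

theorem tsq_prj_le (B : Finset (Fin N)) (Z : (Fin N → ι) → ℝ) : tsq (prj B Z) ≤ tsq Z := by
  have h1 := tsq_prj B Z
  have h2 : tip Z (prj B Z) ≤ (tsq Z + tsq (prj B Z)) / 2 := by
    unfold tip tsq
    rw [← Finset.sum_add_distrib, Finset.sum_div]
    apply Finset.sum_le_sum
    intro I _
    nlinarith [sq_nonneg (Z I - prj B Z I)]
  linarith

/-- **absorbing one position** -/
theorem tsq_absorb {C : Finset (Fin N)} {q : Fin N} (hq : q ∉ C) {T : (Fin N → ι) → ℝ}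
    (hT : TInv C T) : (C.card + 1 : ℝ) * tsq (prj (insert q C) T) =
      tsq T + ∑ p ∈ C, tip T (tact (Equiv.swap p q) T) := by
  set K := (pms C).card with hK
  have hKpos : (0 : ℝ) < K := card_pms_pos C
  have hmaps : ∀ σ ∈ pms (insert q C), σ q ∈ insert q C := by
    intro σ hσ
    by_contra hn
    have := mem_pms.mp hσ (σ q) hn
    have h3 := σ.injective this
    rw [h3] at hn
    exact hn (Finset.mem_insert_self _ _)
  -- fibres
  have hfib : ∀ p ∈ insert q C, ∀ F : Equiv.Perm (Fin N) → ℝ,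
      ∑ σ ∈ (pms (insert q C)).filter (fun σ => σ q = p), F σ =
        ∑ σ ∈ pms C, F (Equiv.swap p q * σ) := by
    intro p hp F
    symm
    apply Finset.sum_bij (fun σ _ => Equiv.swap p q * σ)
    · intro σ hσ
      rw [Finset.mem_filter]
      refine ⟨mul_mem_pms (swap_mem_pms hp (Finset.mem_insert_self _ _))
        (pms_mono (Finset.subset_insert _ _) hσ), ?_⟩
      rw [Equiv.Perm.mul_apply, mem_pms.mp hσ q hq, Equiv.swap_apply_right]
    · intro σ _ σ' _ h; exact mul_left_cancel h
    · intro σ hσ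
      rw [Finset.mem_filter] at hσ
      refine ⟨Equiv.swap p q * σ, ?_, ?_⟩
      · rw [mem_pms]
        intro i hi
        by_cases hiq : i = q
        · subst hiq
          rw [Equiv.Perm.mul_apply, hσ.2, Equiv.swap_apply_left]
        · have hi' : i ∉ insert q C := by
            rw [Finset.mem_insert, not_or]; exact ⟨hiq, hi⟩
          rw [Equiv.Perm.mul_apply, mem_pms.mp hσ.1 i hi']
          exact Equiv.swap_apply_of_ne_of_ne (fun h => hi' (h ▸ hp)) hiq
      · rw [← mul_assoc, Equiv.swap_mul_self, one_mul]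
    · intro σ _; rfl
  have hcard : ((pms (insert q C)).card : ℝ) = (C.card + 1) * K := by
    have h1 : ((pms (insert q C)).card : ℝ) = ∑ σ ∈ pms (insert q C), (1 : ℝ) := by simp
    rw [h1, ← Finset.sum_fiberwise_of_maps_to hmaps]
    rw [Finset.sum_congr rfl fun p hp => hfib p hp fun _ => 1]
    rw [Finset.sum_const, Finset.sum_const, Finset.card_insert_of_notMem hq]
    simp [hK]
  have hsum : ∑ σ ∈ pms (insert q C), tip T (tact σ T) =
      K * (tsq T + ∑ p ∈ C, tip T (tact (Equiv.swap p q) T)) := by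
    rw [← Finset.sum_fiberwise_of_maps_to hmaps]
    rw [Finset.sum_congr rfl fun p hp => hfib p hp fun σ => tip T (tact σ T)]
    have h1 : ∀ p ∈ insert q C, ∑ σ ∈ pms C, tip T (tact (Equiv.swap p q * σ) T) =
        K * tip T (tact (Equiv.swap p q) T) := by
      intro p _
      rw [Finset.sum_congr rfl fun σ hσ => by rw [← tact_mul, hT σ hσ], Finset.sum_const,
        nsmul_eq_mul]
    rw [Finset.sum_congr rfl h1, Finset.sum_insert hq, ← Finset.mul_sum, Equiv.swap_self]
    have : tact (Equiv.refl (Fin N)) T = T := rfl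
    rw [this, tip_self]
    ring
  rw [tsq_prj, tip_prj, hsum, hcard]
  have : (0 : ℝ) < C.card + 1 := by positivity
  field_simp

/-- all exchanges of a position of one block and a position of the other have the same inner
product -/
theorem tip_swap_eq {B C : Finset (Fin N)} (hBC : Disjoint B C) {T : (Fin N → ι) → ℝ}
    (hB : TInv B T) (hC : TInv C T) {p p' q q' : Fin N} (hp : p ∈ C) (hp' : p' ∈ C)
    (hq : q ∈ B) (hq' : q' ∈ B) :
    tip T (tact (Equiv.swap p q) T) = tip T (tact (Equiv.swap p' q') T) := by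
  have h1 : ∀ (D : Finset (Fin N)) (_ : TInv D T) (x y : Fin N) (_ : x ∈ D) (_ : y ∈ D)
      (z : Fin N) (_ : z ∉ D), tip T (tact (Equiv.swap x z) T) = tip T (tact (Equiv.swap y z) T) := by
    intro D hD x y hx hy z hz
    have hxz : x ≠ z := fun h => hz (h ▸ hx)
    have hyz : y ≠ z := fun h => hz (h ▸ hy)
    have hs : TInv D T := hD
    have e1 := hs _ (swap_mem_pms hx hy)
    have e2 : Equiv.swap y z = Equiv.swap x y * Equiv.swap x z * Equiv.swap x y := by
      by_cases hxy : x = y
      · subst hxy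
        rw [Equiv.swap_self]
        rfl
      · have := Equiv.swap_mul_swap_mul_swap (x := z) (y := x) (z := y) hxz.symm hyz.symm
        rw [Equiv.swap_comm z x] at this
        exact this.symm
    rw [e2, ← tact_mul, ← tact_mul, e1, ← tip_act (Equiv.swap x y) T (tact _ T), e1]
  have hpB : ∀ x ∈ C, x ∉ B := fun x hx h => Finset.disjoint_left.mp hBC h hx
  have hqC : ∀ x ∈ B, x ∉ C := fun x hx h => Finset.disjoint_left.mp hBC hx h
  rw [h1 C hC p p' hp hp' q (hqC q hq), Equiv.swap_comm p' q,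
    h1 B hB q q' hq hq' p' (hpB p' hp'), Equiv.swap_comm q' p']

/-- **the exchange identity**: `b (c + 1) |prj (insert q C) T|² = c (b' + 1)...` in the form used
below: `C` the last block, `B` the first block, `p ∈ C`, `q ∈ B` -/
theorem tsq_exchange {B C : Finset (Fin N)} (hBC : Disjoint B C) {T : (Fin N → ι) → ℝ}
    (hB : TInv B T) (hC : TInv C T) {p q : Fin N} (hp : p ∈ C) (hq : q ∈ B) :
    (B.card : ℝ) * (C.card + 1) * tsq (prj (insert q C) T) =
      C.card * (B.card + 1) * tsq (prj (insert p B) T) + (B.card - C.card) * tsq T := by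
  have hqC : q ∉ C := Finset.disjoint_left.mp hBC hq
  have hpB : p ∉ B := fun h => Finset.disjoint_left.mp hBC h hp
  have h1 := tsq_absorb hqC hC
  have h2 := tsq_absorb hpB hB
  have e1 : ∑ x ∈ C, tip T (tact (Equiv.swap x q) T) =
      C.card * tip T (tact (Equiv.swap p q) T) := by
    rw [Finset.sum_congr rfl fun x hx => tip_swap_eq hBC hB hC hx hp hq hq, Finset.sum_const,
      nsmul_eq_mul]
  have e2 : ∑ x ∈ B, tip T (tact (Equiv.swap x p) T) =
      B.card * tip T (tact (Equiv.swap p q) T) := by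
    rw [Finset.sum_congr rfl fun x hx => by
      rw [Equiv.swap_comm x p, tip_swap_eq hBC hB hC hp hp hx hq], Finset.sum_const,
      nsmul_eq_mul]
  rw [e1] at h1
  rw [e2] at h2
  linear_combination (B.card : ℝ) * h1 - (C.card : ℝ) * h2

/-- one step of the recursion for the ratios -/
theorem ratio_step {B C : Finset (Fin N)} (hBC : Disjoint B C) {q₀ q : Fin N} (hq₀ : q₀ ∉ B)
    (hq₀C : q₀ ∉ C) (hq : q ∈ B) {T₀ : (Fin N → ι) → ℝ} (hB : TInv (insert q₀ B) T₀)
    (hC : TInv C T₀) :
    (B.card : ℝ) * (C.card + 2) * (tsq (prj (insert q (insert q₀ C)) T₀) * tsq T₀) ≥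
      (C.card + 1) * (B.card + 1) * tsq (prj (insert q₀ C) T₀) ^ 2 +
        (B.card - (C.card + 1)) * (tsq (prj (insert q₀ C) T₀) * tsq T₀) := by
  set T := prj (insert q₀ C) T₀ with hT
  have hd : Disjoint B (insert q₀ C) := by
    rw [Finset.disjoint_insert_right]; exact ⟨hq₀, hBC⟩
  have hCT : TInv (insert q₀ C) T := prj_inv _ _
  have hBT : TInv B T := (hB.mono (Finset.subset_insert _ _)).prj_disj hd.symm
  have h1 := tsq_exchange hd hBT hCT (Finset.mem_insert_self q₀ C) hq
  rw [Finset.card_insert_of_notMem hq₀C] at h1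
  push_cast at h1
  have e1 : prj (insert q (insert q₀ C)) T = prj (insert q (insert q₀ C)) T₀ := by
    rw [hT, prj_prj (Finset.subset_insert _ _)]
  rw [e1] at h1
  -- Cauchy-Schwarz
  have h2 : tip (prj (insert q₀ B) T) T₀ = tsq T := by
    rw [prj_symm, prj_of_inv hB, tip_comm, hT, tsq_prj]
  have h3 : tsq T ^ 2 ≤ tsq (prj (insert q₀ B) T) * tsq T₀ := by
    rw [← h2]
    unfold tip tsq
    exact Finset.sum_mul_sq_le_sq_mul_sq _ _ _
  have h4 : (0 : ℝ) ≤ (C.card + 1) * (B.card + 1) := by positivity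
  have h5 := mul_le_mul_of_nonneg_left h3 h4
  have h6 := congrArg (fun x => x * tsq T₀) h1
  nlinarith [h5, h6]

/-- the product of the ratios -/
private theorem prod_ratio (a : ℕ) : (1 / 16 : ℝ) ^ a ≤
    ∏ i ∈ Finset.range a, (((i : ℝ) + 1) * (a - i) / ((2 * a - i) * (a + i + 1))) := by
  have h1 : ∏ i ∈ Finset.range a, ((i : ℝ) + 1) = (a.factorial : ℝ) := by
    rw [← Finset.prod_range_add_one_eq_factorial]
    push_cast
    rfl
  have h2 : ∏ i ∈ Finset.range a, ((a : ℝ) - i) = (a.factorial : ℝ) := by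
    rw [← h1, ← Finset.prod_range_reflect]
    apply Finset.prod_congr rfl
    intro i hi
    rw [Finset.mem_range] at hi
    rw [Nat.cast_sub (by omega : i ≤ a - 1), Nat.cast_sub (by omega : 1 ≤ a)]
    push_cast
    ring
  have h3 : (a.factorial : ℝ) * ∏ i ∈ Finset.range a, ((a : ℝ) + i + 1) =
      ((2 * a).factorial : ℝ) := by
    rw [← h1, two_mul, ← Finset.prod_range_add_one_eq_factorial (a + a), Finset.prod_range_add]
    push_cast
    rfl
  have h4 : ∏ i ∈ Finset.range a, (2 * (a : ℝ) - i) = ∏ i ∈ Finset.range a, ((a : ℝ) + i + 1) := by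
    rw [← Finset.prod_range_reflect]
    apply Finset.prod_congr rfl
    intro i hi
    rw [Finset.mem_range] at hi
    rw [Nat.cast_sub (by omega : i ≤ a - 1), Nat.cast_sub (by omega : 1 ≤ a)]
    push_cast
    ring
  have hf : (0 : ℝ) < a.factorial := by exact_mod_cast Nat.factorial_pos a
  have h5 : ((2 * a).factorial : ℝ) ≤ 4 ^ a * (a.factorial : ℝ) ^ 2 := by
    have h6 : (2 * a).choose a ≤ 2 ^ (2 * a) := Nat.choose_le_two_pow _ _
    have h7 : (2 * a).choose a * a.factorial * a.factorial = (2 * a).factorial := by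
      have := Nat.choose_mul_factorial_mul_factorial (n := 2 * a) (k := a) (by omega)
      rwa [show 2 * a - a = a by omega] at this
    have h8 : (2 * a).factorial ≤ 4 ^ a * a.factorial ^ 2 := by
      rw [← h7, mul_assoc, ← sq]
      apply Nat.mul_le_mul_right
      rwa [pow_mul, show 2 ^ 2 = 4 by norm_num] at h6
    exact_mod_cast h8
  set P := ∏ i ∈ Finset.range a, ((a : ℝ) + i + 1) with hP
  have hPpos : 0 < P := Finset.prod_pos fun i _ => by positivity
  rw [Finset.prod_div_distrib, Finset.prod_mul_distrib, Finset.prod_mul_distrib, h1, h2, h4,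
    le_div_iff₀ (by positivity)]
  have h9 : P ≤ 4 ^ a * a.factorial := by
    have : (a.factorial : ℝ) * P ≤ a.factorial * (4 ^ a * a.factorial) := by
      rw [h3]
      calc ((2 * a).factorial : ℝ) ≤ 4 ^ a * (a.factorial : ℝ) ^ 2 := h5
        _ = _ := by ring
    exact le_of_mul_le_mul_left this hf
  have h10 : P * P ≤ (4 ^ a * a.factorial) * (4 ^ a * a.factorial) :=
    mul_le_mul h9 h9 hPpos.le (by positivity)
  calc (1 / 16 : ℝ) ^ a * (P * P) ≤
      (1 / 16 : ℝ) ^ a * ((4 ^ a * a.factorial) * (4 ^ a * a.factorial)) :=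
        mul_le_mul_of_nonneg_left h10 (by positivity)
    _ = ((1 / 16) * (4 * 4)) ^ a * (a.factorial * a.factorial) := by
        rw [mul_pow, mul_pow]; ring
    _ = _ := by norm_num

/-- **Doubling lemma.** -/
theorem doubling {a : ℕ} {C : Finset (Fin N)} {q : ℕ → Fin N} (hC : C.card = a)
    (hinj : ∀ i < 2 * a, ∀ j < 2 * a, q i = q j → i = j) (hqC : ∀ j < 2 * a, q j ∉ C)
    {Z : (Fin N → ι) → ℝ} (h1 : TInv C Z) (h2 : TInv ((Finset.range (2 * a)).image q) Z) :
    tsq Z ≤ 16 ^ a * tsq (prj (C ∪ (Finset.range a).image q) Z) := by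
  rcases Nat.eq_zero_or_pos a with ha | ha
  · subst ha
    have : C ∪ (Finset.range 0).image q = C := by simp
    rw [this, prj_of_inv h1]
    simp
  let CC : ℕ → Finset (Fin N) := fun i => C ∪ (Finset.range i).image q
  let BB : ℕ → Finset (Fin N) := fun i => (Finset.Ico i (2 * a)).image q
  have hCC : ∀ i, CC (i + 1) = insert (q i) (CC i) := by
    intro i
    simp only [CC, Finset.range_add_one, Finset.image_insert]
    rw [Finset.union_insert]
  have hBB : ∀ i < 2 * a, BB i = insert (q i) (BB (i + 1)) := by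
    intro i hi
    simp only [BB]
    rw [← Finset.image_insert]
    congr 1
    ext j
    simp only [Finset.mem_Ico, Finset.mem_insert]
    omega
  have hqB : ∀ i < 2 * a, q i ∉ BB (i + 1) := by
    intro i hi h
    simp only [BB, Finset.mem_image, Finset.mem_Ico] at h
    obtain ⟨j, hj, hj2⟩ := h
    have := hinj j hj.2 i hi hj2
    omega
  have hqCC : ∀ i < 2 * a, q i ∉ CC i := by
    intro i hi h
    simp only [CC, Finset.mem_union, Finset.mem_image, Finset.mem_range] at h
    rcases h with h | ⟨j, hj, hj2⟩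
    · exact hqC i hi h
    · have := hinj j (by omega) i hi hj2
      omega
  have hcardC : ∀ i ≤ 2 * a, (CC i).card = a + i := by
    intro i
    induction i with
    | zero => intro _; simp [CC, hC]
    | succ i ih =>
      intro hi
      rw [hCC, Finset.card_insert_of_notMem (hqCC i (by omega)), ih (by omega)]
      ring
  have hcardB : ∀ i, (BB i).card = 2 * a - i := by
    intro i
    simp only [BB]
    rw [Finset.card_image_of_injOn, Nat.card_Ico]
    intro x hx y hy hxy
    rw [Finset.coe_Ico, Set.mem_Ico] at hx hy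
    exact hinj x hx.2 y hy.2 hxy
  have hdisj : ∀ i ≤ 2 * a, Disjoint (BB i) (CC i) := by
    intro i hi
    rw [Finset.disjoint_left]
    intro x hx hx'
    simp only [BB, Finset.mem_image, Finset.mem_Ico] at hx
    obtain ⟨j, hj, rfl⟩ := hx
    simp only [CC, Finset.mem_union, Finset.mem_image, Finset.mem_range] at hx'
    rcases hx' with h | ⟨k, hk, hk2⟩
    · exact hqC j hj.2 h
    · have := hinj k (by omega) j hj.2 hk2
      omega
  let x : ℕ → ℝ := fun i => tsq (prj (CC i) Z)
  have hx0 : x 0 = tsq Z := by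
    simp only [x]
    have : CC 0 = C := by simp [CC]
    rw [this, prj_of_inv h1]
  have hxnn : ∀ i, 0 ≤ x i := fun i => tsq_nonneg _
  have hprj : ∀ i, prj (CC (i + 1)) (prj (CC i) Z) = prj (CC (i + 1)) Z := fun i =>
    prj_prj (by rw [hCC]; exact Finset.subset_insert _ _) Z
  have hxle : ∀ i, x (i + 1) ≤ x i := by
    intro i
    simp only [x]
    rw [← hprj]
    exact tsq_prj_le _ _
  have hTB : ∀ i ≤ 2 * a, TInv (BB i) (prj (CC i) Z) := by
    intro i hi
    refine TInv.prj_disj (h2.mono ?_) (hdisj i hi).symm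
    simp only [BB]
    apply Finset.image_subset_image
    intro j hj
    rw [Finset.mem_Ico] at hj
    rw [Finset.mem_range]
    exact hj.2
  -- the recursion
  have key : ∀ i < a, ((i : ℝ) + 1) * (a - i) * x i ≤ (2 * a - i) * (a + i + 1) * x (i + 1) := by
    intro i
    induction i with
    | zero =>
      intro _
      have hpC : C.Nonempty := by rw [← Finset.card_pos, hC]; exact ha
      obtain ⟨p, hp⟩ := hpC
      have hB0 : TInv (BB 0) Z := by
        have := hTB 0 (by omega)
        have h3 : CC 0 = C := by simp [CC]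
        rwa [h3, prj_of_inv h1] at this
      have hd0 : Disjoint (BB 0) C := by
        have := hdisj 0 (by omega)
        have h3 : CC 0 = C := by simp [CC]
        rwa [h3] at this
      have hq0 : q 0 ∈ BB 0 := by
        rw [hBB 0 (by omega)]; exact Finset.mem_insert_self _ _
      have h3 := tsq_exchange hd0 hB0 h1 hp hq0
      rw [hcardB, hC] at h3
      have h4 : insert (q 0) C = CC 1 := by
        rw [hCC 0]
        simp [CC]
      rw [h4] at h3
      have h5 := tsq_nonneg (prj (insert p (BB 0)) Z)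
      have h6 : (0 : ℝ) ≤ a * ((2 * a - 0 : ℕ) + 1) * tsq (prj (insert p (BB 0)) Z) := by positivity
      rw [hx0]
      push_cast at h3 h6 ⊢
      simp only [x]
      simp only [Nat.sub_zero] at h3 h6
      push_cast at h3 h6
      nlinarith [h3, h6]
    | succ i ih =>
      intro hi
      have ih' := ih (by omega)
      have hT0B : TInv (insert (q i) (BB (i + 1))) (prj (CC i) Z) := by
        rw [← hBB i (by omega)]
        exact hTB i (by omega)
      have hd : Disjoint (BB (i + 1)) (CC i) := by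
        refine (hdisj i (by omega)).mono_left ?_
        rw [hBB i (by omega)]
        exact Finset.subset_insert _ _
      have hq1 : q (i + 1) ∈ BB (i + 1) := by
        rw [hBB (i + 1) (by omega)]; exact Finset.mem_insert_self _ _
      have h3 := ratio_step hd (hqB i (by omega)) (hqCC i (by omega)) hq1 hT0B (prj_inv _ _)
      have hsub : CC i ⊆ CC (i + 1 + 1) := by
        rw [hCC (i + 1), hCC i]
        exact (Finset.subset_insert _ _).trans (Finset.subset_insert _ _)
      rw [← hCC i, ← hCC (i + 1), hprj i, hcardB, hcardC i (by omega), prj_prj hsub Z] at h3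
      have h4 : ((2 * a - (i + 1) : ℕ) : ℝ) = 2 * a - (i + 1) := by
        rw [Nat.cast_sub (by omega)]
        push_cast
        ring
      rw [h4] at h3
      change (2 * (a : ℝ) - (i + 1)) * (((a + i : ℕ) : ℝ) + 2) * (x (i + 2) * x i) ≥
        (((a + i : ℕ) : ℝ) + 1) * (2 * (a : ℝ) - (i + 1) + 1) * x (i + 1) ^ 2 +
          (2 * (a : ℝ) - (i + 1) - (((a + i : ℕ) : ℝ) + 1)) * (x (i + 1) * x i) at h3
      push_cast at h3 ⊢
      have hia : (i : ℝ) + 1 < a := by exact_mod_cast hi
      rcases (hxnn i).eq_or_lt with h0 | h0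
      · have h5 : x (i + 1) = 0 := le_antisymm (h0 ▸ hxle i) (hxnn _)
        rw [h5, mul_zero]
        have := hxnn (i + 1 + 1)
        have h6 : (0 : ℝ) ≤ 2 * a - (i + 1) := by linarith
        positivity
      · have h5 := mul_le_mul_of_nonneg_right ih' (hxnn (i + 1))
        have h6 : (((i : ℝ) + 1 + 1) * (a - (i + 1)) * x (i + 1)) * x i ≤
            ((2 * a - (i + 1)) * (a + (i + 1) + 1) * x (i + 1 + 1)) * x i := by
          nlinarith [h3, h5]
        exact le_of_mul_le_mul_right h6 h0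
  have hprod : ∀ j ≤ a, (∏ i ∈ Finset.range j,
      (((i : ℝ) + 1) * (a - i) / ((2 * a - i) * (a + i + 1)))) * x 0 ≤ x j := by
    intro j
    induction j with
    | zero => intro _; simp
    | succ j ih =>
      intro hj
      rw [Finset.prod_range_succ]
      have h3 := ih (by omega)
      have h4 := key j (by omega)
      have hja : (j : ℝ) + 1 ≤ a := by exact_mod_cast hj
      have h5 : (0 : ℝ) < (2 * a - j) * (a + j + 1) := by
        have : (0 : ℝ) ≤ j := Nat.cast_nonneg j
        apply mul_pos <;> linarith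
      have h6 : (0 : ℝ) ≤ ((j : ℝ) + 1) * (a - j) / ((2 * a - j) * (a + j + 1)) := by
        apply div_nonneg _ h5.le
        have : (0 : ℝ) ≤ j := Nat.cast_nonneg j
        apply mul_nonneg <;> linarith
      calc (∏ i ∈ Finset.range j, (((i : ℝ) + 1) * (a - i) / ((2 * a - i) * (a + i + 1)))) *
            (((j : ℝ) + 1) * (a - j) / ((2 * a - j) * (a + j + 1))) * x 0 =
          ((j : ℝ) + 1) * (a - j) / ((2 * a - j) * (a + j + 1)) *
            ((∏ i ∈ Finset.range j, (((i : ℝ) + 1) * (a - i) / ((2 * a - i) * (a + i + 1)))) *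
              x 0) := by ring
        _ ≤ ((j : ℝ) + 1) * (a - j) / ((2 * a - j) * (a + j + 1)) * x j :=
            mul_le_mul_of_nonneg_left h3 h6
        _ ≤ x (j + 1) := by
            rw [div_mul_eq_mul_div, div_le_iff₀ h5]
            linarith
  have hfin := hprod a le_rfl
  have h3 := mul_le_mul_of_nonneg_right (prod_ratio a) (hxnn 0)
  have h4 : (1 / 16 : ℝ) ^ a * x 0 ≤ x a := h3.trans hfin
  rw [hx0] at h4
  have h5 : (16 : ℝ) ^ a * ((1 / 16 : ℝ) ^ a * tsq Z) = tsq Z := by
    rw [← mul_assoc, ← mul_pow]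
    norm_num
  calc tsq Z = (16 : ℝ) ^ a * ((1 / 16 : ℝ) ^ a * tsq Z) := h5.symm
    _ ≤ 16 ^ a * x a := mul_le_mul_of_nonneg_left h4 (by positivity)

end Pool.Agent.Lib.MP_6d896a_gt.FK
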