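import Mathlib
import Pool.Agent.Lib.MP_6d896a_gt.FK.Sym

/-!
# FK: the stage lemma (B5)

`tn` is the norm of a tensor.  The distance of a tensor to its average over the permutations of
the positions `q 0, ..., q (m-1)` is controlled by its commutators with the neighbouring
transpositions; together with the doubling lemma this gives `stage`.
-/

set_option autoImplicit false
set_option linter.unusedSectionVars false

namespace Pool.Agent.Lib.MP_6d896a_gt.FK

variable {N : ℕ} {ι : Type} [Fintype ι]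

/-- norm of a tensor -/
noncomputable def tn (Z : (Fin N → ι) → ℝ) : ℝ := Real.sqrt (tsq Z)

theorem tn_eq (Z : (Fin N → ι) → ℝ) : tn Z = ‖(WithLp.toLp 2 Z : EuclideanSpace ℝ (Fin N → ι))‖ := by
  rw [EuclideanSpace.norm_eq]
  unfold tn tsq
  congr 1
  exact Finset.sum_congr rfl fun I _ => by rw [Real.norm_eq_abs, sq_abs]

theorem tn_nonneg (Z : (Fin N → ι) → ℝ) : 0 ≤ tn Z := Real.sqrt_nonneg _

theorem tn_sq (Z : (Fin N → ι) → ℝ) : tn Z ^ 2 = tsq Z := Real.sq_sqrt (tsq_nonneg Z)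

theorem tn_add_le (Z W : (Fin N → ι) → ℝ) : tn (Z + W) ≤ tn Z + tn W := by
  rw [tn_eq, tn_eq, tn_eq]
  exact norm_add_le (WithLp.toLp 2 Z : EuclideanSpace ℝ (Fin N → ι)) (WithLp.toLp 2 W)

theorem tn_smul (c : ℝ) (Z : (Fin N → ι) → ℝ) : tn (c • Z) = |c| * tn Z := by
  rw [tn_eq, tn_eq]
  have := norm_smul c (WithLp.toLp 2 Z : EuclideanSpace ℝ (Fin N → ι))
  rw [Real.norm_eq_abs] at this
  exact this

theorem tn_sum_le {κ : Type} (s : Finset κ) (W : κ → (Fin N → ι) → ℝ) :
    tn (∑ k ∈ s, W k) ≤ ∑ k ∈ s, tn (W k) := by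
  classical
  induction s using Finset.induction_on with
  | empty =>
    simp only [Finset.sum_empty]
    apply le_of_eq
    unfold tn tsq
    simp
  | insert a s ha ih =>
    rw [Finset.sum_insert ha, Finset.sum_insert ha]
    exact (tn_add_le _ _).trans (by linarith)

theorem tsq_tact (σ : Equiv.Perm (Fin N)) (Z : (Fin N → ι) → ℝ) : tsq (tact σ Z) = tsq Z := by
  rw [← tip_self, ← tip_self, tip_act]

theorem tn_tact (σ : Equiv.Perm (Fin N)) (Z : (Fin N → ι) → ℝ) : tn (tact σ Z) = tn Z := by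
  unfold tn
  rw [tsq_tact]

omit [Fintype ι] in
theorem tact_sub (σ : Equiv.Perm (Fin N)) (Z W : (Fin N → ι) → ℝ) :
    tact σ (Z - W) = tact σ Z - tact σ W := rfl

/-- the commutator with one transposition -/
def cmt (i j : Fin N) (Z : (Fin N → ι) → ℝ) : (Fin N → ι) → ℝ := Z - tact (Equiv.swap i j) Z

theorem tn_cmt_self (i : Fin N) (Z : (Fin N → ι) → ℝ) : tn (cmt i i Z) = 0 := by
  unfold cmt
  rw [Equiv.swap_self]
  have : Z - tact (Equiv.refl (Fin N)) Z = 0 := by
    funext I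
    simp [tact]
  rw [this]
  unfold tn tsq
  simp

/-- a transposition through neighbouring transpositions -/
theorem tn_cmt_le {m : ℕ} {q : ℕ → Fin N} (hinj : ∀ i < m, ∀ j < m, q i = q j → i = j)
    (Z : (Fin N → ι) → ℝ) {i j : ℕ} (hij : i ≤ j) (hj : j < m) :
    tn (cmt (q i) (q j) Z) ≤ 2 * ∑ r ∈ Finset.Ico i j, tn (cmt (q r) (q (r + 1)) Z) := by
  induction j, hij using Nat.le_induction with
  | base => simp [tn_cmt_self]
  | succ j hij ih =>
    rw [Finset.sum_Ico_succ_top hij]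
    have ih' := ih (by omega)
    have hnn : 0 ≤ ∑ r ∈ Finset.Ico i j, tn (cmt (q r) (q (r + 1)) Z) :=
      Finset.sum_nonneg fun _ _ => tn_nonneg _
    rcases hij.eq_or_lt with h0 | h0
    · subst h0
      have := tn_nonneg (cmt (q i) (q (i + 1)) Z)
      linarith
    · set τ := Equiv.swap (q j) (q (j + 1)) with hτ
      set s := Equiv.swap (q i) (q j) with hs
      have h1 : Equiv.swap (q i) (q (j + 1)) = τ * s * τ := by
        rw [hτ, hs, Equiv.swap_mul_swap_mul_swap, Equiv.swap_comm]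
        · intro h
          have := hinj i (by omega) j (by omega) h
          omega
        · intro h
          have := hinj i (by omega) (j + 1) (by omega) h
          omega
      have h2 : cmt (q i) (q (j + 1)) Z = cmt (q j) (q (j + 1)) Z +
          (tact τ (cmt (q i) (q j) Z) + tact (τ * s) (cmt (q j) (q (j + 1)) Z)) := by
        unfold cmt
        rw [h1, tact_sub, tact_sub, tact_mul, tact_mul, ← hτ, ← hs]
        abel
      rw [h2]
      have h3 := tn_add_le (cmt (q j) (q (j + 1)) Z)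
        (tact τ (cmt (q i) (q j) Z) + tact (τ * s) (cmt (q j) (q (j + 1)) Z))
      have h4 := tn_add_le (tact τ (cmt (q i) (q j) Z)) (tact (τ * s) (cmt (q j) (q (j + 1)) Z))
      rw [tn_tact, tn_tact] at h4
      linarith

/-- a permutation of the block through neighbouring transpositions -/
theorem tn_perm_le {q : ℕ → Fin N} (Z : (Fin N → ι) → ℝ) : ∀ m : ℕ,
    (∀ i < m, ∀ j < m, q i = q j → i = j) → ∀ σ ∈ pms ((Finset.range m).image q),
    tn (Z - tact σ Z) ≤ 2 * m * ∑ r ∈ Finset.range (m - 1), tn (cmt (q r) (q (r + 1)) Z) := by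
  intro m
  induction m with
  | zero =>
    intro _ σ hσ
    have h1 : σ = 1 := by
      ext i
      rw [mem_pms] at hσ
      rw [hσ i (by simp)]
      rfl
    rw [h1, tact_one, sub_self]
    unfold tn tsq
    simp
  | succ m ih =>
    intro hinj σ hσ
    have hσq : σ (q m) ∈ (Finset.range (m + 1)).image q := by
      by_contra h
      have h1 := mem_pms.mp hσ _ h
      have h2 : σ (q m) = q m := σ.injective h1
      apply h
      rw [h2]
      exact Finset.mem_image.mpr ⟨m, Finset.self_mem_range_succ m, rfl⟩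
    obtain ⟨i, hi, hiσ⟩ := Finset.mem_image.mp hσq
    rw [Finset.mem_range] at hi
    set s := Equiv.swap (q i) (q m) with hs
    have hsq : s * s = 1 := Equiv.swap_mul_self _ _
    have hσ' : s * σ ∈ pms ((Finset.range m).image q) := by
      rw [mem_pms]
      intro x hx
      rw [Equiv.Perm.mul_apply]
      by_cases hxq : x = q m
      · subst hxq
        rw [← hiσ, hs, Equiv.swap_apply_left]
      · have hx' : x ∉ (Finset.range (m + 1)).image q := by
          rw [Finset.range_add_one, Finset.image_insert, Finset.mem_insert]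
          push Not
          exact ⟨hxq, hx⟩
        rw [mem_pms.mp hσ x hx', hs]
        apply Equiv.swap_apply_of_ne_of_ne
        · rintro rfl
          exact hx' (Finset.mem_image.mpr ⟨i, Finset.mem_range.mpr hi, rfl⟩)
        · exact hxq
    have hnn : ∀ r, 0 ≤ tn (cmt (q r) (q (r + 1)) Z) := fun _ => tn_nonneg _
    have h1 := ih (fun i hi j hj => hinj i (by omega) j (by omega)) (s * σ) hσ'
    have h2 := tn_cmt_le hinj Z (Nat.lt_succ_iff.mp hi) (Nat.lt_succ_self m)
    have h3 : Z - tact σ Z = cmt (q i) (q m) Z + tact s (Z - tact (s * σ) Z) := by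
      unfold cmt
      rw [tact_sub, tact_mul, ← mul_assoc, hsq, one_mul]
      abel
    have h4 := tn_add_le (cmt (q i) (q m) Z) (tact s (Z - tact (s * σ) Z))
    rw [← h3, tn_tact] at h4
    have h5 : ∑ r ∈ Finset.Ico i m, tn (cmt (q r) (q (r + 1)) Z) ≤
        ∑ r ∈ Finset.range m, tn (cmt (q r) (q (r + 1)) Z) := by
      apply Finset.sum_le_sum_of_subset_of_nonneg
      · intro r hr
        rw [Finset.mem_Ico] at hr
        exact Finset.mem_range.mpr hr.2
      · intro r _ _; exact hnn r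
    have h6 : ∑ r ∈ Finset.range (m - 1), tn (cmt (q r) (q (r + 1)) Z) ≤
        ∑ r ∈ Finset.range m, tn (cmt (q r) (q (r + 1)) Z) := by
      apply Finset.sum_le_sum_of_subset_of_nonneg
      · exact Finset.range_mono (by omega)
      · intro r _ _; exact hnn r
    have h7 : 2 * (m : ℝ) * ∑ r ∈ Finset.range (m - 1), tn (cmt (q r) (q (r + 1)) Z) ≤
        2 * m * ∑ r ∈ Finset.range m, tn (cmt (q r) (q (r + 1)) Z) :=
      mul_le_mul_of_nonneg_left h6 (by positivity)
    rw [Nat.add_sub_cancel]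
    push_cast
    linarith

theorem tn_sub_prj_le {q : ℕ → Fin N} (Z : (Fin N → ι) → ℝ) (m : ℕ)
    (hinj : ∀ i < m, ∀ j < m, q i = q j → i = j) :
    tn (Z - prj ((Finset.range m).image q) Z) ≤
      2 * m * ∑ r ∈ Finset.range (m - 1), tn (cmt (q r) (q (r + 1)) Z) := by
  set B := (Finset.range m).image q with hB
  have hK := card_pms_pos B
  have h1 : Z - prj B Z = ((pms B).card : ℝ)⁻¹ • ∑ σ ∈ pms B, (Z - tact σ Z) := by
    funext I
    rw [Pi.sub_apply, Pi.smul_apply, Finset.sum_apply]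
    simp only [Pi.sub_apply, smul_eq_mul]
    rw [Finset.sum_sub_distrib, Finset.sum_const, nsmul_eq_mul]
    unfold prj
    field_simp
  rw [h1, tn_smul, abs_of_pos (inv_pos.mpr hK)]
  have h2 := tn_sum_le (pms B) (fun σ => Z - tact σ Z)
  have h3 : ∑ σ ∈ pms B, tn (Z - tact σ Z) ≤
      ∑ _σ ∈ pms B, 2 * m * ∑ r ∈ Finset.range (m - 1), tn (cmt (q r) (q (r + 1)) Z) :=
    Finset.sum_le_sum fun σ hσ => tn_perm_le Z m hinj σ hσ
  rw [Finset.sum_const, nsmul_eq_mul] at h3
  calc ((pms B).card : ℝ)⁻¹ * tn (∑ σ ∈ pms B, (Z - tact σ Z)) ≤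
      ((pms B).card : ℝ)⁻¹ * ((pms B).card *
        (2 * m * ∑ r ∈ Finset.range (m - 1), tn (cmt (q r) (q (r + 1)) Z))) :=
        mul_le_mul_of_nonneg_left (h2.trans h3) (inv_pos.mpr hK).le
    _ = _ := by
        rw [← mul_assoc, inv_mul_cancel₀ hK.ne', one_mul]

theorem tsq_sub_prj_le {q : ℕ → Fin N} (Z : (Fin N → ι) → ℝ) (m : ℕ)
    (hinj : ∀ i < m, ∀ j < m, q i = q j → i = j) :
    tsq (Z - prj ((Finset.range m).image q) Z) ≤
      4 * m ^ 3 * ∑ r ∈ Finset.range (m - 1), tsq (cmt (q r) (q (r + 1)) Z) := by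
  have h1 := tn_sub_prj_le Z m hinj
  have h2 : tn (Z - prj ((Finset.range m).image q) Z) ^ 2 ≤
      (2 * m * ∑ r ∈ Finset.range (m - 1), tn (cmt (q r) (q (r + 1)) Z)) ^ 2 :=
    pow_le_pow_left₀ (tn_nonneg _) h1 2
  rw [tn_sq, mul_pow] at h2
  have h3 : (∑ r ∈ Finset.range (m - 1), tn (cmt (q r) (q (r + 1)) Z)) ^ 2 ≤
      (Finset.range (m - 1)).card * ∑ r ∈ Finset.range (m - 1), tn (cmt (q r) (q (r + 1)) Z) ^ 2 :=
    sq_sum_le_card_mul_sum_sq
  simp only [tn_sq, Finset.card_range] at h3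
  have h4 : (((m - 1 : ℕ) : ℝ)) ≤ m := by exact_mod_cast Nat.sub_le m 1
  have h5 : 0 ≤ ∑ r ∈ Finset.range (m - 1), tsq (cmt (q r) (q (r + 1)) Z) :=
    Finset.sum_nonneg fun _ _ => tsq_nonneg _
  have h6 : ((m - 1 : ℕ) : ℝ) * ∑ r ∈ Finset.range (m - 1), tsq (cmt (q r) (q (r + 1)) Z) ≤
      m * ∑ r ∈ Finset.range (m - 1), tsq (cmt (q r) (q (r + 1)) Z) :=
    mul_le_mul_of_nonneg_right h4 h5
  calc tsq (Z - prj ((Finset.range m).image q) Z) ≤ (2 * (m : ℝ)) ^ 2 *
        (∑ r ∈ Finset.range (m - 1), tn (cmt (q r) (q (r + 1)) Z)) ^ 2 := h2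
    _ ≤ (2 * (m : ℝ)) ^ 2 * (m * ∑ r ∈ Finset.range (m - 1), tsq (cmt (q r) (q (r + 1)) Z)) :=
        mul_le_mul_of_nonneg_left (h3.trans h6) (by positivity)
    _ = _ := by ring

theorem tsq_add_le (Z W : (Fin N → ι) → ℝ) : tsq (Z + W) ≤ 2 * tsq Z + 2 * tsq W := by
  unfold tsq
  rw [Finset.mul_sum, Finset.mul_sum, ← Finset.sum_add_distrib]
  apply Finset.sum_le_sum
  intro I _
  rw [Pi.add_apply]
  nlinarith [sq_nonneg (Z I - W I)]

omit [Fintype ι] in
theorem prj_add (B : Finset (Fin N)) (Z W : (Fin N → ι) → ℝ) :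
    prj B (Z + W) = prj B Z + prj B W := by
  funext I
  rw [Pi.add_apply]
  unfold prj
  rw [← add_div, ← Finset.sum_add_distrib]
  rfl

omit [Fintype ι] in
theorem prj_sub (B : Finset (Fin N)) (Z W : (Fin N → ι) → ℝ) :
    prj B (Z - W) = prj B Z - prj B W := by
  funext I
  rw [Pi.sub_apply]
  unfold prj
  rw [← sub_div, ← Finset.sum_sub_distrib]
  rfl

/-- permutations with disjoint supports commute -/
theorem pms_comm {B C : Finset (Fin N)} (hBC : Disjoint B C) {σ τ : Equiv.Perm (Fin N)}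
    (hσ : σ ∈ pms B) (hτ : τ ∈ pms C) : τ * σ = σ * τ := by
  have hσC : ∀ i ∈ C, σ i = i := fun i hi => mem_pms.mp hσ i (Finset.disjoint_right.mp hBC hi)
  have hτB : ∀ i ∈ B, τ i = i := fun i hi => mem_pms.mp hτ i (Finset.disjoint_left.mp hBC hi)
  apply Equiv.ext
  intro i
  rw [Equiv.Perm.mul_apply, Equiv.Perm.mul_apply]
  by_cases hB : i ∈ B
  · have h1 : σ i ∈ B := by
      by_contra h
      have := mem_pms.mp hσ _ h
      have h2 : σ i = i := σ.injective this
      rw [h2] at h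
      exact h hB
    rw [hτB i hB, hτB _ h1]
  · rw [mem_pms.mp hσ i hB]
    by_cases hC : i ∈ C
    · have h1 : τ i ∈ C := by
        by_contra h
        have := mem_pms.mp hτ _ h
        have h2 : τ i = i := τ.injective this
        rw [h2] at h
        exact h hC
      rw [hσC _ h1]
    · rw [mem_pms.mp hτ i hC, mem_pms.mp hσ i hB]

omit [Fintype ι] in
theorem tact_prj {B C : Finset (Fin N)} (hBC : Disjoint B C) {τ : Equiv.Perm (Fin N)}
    (hτ : τ ∈ pms C) (Z : (Fin N → ι) → ℝ) : tact τ (prj B Z) = prj B (tact τ Z) := by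
  funext I
  show (∑ σ ∈ pms B, tact (τ * σ) Z I) / _ = (∑ σ ∈ pms B, tact (σ * τ) Z I) / _
  congr 1
  exact Finset.sum_congr rfl fun σ hσ => by rw [pms_comm hBC hσ hτ]

/-- commutators with transpositions outside of `C` pass through `prj C` -/
theorem cmt_prj {C : Finset (Fin N)} {i j : Fin N} (hi : i ∉ C) (hj : j ∉ C)
    (Z : (Fin N → ι) → ℝ) : cmt i j (prj C Z) = prj C (cmt i j Z) := by
  unfold cmt
  rw [prj_sub, tact_prj (C := {i, j}) _ (swap_mem_pms (by simp) (by simp))]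
  rw [Finset.disjoint_left]
  intro x hx hx'
  simp only [Finset.mem_insert, Finset.mem_singleton] at hx'
  rcases hx' with rfl | rfl
  · exact hi hx
  · exact hj hx

/-- **The stage lemma.** -/
theorem stage {a : ℕ} {C : Finset (Fin N)} {q : ℕ → Fin N} (hC : C.card = a)
    (hinj : ∀ i < 2 * a, ∀ j < 2 * a, q i = q j → i = j) (hqC : ∀ j < 2 * a, q j ∉ C)
    (M : (Fin N → ι) → ℝ) :
    tsq (prj C M) ≤ 25000 ^ a * (tsq (prj (C ∪ (Finset.range a).image q) M) +
      ∑ r ∈ Finset.range (2 * a - 1), tsq (prj C (cmt (q r) (q (r + 1)) M))) := by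
  rcases Nat.eq_zero_or_pos a with ha | ha
  · subst ha
    have : C ∪ (Finset.range 0).image q = C := by simp
    rw [this]
    simp
  set B := (Finset.range (2 * a)).image q with hB
  set Z := prj C M with hZ
  set E := C ∪ (Finset.range a).image q with hE
  have hCB : Disjoint C B := by
    rw [Finset.disjoint_left]
    intro x hx hx'
    obtain ⟨j, hj, rfl⟩ := Finset.mem_image.mp hx'
    exact hqC j (Finset.mem_range.mp hj) hx
  have h1 := tsq_sub_prj_le Z (2 * a) hinj
  rw [← hB] at h1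
  have h2 := doubling hC hinj hqC (Z := prj B Z)
    (TInv.prj_disj (prj_inv C M) hCB.symm) (prj_inv B Z)
  rw [← hE] at h2
  have h3 : prj E Z = prj E M := prj_prj Finset.subset_union_left M
  have h4 : tsq (prj E (prj B Z)) ≤ 2 * tsq (prj E M) + 2 * tsq (Z - prj B Z) := by
    have h5 : prj E (prj B Z) = prj E M + (-1 : ℝ) • prj E (Z - prj B Z) := by
      rw [prj_sub, h3]
      funext I
      simp
    rw [h5]
    refine (tsq_add_le _ _).trans ?_
    have h6 : tsq ((-1 : ℝ) • prj E (Z - prj B Z)) = tsq (prj E (Z - prj B Z)) := by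
      unfold tsq
      exact Finset.sum_congr rfl fun I _ => by simp
    rw [h6]
    have := tsq_prj_le E (Z - prj B Z)
    linarith
  have h5 : tsq Z ≤ 2 * tsq (prj B Z) + 2 * tsq (Z - prj B Z) := by
    have : Z = prj B Z + (Z - prj B Z) := by abel
    calc tsq Z = tsq (prj B Z + (Z - prj B Z)) := by rw [← this]
      _ ≤ _ := tsq_add_le _ _
  have hcomm : ∑ r ∈ Finset.range (2 * a - 1), tsq (prj C (cmt (q r) (q (r + 1)) M)) =
      ∑ r ∈ Finset.range (2 * a - 1), tsq (cmt (q r) (q (r + 1)) Z) := by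
    apply Finset.sum_congr rfl
    intro r hr
    rw [Finset.mem_range] at hr
    rw [hZ, cmt_prj (hqC r (by omega)) (hqC (r + 1) (by omega))]
  rw [hcomm]
  set S := ∑ r ∈ Finset.range (2 * a - 1), tsq (cmt (q r) (q (r + 1)) Z) with hS
  have hSnn : 0 ≤ S := Finset.sum_nonneg fun _ _ => tsq_nonneg _
  have hMnn := tsq_nonneg (prj E M)
  push_cast at h1
  have h7 : tsq Z ≤ 4 * 16 ^ a * tsq (prj E M) + (2 + 4 * 16 ^ a) * (32 * a ^ 3 * S) := by
    have h8 : tsq (Z - prj B Z) ≤ 32 * a ^ 3 * S := by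
      calc tsq (Z - prj B Z) ≤ 4 * (2 * (a : ℝ)) ^ 3 * S := h1
        _ = 32 * a ^ 3 * S := by ring
    have h9 : (16 : ℝ) ^ a * tsq (prj E (prj B Z)) ≤
        16 ^ a * (2 * tsq (prj E M) + 2 * (32 * a ^ 3 * S)) :=
      mul_le_mul_of_nonneg_left (by linarith) (by positivity)
    linarith
  have h8 : (1 : ℝ) ≤ 16 ^ a := one_le_pow₀ (by norm_num)
  have h9 : (a : ℝ) ^ 3 ≤ 8 ^ a := by
    have h10 : (a : ℝ) ≤ 2 ^ a := by exact_mod_cast (Nat.lt_two_pow_self (n := a)).le
    calc (a : ℝ) ^ 3 ≤ (2 ^ a) ^ 3 := pow_le_pow_left₀ (by positivity) h10 3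
      _ = 8 ^ a := by rw [← pow_mul, mul_comm, pow_mul]; norm_num
  have h10 : (192 : ℝ) ≤ 192 ^ a := by
    calc (192 : ℝ) = 192 ^ 1 := (pow_one _).symm
      _ ≤ 192 ^ a := pow_le_pow_right₀ (by norm_num) ha
  have h11 : (192 : ℝ) * 128 ^ a ≤ 25000 ^ a := by
    calc (192 : ℝ) * 128 ^ a ≤ 192 ^ a * 128 ^ a := mul_le_mul_of_nonneg_right h10 (by positivity)
      _ = (24576 : ℝ) ^ a := by rw [← mul_pow]; norm_num
      _ ≤ 25000 ^ a := pow_le_pow_left₀ (by norm_num) (by norm_num) a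
  have h12 : (4 : ℝ) * 16 ^ a ≤ 25000 ^ a := by
    have h13 : (4 : ℝ) ≤ 4 ^ a := by
      calc (4 : ℝ) = 4 ^ 1 := (pow_one _).symm
        _ ≤ 4 ^ a := pow_le_pow_right₀ (by norm_num) ha
    calc (4 : ℝ) * 16 ^ a ≤ 4 ^ a * 16 ^ a := mul_le_mul_of_nonneg_right h13 (by positivity)
      _ = (64 : ℝ) ^ a := by rw [← mul_pow]; norm_num
      _ ≤ 25000 ^ a := pow_le_pow_left₀ (by norm_num) (by norm_num) a
  have h13 : (2 + 4 * (16 : ℝ) ^ a) * (32 * a ^ 3) ≤ 25000 ^ a := by
    calc (2 + 4 * (16 : ℝ) ^ a) * (32 * a ^ 3) ≤ (6 * 16 ^ a) * (32 * 8 ^ a) := by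
          apply mul_le_mul
          · linarith
          · linarith
          · positivity
          · positivity
      _ = 192 * 128 ^ a := by
          rw [show (128 : ℝ) = 16 * 8 by norm_num, mul_pow]; ring
      _ ≤ _ := h11
  have h14 := mul_le_mul_of_nonneg_right h12 hMnn
  have h15 := mul_le_mul_of_nonneg_right h13 hSnn
  nlinarith [h7, h14, h15]

end Pool.Agent.Lib.MP_6d896a_gt.FK
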