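import Mathlib
import Pool.Agent.Lib.MP_6d896a_gt.FK.Stage

/-!
# FK: the iteration (B6)
-/

set_option autoImplicit false
set_option linter.unusedSectionVars false

namespace Pool.Agent.Lib.MP_6d896a_gt.FK

variable {ι : Type} [Fintype ι]

/-- the last `a` positions -/
def lastp (k a : ℕ) : Finset (Fin k) := Finset.univ.filter fun i => k ≤ i.val + a

theorem mem_lastp {k a : ℕ} {i : Fin k} : i ∈ lastp k a ↔ k ≤ i.val + a := by
  simp [lastp]

theorem card_lastp {k a : ℕ} (h : a ≤ k) : (lastp k a).card = a := by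
  have h1 : lastp k a = (Finset.univ : Finset (Fin a)).map
      ⟨fun i : Fin a => (⟨k - a + i.val, by omega⟩ : Fin k), fun x y hxy => by
        rw [Fin.mk.injEq] at hxy
        exact Fin.ext (by omega)⟩ := by
    ext i
    rw [mem_lastp, Finset.mem_map]
    constructor
    · intro hi
      refine ⟨⟨i.val - (k - a), by omega⟩, Finset.mem_univ _, ?_⟩
      apply Fin.ext
      show k - a + (i.val - (k - a)) = i.val
      omega
    · rintro ⟨j, -, rfl⟩
      show k ≤ k - a + j.val + a
      omega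
  rw [h1, Finset.card_map, Finset.card_univ, Fintype.card_fin]

/-- the stage lemma for the last positions -/
theorem stage_last {k a : ℕ} (ha : 1 ≤ a) (hk : 3 * a ≤ k) (M : (Fin k → ι) → ℝ) {z : ℕ → ℝ}
    {c : ℝ} (h : ∀ i j : Fin k, j.val = i.val + 1 → j.val + a < k →
      tsq (prj (lastp k a) (cmt i j M)) ≤ c * z j.val) :
    tsq (prj (lastp k a) M) ≤ 25000 ^ a * (tsq (prj (lastp k (2 * a)) M) +
      c * ∑ r ∈ Finset.Ico (k - 3 * a + 1) (k - a), z r) := by
  let q : ℕ → Fin k := fun r => ⟨k - a - 1 - r, by omega⟩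
  have hqv : ∀ r, (q r).val = k - a - 1 - r := fun _ => rfl
  have h1 := stage (C := lastp k a) (q := q) (card_lastp (by omega)) (by
    intro i hi j hj hij
    have := congrArg Fin.val hij
    rw [hqv, hqv] at this
    omega) (by
    intro j hj
    rw [mem_lastp, hqv]
    omega) M
  have h2 : lastp k a ∪ (Finset.range a).image q = lastp k (2 * a) := by
    ext i
    rw [Finset.mem_union, mem_lastp, mem_lastp, Finset.mem_image]
    constructor
    · rintro (h | ⟨j, hj, rfl⟩)
      · omega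
      · rw [Finset.mem_range] at hj
        rw [hqv]
        omega
    · intro hi
      by_cases h3 : k ≤ i.val + a
      · exact Or.inl h3
      · refine Or.inr ⟨k - a - 1 - i.val, Finset.mem_range.mpr (by omega), ?_⟩
        apply Fin.ext
        rw [hqv]
        have := i.isLt
        omega
  rw [h2] at h1
  refine h1.trans (mul_le_mul_of_nonneg_left ?_ (by positivity))
  have h3 : ∑ r ∈ Finset.range (2 * a - 1), tsq (prj (lastp k a) (cmt (q r) (q (r + 1)) M)) ≤
      ∑ r ∈ Finset.range (2 * a - 1), c * z (k - a - 1 - r) := by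
    apply Finset.sum_le_sum
    intro r hr
    rw [Finset.mem_range] at hr
    have h4 := h (q (r + 1)) (q r) (by rw [hqv, hqv]; omega) (by rw [hqv]; omega)
    rw [hqv] at h4
    have h5 : cmt (q r) (q (r + 1)) M = cmt (q (r + 1)) (q r) M := by
      unfold cmt
      rw [Equiv.swap_comm]
    rw [h5]
    exact h4
  have h4 : ∑ r ∈ Finset.range (2 * a - 1), c * z (k - a - 1 - r) =
      c * ∑ r ∈ Finset.Ico (k - 3 * a + 1) (k - a), z r := by
    rw [Finset.mul_sum]
    refine Finset.sum_nbij' (fun r => k - a - 1 - r) (fun r => k - a - 1 - r) ?_ ?_ ?_ ?_ ?_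
    · intro r hr
      rw [Finset.mem_range] at hr
      rw [Finset.mem_Ico]
      omega
    · intro r hr
      rw [Finset.mem_Ico] at hr
      rw [Finset.mem_range]
      omega
    · intro r hr
      rw [Finset.mem_range] at hr
      show k - a - 1 - (k - a - 1 - r) = r
      omega
    · intro r hr
      rw [Finset.mem_Ico] at hr
      show k - a - 1 - (k - a - 1 - r) = r
      omega
    · intro r _
      rfl
  linarith

theorem prj_lastp_one {k : ℕ} (M : (Fin k → ι) → ℝ) : prj (lastp k 1) M = M := by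
  apply prj_of_inv
  intro σ hσ
  have h1 : σ = 1 := by
    have hfix : ∀ i : Fin k, i.val + 1 < k → σ i = i := fun i hi =>
      mem_pms.mp hσ i (by rw [mem_lastp]; omega)
    apply Equiv.ext
    intro i
    by_cases hi : i.val + 1 < k
    · exact hfix i hi
    · by_contra h
      have h2 : (σ i).val + 1 < k := by
        have := i.isLt
        have := (σ i).isLt
        by_contra h3
        apply h
        apply Fin.ext
        show (σ i).val = i.val
        omega
      exact h (σ.injective (hfix (σ i) h2))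
  rw [h1, tact_one]

/-- **The iteration of the doubling stages.** -/
theorem iter {k : ℕ} (M : (Fin k → ι) → ℝ) {V z : ℕ → ℝ} {c lam : ℝ} (hc : 0 ≤ c * lam)
    (h1 : ∀ a, 1 ≤ a → a ≤ k → tsq (prj (lastp k a) M) ≤ (c * lam) ^ a * V (k - a))
    (h2 : ∀ a, 1 ≤ a → ∀ i j : Fin k, j.val = i.val + 1 → j.val + a < k →
      tsq (prj (lastp k a) (cmt i j M)) ≤ (c * lam) ^ a * (4 * z j.val))
    (hV : ∀ j ≤ k, 0 ≤ V j) (hz : ∀ r < k, 0 ≤ z r) {l : ℕ} (hl : 3 * 2 ^ l ≤ k) :
    tsq M ≤ (2500000000 * c * lam) ^ (2 ^ l) * V (k - 2 ^ l) +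
      ∑ i ∈ Finset.range l, (2500000000 * c * lam) ^ (2 ^ i) *
        ∑ r ∈ Finset.Ico (k - 3 * 2 ^ i + 1) (k - 2 ^ i), z r := by
  have key : ∀ l : ℕ, 3 * 2 ^ l ≤ k → tsq M ≤ 25000 ^ (2 ^ l) * tsq (prj (lastp k (2 ^ l)) M) +
      ∑ i ∈ Finset.range l, (2500000000 * c * lam) ^ (2 ^ i) *
        ∑ r ∈ Finset.Ico (k - 3 * 2 ^ i + 1) (k - 2 ^ i), z r := by
    intro l
    induction l with
    | zero =>
      intro _
      rw [pow_zero, prj_lastp_one, Finset.sum_range_zero, add_zero, pow_one]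
      have := tsq_nonneg M
      linarith
    | succ l ih =>
      intro hl'
      have hpow : 2 ^ (l + 1) = 2 * 2 ^ l := by ring
      have hl2 : 3 * 2 ^ l ≤ k := by omega
      have ih' := ih hl2
      have h3 := stage_last (a := 2 ^ l) Nat.one_le_two_pow hl2 M (z := fun r => 4 * z r)
        (c := (c * lam) ^ 2 ^ l) (fun i j hij hj => h2 _ Nat.one_le_two_pow i j hij hj)
      rw [← Finset.mul_sum, ← hpow] at h3
      set S := ∑ r ∈ Finset.Ico (k - 3 * 2 ^ l + 1) (k - 2 ^ l), z r with hS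
      have hSnn : 0 ≤ S := by
        apply Finset.sum_nonneg
        intro r hr
        rw [Finset.mem_Ico] at hr
        exact hz r (by have := hr.2; omega)
      rw [Finset.sum_range_succ]
      have h4 : (25000 : ℝ) ^ 2 ^ l * tsq (prj (lastp k (2 ^ l)) M) ≤
          25000 ^ 2 ^ l * (25000 ^ 2 ^ l * (tsq (prj (lastp k (2 ^ (l + 1))) M) +
            (c * lam) ^ 2 ^ l * (4 * S))) := mul_le_mul_of_nonneg_left h3 (by positivity)
      have h5 : (25000 : ℝ) ^ 2 ^ (l + 1) = 25000 ^ 2 ^ l * 25000 ^ 2 ^ l := by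
        rw [hpow, two_mul, pow_add]
      have h6 : (4 : ℝ) ≤ 4 ^ 2 ^ l := by
        calc (4 : ℝ) = 4 ^ 1 := (pow_one _).symm
          _ ≤ 4 ^ 2 ^ l := pow_le_pow_right₀ (by norm_num) Nat.one_le_two_pow
      have h7 : (25000 : ℝ) ^ 2 ^ l * 25000 ^ 2 ^ l * (c * lam) ^ 2 ^ l * 4 ≤
          (2500000000 * c * lam) ^ 2 ^ l := by
        calc (25000 : ℝ) ^ 2 ^ l * 25000 ^ 2 ^ l * (c * lam) ^ 2 ^ l * 4 ≤
            25000 ^ 2 ^ l * 25000 ^ 2 ^ l * (c * lam) ^ 2 ^ l * 4 ^ 2 ^ l :=
              mul_le_mul_of_nonneg_left h6 (by positivity)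
          _ = _ := by
              rw [← mul_pow, ← mul_pow, ← mul_pow]
              congr 1
              ring
      have h8 := mul_le_mul_of_nonneg_right h7 hSnn
      rw [h5]
      nlinarith [h4, h8, ih']
  refine (key l hl).trans ?_
  have h3 := h1 (2 ^ l) Nat.one_le_two_pow (by omega)
  have h4 : (25000 : ℝ) ^ 2 ^ l * tsq (prj (lastp k (2 ^ l)) M) ≤
      25000 ^ 2 ^ l * ((c * lam) ^ 2 ^ l * V (k - 2 ^ l)) :=
    mul_le_mul_of_nonneg_left h3 (by positivity)
  have h5 : (25000 : ℝ) ^ 2 ^ l * (c * lam) ^ 2 ^ l ≤ (2500000000 * c * lam) ^ 2 ^ l := by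
    rw [← mul_pow]
    apply pow_le_pow_left₀ (by positivity)
    nlinarith
  have h6 := mul_le_mul_of_nonneg_right h5 (hV (k - 2 ^ l) (Nat.sub_le _ _))
  linarith

end Pool.Agent.Lib.MP_6d896a_gt.FK
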