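import Mathlib
import Pool.Agent.Lib.MP_6d896a_gt.LG.SPDefs
import Pool.Agent.Lib.MP_6d896a_gt.FK.Iter

/-!
Project FK (the full Kannan-Lovasz-Simonovits inequality), part B: definitions. Appell families, the
higher order thin shell inequality, approximate towers of test functions, and the limit data of
the towers.
-/

set_option autoImplicit false

namespace Pool.Agent.Lib.MP_6d896a_gt.FK

open MeasureTheory Filter Topology Set
open Pool.Agent.Lib.MP_6d896a_gt.LG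
open scoped ENNReal NNReal ContDiff

variable {n : ℕ}

/-- an Appell family of the probability density `exp (-V)` -/
structure App (V : Eu n → ℝ) (p : (m : ℕ) → (Fin m → Fin n) → Eu n → ℝ) : Prop where
  one : ∀ (I : Fin 0 → Fin n) (x : Eu n), p 0 I x = 1
  cd : ∀ m I, ContDiff ℝ ∞ (p m I)
  gr : ∀ m I, ∃ (C : ℝ) (d : ℕ), ∀ x, |p m I x| ≤ C * (1 + ‖x‖) ^ d
  der : ∀ m (I : Fin (m + 1) → Fin n) j x, UC.pd j (p (m + 1) I) x =
    ∑ r : Fin (m + 1), if I r = j then p m (fun s => I (r.succAbove s)) x else 0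
  mean : ∀ m (I : Fin (m + 1) → Fin n), UC.Ex V (p (m + 1) I) = 0
  sym : ∀ m (I : Fin m → Fin n) (σ : Equiv.Perm (Fin m)), p m (fun s => I (σ s)) = p m I

/-- the higher order thin shell inequality with constants `(C ^ (m - 1) * m!) ^ 2` -/
def SBd (C : ℝ) : Prop :=
  ∀ (n : ℕ) (V : Eu n → ℝ) (κ Λ c0 : ℝ), SP V κ Λ c0 → CovLe V 1 →
    ∃ p : (m : ℕ) → (Fin m → Fin n) → Eu n → ℝ, App V p ∧
      ∀ (m : ℕ) (ψ : Eu n → ℝ), UC.TT ψ →
        ∑ I : Fin (m + 1) → Fin n, UC.Ex V (fun x => ψ x * p (m + 1) I x) ^ 2 ≤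
          (C ^ m * (m + 1).factorial) ^ 2 * VarE V ψ

/-! ### families -/

/-- total second moment of a family -/
noncomputable def e2 {T : Type} [Fintype T] (V : Eu n → ℝ) (G : T → Eu n → ℝ) : ℝ :=
  ∑ J, UC.Ex V (fun x => G J x ^ 2)

/-- total variance of a family -/
noncomputable def vr {T : Type} [Fintype T] (V : Eu n → ℝ) (G : T → Eu n → ℝ) : ℝ :=
  ∑ J, VarE V (G J)

/-- total Dirichlet form of two families -/
noncomputable def dfF {T : Type} [Fintype T] (V : Eu n → ℝ) (G H : T → Eu n → ℝ) : ℝ :=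
  ∑ J, UC.Df V (G J) (H J)

/-- total second moment of the generator of a family -/
noncomputable def w2 {T : Type} [Fintype T] (V : Eu n → ℝ) (u : T → Eu n → ℝ) : ℝ :=
  ∑ J, UC.Ex V (fun x => UC.LL V (u J) x ^ 2)

/-- `u` solves `-L u = G - E G` up to an error `η` -/
def Slv {T : Type} [Fintype T] (V : Eu n → ℝ) (η : ℝ) (G u : T → Eu n → ℝ) : Prop :=
  ∑ J, UC.Ex V (fun x => (UC.LL V (u J) x + (G J x - UC.Ex V (G J))) ^ 2) ≤ η

/-- the commutator of a family with one transposition -/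
def cmF {k : ℕ} (i j : Fin k) (G : (Fin k → Fin n) → Eu n → ℝ) :
    (Fin k → Fin n) → Eu n → ℝ :=
  fun J x => G J x - G (fun s => J (Equiv.swap i j s)) x

/-- the next family of the tower -/
noncomputable def nxt {k : ℕ} (lam : ℝ) (u : (Fin k → Fin n) → Eu n → ℝ) :
    (Fin (k + 1) → Fin n) → Eu n → ℝ :=
  fun J x => Real.sqrt lam * UC.pd (J (Fin.last k)) (u fun s => J s.castSucc) x

/-- approximate towers of test functions -/
structure Tw (V : Eu n → ℝ) (lam η : ℝ) (G u : (k : ℕ) → (Fin k → Fin n) → Eu n → ℝ) :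
    Prop where
  ttG : ∀ k J, UC.TT (G k J)
  ttu : ∀ k J, UC.TT (u k J)
  err : ∀ k, Slv V η (G k) (u k)
  nx : ∀ k, G (k + 1) = nxt lam (u k)

/-- the moments of a tower with an Appell family -/
noncomputable def cA (V : Eu n → ℝ) (p : (m : ℕ) → (Fin m → Fin n) → Eu n → ℝ)
    (G : (k : ℕ) → (Fin k → Fin n) → Eu n → ℝ) (k b : ℕ) (J : Fin k → Fin n)
    (I : Fin b → Fin n) : ℝ := UC.Ex V (fun x => G k J x * p b I x)

/-! ### the limit data -/

/-- the limit data of the towers -/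
structure TD (n : ℕ) (lam kap : ℝ) (S : ℕ → ℝ) where
  /-- `c k b J I = E G_k(J) p_b(I)` -/
  c : (k b : ℕ) → (Fin k → Fin n) → (Fin b → Fin n) → ℝ
  E : ℕ → ℝ
  V : ℕ → ℝ
  D : ℕ → ℝ
  P : ℕ → ℕ → ℝ
  Vn : ∀ k, 0 ≤ V k
  Pn : ∀ k j, 0 ≤ P k j
  E0 : E 0 = 1
  V0 : V 0 = 1
  D0 : D 0 ≤ 3 / 2 * lam
  hV : ∀ k, V (k + 1) = E (k + 1) - ∑ J, c (k + 1) 0 J (fun i => i.elim0) ^ 2
  gap : ∀ k, lam * V k ≤ D k
  boc : ∀ k, D (k + 1) ≤ lam * V k - kap * E (k + 1)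
  cs : ∀ k, lam * V k ^ 2 ≤ D k * E (k + 1)
  con : ∀ k, E (k + 1) ≤ V k
  sw : ∀ k, 1 ≤ k → D k * P (k + 1) k ≤ 4 * (D k * E (k + 1) - lam * V k ^ 2)
  p4 : ∀ k j, P (k + 1) j ≤ 4 * E (k + 1)
  pc : ∀ k j, 1 ≤ j → j < k → P (k + 1) j ≤ P k j
  sym : ∀ k b J I (σ : Equiv.Perm (Fin b)), c k b J (fun s => I (σ s)) = c k b J I
  rc : ∀ k b (J : Fin k → Fin n) (I : Fin (b + 1) → Fin n),
    ∑ r : Fin (b + 1), c (k + 1) b (Fin.snoc (α := fun _ => Fin n) J (I r))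
      (fun s => I (r.succAbove s)) = Real.sqrt lam * c k (b + 1) J I
  s1 : ∀ k b, ∑ J, ∑ I, c k (b + 1) J I ^ 2 ≤ S (b + 1) * V k
  s2 : ∀ k b (i j : Fin k), j.val = i.val + 1 →
    ∑ J, ∑ I, (c k (b + 1) J I - c k (b + 1) (fun s => J (Equiv.swap i j s)) I) ^ 2 ≤
      S (b + 1) * P k j.val

end Pool.Agent.Lib.MP_6d896a_gt.FK
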