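import Mathlib
import Pool.Agent.Lib.MP_6d896a_gt.FK.DefB
import Pool.Agent.Lib.MP_6d896a_gt.LG.PA1

/-!
Project FK, piece B1: polynomial moments of strongly log-concave densities.
-/

set_option autoImplicit false

namespace Pool.Agent.Lib.MP_6d896a_gt.FK

open MeasureTheory Filter Topology Set
open Pool.Agent.Lib.MP_6d896a_gt.LG
open scoped ENNReal NNReal ContDiff

variable {n : ℕ} {V : Eu n → ℝ} {κ Λ c0 : ℝ}

/-- the quadratic lower bound of a strongly convex potential -/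
private lemma quad_lower (hs : SP V κ Λ c0) (x : Eu n) :
    V 0 + fderiv ℝ V 0 x + κ / 2 * ‖x‖ ^ 2 ≤ V x := by
  have hVd : Differentiable ℝ V := hs.cd.differentiable two_ne_zero
  have hVd2 : Differentiable ℝ (fderiv ℝ V) :=
    (hs.cd.fderiv_right (m := 1) (by norm_num)).differentiable one_ne_zero
  have hl : ∀ t : ℝ, HasDerivAt (fun t : ℝ => t • x) x t := by
    intro t
    have h := (hasDerivAt_id t).smul_const x
    simpa using h
  have hd1 : ∀ t : ℝ, HasDerivAt (fun t : ℝ => V (t • x)) (fderiv ℝ V (t • x) x) t :=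
    fun t => (hVd _).hasFDerivAt.comp_hasDerivAt t (hl t)
  have hd2 : ∀ t : ℝ, HasDerivAt (fun t : ℝ => fderiv ℝ V (t • x) x)
      (fderiv ℝ (fderiv ℝ V) (t • x) x x) t := by
    intro t
    have h1 : HasDerivAt (fun t : ℝ => fderiv ℝ V (t • x))
        (fderiv ℝ (fderiv ℝ V) (t • x) x) t :=
      (hVd2 _).hasFDerivAt.comp_hasDerivAt t (hl t)
    have h2 := h1.clm_apply (hasDerivAt_const t x)
    simpa using h2
  -- the first derivative
  have hm1 : Monotone (fun t : ℝ => fderiv ℝ V (t • x) x - κ * ‖x‖ ^ 2 * t) := by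
    have hd : ∀ t : ℝ, HasDerivAt (fun t : ℝ => fderiv ℝ V (t • x) x - κ * ‖x‖ ^ 2 * t)
        (fderiv ℝ (fderiv ℝ V) (t • x) x x - κ * ‖x‖ ^ 2) t := by
      intro t
      have h1 := (hd2 t).sub ((hasDerivAt_id t).const_mul (κ * ‖x‖ ^ 2))
      refine h1.congr_deriv ?_
      simp
    refine monotone_of_deriv_nonneg (fun t => (hd t).differentiableAt) fun t => ?_
    rw [(hd t).deriv]
    linarith [hs.conv (t • x) x]
  have hd3 : ∀ t : ℝ, HasDerivAt
      (fun t : ℝ => V (t • x) - κ * ‖x‖ ^ 2 / 2 * t ^ 2 - fderiv ℝ V 0 x * t)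
      (fderiv ℝ V (t • x) x - κ * ‖x‖ ^ 2 * t - fderiv ℝ V 0 x) t := by
    intro t
    have h1 := ((hd1 t).sub ((hasDerivAt_pow 2 t).const_mul (κ * ‖x‖ ^ 2 / 2))).sub
      ((hasDerivAt_id t).const_mul (fderiv ℝ V 0 x))
    refine h1.congr_deriv ?_
    simp
    ring
  have hm2 : MonotoneOn (fun t : ℝ => V (t • x) - κ * ‖x‖ ^ 2 / 2 * t ^ 2 - fderiv ℝ V 0 x * t)
      (Ici 0) := by
    refine monotoneOn_of_deriv_nonneg (convex_Ici 0)
      (fun t _ => (hd3 t).continuousAt.continuousWithinAt)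
      (fun t _ => (hd3 t).differentiableAt.differentiableWithinAt) fun t ht => ?_
    rw [interior_Ici] at ht
    rw [(hd3 t).deriv]
    have h1 := hm1 (le_of_lt ht)
    simp only [zero_smul, mul_zero, sub_zero] at h1
    linarith
  have h1 := hm2 (self_mem_Ici (a := (0 : ℝ))) (mem_Ici.2 zero_le_one) zero_le_one
  simp only [zero_smul, one_smul, one_pow, mul_one, mul_zero, sub_zero, ne_eq, OfNat.ofNat_ne_zero,
    not_false_eq_true, zero_pow] at h1
  linarith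

private lemma quad_lower' (hs : SP V κ Λ c0) :
    ∃ A : ℝ, ∀ x : Eu n, κ / 4 * ‖x‖ ^ 2 - A ≤ V x := by
  refine ⟨‖fderiv ℝ V 0‖ ^ 2 / κ - V 0, fun x => ?_⟩
  have h1 := quad_lower hs x
  have h2 : |fderiv ℝ V 0 x| ≤ ‖fderiv ℝ V 0‖ * ‖x‖ := by
    have := (fderiv ℝ V 0).le_opNorm x
    rwa [Real.norm_eq_abs] at this
  have h3 := neg_abs_le (fderiv ℝ V 0 x)
  have hk := hs.kpos
  have h4 : ‖fderiv ℝ V 0‖ * ‖x‖ ≤ κ / 4 * ‖x‖ ^ 2 + ‖fderiv ℝ V 0‖ ^ 2 / κ := by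
    have h5 : κ / 4 * ‖x‖ ^ 2 + ‖fderiv ℝ V 0‖ ^ 2 / κ - ‖fderiv ℝ V 0‖ * ‖x‖ =
        κ * (‖x‖ / 2 - ‖fderiv ℝ V 0‖ / κ) ^ 2 := by
      field_simp
      ring
    have h6 : 0 ≤ κ * (‖x‖ / 2 - ‖fderiv ℝ V 0‖ / κ) ^ 2 := by positivity
    linarith
  linarith

private lemma pow_exp_bdd {c : ℝ} (hc : 0 < c) (d : ℕ) :
    ∃ B : ℝ, ∀ t : ℝ, 0 ≤ t → (1 + t) ^ d * Real.exp (-(c * t ^ 2)) ≤ B := by
  refine ⟨(d.factorial : ℝ) * Real.exp (1 + 1 / (2 * c)) , fun t ht => ?_⟩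
  have h1 : (1 + t) ^ d ≤ (d.factorial : ℝ) * Real.exp (1 + t) := by
    have h2 := Real.pow_div_factorial_le_exp (1 + t) (by linarith) d
    have h3 : (0 : ℝ) < d.factorial := by positivity
    rw [div_le_iff₀ h3] at h2
    linarith
  have h4 : (1 + t) + (-(c * t ^ 2)) ≤ 1 + 1 / (2 * c) := by
    have h5 : 1 / (2 * c) - t + c * t ^ 2 = c * (t - 1 / (2 * c)) ^ 2 + 1 / (4 * c) := by
      field_simp
      ring
    have h6 : 0 ≤ c * (t - 1 / (2 * c)) ^ 2 + 1 / (4 * c) := by positivity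
    linarith
  calc (1 + t) ^ d * Real.exp (-(c * t ^ 2))
      ≤ (d.factorial : ℝ) * Real.exp (1 + t) * Real.exp (-(c * t ^ 2)) :=
        mul_le_mul_of_nonneg_right h1 (Real.exp_pos _).le
    _ = (d.factorial : ℝ) * Real.exp ((1 + t) + (-(c * t ^ 2))) := by
        rw [mul_assoc, ← Real.exp_add]
    _ ≤ (d.factorial : ℝ) * Real.exp (1 + 1 / (2 * c)) := by gcongr

private lemma int_gauss {c : ℝ} (hc : 0 < c) :
    Integrable (fun x : Eu n => Real.exp (-(c * ‖x‖ ^ 2))) := by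
  have h := GaussianFourier.integrable_cexp_neg_mul_sq_norm_add (V := Eu n) (b := (c : ℂ))
    (by simpa using hc) 0 (0 : Eu n)
  have h2 := h.norm
  refine h2.congr (Eventually.of_forall fun x => ?_)
  simp only [Complex.norm_exp]
  congr 1
  simp [← Complex.ofReal_pow]

theorem int_pow (hs : SP V κ Λ c0) (d : ℕ) :
    Integrable (fun x : Eu n => (1 + ‖x‖) ^ d * Real.exp (-V x)) := by
  obtain ⟨A, hA⟩ := quad_lower' hs
  have hk : 0 < κ / 8 := by linarith [hs.kpos]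
  obtain ⟨B, hB⟩ := pow_exp_bdd hk d
  have hB0 : 0 ≤ B := le_trans (by positivity) (hB 0 le_rfl)
  refine ((int_gauss (n := n) hk).const_mul (B * Real.exp A)).mono'
    (Continuous.aestronglyMeasurable ?_) (Eventually.of_forall fun x => ?_)
  · exact ((continuous_const.add continuous_norm).pow d).mul
      (Real.continuous_exp.comp hs.cd.continuous.neg)
  · rw [Real.norm_of_nonneg (by positivity)]
    have h1 : -V x ≤ A + -(κ / 8 * ‖x‖ ^ 2) + -(κ / 8 * ‖x‖ ^ 2) := by linarith [hA x]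
    have h2 := hB ‖x‖ (norm_nonneg x)
    calc (1 + ‖x‖) ^ d * Real.exp (-V x)
        ≤ (1 + ‖x‖) ^ d * Real.exp (A + -(κ / 8 * ‖x‖ ^ 2) + -(κ / 8 * ‖x‖ ^ 2)) := by gcongr
      _ = ((1 + ‖x‖) ^ d * Real.exp (-(κ / 8 * ‖x‖ ^ 2))) *
          (Real.exp A * Real.exp (-(κ / 8 * ‖x‖ ^ 2))) := by
          rw [Real.exp_add, Real.exp_add]; ring
      _ ≤ B * (Real.exp A * Real.exp (-(κ / 8 * ‖x‖ ^ 2))) := by gcongr
      _ = B * Real.exp A * Real.exp (-(κ / 8 * ‖x‖ ^ 2)) := by ring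

theorem App.sqV (hs : SP V κ Λ c0) {p : (m : ℕ) → (Fin m → Fin n) → Eu n → ℝ} (hp : App V p)
    (m : ℕ) (I : Fin m → Fin n) : SqV V (p m I) := by
  have hc : Continuous (p m I) := (hp.cd m I).continuous
  refine ⟨hc, ?_⟩
  obtain ⟨C, d, h⟩ := hp.gr m I
  refine ((int_pow hs (d + d)).const_mul (C ^ 2)).mono' (Continuous.aestronglyMeasurable ?_)
    (Eventually.of_forall fun x => ?_)
  · exact (hc.pow 2).mul (Real.continuous_exp.comp hs.cd.continuous.neg)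
  · rw [Real.norm_of_nonneg (by positivity), ← mul_assoc]
    refine mul_le_mul_of_nonneg_right ?_ (Real.exp_pos _).le
    have h1 : p m I x ^ 2 ≤ (C * (1 + ‖x‖) ^ d) ^ 2 := by
      rw [← sq_abs]
      exact pow_le_pow_left₀ (abs_nonneg _) (h x) 2
    refine h1.trans (le_of_eq ?_)
    rw [pow_add]; ring

end Pool.Agent.Lib.MP_6d896a_gt.FK
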