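import Mathlib

/-!
Project FK: sums over the splittings of a list into two sublists, and the solution of the
triangular system `H L = ∑ U S * M T` over the splittings of `L` into `S` and `T`.
-/

set_option autoImplicit false

namespace Pool.Agent.Lib.MP_6d896a_gt.FK

open Filter Topology

variable {α : Type} {Φ Ψ : List α → List α → ℝ} {M H G : List α → ℝ}

/-- sum over all splittings of a list -/
def spl : List α → (List α → List α → ℝ) → ℝ
  | [], Φ => Φ [] []
  | v :: L, Φ => spl L (fun S T => Φ (v :: S) T) + spl L (fun S T => Φ S (v :: T))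

/-- sum over all splittings of a list with nonempty second part -/
def spr : List α → (List α → List α → ℝ) → ℝ
  | [], _ => 0
  | v :: L, Φ => spr L (fun S T => Φ (v :: S) T) + spl L (fun S T => Φ S (v :: T))

theorem spl_eq (L : List α) (Φ : List α → List α → ℝ) : spl L Φ = Φ L [] + spr L Φ := by
  induction L generalizing Φ with
  | nil => simp [spl, spr]
  | cons v L ih =>
    simp only [spl, spr]
    rw [ih (fun S T => Φ (v :: S) T)]
    ring

theorem spl_congr (L : List α) (h : ∀ S T, S.length ≤ L.length → Φ S T = Ψ S T) :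
    spl L Φ = spl L Ψ := by
  induction L generalizing Φ Ψ with
  | nil => simp only [spl]; exact h [] [] le_rfl
  | cons v L ih =>
    simp only [spl]
    rw [ih (Φ := fun S T => Φ (v :: S) T) (Ψ := fun S T => Ψ (v :: S) T) fun S T hS =>
        h _ _ (by simpa using hS),
      ih (Φ := fun S T => Φ S (v :: T)) (Ψ := fun S T => Ψ S (v :: T)) fun S T hS =>
        h _ _ (by simp only [List.length_cons]; omega)]

theorem spr_congr (L : List α) (h : ∀ S T, S.length < L.length → Φ S T = Ψ S T) :
    spr L Φ = spr L Ψ := by
  induction L generalizing Φ Ψ with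
  | nil => simp only [spr]
  | cons v L ih =>
    simp only [spr]
    rw [ih (Φ := fun S T => Φ (v :: S) T) (Ψ := fun S T => Ψ (v :: S) T) fun S T hS =>
        h _ _ (by simpa using hS),
      spl_congr (Φ := fun S T => Φ S (v :: T)) (Ψ := fun S T => Ψ S (v :: T)) L fun S T hS =>
        h _ _ (by simp only [List.length_cons]; omega)]

theorem spl_add (L : List α) (Φ Ψ : List α → List α → ℝ) :
    spl L (fun S T => Φ S T + Ψ S T) = spl L Φ + spl L Ψ := by
  induction L generalizing Φ Ψ with
  | nil => simp [spl]
  | cons v L ih =>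
    simp only [spl]
    rw [ih, ih]
    ring

theorem spr_add (L : List α) (Φ Ψ : List α → List α → ℝ) :
    spr L (fun S T => Φ S T + Ψ S T) = spr L Φ + spr L Ψ := by
  have h1 := spl_add L Φ Ψ
  rw [spl_eq, spl_eq, spl_eq] at h1
  linarith

theorem spl_smul (L : List α) (c : ℝ) (Φ : List α → List α → ℝ) :
    spl L (fun S T => c * Φ S T) = c * spl L Φ := by
  induction L generalizing Φ with
  | nil => simp [spl]
  | cons v L ih =>
    simp only [spl]
    rw [ih, ih]
    ring

theorem spl_zero (L : List α) : spl L (fun _ _ => (0 : ℝ)) = 0 := by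
  induction L with
  | nil => simp [spl]
  | cons v L ih =>
    simp only [spl]
    rw [ih]
    ring

/-- invariance under permutations -/
def Iv (H : List α → ℝ) : Prop := ∀ L L' : List α, L.Perm L' → H L = H L'

theorem spl_perm {L L' : List α} (hL : L.Perm L')
    (h : ∀ S S' T T' : List α, S.Perm S' → T.Perm T' → Φ S T = Φ S' T') :
    spl L Φ = spl L' Φ := by
  induction hL generalizing Φ with
  | nil => rfl
  | cons v _ ih =>
    simp only [spl]
    rw [ih fun S S' T T' hS hT => h _ _ _ _ (hS.cons v) hT,
      ih fun S S' T T' hS hT => h _ _ _ _ hS (hT.cons v)]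
  | swap v w L =>
    simp only [spl]
    have e1 : spl L (fun S T => Φ (w :: v :: S) T) = spl L (fun S T => Φ (v :: w :: S) T) :=
      spl_congr L fun S T _ => h _ _ _ _ (List.Perm.swap v w S) (List.Perm.refl T)
    have e2 : spl L (fun S T => Φ S (w :: v :: T)) = spl L (fun S T => Φ S (v :: w :: T)) :=
      spl_congr L fun S T _ => h _ _ _ _ (List.Perm.refl S) (List.Perm.swap v w T)
    rw [e1, e2]
    ring
  | trans _ _ ih1 ih2 => exact (ih1 h).trans (ih2 h)

theorem spr_perm {L L' : List α} (hL : L.Perm L')
    (h : ∀ S S' T T' : List α, S.Perm S' → T.Perm T' → Φ S T = Φ S' T') :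
    spr L Φ = spr L' Φ := by
  have h1 := spl_perm hL h
  rw [spl_eq, spl_eq, h _ _ _ _ hL (List.Perm.refl [])] at h1
  linarith

/-- a predicate which is closed under addition passes to the sums -/
theorem spl_ind {β : Type} [Inhabited β] {Pr : (β → ℝ) → Prop}
    (hadd : ∀ f g, Pr f → Pr g → Pr (fun x => f x + g x)) (L : List α)
    {Θ : List α → List α → β → ℝ} (h : ∀ S T, Pr (Θ S T)) :
    Pr (fun x => spl L (fun S T => Θ S T x)) := by
  induction L generalizing Θ with
  | nil => exact h [] []
  | cons v L ih =>
    exact hadd _ _ (ih (Θ := fun S T => Θ (v :: S) T) fun S T => h _ _)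
      (ih (Θ := fun S T => Θ S (v :: T)) fun S T => h _ _)

theorem spr_ind {β : Type} [Inhabited β] {Pr : (β → ℝ) → Prop} (h0 : Pr (fun _ => 0))
    (hadd : ∀ f g, Pr f → Pr g → Pr (fun x => f x + g x)) (L : List α)
    {Θ : List α → List α → β → ℝ} (h : ∀ S T, Pr (Θ S T)) :
    Pr (fun x => spr L (fun S T => Θ S T x)) := by
  induction L generalizing Θ with
  | nil => exact h0
  | cons v L ih =>
    exact hadd _ _ (ih (Θ := fun S T => Θ (v :: S) T) fun S T => h _ _)
      (spl_ind hadd L (Θ := fun S T => Θ S (v :: T)) fun S T => h _ _)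

/-- an additive functional passes to the sums -/
theorem spl_fun {β : Type} {Pr : (β → ℝ) → Prop} {E : (β → ℝ) → ℝ}
    (hadd : ∀ f g, Pr f → Pr g → Pr (fun x => f x + g x))
    (hE : ∀ f g, Pr f → Pr g → E (fun x => f x + g x) = E f + E g) (L : List α)
    {Θ : List α → List α → β → ℝ} (h : ∀ S T, Pr (Θ S T)) :
    Pr (fun x => spl L (fun S T => Θ S T x)) ∧
      E (fun x => spl L (fun S T => Θ S T x)) = spl L (fun S T => E (Θ S T)) := by
  induction L generalizing Θ with
  | nil => exact ⟨h [] [], rfl⟩
  | cons v L ih =>
    obtain ⟨a1, a2⟩ := ih (Θ := fun S T => Θ (v :: S) T) fun S T => h _ _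
    obtain ⟨b1, b2⟩ := ih (Θ := fun S T => Θ S (v :: T)) fun S T => h _ _
    refine ⟨hadd _ _ a1 b1, ?_⟩
    have e : (fun x => spl (v :: L) (fun S T => Θ S T x)) =
        fun x => spl L (fun S T => Θ (v :: S) T x) + spl L (fun S T => Θ S (v :: T) x) := rfl
    rw [e, hE _ _ a1 b1, a2, b2]
    rfl

theorem spr_fun {β : Type} {Pr : (β → ℝ) → Prop} {E : (β → ℝ) → ℝ} (h0 : Pr (fun _ => 0))
    (hE0 : E (fun _ => 0) = 0) (hadd : ∀ f g, Pr f → Pr g → Pr (fun x => f x + g x))
    (hE : ∀ f g, Pr f → Pr g → E (fun x => f x + g x) = E f + E g) (L : List α)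
    {Θ : List α → List α → β → ℝ} (h : ∀ S T, Pr (Θ S T)) :
    Pr (fun x => spr L (fun S T => Θ S T x)) ∧
      E (fun x => spr L (fun S T => Θ S T x)) = spr L (fun S T => E (Θ S T)) := by
  induction L generalizing Θ with
  | nil => exact ⟨h0, hE0⟩
  | cons v L ih =>
    obtain ⟨a1, a2⟩ := ih (Θ := fun S T => Θ (v :: S) T) fun S T => h _ _
    obtain ⟨b1, b2⟩ := spl_fun hadd hE L (Θ := fun S T => Θ S (v :: T)) fun S T => h _ _
    refine ⟨hadd _ _ a1 b1, ?_⟩
    have e : (fun x => spr (v :: L) (fun S T => Θ S T x)) =
        fun x => spr L (fun S T => Θ (v :: S) T x) + spl L (fun S T => Θ S (v :: T) x) := rfl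
    rw [e, hE _ _ a1 b1, a2, b2]
    rfl

theorem spl_tendsto {ι : Type} {l : Filter ι} (L : List α) {Θ : ι → List α → List α → ℝ}
    {Θ' : List α → List α → ℝ} (h : ∀ S T, Tendsto (fun k => Θ k S T) l (𝓝 (Θ' S T))) :
    Tendsto (fun k => spl L (Θ k)) l (𝓝 (spl L Θ')) := by
  induction L generalizing Θ Θ' with
  | nil => exact h [] []
  | cons v L ih =>
    exact (ih (Θ := fun k S T => Θ k (v :: S) T) fun S T => h _ _).add
      (ih (Θ := fun k S T => Θ k S (v :: T)) fun S T => h _ _)

theorem spr_tendsto {ι : Type} {l : Filter ι} (L : List α) {Θ : ι → List α → List α → ℝ}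
    {Θ' : List α → List α → ℝ} (h : ∀ S T, Tendsto (fun k => Θ k S T) l (𝓝 (Θ' S T))) :
    Tendsto (fun k => spr L (Θ k)) l (𝓝 (spr L Θ')) := by
  induction L generalizing Θ Θ' with
  | nil => exact tendsto_const_nhds
  | cons v L ih =>
    exact (ih (Θ := fun k S T => Θ k (v :: S) T) fun S T => h _ _).add
      (spl_tendsto L (Θ := fun k S T => Θ k S (v :: T)) fun S T => h _ _)

/-! ### deletion of one entry -/

section del
variable [DecidableEq α]

/-- sum over the deletions of an entry `j` -/
def del (j : α) : List α → (List α → ℝ) → ℝ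
  | [], _ => 0
  | v :: L, g => (if v = j then g L else 0) + del j L (fun S => g (v :: S))

theorem del_add (j : α) (L : List α) (g g' : List α → ℝ) :
    del j L (fun S => g S + g' S) = del j L g + del j L g' := by
  induction L generalizing g g' with
  | nil => simp [del]
  | cons v L ih =>
    simp only [del]
    rw [ih]
    split_ifs <;> ring

theorem del_sub (j : α) (L : List α) (g g' : List α → ℝ) :
    del j L (fun S => g S - g' S) = del j L g - del j L g' := by
  induction L generalizing g g' with
  | nil => simp [del]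
  | cons v L ih =>
    simp only [del]
    rw [ih]
    split_ifs <;> ring

theorem del_smul (j : α) (L : List α) (c : ℝ) (g : List α → ℝ) :
    del j L (fun S => g S * c) = del j L g * c := by
  induction L generalizing g with
  | nil => simp [del]
  | cons v L ih =>
    simp only [del]
    rw [ih]
    split_ifs <;> ring

theorem del_congr (j : α) (L : List α) {g g' : List α → ℝ} (h : ∀ S, g S = g' S) :
    del j L g = del j L g' := by
  rw [show g = g' from funext h]

theorem spl_del (j : α) (L : List α) (f : List α → List α → ℝ) :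
    spl L (fun S T => del j S (fun S' => f S' T)) = del j L (fun L' => spl L' f) := by
  induction L generalizing f with
  | nil => simp [spl, del]
  | cons v L ih =>
    simp only [spl, del]
    rw [spl_add, del_add, ih (fun S T => f (v :: S) T), ih (fun S T => f S (v :: T))]
    by_cases hv : v = j
    · simp only [if_pos hv]
      ring
    · simp only [if_neg hv]
      rw [spl_zero]
      ring

theorem spr_del (j : α) (L : List α) (f : List α → List α → ℝ) :
    spr L (fun S T => del j S (fun S' => f S' T)) = del j L (fun L' => spr L' f) := by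
  have h1 := spl_del j L f
  rw [spl_eq] at h1
  have h2 : del j L (fun L' => spl L' f) = del j L (fun L' => f L' []) +
      del j L (fun L' => spr L' f) := by
    rw [← del_add]
    exact del_congr j L fun S => spl_eq S f
  rw [h2] at h1
  linarith

/-- deletions as a sum over positions -/
theorem del_ofFn (j : α) (g : List α → ℝ) {m : ℕ} (I : Fin (m + 1) → α) :
    del j (List.ofFn I) g =
      ∑ r : Fin (m + 1), if I r = j then g (List.ofFn fun s => I (r.succAbove s)) else 0 := by
  induction m generalizing g with
  | zero =>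
    simp [del]
  | succ m ih =>
    rw [List.ofFn_succ, del, ih]
    rw [Fin.sum_univ_succ (fun r : Fin (m + 1 + 1) =>
      if I r = j then g (List.ofFn fun s => I (r.succAbove s)) else 0)]
    congr 1
    refine Finset.sum_congr rfl fun r _ => ?_
    by_cases hr : I r.succ = j
    · rw [if_pos hr, if_pos hr]
      congr 1
      rw [List.ofFn_succ (f := fun s => I (r.succ.succAbove s))]
      congr 1
      simp only [Fin.succ_succAbove_succ]
    · rw [if_neg hr, if_neg hr]

end del

/-! ### the triangular system -/

/-- the solution, with fuel -/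
def Uf (M H : List α → ℝ) : ℕ → List α → ℝ
  | 0, L => H L
  | k + 1, L => H L - spr L (fun S T => Uf M H k S * M T)

/-- the solution of `H L = ∑ U S * M T` -/
def UU (M H : List α → ℝ) (L : List α) : ℝ := Uf M H L.length L

theorem Uf_nil (M H : List α → ℝ) (k : ℕ) : Uf M H k [] = H [] := by
  cases k <;> simp [Uf, spr]

theorem Uf_eq (M H : List α → ℝ) (k k' : ℕ) (L : List α) (h : L.length ≤ k)
    (h' : L.length ≤ k') : Uf M H k L = Uf M H k' L := by
  induction k generalizing k' L with
  | zero =>
    have : L = [] := List.length_eq_zero_iff.1 (by omega)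
    subst this
    rw [Uf_nil, Uf_nil]
  | succ k ih =>
    rcases k' with _ | k'
    · have : L = [] := List.length_eq_zero_iff.1 (by omega)
      subst this
      rw [Uf_nil, Uf_nil]
    · simp only [Uf]
      rw [spr_congr (Ψ := fun S T => Uf M H k' S * M T) L fun S T hS => by
        rw [ih k' S (by omega) (by omega)]]

theorem UU_eq (M H : List α → ℝ) (L : List α) :
    UU M H L = H L - spr L (fun S T => UU M H S * M T) := by
  have h1 : UU M H L = Uf M H (L.length + 1) L := Uf_eq M H _ _ L le_rfl (by omega)
  rw [h1]
  simp only [Uf]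
  rw [spr_congr (Ψ := fun S T => UU M H S * M T) L fun S T hS => by
    rw [Uf_eq M H L.length S.length S (by omega) le_rfl]
    rfl]

theorem UU_nil (M H : List α → ℝ) : UU M H [] = H [] := rfl

/-- uniqueness -/
theorem UU_unique (hG : ∀ L, G L = H L - spr L (fun S T => G S * M T)) : G = UU M H := by
  have key : ∀ (k : ℕ) (L : List α), L.length ≤ k → G L = UU M H L := by
    intro k
    induction k with
    | zero =>
      intro L hL
      have : L = [] := List.length_eq_zero_iff.1 (by omega)
      subst this
      rw [hG, UU_nil]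
      simp [spr]
    | succ k ih =>
      intro L hL
      rw [hG, UU_eq, spr_congr (Ψ := fun S T => UU M H S * M T) L fun S T hS => by
        rw [ih S (by omega)]]
  funext L
  exact key _ L le_rfl

theorem Uf_perm (hM : Iv M) (hH : Iv H) (k : ℕ) : Iv (Uf M H k) := by
  induction k with
  | zero => exact hH
  | succ k ih =>
    intro L L' hL
    simp only [Uf]
    rw [hH L L' hL, spr_perm hL fun S S' T T' hS hT => by rw [ih S S' hS, hM T T' hT]]

theorem UU_perm (hM : Iv M) (hH : Iv H) : Iv (UU M H) := by
  intro L L' hL
  unfold UU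
  rw [hL.length_eq]
  exact Uf_perm hM hH _ L L' hL

/-- the sum with the unit of the convolution -/
theorem spl_unit (L : List α) (g : List α → ℝ) :
    spl L (fun S T => (if S = [] then 1 else 0) * g T) = g L := by
  induction L generalizing g with
  | nil => simp [spl]
  | cons v L ih =>
    simp only [spl]
    rw [ih (fun T => g (v :: T))]
    simp [spl_zero]

theorem UU_unit (hM : M [] = 1) (L : List α) : UU M M L = if L = [] then 1 else 0 := by
  have h : (fun L : List α => if L = [] then (1 : ℝ) else 0) = UU M M := by
    refine UU_unique fun L => ?_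
    have h1 := spl_unit L M
    rw [spl_eq] at h1
    rw [← h1, hM]
    ring
  exact (congrFun h L).symm

/-- linear functionals of the solutions -/
theorem UU_fun {β : Type} {Pr : (β → ℝ) → Prop} {E : (β → ℝ) → ℝ} (h0 : Pr (fun _ => 0))
    (hE0 : E (fun _ => 0) = 0) (hadd : ∀ f g, Pr f → Pr g → Pr (fun x => f x + g x))
    (hE : ∀ f g, Pr f → Pr g → E (fun x => f x + g x) = E f + E g)
    (hsm : ∀ f (c : ℝ), Pr f → Pr (fun x => c * f x))
    (hEs : ∀ f (c : ℝ), Pr f → E (fun x => c * f x) = c * E f)
    {X : List α → β → ℝ} (hX : ∀ L, Pr (X L)) (L : List α) :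
    Pr (fun x => UU M (fun L => X L x) L) ∧
      E (fun x => UU M (fun L => X L x) L) = UU M (fun L => E (X L)) L := by
  have key : ∀ (k : ℕ) (L : List α), Pr (fun x => Uf M (fun L => X L x) k L) ∧
      E (fun x => Uf M (fun L => X L x) k L) = Uf M (fun L => E (X L)) k L := by
    intro k
    induction k with
    | zero => exact fun L => ⟨hX L, rfl⟩
    | succ k ih =>
      intro L
      have h1 : ∀ S T : List α, Pr (fun x => Uf M (fun L => X L x) k S * M T) := by
        intro S T
        have := hsm _ (M T) (ih S).1
        simpa only [mul_comm (M T)] using this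
      have h2 : ∀ S T : List α, E (fun x => Uf M (fun L => X L x) k S * M T) =
          Uf M (fun L => E (X L)) k S * M T := by
        intro S T
        have := hEs _ (M T) (ih S).1
        rw [(ih S).2] at this
        simpa only [mul_comm (M T)] using this
      obtain ⟨a1, a2⟩ := spr_fun h0 hE0 hadd hE L
        (Θ := fun S T x => Uf M (fun L => X L x) k S * M T) h1
      have b1 := hsm _ (-1) a1
      have b2 := hEs _ (-1) a1
      have e : (fun x => Uf M (fun L => X L x) (k + 1) L) = fun x => X L x +
          (-1) * spr L (fun S T => Uf M (fun L => X L x) k S * M T) := by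
        funext x
        simp only [Uf]
        ring
      rw [e]
      refine ⟨hadd _ _ (hX L) b1, ?_⟩
      rw [hE _ _ (hX L) b1, b2, a2]
      simp only [h2]
      simp only [Uf]
      ring
  exact key L.length L

theorem UU_tendsto {ι : Type} {l : Filter ι} {Mk Hk : ι → List α → ℝ}
    (hM : ∀ L, Tendsto (fun k => Mk k L) l (𝓝 (M L)))
    (hH : ∀ L, Tendsto (fun k => Hk k L) l (𝓝 (H L))) (L : List α) :
    Tendsto (fun k => UU (Mk k) (Hk k) L) l (𝓝 (UU M H L)) := by
  have key : ∀ (j : ℕ) (L : List α),
      Tendsto (fun k => Uf (Mk k) (Hk k) j L) l (𝓝 (Uf M H j L)) := by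
    intro j
    induction j with
    | zero => exact hH
    | succ j ih =>
      intro L
      simp only [Uf]
      exact (hH L).sub (spr_tendsto L (Θ := fun k S T => Uf (Mk k) (Hk k) j S * Mk k T)
        fun S T => (ih S).mul (hM T))
  exact key _ L

/-- deletions and the triangular system -/
theorem UU_del [DecidableEq α] (j : α) {H' : List α → ℝ} (hH : ∀ L, H' L = del j L H)
    (L : List α) : UU M H' L = del j L (UU M H) := by
  have h : (fun L => del j L (UU M H)) = UU M H' := by
    refine UU_unique fun L => ?_
    rw [hH]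
    have e1 : (fun S T => del j S (UU M H) * M T) =
        fun S T => del j S (fun S' => UU M H S' * M T) := by
      funext S T
      rw [del_smul]
    rw [e1, spr_del j L (fun S T => UU M H S * M T), ← del_sub]
    exact del_congr j L fun S => UU_eq M H S
  exact (congrFun h L).symm

end Pool.Agent.Lib.MP_6d896a_gt.FK
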