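import Mathlib
import Pool.Agent.Lib.MP_6d896a_gt.FK.PolyInt
import Pool.Agent.Lib.MP_6d896a_gt.FK.Spl
import Pool.Agent.Lib.MP_6d896a_gt.UC.Basic

/-!
Project FK: the Appell polynomials of a strongly log-concave probability density.
-/

set_option autoImplicit false

namespace Pool.Agent.Lib.MP_6d896a_gt.FK

open MeasureTheory Filter Topology Set
open Pool.Agent.Lib.MP_6d896a_gt.LG (SP)
open scoped ENNReal NNReal ContDiff

variable {n : ℕ} {V : EuclideanSpace ℝ (Fin n) → ℝ} {κ Λ c0 : ℝ}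

/-- monomials -/
noncomputable def xm (L : List (Fin n)) (x : EuclideanSpace ℝ (Fin n)) : ℝ :=
  (L.map fun i => x i).prod

/-- Appell polynomials, for lists of indices -/
noncomputable def pL (V : EuclideanSpace ℝ (Fin n) → ℝ) (L : List (Fin n))
    (x : EuclideanSpace ℝ (Fin n)) : ℝ :=
  UU (fun L => UC.Ex V (xm L)) (fun L => xm L x) L

/-- Appell polynomials -/
noncomputable def pA (V : EuclideanSpace ℝ (Fin n) → ℝ) (m : ℕ) (I : Fin m → Fin n) :
    EuclideanSpace ℝ (Fin n) → ℝ := pL V (List.ofFn I)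

theorem xm_nil (x : EuclideanSpace ℝ (Fin n)) : xm [] x = 1 := rfl

theorem xm_cons (i : Fin n) (L : List (Fin n)) (x : EuclideanSpace ℝ (Fin n)) :
    xm (i :: L) x = x i * xm L x := by
  simp [xm]

/-- smooth functions of polynomial growth -/
def PG (f : EuclideanSpace ℝ (Fin n) → ℝ) : Prop :=
  ContDiff ℝ ∞ f ∧ ∃ (C : ℝ) (d : ℕ), 0 ≤ C ∧ ∀ x, |f x| ≤ C * (1 + ‖x‖) ^ d

theorem PG.const (c : ℝ) : PG (fun _ : EuclideanSpace ℝ (Fin n) => c) :=
  ⟨contDiff_const, |c|, 0, abs_nonneg c, fun x => by simp⟩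

theorem PG.add {f g : EuclideanSpace ℝ (Fin n) → ℝ} (hf : PG f) (hg : PG g) :
    PG (fun x => f x + g x) := by
  obtain ⟨h1, C, d, hC, h⟩ := hf
  obtain ⟨h2, C', d', hC', h'⟩ := hg
  refine ⟨h1.add h2, C + C', d + d', by positivity, fun x => ?_⟩
  have hx : 1 ≤ 1 + ‖x‖ := by linarith [norm_nonneg x]
  have e1 : (1 + ‖x‖) ^ d ≤ (1 + ‖x‖) ^ (d + d') := pow_le_pow_right₀ hx (by omega)
  have e2 : (1 + ‖x‖) ^ d' ≤ (1 + ‖x‖) ^ (d + d') := pow_le_pow_right₀ hx (by omega)
  calc |f x + g x| ≤ |f x| + |g x| := abs_add_le _ _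
    _ ≤ C * (1 + ‖x‖) ^ d + C' * (1 + ‖x‖) ^ d' := add_le_add (h x) (h' x)
    _ ≤ C * (1 + ‖x‖) ^ (d + d') + C' * (1 + ‖x‖) ^ (d + d') := by gcongr
    _ = (C + C') * (1 + ‖x‖) ^ (d + d') := by ring

theorem PG.mul {f g : EuclideanSpace ℝ (Fin n) → ℝ} (hf : PG f) (hg : PG g) :
    PG (fun x => f x * g x) := by
  obtain ⟨h1, C, d, hC, h⟩ := hf
  obtain ⟨h2, C', d', hC', h'⟩ := hg
  refine ⟨h1.mul h2, C * C', d + d', by positivity, fun x => ?_⟩
  calc |f x * g x| = |f x| * |g x| := abs_mul _ _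
    _ ≤ (C * (1 + ‖x‖) ^ d) * (C' * (1 + ‖x‖) ^ d') :=
        mul_le_mul (h x) (h' x) (abs_nonneg _) (by positivity)
    _ = C * C' * (1 + ‖x‖) ^ (d + d') := by ring

theorem PG.smul {f : EuclideanSpace ℝ (Fin n) → ℝ} (c : ℝ) (hf : PG f) :
    PG (fun x => c * f x) := (PG.const c).mul hf

theorem PG.coord (i : Fin n) : PG (fun x : EuclideanSpace ℝ (Fin n) => x i) := by
  refine ⟨by fun_prop, 1, 1, zero_le_one, fun x => ?_⟩
  have h1 : |x i| ≤ ‖x‖ := by
    rw [← Real.norm_eq_abs]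
    exact PiLp.norm_apply_le x i
  rw [pow_one, one_mul]
  linarith

theorem PG.xm (L : List (Fin n)) : PG (xm L) := by
  induction L with
  | nil => exact PG.const 1
  | cons i L ih =>
    have e : FK.xm (i :: L) = fun x => x i * FK.xm L x := funext fun x => xm_cons i L x
    rw [e]
    exact (PG.coord i).mul ih

theorem PG.int (hs : SP V κ Λ c0) {f : EuclideanSpace ℝ (Fin n) → ℝ} (hf : PG f) :
    Integrable (fun x => f x * Real.exp (-V x)) := by
  obtain ⟨h1, C, d, hC, h⟩ := hf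
  refine ((int_pow hs d).const_mul C).mono' (h1.continuous.mul
    (Real.continuous_exp.comp hs.cd.continuous.neg)).aestronglyMeasurable (ae_of_all _ fun x => ?_)
  rw [norm_mul, Real.norm_eq_abs, Real.norm_eq_abs, abs_of_pos (Real.exp_pos _), ← mul_assoc]
  exact mul_le_mul_of_nonneg_right (h x) (Real.exp_pos _).le

theorem pL_PG (L : List (Fin n)) : PG (pL V L) :=
  (UU_fun (Pr := PG) (E := fun _ => 0) (PG.const 0) rfl (fun _ _ hf hg => hf.add hg)
    (fun _ _ _ _ => by simp) (fun _ c hf => hf.smul c) (fun _ _ _ => by simp)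
    (X := xm) PG.xm L).1

/-- moments of a bounded function with the Appell polynomials -/
theorem Ex_pL (hs : SP V κ Λ c0) {ψ : EuclideanSpace ℝ (Fin n) → ℝ} (hψ : PG ψ)
    (L : List (Fin n)) :
    UC.Ex V (fun x => ψ x * pL V L x) =
      UU (fun L => UC.Ex V (xm L)) (fun L => UC.Ex V (fun x => ψ x * xm L x)) L := by
  refine (UU_fun (Pr := PG) (E := fun f => UC.Ex V (fun x => ψ x * f x)) (PG.const 0) ?_
    (fun _ _ hf hg => hf.add hg) ?_ (fun _ c hf => hf.smul c) ?_ (X := xm) PG.xm L).2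
  · simp [UC.Ex]
  · intro f g hf hg
    have e : (fun x => ψ x * (f x + g x)) = fun x => ψ x * f x + ψ x * g x := by
      funext x; ring
    rw [e, UC.Ex_add ((hψ.mul hf).int hs) ((hψ.mul hg).int hs)]
  · intro f c hf
    have e : (fun x => ψ x * (c * f x)) = fun x => c * (ψ x * f x) := by
      funext x; ring
    rw [e, UC.Ex_const_mul]

theorem pd_coord (i j : Fin n) (x : EuclideanSpace ℝ (Fin n)) :
    UC.pd j (fun x : EuclideanSpace ℝ (Fin n) => x i) x = if i = j then 1 else 0 := by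
  have h1 : HasFDerivAt (fun x : EuclideanSpace ℝ (Fin n) => x i)
      (EuclideanSpace.proj (𝕜 := ℝ) i) x := (EuclideanSpace.proj (𝕜 := ℝ) i).hasFDerivAt
  unfold UC.pd
  rw [h1.fderiv]
  simp [ej, Pi.single_apply]

theorem pd_xm (j : Fin n) (L : List (Fin n)) (x : EuclideanSpace ℝ (Fin n)) :
    UC.pd j (xm L) x = del j L (fun S => xm S x) := by
  induction L with
  | nil =>
    have e : (xm [] : EuclideanSpace ℝ (Fin n) → ℝ) = fun _ => 1 := rfl
    rw [e]
    simp [UC.pd, del]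
  | cons i L ih =>
    have e : xm (i :: L) = fun x : EuclideanSpace ℝ (Fin n) => x i * xm L x :=
      funext fun x => xm_cons i L x
    have h1 : Differentiable ℝ (fun x : EuclideanSpace ℝ (Fin n) => x i) := by fun_prop
    have h2 : Differentiable ℝ (xm L : EuclideanSpace ℝ (Fin n) → ℝ) :=
      (PG.xm L).1.differentiable (by simp)
    rw [e, UC.pd_mul h1 h2, pd_coord, ih]
    simp only [del, xm_cons]
    have e2 : del j L (fun S => x i * xm S x) = del j L (fun S => xm S x) * x i := by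
      rw [← del_smul]
      exact del_congr j L fun S => mul_comm _ _
    rw [e2]
    split_ifs <;> ring

theorem pd_pL (j : Fin n) (L : List (Fin n)) (x : EuclideanSpace ℝ (Fin n)) :
    UC.pd j (pL V L) x = del j L (fun S => pL V S x) := by
  have h1 := (UU_fun (M := fun L => UC.Ex V (xm L)) (Pr := PG) (E := fun f => UC.pd j f x)
    (PG.const 0) (by simp [UC.pd]) (fun _ _ hf hg => hf.add hg)
    (fun f g hf hg => UC.pd_add (hf.1.differentiable (by simp))
      (hg.1.differentiable (by simp)) j x) (fun _ c hf => hf.smul c)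
    (fun f c hf => UC.pd_const_mul (hf.1.differentiable (by simp)) c j x)
    (X := xm) PG.xm L).2
  have h2 := UU_del (M := fun L => UC.Ex V (xm L)) j (H := fun L => xm L x)
    (H' := fun L => UC.pd j (xm L) x) (fun L => pd_xm j L x) L
  exact h1.trans h2

theorem xm_perm (x : EuclideanSpace ℝ (Fin n)) : Iv (fun L => xm L x) :=
  fun _ _ h => (h.map _).prod_eq

theorem pL_perm (x : EuclideanSpace ℝ (Fin n)) : Iv (fun L => pL V L x) :=
  UU_perm (fun L L' h => by rw [show xm L = xm L' from funext fun x => xm_perm x L L' h])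
    (xm_perm x)

theorem app_pA (hs : SP V κ Λ c0) : App V (pA V) where
  one := fun I x => by
    have h : List.ofFn I = [] := by simp
    unfold pA pL
    rw [h, UU_nil, xm_nil]
  cd := fun m I => (pL_PG _).1
  gr := fun m I => by
    obtain ⟨-, C, d, -, h⟩ := pL_PG (V := V) (List.ofFn I)
    exact ⟨C, d, h⟩
  der := fun m I j x => by
    unfold pA
    rw [pd_pL, del_ofFn]
  mean := fun m I => by
    have h1 := Ex_pL hs (PG.const 1) (List.ofFn I)
    simp only [one_mul] at h1
    unfold pA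
    have e : (fun L : List (Fin n) => UC.Ex V fun x => xm L x) = fun L => UC.Ex V (xm L) := rfl
    have e2 : UC.Ex V (fun x => pL V (List.ofFn I) x) = UC.Ex V (pL V (List.ofFn I)) := rfl
    rw [e2, e] at h1
    rw [h1, UU_unit]
    · simp
    · have e3 : (xm [] : EuclideanSpace ℝ (Fin n) → ℝ) = fun _ => 1 := rfl
      show UC.Ex V (xm []) = 1
      rw [e3]
      exact hs.mass
  sym := fun m I σ => by
    funext x
    exact pL_perm x _ _ (Equiv.Perm.ofFn_comp_perm σ I)

end Pool.Agent.Lib.MP_6d896a_gt.FK
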