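import Mathlib
import Pool.Agent.Lib.MP_6d896a_gt.FK.ADefs

/-!
Project FK: smoothness of the moments of the exponential family.
-/

set_option autoImplicit false

namespace Pool.Agent.Lib.MP_6d896a_gt.FK

open MeasureTheory Filter Topology Set
open Pool.Agent.Lib.MP_6d896a_gt.LG (BS Cv Thin CovL SP VarE CovLe)
open scoped ENNReal NNReal ContDiff

variable {n : ℕ} {μ : Measure (Eu n)} {R : ℝ} {ψ φ : Eu n → ℝ} {s : SS n}

/-! ### bounded functions -/

theorem BF.ln (h : Hy μ R) (w : Eu n) : BF μ (ln w) := by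
  refine ⟨?_, R * ‖w‖, ?_⟩
  · have h1 : Continuous (FK.ln w) := by
      unfold FK.ln
      fun_prop
    exact h1.aestronglyMeasurable
  · filter_upwards [h.bs] with x hx
    have h1 : |FK.ln w x| ≤ ‖x‖ * ‖w‖ := abs_real_inner_le_norm x w
    exact h1.trans (mul_le_mul_of_nonneg_right hx (norm_nonneg w))

theorem BF.const (h : Hy μ R) (c : ℝ) : BF μ (fun _ => c) :=
  ⟨aestronglyMeasurable_const, |c|, Eventually.of_forall fun _ => le_rfl⟩

theorem BF.mul (hψ : BF μ ψ) (hφ : BF μ φ) : BF μ (fun x => ψ x * φ x) := by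
  obtain ⟨C, hC⟩ := hψ.bd
  obtain ⟨C', hC'⟩ := hφ.bd
  refine ⟨hψ.ms.mul hφ.ms, |C| * |C'|, ?_⟩
  filter_upwards [hC, hC'] with x hx hx'
  rw [abs_mul]
  exact mul_le_mul (hx.trans (le_abs_self C)) (hx'.trans (le_abs_self C')) (abs_nonneg _)
    (abs_nonneg _)

theorem BF.add (hψ : BF μ ψ) (hφ : BF μ φ) : BF μ (fun x => ψ x + φ x) := by
  obtain ⟨C, hC⟩ := hψ.bd
  obtain ⟨C', hC'⟩ := hφ.bd
  refine ⟨hψ.ms.add hφ.ms, C + C', ?_⟩
  filter_upwards [hC, hC'] with x hx hx'
  exact (abs_add_le _ _).trans (add_le_add hx hx')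

theorem BF.smul (hψ : BF μ ψ) (a : ℝ) : BF μ (fun x => a * ψ x) := by
  obtain ⟨C, hC⟩ := hψ.bd
  refine ⟨hψ.ms.const_mul a, |a| * C, ?_⟩
  filter_upwards [hC] with x hx
  rw [abs_mul]
  exact mul_le_mul_of_nonneg_left hx (abs_nonneg _)

theorem BF.sq (hψ : BF μ ψ) : BF μ (fun x => ψ x ^ 2) := by
  have h1 := hψ.mul hψ
  have h2 : (fun x => ψ x ^ 2) = fun x => ψ x * ψ x := by
    funext x
    ring
  rw [h2]
  exact h1

/-! ### the exponent as a linear functional of the state -/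

private noncomputable def qL (x : Eu n) : MM n →L[ℝ] ℝ :=
  ∑ i, ∑ j, (x i * x j) • ((ContinuousLinearMap.proj j : (Fin n → ℝ) →L[ℝ] ℝ).comp
    (ContinuousLinearMap.proj i : MM n →L[ℝ] (Fin n → ℝ)))

private lemma qL_apply (x : Eu n) (B : MM n) : qL x B = qf B x := by
  unfold qL qf
  rw [ContinuousLinearMap.sum_apply]
  refine Finset.sum_congr rfl fun i _ => ?_
  rw [ContinuousLinearMap.sum_apply]
  refine Finset.sum_congr rfl fun j _ => ?_
  show (x i * x j) * B i j = B i j * (x i * x j)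
  ring

private noncomputable def xL (x : Eu n) : SS n →L[ℝ] ℝ :=
  (innerSL ℝ x).comp (ContinuousLinearMap.fst ℝ (Eu n) (MM n)) -
    (1 / 2 : ℝ) • (qL x).comp (ContinuousLinearMap.snd ℝ (Eu n) (MM n))

private lemma xL_apply (x : Eu n) (s : SS n) : xL x s = ex s x := by
  show inner ℝ x s.1 - (1 / 2 : ℝ) * qL x s.2 = inner ℝ s.1 x - qf s.2 x / 2
  rw [qL_apply, real_inner_comm]
  ring

private lemma xL_apply' (x : Eu n) (v : Eu n) (H : MM n) :
    xL x (v, H) = FK.ln v x - qf H x / 2 := by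
  rw [xL_apply]
  show inner ℝ v x - qf H x / 2 = inner ℝ x v - qf H x / 2
  rw [real_inner_comm]

private lemma xL_cont : Continuous (xL : Eu n → SS n →L[ℝ] ℝ) := by
  have h1 : Continuous fun x : Eu n => (innerSL ℝ x).comp (ContinuousLinearMap.fst ℝ (Eu n) (MM n)) :=
    (innerSL ℝ : Eu n →L[ℝ] Eu n →L[ℝ] ℝ).continuous.clm_comp_const _
  have h2 : Continuous fun x : Eu n => qL x := by
    unfold qL
    fun_prop
  have h3 : Continuous fun x : Eu n => (qL x).comp (ContinuousLinearMap.snd ℝ (Eu n) (MM n)) :=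
    h2.clm_comp_const _
  exact h1.sub (h3.const_smul (1 / 2 : ℝ))

private lemma xL_bd (R : ℝ) : ∃ M : ℝ, 0 ≤ M ∧ ∀ x : Eu n, ‖x‖ ≤ R → ‖xL x‖ ≤ M := by
  obtain ⟨M, hM⟩ := (isCompact_closedBall (0 : Eu n) R).exists_bound_of_continuousOn
    (xL_cont (n := n)).continuousOn
  refine ⟨|M|, abs_nonneg M, fun x hx => (hM x ?_).trans (le_abs_self M)⟩
  rwa [mem_closedBall_zero_iff]

/-! ### the unnormalised moments -/

private lemma ex_cont (s : SS n) : Continuous (ex s) := by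
  have : ex s = fun x => xL x s := by
    funext x
    rw [xL_apply]
  rw [this]
  exact xL_cont.clm_apply continuous_const

private lemma ex_bd (R : ℝ) (s : SS n) : ∃ M : ℝ, ∀ x : Eu n, ‖x‖ ≤ R → Real.exp (ex s x) ≤ M := by
  obtain ⟨M, -, hM⟩ := xL_bd (n := n) R
  refine ⟨Real.exp (M * ‖s‖), fun x hx => ?_⟩
  rw [← xL_apply]
  apply Real.exp_le_exp.mpr
  refine (le_abs_self _).trans (((xL x).le_opNorm s).trans ?_)
  exact mul_le_mul_of_nonneg_right (hM x hx) (norm_nonneg s)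

private lemma BF.exps (h : Hy μ R) (s : SS n) : BF μ (fun x => Real.exp (ex s x)) := by
  obtain ⟨M, hM⟩ := ex_bd (n := n) R s
  refine ⟨((ex_cont s).rexp).aestronglyMeasurable, M, ?_⟩
  filter_upwards [h.bs] with x hx
  rw [abs_of_pos (Real.exp_pos _)]
  exact hM x hx

private lemma BF.int (h : Hy μ R) (hψ : BF μ ψ) : Integrable ψ μ := by
  have := h.pr
  obtain ⟨C, hC⟩ := hψ.bd
  exact Integrable.of_bound hψ.ms C (by simpa only [Real.norm_eq_abs] using hC)

private lemma Nf_int (h : Hy μ R) (hψ : BF μ ψ) (s : SS n) :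
    Integrable (fun x => ψ x * Real.exp (ex s x)) μ :=
  BF.int h (hψ.mul (BF.exps h s))

theorem Nf_pos (h : Hy μ R) (s : SS n) : 0 < Nf μ (fun _ => 1) s := by
  have := h.pr
  unfold Nf
  simp only [one_mul]
  exact integral_exp_pos (BF.int h (BF.exps h s))

private lemma Nf_lin (h : Hy μ R) (hψ : BF μ ψ) (hφ : BF μ φ) (a b : ℝ) (s : SS n) :
    Nf μ (fun x => a * ψ x + b * φ x) s = a * Nf μ ψ s + b * Nf μ φ s := by
  unfold Nf
  rw [← integral_const_mul, ← integral_const_mul, ← integral_add]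
  · congr 1
    funext x
    ring
  · exact (Nf_int h hψ s).const_mul a
  · exact (Nf_int h hφ s).const_mul b

private lemma Nf_deriv (h : Hy μ R) (hψ : BF μ ψ) (s : SS n) :
    HasFDerivAt (Nf μ ψ) (∫ x, (ψ x * Real.exp (ex s x)) • xL x ∂μ) s := by
  have := h.pr
  obtain ⟨C, hC⟩ := hψ.bd
  obtain ⟨M, hM0, hM⟩ := xL_bd (n := n) R
  have h1 := hasFDerivAt_integral_of_dominated_of_fderiv_le (μ := μ) (𝕜 := ℝ)
    (F := fun (s : SS n) (x : Eu n) => ψ x * Real.exp (xL x s))
    (F' := fun (s : SS n) (x : Eu n) => (ψ x * Real.exp (xL x s)) • xL x)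
    (x₀ := s) (s := Metric.ball s 1)
    (bound := fun _ => |C| * Real.exp (M * (‖s‖ + 1)) * M)
    (Metric.ball_mem_nhds s one_pos)
    (Eventually.of_forall fun s' => hψ.ms.mul
      ((xL_cont.clm_apply continuous_const).rexp).aestronglyMeasurable)
    (by
      have := Nf_int h hψ s
      simpa only [xL_apply] using this)
    ((hψ.ms.mul ((xL_cont.clm_apply continuous_const).rexp).aestronglyMeasurable).smul
      xL_cont.aestronglyMeasurable)
    (by
      filter_upwards [hC, h.bs] with x hx hR s' hs'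
      rw [norm_smul, Real.norm_eq_abs, abs_mul, abs_of_pos (Real.exp_pos _)]
      refine mul_le_mul (mul_le_mul (hx.trans (le_abs_self C)) ?_ (Real.exp_pos _).le
        (abs_nonneg C)) (hM x hR) (norm_nonneg _) (by positivity)
      apply Real.exp_le_exp.mpr
      refine (le_abs_self _).trans (((xL x).le_opNorm s').trans ?_)
      refine mul_le_mul (hM x hR) ?_ (norm_nonneg _) hM0
      rw [Metric.mem_ball, dist_eq_norm] at hs'
      have := norm_sub_norm_le s' s
      linarith)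
    (integrable_const _)
    (Eventually.of_forall fun x s' _ => by
      have h2 : HasFDerivAt (fun s'' : SS n => Real.exp (xL x s''))
          (Real.exp (xL x s') • xL x) s' := (xL x).hasFDerivAt.exp
      have h3 := h2.const_mul (ψ x)
      rwa [smul_smul] at h3)
  simp only [xL_apply] at h1
  exact h1

private lemma BF.lin2 (h : Hy μ R) (hψ : BF μ ψ) (v : Eu n) (H : MM n) :
    BF μ (fun x => ψ x * (FK.ln v x - qf H x / 2)) := by
  apply hψ.mul
  obtain ⟨M, hM0, hM⟩ := xL_bd (n := n) R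
  have h1 : (fun x => FK.ln v x - qf H x / 2) = fun x => xL x (v, H) := by
    funext x
    rw [xL_apply']
  rw [h1]
  refine ⟨(xL_cont.clm_apply continuous_const).aestronglyMeasurable, M * ‖((v, H) : SS n)‖, ?_⟩
  filter_upwards [h.bs] with x hx
  exact ((xL x).le_opNorm _).trans (mul_le_mul_of_nonneg_right (hM x hx) (norm_nonneg _))

private lemma Nf_fderiv (h : Hy μ R) (hψ : BF μ ψ) (s : SS n) (v : Eu n) (H : MM n) :
    fderiv ℝ (Nf μ ψ) s (v, H) = Nf μ (fun x => ψ x * (FK.ln v x - qf H x / 2)) s := by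
  have := h.pr
  rw [(Nf_deriv h hψ s).fderiv, ContinuousLinearMap.integral_apply]
  · unfold Nf
    congr 1
    funext x
    show (ψ x * Real.exp (ex s x)) * xL x (v, H) = _
    rw [xL_apply']
    ring
  · obtain ⟨M, hM0, hM⟩ := xL_bd (n := n) R
    obtain ⟨C, hC⟩ := (hψ.mul (BF.exps h s)).bd
    refine Integrable.of_bound ((hψ.mul (BF.exps h s)).ms.smul xL_cont.aestronglyMeasurable)
      (|C| * M) ?_
    filter_upwards [hC, h.bs] with x hx hR
    rw [norm_smul, Real.norm_eq_abs]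
    exact mul_le_mul (hx.trans (le_abs_self C)) (hM x hR) (norm_nonneg _) (abs_nonneg _)

private lemma Nf_smooth_nat (h : Hy μ R) (N : ℕ) : ∀ ψ : Eu n → ℝ, BF μ ψ →
    ContDiff ℝ N (Nf μ ψ) := by
  induction N with
  | zero =>
    intro ψ hψ
    have h1 : Continuous (Nf μ ψ) :=
      continuous_iff_continuousAt.mpr fun s => (Nf_deriv h hψ s).continuousAt
    exact_mod_cast contDiff_zero.mpr h1
  | succ N ih =>
    intro ψ hψ
    have h2 : ContDiff ℝ ((N : WithTop ℕ∞) + 1) (Nf μ ψ) := by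
      rw [contDiff_succ_iff_fderiv_apply]
      refine ⟨fun s => (Nf_deriv h hψ s).differentiableAt, fun h3 => ?_, fun y => ?_⟩
      · exact absurd h3 (WithTop.natCast_ne_top N)
      · obtain ⟨v, H⟩ := y
        have h4 : (fun s => fderiv ℝ (Nf μ ψ) s (v, H)) =
            Nf μ (fun x => ψ x * (FK.ln v x - qf H x / 2)) := by
          funext s
          exact Nf_fderiv h hψ s v H
        rw [h4]
        exact ih _ (BF.lin2 h hψ v H)
    exact_mod_cast h2

private lemma Nf_smooth (h : Hy μ R) (hψ : BF μ ψ) : ContDiff ℝ ∞ (Nf μ ψ) :=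
  contDiff_infty.mpr fun N => Nf_smooth_nat h N ψ hψ

/-! ### moments -/

/-- the state `s` as a measure -/
theorem mo_eq_tilted (h : Hy μ R) (hψ : BF μ ψ) (s : SS n) :
    mo μ ψ s = ∫ x, ψ x ∂(μ.tilted (ex s)) := by
  rw [integral_tilted]
  unfold mo Nf
  rw [← integral_div]
  congr 1
  funext x
  simp only [one_mul, smul_eq_mul]
  ring

theorem mo_one (h : Hy μ R) (c : ℝ) (s : SS n) : mo μ (fun _ => c) s = c := by
  unfold mo
  have h1 : Nf μ (fun _ => c) s = c * Nf μ (fun _ => 1) s := by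
    unfold Nf
    rw [← integral_const_mul]
    simp only [one_mul]
  rw [h1, mul_div_assoc, div_self (Nf_pos h s).ne', mul_one]

theorem mo_lin (h : Hy μ R) (hψ : BF μ ψ) (hφ : BF μ φ) (a b : ℝ) (s : SS n) :
    mo μ (fun x => a * ψ x + b * φ x) s = a * mo μ ψ s + b * mo μ φ s := by
  unfold mo
  rw [Nf_lin h hψ hφ]
  ring

theorem mo_abs_le (h : Hy μ R) {C : ℝ} (hψ : BF μ ψ) (hC : ∀ᵐ x ∂μ, |ψ x| ≤ C) (s : SS n) :
    |mo μ ψ s| ≤ C := by
  have hZ := Nf_pos h s
  unfold mo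
  rw [abs_div, abs_of_pos hZ, div_le_iff₀ hZ]
  unfold Nf
  rw [← integral_const_mul]
  refine (abs_integral_le_integral_abs).trans ?_
  refine integral_mono_ae (Nf_int h hψ s).abs ((Nf_int h (BF.const h 1) s).const_mul C) ?_
  filter_upwards [hC] with x hx
  show |ψ x * Real.exp (ex s x)| ≤ C * (1 * Real.exp (ex s x))
  rw [abs_mul, abs_of_pos (Real.exp_pos _), one_mul]
  exact mul_le_mul_of_nonneg_right hx (Real.exp_pos _).le

theorem mo_nonneg (h : Hy μ R) (hψ : BF μ ψ) (hC : ∀ᵐ x ∂μ, 0 ≤ ψ x) (s : SS n) :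
    0 ≤ mo μ ψ s := by
  unfold mo
  refine div_nonneg ?_ (Nf_pos h s).le
  refine integral_nonneg_of_ae ?_
  filter_upwards [hC] with x hx
  exact mul_nonneg hx (Real.exp_pos _).le

theorem mo_smooth (h : Hy μ R) (hψ : BF μ ψ) : ContDiff ℝ ∞ (mo μ ψ) := by
  unfold mo
  exact (Nf_smooth h hψ).div (Nf_smooth h (BF.const h 1)) fun s => (Nf_pos h s).ne'

theorem mo_fderiv (h : Hy μ R) (hψ : BF μ ψ) (s : SS n) (v : Eu n) (H : MM n) :
    fderiv ℝ (mo μ ψ) s (v, H) =
      mo μ (fun x => ψ x * (ln v x - qf H x / 2)) s -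
        mo μ ψ s * mo μ (fun x => ln v x - qf H x / 2) s := by
  have hZ := (Nf_pos h s).ne'
  have h1 := Nf_deriv h hψ s
  have h2 := Nf_deriv h (BF.const h 1) s
  have h0 : HasFDerivAt (mo μ ψ) (fderiv ℝ (mo μ ψ) s) s :=
    ((mo_smooth h hψ).differentiable (by simp) s).hasFDerivAt
  have h3 := h0.mul h2
  have h4 : mo μ ψ * Nf μ (fun _ => 1) = Nf μ ψ := by
    funext s'
    show Nf μ ψ s' / Nf μ (fun _ => 1) s' * Nf μ (fun _ => 1) s' = Nf μ ψ s'
    exact div_mul_cancel₀ _ (Nf_pos h s').ne'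
  rw [h4] at h3
  have e1 := Nf_fderiv h hψ s v H
  have e2 := Nf_fderiv h (BF.const h 1) s v H
  rw [h3.fderiv] at e1
  rw [h2.fderiv] at e2
  simp only [one_mul] at e1 e2
  simp only [ContinuousLinearMap.add_apply, ContinuousLinearMap.smul_apply, smul_eq_mul] at e1
  rw [e2] at e1
  have e3 : mo μ (fun x => ψ x * (ln v x - qf H x / 2)) s * Nf μ (fun _ => 1) s =
      Nf μ (fun x => ψ x * (ln v x - qf H x / 2)) s := div_mul_cancel₀ _ hZ
  have e4 : mo μ (fun x => ln v x - qf H x / 2) s * Nf μ (fun _ => 1) s =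
      Nf μ (fun x => ln v x - qf H x / 2) s := div_mul_cancel₀ _ hZ
  apply mul_right_cancel₀ hZ
  rw [sub_mul, e3, mul_assoc, e4]
  linarith

end Pool.Agent.Lib.MP_6d896a_gt.FK
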