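import Mathlib
import Pool.Agent.Lib.MP_6d896a_gt.FK.Cal1

/-!
Project FK: smoothness and algebra of the cumulants, second half.
-/

set_option autoImplicit false

namespace Pool.Agent.Lib.MP_6d896a_gt.FK

open MeasureTheory Filter Topology Set
open Pool.Agent.Lib.MP_6d896a_gt.LG (BS Cv Thin CovL SP VarE CovLe)
open scoped ENNReal NNReal ContDiff

variable {n : ℕ} {μ : Measure (Eu n)} {R : ℝ} {ψ φ : Eu n → ℝ} {s : SS n}

theorem D_smooth {G : SS n → ℝ} (hG : ContDiff ℝ ∞ G) (v : Eu n) : ContDiff ℝ ∞ (D v G) := by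
  unfold D
  exact (hG.fderiv_right (m := ∞) (by simp)).clm_apply contDiff_const

theorem F_smooth (h : Hy μ R) (hψ : BF μ ψ) (L : List (Eu n)) : ContDiff ℝ ∞ (F μ ψ L) := by
  induction L with
  | nil => exact mo_smooth h hψ
  | cons v L ih => exact D_smooth ih v

theorem F_cons (v : Eu n) (L : List (Eu n)) : F μ ψ (v :: L) = D v (F μ ψ L) := rfl

theorem F_nil : F μ ψ [] = mo μ ψ := rfl

private theorem cal2_D_lin {G H : SS n → ℝ} (hG : ContDiff ℝ ∞ G) (hH : ContDiff ℝ ∞ H)
    (a b : ℝ) (v : Eu n) :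
    D v (fun s => a * G s + b * H s) = fun s => a * D v G s + b * D v H s := by
  funext s
  have hG1 : DifferentiableAt ℝ G s := (hG.differentiable (by simp)).differentiableAt
  have hH1 : DifferentiableAt ℝ H s := (hH.differentiable (by simp)).differentiableAt
  have h1 : HasFDerivAt (fun s => a * G s + b * H s) (a • fderiv ℝ G s + b • fderiv ℝ H s) s :=
    (hG1.hasFDerivAt.const_mul a).add (hH1.hasFDerivAt.const_mul b)
  unfold D
  rw [h1.fderiv]
  simp

private theorem cal2_D_vec {G : SS n → ℝ} (a b : ℝ) (v w : Eu n) :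
    D (a • v + b • w) G = fun s => a * D v G s + b * D w G s := by
  funext s
  unfold D
  have h1 : ((a • v + b • w, 0) : SS n) = a • ((v, 0) : SS n) + b • ((w, 0) : SS n) := by
    ext <;> simp
  rw [h1, map_add, map_smul, map_smul, smul_eq_mul, smul_eq_mul]

private theorem cal2_ML (h : Hy μ R) (hψ : BF μ ψ) (L L' : List (Eu n)) (a b : ℝ) (v w : Eu n) :
    F μ ψ (L ++ (a • v + b • w) :: L') =
      fun s => a * F μ ψ (L ++ v :: L') s + b * F μ ψ (L ++ w :: L') s := by
  induction L with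
  | nil =>
    simp only [List.nil_append]
    rw [F_cons, cal2_D_vec]
    rfl
  | cons x L ih =>
    simp only [List.cons_append]
    rw [F_cons, ih, cal2_D_lin (F_smooth h hψ _) (F_smooth h hψ _)]
    rfl

theorem F_ML (h : Hy μ R) (hψ : BF μ ψ) (s : SS n) : ML (fun L => F μ ψ L s) := by
  intro L L' a b v w
  exact congrFun (cal2_ML h hψ L L' a b v w) s

private theorem cal2_D_comm {G : SS n → ℝ} (hG : ContDiff ℝ ∞ G) (v w : Eu n) :
    D v (D w G) = D w (D v G) := by
  funext s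
  have h1 : ∀ u : SS n, fderiv ℝ (fun s => fderiv ℝ G s u) s =
      (fderiv ℝ (fderiv ℝ G) s).flip u := by
    intro u
    have hd : DifferentiableAt ℝ (fderiv ℝ G) s :=
      ((hG.fderiv_right (m := ∞) (by simp)).differentiable (by simp)).differentiableAt
    refine ContinuousLinearMap.ext fun x => ?_
    rw [fderiv_clm_apply hd (differentiableAt_const u)]
    simp
  have h2 : IsSymmSndFDerivAt ℝ G s := by
    apply ContDiffAt.isSymmSndFDerivAt hG.contDiffAt
    simp only [minSmoothness_of_isRCLikeNormedField]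
    exact WithTop.coe_le_coe.2 (le_top : (2 : ℕ∞) ≤ ⊤)
  change fderiv ℝ (fun s => fderiv ℝ G s (w, 0)) s (v, 0) =
    fderiv ℝ (fun s => fderiv ℝ G s (v, 0)) s (w, 0)
  rw [h1, h1]
  exact h2 (v, 0) (w, 0)

theorem F_perm (h : Hy μ R) (hψ : BF μ ψ) {L L' : List (Eu n)} (hL : L.Perm L') :
    F μ ψ L = F μ ψ L' := by
  induction hL with
  | nil => rfl
  | cons x _ ih => rw [F_cons, F_cons, ih]
  | swap x y l => exact cal2_D_comm (F_smooth h hψ l) y x
  | trans _ _ ih1 ih2 => exact ih1.trans ih2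

theorem F_Sm (h : Hy μ R) (hψ : BF μ ψ) (s : SS n) : Sm (fun L => F μ ψ L s) := by
  intro L L' hL
  exact congrFun (F_perm h hψ hL) s

private theorem cal2_lin (h : Hy μ R) (hψ : BF μ ψ) (hφ : BF μ φ) (a b : ℝ)
    (L : List (Eu n)) :
    F μ (fun x => a * ψ x + b * φ x) L = fun s => a * F μ ψ L s + b * F μ φ L s := by
  induction L with
  | nil =>
    funext s
    exact mo_lin h hψ hφ a b s
  | cons v L ih =>
    rw [F_cons, ih, cal2_D_lin (F_smooth h hψ _) (F_smooth h hφ _)]
    rfl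

theorem F_lin (h : Hy μ R) (hψ : BF μ ψ) (hφ : BF μ φ) (a b : ℝ) (L : List (Eu n)) (s : SS n) :
    F μ (fun x => a * ψ x + b * φ x) L s = a * F μ ψ L s + b * F μ φ L s :=
  congrFun (cal2_lin h hψ hφ a b L) s

private theorem cal2_const (h : Hy μ R) (c : ℝ) (L : List (Eu n)) :
    ∃ c' : ℝ, F μ (fun _ => c) L = fun _ => c' := by
  induction L with
  | nil => exact ⟨c, funext fun s => mo_one h c s⟩
  | cons v L ih =>
    obtain ⟨c', hc'⟩ := ih
    refine ⟨0, ?_⟩
    rw [F_cons, hc']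
    funext s
    unfold D
    simp

theorem F_const (h : Hy μ R) (c : ℝ) (v : Eu n) (L : List (Eu n)) (s : SS n) :
    F μ (fun _ => c) (v :: L) s = 0 := by
  obtain ⟨c', hc'⟩ := cal2_const h c L
  rw [F_cons, hc']
  unfold D
  simp

theorem F_ae (h : Hy μ R) (hψ : ψ =ᵐ[μ] φ) (L : List (Eu n)) : F μ ψ L = F μ φ L := by
  induction L with
  | nil =>
    funext s
    change Nf μ ψ s / _ = Nf μ φ s / _
    congr 1
    unfold Nf
    apply integral_congr_ae
    filter_upwards [hψ] with x hx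
    rw [hx]
  | cons v L ih => rw [F_cons, F_cons, ih]

theorem F_ln_sum (h : Hy μ R) {ι : Type} (t : Finset ι) (c : ι → ℝ) (v : ι → Eu n)
    (L : List (Eu n)) (s : SS n) :
    F μ (ln (∑ a ∈ t, c a • v a)) L s = ∑ a ∈ t, c a * F μ (ln (v a)) L s := by
  classical
  induction t using Finset.induction_on with
  | empty =>
    have h0 : ln (∑ a ∈ (∅ : Finset ι), c a • v a) = fun _ : Eu n => (0 : ℝ) := by
      funext x
      simp [ln]
    rw [h0, Finset.sum_empty]
    cases L with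
    | nil => exact mo_one h 0 s
    | cons u L => exact F_const h 0 u L s
  | insert a t ha ih =>
    have h1 : ln (∑ b ∈ insert a t, c b • v b) =
        fun x => c a * ln (v a) x + 1 * ln (∑ b ∈ t, c b • v b) x := by
      funext x
      unfold ln
      rw [Finset.sum_insert ha, inner_add_right, inner_smul_right, one_mul]
    rw [h1, F_lin h (BF.ln h _) (BF.ln h _), ih, Finset.sum_insert ha, one_mul]

theorem F_one (h : Hy μ R) (hψ : BF μ ψ) (v : Eu n) (s : SS n) :
    F μ ψ [v] s = mo μ (fun x => ψ x * ln v x) s - mo μ ψ s * mo μ (ln v) s := by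
  have h1 := mo_fderiv h hψ s v 0
  have h2 : ∀ x : Eu n, qf (0 : MM n) x = 0 := by
    intro x
    simp [qf]
  have h3 : (fun x => ψ x * (ln v x - qf (0 : MM n) x / 2)) = fun x => ψ x * ln v x := by
    funext x
    rw [h2, zero_div, sub_zero]
  have h4 : (fun x => ln v x - qf (0 : MM n) x / 2) = ln v := by
    funext x
    rw [h2, zero_div, sub_zero]
  rw [h3, h4] at h1
  exact h1

private theorem cal2_append (L L' : List (Eu n)) :
    F μ ψ (L ++ L') = L.foldr (fun v G => D v G) (F μ ψ L') := by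
  induction L with
  | nil => rfl
  | cons v L ih =>
    rw [List.cons_append, F_cons, ih]
    rfl

/-- cumulants of linear functionals are symmetric (`mo μ (ln w) = D w (log (Nf μ 1))`) -/
theorem F_ln_swap (h : Hy μ R) (v w : Eu n) (L : List (Eu n)) (s : SS n) :
    F μ (ln w) (v :: L) s = F μ (ln v) (w :: L) s := by
  have h1 : F μ (ln w) [v] = F μ (ln v) [w] := by
    funext s
    rw [F_one h (BF.ln h _), F_one h (BF.ln h _), mul_comm (mo μ (ln w) s)]
    congr 2
    funext x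
    rw [mul_comm]
  have h2 : (v :: L).Perm (L ++ [v]) := (List.perm_append_singleton v L).symm
  have h3 : (w :: L).Perm (L ++ [w]) := (List.perm_append_singleton w L).symm
  rw [F_perm h (BF.ln h _) h2, F_perm h (BF.ln h _) h3, cal2_append, cal2_append, h1]

theorem Vr_ln (h : Hy μ R) (w : Eu n) (s : SS n) : Vr μ (ln w) s = F μ (ln w) [w] s := by
  rw [F_one h (BF.ln h _)]
  unfold Vr
  rw [sq (mo μ (ln w) s)]
  congr 2
  funext x
  rw [sq]

theorem Vr_nonneg (h : Hy μ R) (hψ : BF μ ψ) (s : SS n) : 0 ≤ Vr μ ψ s := by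
  have h1 : 0 ≤ mo μ (fun x => (1 * ψ x + -(mo μ ψ s) * 1) ^ 2) s := by
    exact mo_nonneg h ((hψ.smul 1).add ((BF.const h 1).smul (-(mo μ ψ s)))).sq
      (Eventually.of_forall fun x => sq_nonneg _) s
  have h2 : (fun x => (1 * ψ x + -(mo μ ψ s) * 1) ^ 2) =
      fun x => 1 * (ψ x ^ 2) + 1 * ((-2 * mo μ ψ s) * ψ x + (mo μ ψ s ^ 2) * 1) := by
    funext x
    ring
  rw [h2, mo_lin h hψ.sq ((hψ.smul _).add ((BF.const h 1).smul _)),
    mo_lin h hψ (BF.const h 1), mo_one h 1] at h1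
  unfold Vr
  linarith [h1]

theorem Vr_smooth (h : Hy μ R) (hψ : BF μ ψ) : ContDiff ℝ ∞ (Vr μ ψ) := by
  unfold Vr
  exact (mo_smooth h hψ.sq).sub ((mo_smooth h hψ).pow 2)

theorem Vr_smul (h : Hy μ R) (hψ : BF μ ψ) (a : ℝ) (s : SS n) :
    Vr μ (fun x => a * ψ x) s = a ^ 2 * Vr μ ψ s := by
  have h1 : (fun x => (a * ψ x) ^ 2) = fun x => a ^ 2 * (ψ x ^ 2) + 0 * (ψ x ^ 2) := by
    funext x
    ring
  have h2 : (fun x => a * ψ x) = fun x => a * ψ x + 0 * ψ x := by
    funext x
    ring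
  unfold Vr
  rw [h1, h2, mo_lin h hψ.sq hψ.sq, mo_lin h hψ hψ]
  ring

end Pool.Agent.Lib.MP_6d896a_gt.FK
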