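import Mathlib
import Pool.Agent.Lib.MP_6d896a_gt.FK.Cal1

/-!
Project FK: uniform bounds of the cumulants.
-/

set_option autoImplicit false

namespace Pool.Agent.Lib.MP_6d896a_gt.FK

open MeasureTheory Filter Topology Set
open Pool.Agent.Lib.MP_6d896a_gt.LG (BS Cv Thin CovL SP VarE CovLe)
open scoped ENNReal NNReal ContDiff

variable {n : ℕ} {μ : Measure (Eu n)} {R : ℝ} {ψ φ : Eu n → ℝ} {s : SS n}

/-- iterated derivatives with respect to the tilt vector -/
private noncomputable def DL : List (Eu n) → (SS n → ℝ) → SS n → ℝ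
  | [], G => G
  | v :: L, G => D v (DL L G)

private theorem F_eq_DL (L : List (Eu n)) : F μ ψ L = DL L (mo μ ψ) := by
  induction L with
  | nil => rfl
  | cons v L ih =>
    show D v (F μ ψ L) = D v (DL L (mo μ ψ))
    rw [ih]

private theorem DL_snoc (L : List (Eu n)) (v : Eu n) (G : SS n → ℝ) :
    DL (L ++ [v]) G = DL L (D v G) := by
  induction L with
  | nil => rfl
  | cons w L ih =>
    show D w (DL (L ++ [v]) G) = D w (DL L (D v G))
    rw [ih]

private theorem D_sm {G : SS n → ℝ} (hG : ContDiff ℝ ∞ G) (v : Eu n) : ContDiff ℝ ∞ (D v G) := by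
  have h1 : ContDiff ℝ ∞ (fderiv ℝ G) := hG.fderiv_right (by simp)
  exact h1.clm_apply contDiff_const

private theorem DL_sm {G : SS n → ℝ} (hG : ContDiff ℝ ∞ G) (L : List (Eu n)) :
    ContDiff ℝ ∞ (DL L G) := by
  induction L with
  | nil => exact hG
  | cons v L ih => exact D_sm ih v

private theorem D_sub {G H : SS n → ℝ} (hG : ContDiff ℝ ∞ G) (hH : ContDiff ℝ ∞ H) (v : Eu n) :
    D v (fun s => G s - H s) = fun s => D v G s - D v H s := by
  funext s
  unfold D
  have h1 := (hG.differentiable (by simp)) s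
  have h2 := (hH.differentiable (by simp)) s
  rw [fderiv_fun_sub h1 h2]
  rfl

private theorem D_add {G H : SS n → ℝ} (hG : ContDiff ℝ ∞ G) (hH : ContDiff ℝ ∞ H) (v : Eu n) :
    D v (fun s => G s + H s) = fun s => D v G s + D v H s := by
  funext s
  unfold D
  have h1 := (hG.differentiable (by simp)) s
  have h2 := (hH.differentiable (by simp)) s
  rw [fderiv_fun_add h1 h2]
  rfl

private theorem D_mul {G H : SS n → ℝ} (hG : ContDiff ℝ ∞ G) (hH : ContDiff ℝ ∞ H) (v : Eu n) :
    D v (fun s => G s * H s) = fun s => G s * D v H s + H s * D v G s := by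
  funext s
  unfold D
  have h1 := (hG.differentiable (by simp)) s
  have h2 := (hH.differentiable (by simp)) s
  rw [fderiv_fun_mul h1 h2]
  simp

private theorem DL_sub {G H : SS n → ℝ} (hG : ContDiff ℝ ∞ G) (hH : ContDiff ℝ ∞ H)
    (L : List (Eu n)) : DL L (fun s => G s - H s) = fun s => DL L G s - DL L H s := by
  induction L with
  | nil => rfl
  | cons v L ih =>
    show D v (DL L (fun s => G s - H s)) = _
    rw [ih, D_sub (DL_sm hG L) (DL_sm hH L)]
    rfl

private theorem DL_add {G H : SS n → ℝ} (hG : ContDiff ℝ ∞ G) (hH : ContDiff ℝ ∞ H)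
    (L : List (Eu n)) : DL L (fun s => G s + H s) = fun s => DL L G s + DL L H s := by
  induction L with
  | nil => rfl
  | cons v L ih =>
    show D v (DL L (fun s => G s + H s)) = _
    rw [ih, D_add (DL_sm hG L) (DL_sm hH L)]
    rfl

/-- bounds of the iterated derivatives of order at most `m` -/
private def Bd (m : ℕ) (A : ℝ) (G : SS n → ℝ) : Prop :=
  ∀ L : List (Eu n), L.length ≤ m → ∀ s, |DL L G s| ≤ A * (L.map norm).prod

private theorem prod_nonneg' (L : List (Eu n)) : 0 ≤ (L.map norm).prod := by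
  refine List.prod_nonneg ?_
  intro a ha
  obtain ⟨v, -, rfl⟩ := List.mem_map.1 ha
  exact norm_nonneg v

private theorem prod_snoc (L : List (Eu n)) (v : Eu n) :
    ((L ++ [v]).map norm).prod = (L.map norm).prod * ‖v‖ := by
  simp

private theorem Bd.D {m : ℕ} {A : ℝ} {G : SS n → ℝ} (hG : Bd (m + 1) A G) (v : Eu n) :
    Bd m (A * ‖v‖) (D v G) := by
  intro L hL s
  have h := hG (L ++ [v]) (by simp; omega) s
  rw [DL_snoc, prod_snoc] at h
  refine h.trans (le_of_eq ?_)
  ring

private theorem Bd.mono {m m' : ℕ} {A : ℝ} {G : SS n → ℝ} (hG : Bd m A G) (h : m' ≤ m) :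
    Bd m' A G := fun L hL s => hG L (hL.trans h) s

private theorem Bd.mul {m : ℕ} : ∀ {A B : ℝ} {G H : SS n → ℝ}, ContDiff ℝ ∞ G → ContDiff ℝ ∞ H →
    0 ≤ A → 0 ≤ B → Bd m A G → Bd m B H → Bd m (2 ^ m * A * B) (fun s => G s * H s) := by
  induction m with
  | zero =>
    intro A B G H _ _ hA hB bG bH L hL s
    have hL0 : L = [] := List.length_eq_zero_iff.1 (Nat.le_zero.1 hL)
    subst hL0
    have h1 := bG [] le_rfl s
    have h2 := bH [] le_rfl s
    simp only [List.map_nil, List.prod_nil, mul_one, DL] at h1 h2 ⊢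
    rw [abs_mul, pow_zero, one_mul]
    exact mul_le_mul h1 h2 (abs_nonneg _) hA
  | succ m ih =>
    intro A B G H sG sH hA hB bG bH L hL s
    rcases List.eq_nil_or_concat L with rfl | ⟨L', v, rfl⟩
    · have h1 := bG [] (Nat.zero_le _) s
      have h2 := bH [] (Nat.zero_le _) s
      simp only [List.map_nil, List.prod_nil, mul_one, DL] at h1 h2 ⊢
      rw [abs_mul]
      have h3 : |G s| * |H s| ≤ A * B := mul_le_mul h1 h2 (abs_nonneg _) hA
      have h4 : (1 : ℝ) ≤ 2 ^ (m + 1) := one_le_pow₀ (by norm_num)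
      have h5 : 0 ≤ A * B := mul_nonneg hA hB
      nlinarith
    · rw [List.concat_eq_append] at hL ⊢
      have hL' : L'.length ≤ m := by
        rw [List.length_append, List.length_singleton] at hL
        omega
      rw [DL_snoc, D_mul sG sH, DL_add (sG.mul (D_sm sH v)) (sH.mul (D_sm sG v)), prod_snoc]
      have h1 := ih sG (D_sm sH v) hA (mul_nonneg hB (norm_nonneg v))
        (bG.mono (Nat.le_succ m)) (bH.D v) L' hL' s
      have h2 := ih sH (D_sm sG v) hB (mul_nonneg hA (norm_nonneg v))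
        (bH.mono (Nat.le_succ m)) (bG.D v) L' hL' s
      refine (abs_add_le _ _).trans ((add_le_add h1 h2).trans (le_of_eq ?_))
      ring

private theorem D_mo (h : Hy μ R) (hψ : BF μ ψ) (v : Eu n) :
    D v (mo μ ψ) = fun s => mo μ (fun x => ψ x * ln v x) s - mo μ ψ s * mo μ (ln v) s := by
  funext s
  unfold D
  rw [mo_fderiv h hψ s v 0]
  have e : ∀ x : Eu n, qf 0 x = 0 := by
    intro x
    simp [qf]
  have e1 : (fun x => ψ x * (ln v x - qf 0 x / 2)) = fun x => ψ x * ln v x := by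
    funext x; rw [e]; ring
  have e2 : (fun x => ln v x - qf 0 x / 2) = ln v := by
    funext x; rw [e]; ring
  rw [e1, e2]

private theorem ln_le (h : Hy μ R) (v : Eu n) : ∀ᵐ x ∂μ, |ln v x| ≤ R * ‖v‖ := by
  filter_upwards [h.bs] with x hx
  refine (abs_real_inner_le_norm x v).trans ?_
  exact mul_le_mul_of_nonneg_right hx (norm_nonneg v)

private theorem mo_Bd (h : Hy μ R) (m : ℕ) : ∃ C : ℝ, 0 ≤ C ∧ ∀ (ψ : Eu n → ℝ) (c : ℝ), 0 ≤ c →
    AEStronglyMeasurable ψ μ → (∀ᵐ x ∂μ, |ψ x| ≤ c) → Bd m (C * c) (mo μ ψ) := by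
  have hR : 0 ≤ R := zero_le_one.trans h.R1
  induction m with
  | zero =>
    refine ⟨1, zero_le_one, ?_⟩
    intro ψ c _ hm hb L hL s
    have hL0 : L = [] := List.length_eq_zero_iff.1 (Nat.le_zero.1 hL)
    subst hL0
    simp only [List.map_nil, List.prod_nil, mul_one, one_mul, DL]
    exact mo_abs_le h ⟨hm, c, hb⟩ hb s
  | succ m ih =>
    obtain ⟨C, hC, ih⟩ := ih
    refine ⟨1 + C * R + 2 ^ m * C ^ 2 * R, by positivity, ?_⟩
    intro ψ c hc hm hb L hL s
    have hψ : BF μ ψ := ⟨hm, c, hb⟩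
    rcases List.eq_nil_or_concat L with rfl | ⟨L', v, rfl⟩
    · simp only [List.map_nil, List.prod_nil, mul_one, DL]
      have h1 := mo_abs_le h hψ hb s
      have h2 : 0 ≤ C * R * c := by positivity
      have h3 : 0 ≤ 2 ^ m * C ^ 2 * R * c := by positivity
      linarith
    · rw [List.concat_eq_append] at hL ⊢
      have hL' : L'.length ≤ m := by
        rw [List.length_append, List.length_singleton] at hL
        omega
      have hln : BF μ (ln v) := BF.ln h v
      have hlnb := ln_le h v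
      have hmul : BF μ (fun x => ψ x * ln v x) := BF.mul hψ hln
      have hmulb : ∀ᵐ x ∂μ, |ψ x * ln v x| ≤ c * (R * ‖v‖) := by
        filter_upwards [hb, hlnb] with x h1 h2
        rw [abs_mul]
        exact mul_le_mul h1 h2 (abs_nonneg _) hc
      have hv : 0 ≤ R * ‖v‖ := by positivity
      have b1 := ih _ _ (mul_nonneg hc hv) hmul.ms hmulb L' hL' s
      have b2 := ih _ _ hc hm hb
      have b3 := ih _ _ hv hln.ms hlnb
      have b4 := Bd.mul (mo_smooth h hψ) (mo_smooth h hln) (mul_nonneg hC hc) (mul_nonneg hC hv)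
        b2 b3 L' hL' s
      rw [DL_snoc, D_mo h hψ, DL_sub (mo_smooth h hmul) ((mo_smooth h hψ).mul (mo_smooth h hln)),
        prod_snoc]
      refine (abs_sub _ _).trans ((add_le_add b1 b4).trans ?_)
      have h5 : 0 ≤ c * ((L'.map norm).prod * ‖v‖) :=
        mul_nonneg hc (mul_nonneg (prod_nonneg' L') (norm_nonneg v))
      have e : C * (c * (R * ‖v‖)) * (L'.map norm).prod +
          2 ^ m * (C * c) * (C * (R * ‖v‖)) * (L'.map norm).prod =
          (1 + C * R + 2 ^ m * C ^ 2 * R) * c * ((L'.map norm).prod * ‖v‖) -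
            c * ((L'.map norm).prod * ‖v‖) := by ring
      rw [e]
      linarith

/-- uniform bounds; the constant does not depend on `ψ`, on the vectors and on the state -/
theorem F_bdd (h : Hy μ R) (m : ℕ) : ∃ C : ℝ, 0 ≤ C ∧ ∀ ψ, B1 μ ψ → ∀ L : List (Eu n),
    L.length = m → ∀ s, |F μ ψ L s| ≤ C * (L.map norm).prod := by
  obtain ⟨C, hC, hB⟩ := mo_Bd h m
  refine ⟨C, hC, ?_⟩
  intro ψ hψ L hL s
  have h1 := hB ψ 1 zero_le_one hψ.1 hψ.2 L hL.le s
  rw [mul_one] at h1
  rw [F_eq_DL]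
  exact h1

end Pool.Agent.Lib.MP_6d896a_gt.FK
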