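import Mathlib
import Pool.Agent.Lib.MP_6d896a_gt.FK.Cal1
import Pool.Agent.Lib.MP_6d896a_gt.FK.Cal2
import Pool.Agent.Lib.MP_6d896a_gt.FK.Cal3

/-!
Project FK: smoothness and algebra of the cumulants (collected).
-/
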