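import Mathlib
import Pool.Agent.Lib.MP_6d896a_gt.FK.ADefs

/-!
Project FK: inner products of functions of lists of vectors of a frame.
-/

set_option autoImplicit false

namespace Pool.Agent.Lib.MP_6d896a_gt.FK

variable {n : ℕ} {q : Fin n → Eu n} {m : ℕ} {Φ Φ' Ψ : List (Eu n) → ℝ}

theorem nsq_zero (Φ : List (Eu n) → ℝ) : nsq q 0 Φ = Φ [] ^ 2 := by
  simp [nsq, ip, sq]

theorem nsq_succ (m : ℕ) (Φ : List (Eu n) → ℝ) :
    nsq q (m + 1) Φ = ∑ i, nsq q m (fun L => Φ (q i :: L)) := rfl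

theorem ip_succ (m : ℕ) (Φ Ψ : List (Eu n) → ℝ) :
    ip q (m + 1) Φ Ψ = ∑ i, ip q m (fun L => Φ (q i :: L)) (fun L => Ψ (q i :: L)) := rfl

theorem ip_eq (m : ℕ) (Φ Ψ : List (Eu n) → ℝ) :
    ip q m Φ Ψ = ∑ I : Fin m → Fin n, Φ (List.ofFn fun a => q (I a)) *
      Ψ (List.ofFn fun a => q (I a)) := by
  induction m generalizing Φ Ψ with
  | zero => simp [ip]
  | succ m ih =>
    rw [ip_succ, ← (Fin.consEquiv (fun _ => Fin n)).sum_comp, Fintype.sum_prod_type]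
    refine Finset.sum_congr rfl fun i _ => ?_
    rw [ih]
    refine Finset.sum_congr rfl fun I _ => ?_
    simp [List.ofFn_succ, Fin.consEquiv]

theorem ip_congr (h : ∀ I : Fin m → Fin n, Φ (List.ofFn fun a => q (I a)) =
      Φ' (List.ofFn fun a => q (I a))) : ip q m Φ Ψ = ip q m Φ' Ψ := by
  rw [ip_eq, ip_eq]
  exact Finset.sum_congr rfl fun I _ => by rw [h I]

theorem ip_comm : ip q m Φ Ψ = ip q m Ψ Φ := by
  rw [ip_eq, ip_eq]
  exact Finset.sum_congr rfl fun I _ => mul_comm _ _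

theorem ip_lin (a b : ℝ) :
    ip q m (fun L => a * Φ L + b * Φ' L) Ψ = a * ip q m Φ Ψ + b * ip q m Φ' Ψ := by
  rw [ip_eq, ip_eq, ip_eq, Finset.mul_sum, Finset.mul_sum, ← Finset.sum_add_distrib]
  exact Finset.sum_congr rfl fun I _ => by ring

theorem ip_sum {ι : Type} (t : Finset ι) (c : ι → ℝ) (Θ : ι → List (Eu n) → ℝ) :
    ip q m (fun L => ∑ a ∈ t, c a * Θ a L) Ψ = ∑ a ∈ t, c a * ip q m (Θ a) Ψ := by
  simp only [ip_eq, Finset.mul_sum, Finset.sum_mul]
  rw [Finset.sum_comm]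
  exact Finset.sum_congr rfl fun a _ => Finset.sum_congr rfl fun I _ => by ring

private theorem nsq_eqA (m : ℕ) (Φ : List (Eu n) → ℝ) :
    nsq q m Φ = ∑ I : Fin m → Fin n, Φ (List.ofFn fun a => q (I a)) ^ 2 := by
  rw [nsq, ip_eq]
  exact Finset.sum_congr rfl fun I _ => (sq _).symm

theorem nsq_nonneg : 0 ≤ nsq q m Φ := by
  rw [nsq_eqA]
  exact Finset.sum_nonneg fun I _ => sq_nonneg _

theorem nsq_smul (a : ℝ) : nsq q m (fun L => a * Φ L) = a ^ 2 * nsq q m Φ := by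
  rw [nsq_eqA, nsq_eqA, Finset.mul_sum]
  exact Finset.sum_congr rfl fun I _ => by ring

private theorem ml_scaleA (hΦ : ML Φ) (a : ℝ) (L : List (Eu n)) : ∀ L' : List (Eu n),
    Φ (L' ++ L.map fun v => a • v) = a ^ L.length * Φ (L' ++ L) := by
  induction L with
  | nil => intro L'; simp
  | cons v L ih =>
    intro L'
    have h1 := hΦ L' (L.map fun v => a • v) a 0 v v
    rw [zero_smul, add_zero, zero_mul, add_zero] at h1
    have h2 := ih (L' ++ [v])
    rw [List.append_assoc, List.append_assoc, List.singleton_append, List.singleton_append] at h2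
    rw [List.map_cons, h1, h2, List.length_cons, pow_succ]
    ring

theorem nsq_scale (hΦ : ML Φ) (a : ℝ) :
    nsq (fun i => a • q i) m Φ = (a ^ 2) ^ m * nsq q m Φ := by
  rw [nsq_eqA, nsq_eqA, Finset.mul_sum]
  refine Finset.sum_congr rfl fun I _ => ?_
  have h1 := ml_scaleA hΦ a (List.ofFn fun b => q (I b)) []
  rw [List.nil_append, List.nil_append, List.length_ofFn, List.map_ofFn] at h1
  have h2 : (List.ofFn fun b => a • q (I b)) =
      List.ofFn ((fun v : Eu n => a • v) ∘ fun b => q (I b)) := rfl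
  rw [h2, h1, mul_pow, ← pow_mul, ← pow_mul, mul_comm m 2]

private theorem ip_sqA : ip q m Φ Ψ ^ 2 ≤ nsq q m Φ * nsq q m Ψ := by
  rw [nsq_eqA, nsq_eqA, ip_eq]
  exact Finset.sum_mul_sq_le_sq_mul_sq _ _ _

theorem ip_cs : |ip q m Φ Ψ| ≤ Real.sqrt (nsq q m Φ) * Real.sqrt (nsq q m Ψ) := by
  rw [← Real.sqrt_mul nsq_nonneg]
  exact Real.abs_le_sqrt ip_sqA

theorem nsq_add : Real.sqrt (nsq q m (fun L => Φ L + Ψ L)) ≤
    Real.sqrt (nsq q m Φ) + Real.sqrt (nsq q m Ψ) := by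
  have h1 : nsq q m (fun L => Φ L + Ψ L) = nsq q m Φ + 2 * ip q m Φ Ψ + nsq q m Ψ := by
    rw [nsq_eqA, nsq_eqA, nsq_eqA, ip_eq, Finset.mul_sum, ← Finset.sum_add_distrib,
      ← Finset.sum_add_distrib]
    exact Finset.sum_congr rfl fun I _ => by ring
  have h2 := (abs_le.mp (ip_cs (q := q) (m := m) (Φ := Φ) (Ψ := Ψ))).2
  have h3 := Real.sq_sqrt (nsq_nonneg (q := q) (m := m) (Φ := Φ))
  have h4 := Real.sq_sqrt (nsq_nonneg (q := q) (m := m) (Φ := Ψ))
  rw [Real.sqrt_le_left (by positivity), h1]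
  nlinarith

theorem nsq_sum {ι : Type} (t : Finset ι) (Θ : ι → List (Eu n) → ℝ) :
    Real.sqrt (nsq q m (fun L => ∑ a ∈ t, Θ a L)) ≤ ∑ a ∈ t, Real.sqrt (nsq q m (Θ a)) := by
  classical
  induction t using Finset.induction_on with
  | empty => simp [nsq_eqA]
  | insert a t ha ih =>
    rw [Finset.sum_insert ha]
    simp only [Finset.sum_insert ha]
    exact le_trans nsq_add (by linarith)

end Pool.Agent.Lib.MP_6d896a_gt.FK
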