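import Mathlib
import Pool.Agent.Lib.MP_6d896a_gt.FK.LinA
import Pool.Agent.Lib.MP_6d896a_gt.FK.Cal
import Pool.Agent.Lib.MP_6d896a_gt.LG.PQ4

/-!
Project FK: the orders one and two.
-/

set_option autoImplicit false

namespace Pool.Agent.Lib.MP_6d896a_gt.FK

open MeasureTheory Filter Topology Set
open Pool.Agent.Lib.MP_6d896a_gt.LG (BS Cv Thin CovL SP VarE CovLe)
open scoped ENNReal NNReal ContDiff

variable {n : ℕ} {μ : Measure (Eu n)} {R δ ε : ℝ} {ψ φ : Eu n → ℝ} {s : SS n} {q : Fin n → Eu n}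

/-! ### the states as measures -/

private lemma base_cont (s : SS n) : Continuous (ex s) := by
  unfold ex qf
  fun_prop

private lemma base_exp_int (h : Hy μ R) (s : SS n) :
    Integrable (fun x => Real.exp (ex s x)) μ := by
  have := h.pr
  exact (LG.BM.cont h.bs (Real.continuous_exp.comp (base_cont s))).int

private lemma base_prob (h : Hy μ R) (s : SS n) : IsProbabilityMeasure (μ.tilted (ex s)) := by
  have := h.pr
  exact isProbabilityMeasure_tilted (base_exp_int h s)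

private lemma base_BS (h : Hy μ R) (s : SS n) : BS R (μ.tilted (ex s)) :=
  (tilted_absolutelyContinuous μ _).ae_le h.bs

private lemma base_BM (hψ : BF μ ψ) (s : SS n) : LG.BM (μ.tilted (ex s)) ψ := by
  obtain ⟨C, hC⟩ := hψ.bd
  exact ⟨hψ.ms.mono_ac (tilted_absolutelyContinuous μ _), C,
    (tilted_absolutelyContinuous μ _).ae_le hC⟩

private lemma base_F1 (h : Hy μ R) (hψ : BF μ ψ) (v : Eu n) (s : SS n) :
    F μ ψ [v] s = Cv (μ.tilted (ex s)) ψ (ln v) := by
  rw [F_one h hψ, mo_eq_tilted h (hψ.mul (BF.ln h v)), mo_eq_tilted h hψ,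
    mo_eq_tilted h (BF.ln h v)]
  rfl

private lemma base_Vr (h : Hy μ R) (hψ : BF μ ψ) (s : SS n) :
    Vr μ ψ s = Cv (μ.tilted (ex s)) ψ ψ := by
  unfold Vr
  rw [mo_eq_tilted h hψ.sq, mo_eq_tilted h hψ]
  unfold LG.Cv
  simp only [sq]

private lemma base_quad (h : Hy μ R) (hq : Fr μ q s) (a : Fin n → ℝ) :
    Cv (μ.tilted (ex s)) (fun x => ∑ i, a i * ln (q i) x) (fun x => ∑ i, a i * ln (q i) x) ≤
      ∑ i, a i ^ 2 := by
  have hp := base_prob h s
  have hb : ∀ i, LG.BM (μ.tilted (ex s)) (fun x => a i * ln (q i) x) := fun i =>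
    (base_BM (BF.ln h (q i)) s).cmul (a i)
  rw [LG.Cv_sum_left _ (fun i _ => hb i) (LG.BM.sum _ fun i _ => hb i)]
  refine le_trans (le_of_eq ?_) (hq a)
  refine Finset.sum_congr rfl fun i _ => ?_
  rw [LG.Cv_cmul_left, LG.Cv_sum_right _ (fun i _ => hb i) (base_BM (BF.ln h (q i)) s),
    Finset.mul_sum]
  refine Finset.sum_congr rfl fun j _ => ?_
  rw [LG.Cv_cmul_right, base_F1 h (BF.ln h (q j)), LG.Cv_comm (ln (q i))]
  ring

/-- Bessel's inequality -/
theorem sb_one (h : Hy μ R) : SB μ 1 1 := by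
  intro s _ q hq ψ hψ
  have hp := base_prob h s
  have e0 : nsq q 1 (fun L => F μ ψ L s) = ∑ i, F μ ψ [q i] s ^ 2 := by
    show nsq q (0 + 1) (fun L => F μ ψ L s) = _
    rw [nsq_succ]
    simp only [nsq_zero]
  rw [e0, one_mul, base_Vr h hψ]
  set a : Fin n → ℝ := fun i => F μ ψ [q i] s with ha
  have hb : ∀ i, LG.BM (μ.tilted (ex s)) (fun x => a i * ln (q i) x) := fun i =>
    (base_BM (BF.ln h (q i)) s).cmul (a i)
  have hbs : LG.BM (μ.tilted (ex s)) (fun x => ∑ i, a i * ln (q i) x) :=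
    LG.BM.sum _ fun i _ => hb i
  have hbψ := base_BM hψ s
  have h1 := LG.Cv_self_nonneg (hbψ.sub hbs)
  rw [LG.Cv_sub_left hbψ hbs (hbψ.sub hbs), LG.Cv_sub_right hbψ hbs hbψ,
    LG.Cv_sub_right hbψ hbs hbs, LG.Cv_comm (fun x => ∑ i, a i * ln (q i) x) ψ] at h1
  have h2 : Cv (μ.tilted (ex s)) ψ (fun x => ∑ i, a i * ln (q i) x) = ∑ i, a i ^ 2 := by
    rw [LG.Cv_sum_right _ (fun i _ => hb i) hbψ]
    refine Finset.sum_congr rfl fun i _ => ?_
    rw [LG.Cv_cmul_right, ← base_F1 h hψ, sq]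
  have h3 := base_quad h hq a
  have e1 : (∑ i, F μ ψ [q i] s ^ 2) = ∑ i, a i ^ 2 := rfl
  rw [e1]
  linarith

/-- the states are log-concave -/
theorem tilted_plm (h : Hy μ R) (hpl : FP.PLm μ) (hs : s ∈ Dom n) :
    FP.PLm (μ.tilted (ex s)) := by
  have := h.pr
  unfold Measure.tilted
  set z := ∫ x, Real.exp (ex s x) ∂μ with hz
  have hz0 : 0 < z := integral_exp_pos (base_exp_int h s)
  have hc := base_cont s
  refine hpl.withDensity (by fun_prop) ?_
  intro x y l h0 h1
  have hq : qf s.2 ((1 - l) • x + l • y) = (1 - l) * qf s.2 x + l * qf s.2 y -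
      l * (1 - l) * qf s.2 (x - y) := by
    unfold qf
    rw [Finset.mul_sum, Finset.mul_sum, Finset.mul_sum, ← Finset.sum_add_distrib,
      ← Finset.sum_sub_distrib]
    refine Finset.sum_congr rfl fun i _ => ?_
    rw [Finset.mul_sum, Finset.mul_sum, Finset.mul_sum, ← Finset.sum_add_distrib,
      ← Finset.sum_sub_distrib]
    refine Finset.sum_congr rfl fun j _ => ?_
    simp only [PiLp.add_apply, PiLp.smul_apply, PiLp.sub_apply, smul_eq_mul]
    ring
  have hex : (1 - l) * ex s x + l * ex s y ≤ ex s ((1 - l) • x + l • y) := by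
    unfold ex
    rw [hq, inner_add_right, real_inner_smul_right, real_inner_smul_right]
    have h3 : 0 ≤ l * (1 - l) * qf s.2 (x - y) :=
      mul_nonneg (mul_nonneg h0.le (by linarith)) (hs.2 _)
    linarith
  show ENNReal.ofReal (Real.exp (ex s x) / z) ^ (1 - l) *
    ENNReal.ofReal (Real.exp (ex s y) / z) ^ l ≤
    ENNReal.ofReal (Real.exp (ex s ((1 - l) • x + l • y)) / z)
  rw [ENNReal.ofReal_rpow_of_pos (by positivity), ENNReal.ofReal_rpow_of_pos (by positivity),
    ← ENNReal.ofReal_mul (by positivity)]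
  apply ENNReal.ofReal_le_ofReal
  rw [Real.div_rpow (Real.exp_pos _).le hz0.le, Real.div_rpow (Real.exp_pos _).le hz0.le,
    ← Real.exp_mul, ← Real.exp_mul, div_mul_div_comm, ← Real.exp_add, ← Real.rpow_add hz0]
  have e2 : (1 - l + l : ℝ) = 1 := by ring
  rw [e2, Real.rpow_one]
  gcongr
  linarith

/-! ### the second order -/

private lemma base_D_sub {G H : SS n → ℝ} (hG : ContDiff ℝ ∞ G) (hH : ContDiff ℝ ∞ H)
    (v : Eu n) (s : SS n) : D v (fun s => G s - H s) s = D v G s - D v H s := by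
  unfold D
  rw [fderiv_fun_sub (hG.differentiable (by norm_num) s) (hH.differentiable (by norm_num) s)]
  rfl

private lemma base_D_mul {G H : SS n → ℝ} (hG : ContDiff ℝ ∞ G) (hH : ContDiff ℝ ∞ H)
    (v : Eu n) (s : SS n) : D v (fun s => G s * H s) s = G s * D v H s + H s * D v G s := by
  unfold D
  rw [fderiv_fun_mul (hG.differentiable (by norm_num) s) (hH.differentiable (by norm_num) s)]
  simp only [ContinuousLinearMap.add_apply, ContinuousLinearMap.smul_apply, smul_eq_mul]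

private lemma base_F2 (h : Hy μ R) (hψ : BF μ ψ) (v w : Eu n) (s : SS n) :
    F μ ψ [v, w] s = Cv (μ.tilted (ex s)) ψ (fun x =>
      (ln v x - ∫ y, ln v y ∂(μ.tilted (ex s))) * (ln w x - ∫ y, ln w y ∂(μ.tilted (ex s)))) := by
  have hp := base_prob h s
  have hv := BF.ln h v
  have hw := BF.ln h w
  have e1 : F μ ψ [w] = fun s => mo μ (fun x => ψ x * ln w x) s - mo μ ψ s * mo μ (ln w) s :=
    funext fun s => F_one h hψ w s
  have e2 : F μ ψ [v, w] s = F μ (fun x => ψ x * ln w x) [v] s -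
      (mo μ ψ s * F μ (ln w) [v] s + mo μ (ln w) s * F μ ψ [v] s) := by
    rw [F_cons, e1, base_D_sub (mo_smooth h (hψ.mul hw)) ((mo_smooth h hψ).mul (mo_smooth h hw)),
      base_D_mul (mo_smooth h hψ) (mo_smooth h hw)]
    rfl
  rw [e2, base_F1 h (hψ.mul hw), base_F1 h hw, base_F1 h hψ, mo_eq_tilted h hψ, mo_eq_tilted h hw]
  set ν := μ.tilted (ex s) with hν
  have bψ : LG.BM ν ψ := base_BM hψ s
  have bv : LG.BM ν (ln v) := base_BM hv s
  have bw : LG.BM ν (ln w) := base_BM hw s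
  set mv := ∫ y, ln v y ∂ν with hmv
  set mw := ∫ y, ln w y ∂ν with hmw
  have e3 : (fun x => (ln v x - mv) * (ln w x - mw)) =
      fun x => (ln v x * ln w x - mw * ln v x) - (mv * ln w x - mv * mw) := by
    funext x; ring
  rw [e3, LG.Cv_sub_right ((bv.mul bw).sub (bv.cmul mw)) ((bw.cmul mv).sub (LG.BM.const _)) bψ,
    LG.Cv_sub_right (bv.mul bw) (bv.cmul mw) bψ, LG.Cv_sub_right (bw.cmul mv) (LG.BM.const _) bψ,
    LG.Cv_cmul_right, LG.Cv_cmul_right, LG.Cv_const_right]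
  unfold LG.Cv
  rw [← hmv, ← hmw]
  have e4 : ∫ x, ψ x * ln w x * ln v x ∂ν = ∫ x, ψ x * (ln v x * ln w x) ∂ν := by
    congr 1; funext x; ring
  have e5 : ∫ x, ln w x * ln v x ∂ν = ∫ x, ln v x * ln w x ∂ν := by
    congr 1; funext x; ring
  rw [e4, e5]
  ring

/-- the thin shell inequality: `F ψ [v, w]` is the covariance of `ψ` and the product of the centred
functionals; `LG.thin_quad` (with `s = 1`) for the image of `μ.tilted (ex s)` under
`x ↦ (⟨x, q i⟩)_i` -/
theorem sb_two {C : ℝ} (hC : 0 ≤ C) (hW : ∀ n, Thin n C) (h : Hy μ R) (hpl : FP.PLm μ) :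
    SB μ 2 (2 * C) := by
  intro s hs q hq ψ hψ
  have hp := base_prob h s
  have hbs := base_BS h s
  have hplν := tilted_plm h hpl hs
  have hbψ := base_BM hψ s
  have hbl : ∀ i, LG.BM (μ.tilted (ex s)) (ln (q i)) := fun i => base_BM (BF.ln h (q i)) s
  have e0 : nsq q 2 (fun L => F μ ψ L s) = ∑ i, ∑ j, F μ ψ [q i, q j] s ^ 2 := by
    show nsq q (0 + 1 + 1) (fun L => F μ ψ L s) = _
    simp only [nsq_succ, nsq_zero]
  rw [e0, base_Vr h hψ]
  have hF2 : ∀ i j, F μ ψ [q i, q j] s = Cv (μ.tilted (ex s)) ψ (fun x =>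
      (ln (q i) x - ∫ y, ln (q i) y ∂(μ.tilted (ex s))) *
        (ln (q j) x - ∫ y, ln (q j) y ∂(μ.tilted (ex s)))) := fun i j =>
    base_F2 h hψ (q i) (q j) s
  have hq2 := base_quad h hq
  have hsym : ∀ i j, F μ ψ [q i, q j] s = F μ ψ [q j, q i] s := fun i j =>
    congrFun (F_perm h hψ (List.Perm.swap (q j) (q i) [])) s
  set ν := μ.tilted (ex s) with hν
  set B : Fin n → Fin n → ℝ := fun i j => F μ ψ [q i, q j] s with hB
  have eB : (∑ i, ∑ j, F μ ψ [q i, q j] s ^ 2) = ∑ i, ∑ j, B i j ^ 2 := rfl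
  rw [eB]
  set T := ∑ i, ∑ j, B i j ^ 2 with hT
  set m : Fin n → ℝ := fun i => ∫ y, ln (q i) y ∂ν with hm
  -- the image measure
  let L0 : Eu n →ₗ[ℝ] Eu n :=
    { toFun := fun x => WithLp.toLp 2 (fun k => inner ℝ x (q k))
      map_add' := by
        intro x y
        ext k
        simp [inner_add_left]
      map_smul' := by
        intro c x
        ext k
        simp [inner_smul_left] }
  let L : Eu n →L[ℝ] Eu n := LinearMap.toContinuousLinearMap L0
  have hL : ∀ x k, (L x) k = ln (q k) x := fun x k => rfl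
  have hLc : Continuous L := L.continuous
  have hLm : Measurable L := hLc.measurable
  have hp' : IsProbabilityMeasure (ν.map L) := Measure.isProbabilityMeasure_map hLm.aemeasurable
  have hpl' : FP.PLm (ν.map L) := FP.PLm.map hplν L0 hLm
  have hR' : BS (‖L‖ * R) (ν.map L) := by
    unfold LG.BS
    rw [ae_map_iff hLm.aemeasurable (measurableSet_le measurable_norm measurable_const)]
    filter_upwards [hbs] with x hx
    exact (L.le_opNorm x).trans (by gcongr)
  have hint : ∀ f : Eu n → ℝ, Continuous f → ∫ y, f y ∂(ν.map L) = ∫ x, f (L x) ∂ν := by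
    intro f hf
    rw [integral_map hLm.aemeasurable hf.aestronglyMeasurable]
  have hmn : ∀ k, LG.mn (ν.map L) k = m k := by
    intro k
    have h1 : (LG.mn (ν.map L)) k = ∫ y, y k ∂(ν.map L) := rfl
    rw [h1, hint _ (by fun_prop)]
    rfl
  have hcv : ∀ f g : Eu n → ℝ, Continuous f → Continuous g →
      Cv (ν.map L) f g = Cv ν (fun x => f (L x)) (fun x => g (L x)) := by
    intro f g hf hg
    unfold LG.Cv
    rw [hint _ (by fun_prop), hint _ hf, hint _ hg]
  have hs1 : ∀ w : Eu n, Cv (ν.map L) (fun x => inner ℝ x w) (fun x => inner ℝ x w) ≤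
      1 * ‖w‖ ^ 2 := by
    intro w
    rw [hcv _ _ (by fun_prop) (by fun_prop)]
    have e1 : (fun x => inner ℝ (L x) w) = fun x => ∑ i, w i * ln (q i) x := by
      funext x
      rw [PiLp.inner_apply]
      refine Finset.sum_congr rfl fun i _ => ?_
      rw [hL]
      simp [mul_comm]
    rw [e1, one_mul, EuclideanSpace.norm_sq_eq]
    refine (hq2 fun i => w i).trans (le_of_eq ?_)
    refine Finset.sum_congr rfl fun i _ => ?_
    rw [Real.norm_eq_abs, sq_abs]
  have h3 := LG.thin_quad hC (hW n) hp' hR' hpl' hs1 B hsym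
  rw [hcv _ _ (by fun_prop) (by fun_prop)] at h3
  simp only [hmn, hL] at h3
  have hbm : ∀ i, LG.BM ν (fun x => ln (q i) x - m i) := fun i => (hbl i).sub (LG.BM.const _)
  have hbij : ∀ i j, LG.BM ν (fun x => B i j * ((ln (q i) x - m i) * (ln (q j) x - m j))) :=
    fun i j => ((hbm i).mul (hbm j)).cmul _
  have hbi : ∀ i, LG.BM ν (fun x => ∑ j, B i j * ((ln (q i) x - m i) * (ln (q j) x - m j))) :=
    fun i => LG.BM.sum _ fun j _ => hbij i j
  have hbQ : LG.BM ν (fun x => ∑ i, ∑ j, B i j * ((ln (q i) x - m i) * (ln (q j) x - m j))) :=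
    LG.BM.sum _ fun i _ => hbi i
  have h4 : Cv ν ψ (fun x => ∑ i, ∑ j, B i j * ((ln (q i) x - m i) * (ln (q j) x - m j))) = T := by
    rw [LG.Cv_sum_right _ (fun i _ => hbi i) hbψ]
    refine Finset.sum_congr rfl fun i _ => ?_
    rw [LG.Cv_sum_right _ (fun j _ => hbij i j) hbψ]
    refine Finset.sum_congr rfl fun j _ => ?_
    rw [LG.Cv_cmul_right, ← hF2 i j, sq]
  have h5 := LG.Cv_sq_le hbψ hbQ
  rw [h4] at h5
  have h6 : 0 ≤ Cv ν ψ ψ := LG.Cv_self_nonneg hbψ
  have h7 : T ^ 2 ≤ Cv ν ψ ψ * (2 * C * T) := by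
    refine h5.trans (mul_le_mul_of_nonneg_left ?_ h6)
    calc _ ≤ 2 * C * 1 ^ 2 * ∑ i, ∑ j, B i j ^ 2 := h3
      _ = 2 * C * T := by rw [← hT]; ring
  rcases le_or_gt T 0 with h8 | h8
  · exact h8.trans (by positivity)
  · have h9 : T * T ≤ (2 * C * Cv ν ψ ψ) * T := by
      calc T * T = T ^ 2 := by ring
        _ ≤ _ := h7
        _ = _ := by ring
    exact le_of_mul_le_mul_right h9 h8

end Pool.Agent.Lib.MP_6d896a_gt.FK
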