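import Mathlib
import Pool.Agent.Lib.MP_6d896a_gt.FK.Cal

/-!
Project FK: the diffusion operators.
-/

set_option autoImplicit false

namespace Pool.Agent.Lib.MP_6d896a_gt.FK

open MeasureTheory Filter Topology Set
open scoped ENNReal NNReal ContDiff

variable {n : ℕ} {μ : Measure (Eu n)} {R : ℝ} {ψ φ : Eu n → ℝ} {s : SS n} {q : Fin n → Eu n}
  {G H : SS n → ℝ}

/-! ### directional derivatives -/

/-- derivative in the direction `e` -/
private noncomputable def T (e : SS n) (G : SS n → ℝ) (s : SS n) : ℝ := fderiv ℝ G s e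

private lemma T_add (e : SS n) (hG : Differentiable ℝ G) (hH : Differentiable ℝ H) :
    T e (fun s => G s + H s) = fun s => T e G s + T e H s := by
  funext s
  unfold T
  rw [fderiv_fun_add (hG s) (hH s)]
  rfl

private lemma T_smul (e : SS n) (a : ℝ) (hG : Differentiable ℝ G) :
    T e (fun s => a * G s) = fun s => a * T e G s := by
  funext s
  unfold T
  rw [fderiv_const_mul (hG s)]
  rfl

private lemma T_const (e : SS n) (c : ℝ) : T e (fun _ => c) = fun _ => 0 := by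
  funext s
  unfold T
  rw [fderiv_fun_const]
  rfl

private lemma T_mul (e : SS n) (hG : Differentiable ℝ G) (hH : Differentiable ℝ H) :
    T e (fun s => G s * H s) = fun s => G s * T e H s + H s * T e G s := by
  funext s
  unfold T
  rw [fderiv_fun_mul (hG s) (hH s)]
  rfl

private lemma T_sum {ι : Type} (e : SS n) (t : Finset ι) (G : ι → SS n → ℝ)
    (hG : ∀ a ∈ t, Differentiable ℝ (G a)) :
    T e (fun s => ∑ a ∈ t, G a s) = fun s => ∑ a ∈ t, T e (G a) s := by
  funext s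
  unfold T
  rw [fderiv_fun_sum (fun a ha => (hG a ha) s), ContinuousLinearMap.sum_apply]

private lemma T_C1 (e : SS n) (hG : ContDiff ℝ 2 G) : ContDiff ℝ 1 (T e G) := by
  unfold T
  exact (hG.fderiv_right (m := 1) (by norm_num)).clm_apply contDiff_const

private lemma T_C2 (e : SS n) (hG : ContDiff ℝ 3 G) : ContDiff ℝ 2 (T e G) := by
  unfold T
  exact (hG.fderiv_right (m := 2) (by norm_num)).clm_apply contDiff_const

private lemma T_smooth (e : SS n) (hG : ContDiff ℝ ∞ G) : ContDiff ℝ ∞ (T e G) := by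
  unfold T
  exact (hG.fderiv_right (m := ∞) (by simp)).clm_apply contDiff_const

private lemma T_comm (e f : SS n) (hG : ContDiff ℝ 2 G) : T e (T f G) = T f (T e G) := by
  funext s
  have hd : Differentiable ℝ (fderiv ℝ G) :=
    (hG.fderiv_right (m := 1) (by norm_num)).differentiable (by norm_num)
  have key : ∀ a b : SS n, T a (T b G) s = fderiv ℝ (fderiv ℝ G) s a b := by
    intro a b
    unfold T
    rw [fderiv_clm_apply (hd s) (differentiableAt_const b)]
    simp
  rw [key, key]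
  exact (hG.contDiffAt.isSymmSndFDerivAt (by simp)) e f

private lemma D_eq (v : Eu n) (G : SS n → ℝ) : D v G = T (v, 0) G := rfl

/-- the matrix of a frame -/
private noncomputable def PP (q : Fin n → Eu n) : MM n := fun i j => ∑ k, q k i * q k j

private lemma Bq_eq (G : SS n → ℝ) (s : SS n) : Bq μ q G s =
    ∑ k, mo μ (ln (q k)) s * T (q k, 0) G s + T (0, PP q) G s +
      1 / 2 * ∑ k, T (q k, 0) (T (q k, 0) G) s := by
  unfold Bq
  have : ((∑ k, mo μ (ln (q k)) s • q k, fun i j => ∑ k, q k i * q k j) : SS n) =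
      ∑ k, mo μ (ln (q k)) s • ((q k, 0) : SS n) + (0, PP q) := by
    apply Prod.ext
    · simp [Prod.fst_sum]
    · simp [Prod.snd_sum]
      rfl
  rw [this, map_add, map_sum]
  simp only [map_smul, smul_eq_mul]
  rfl

private lemma d2 (hG : ContDiff ℝ 2 G) : Differentiable ℝ G := hG.differentiable (by norm_num)

private lemma d1 (hG : ContDiff ℝ 1 G) : Differentiable ℝ G := hG.differentiable (by norm_num)

private lemma di (hG : ContDiff ℝ ∞ G) : Differentiable ℝ G := hG.differentiable (by simp)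

private lemma i2 (hG : ContDiff ℝ ∞ G) : ContDiff ℝ 2 G := contDiff_infty.1 hG 2

theorem Bq_lin (a b : ℝ) (hG : ContDiff ℝ 2 G) (hH : ContDiff ℝ 2 H) (s : SS n) :
    Bq μ q (fun s => a * G s + b * H s) s = a * Bq μ q G s + b * Bq μ q H s := by
  have h1 : ∀ e : SS n, T e (fun s => a * G s + b * H s) =
      fun s => a * T e G s + b * T e H s := by
    intro e
    rw [T_add e ((d2 hG).const_mul a) ((d2 hH).const_mul b), T_smul e a (d2 hG),
      T_smul e b (d2 hH)]
  have h2 : ∀ e : SS n, T e (T e (fun s => a * G s + b * H s)) =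
      fun s => a * T e (T e G) s + b * T e (T e H) s := by
    intro e
    rw [h1, T_add e ((d1 (T_C1 e hG)).const_mul a) ((d1 (T_C1 e hH)).const_mul b),
      T_smul e a (d1 (T_C1 e hG)), T_smul e b (d1 (T_C1 e hH))]
  rw [Bq_eq, Bq_eq, Bq_eq]
  simp only [h2]
  simp only [h1, mul_add, Finset.sum_add_distrib, Finset.mul_sum]
  have e1 : ∀ (c : ℝ) (K : SS n → ℝ), ∑ k, mo μ (ln (q k)) s * (c * T (q k, 0) K s) =
      ∑ k, c * (mo μ (ln (q k)) s * T (q k, 0) K s) := fun c K =>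
    Finset.sum_congr rfl fun _ _ => by ring
  have e2 : ∀ (c : ℝ) (K : SS n → ℝ), ∑ k, (1 / 2 : ℝ) * (c * T (q k, 0) (T (q k, 0) K) s) =
      ∑ k, c * (1 / 2 * T (q k, 0) (T (q k, 0) K) s) := fun c K =>
    Finset.sum_congr rfl fun _ _ => by ring
  rw [e1, e1, e2, e2]
  ring

theorem Bq_const (c : ℝ) (s : SS n) : Bq μ q (fun _ => c) s = 0 := by
  rw [Bq_eq]
  simp only [T_const]
  simp

theorem Bq_sum {ι : Type} (t : Finset ι) (c : ι → ℝ) (G : ι → SS n → ℝ)
    (hG : ∀ a ∈ t, ContDiff ℝ 2 (G a)) (s : SS n) :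
    Bq μ q (fun s => ∑ a ∈ t, c a * G a s) s = ∑ a ∈ t, c a * Bq μ q (G a) s := by
  classical
  induction t using Finset.induction_on with
  | empty =>
    simp only [Finset.sum_empty]
    exact Bq_const 0 s
  | insert a t ha ih =>
    have hs : ContDiff ℝ 2 (fun s => ∑ b ∈ t, c b * G b s) :=
      ContDiff.sum fun b hb => contDiff_const.mul (hG b (Finset.mem_insert_of_mem hb))
    have h1 : (fun s => ∑ b ∈ insert a t, c b * G b s) =
        fun s => c a * G a s + 1 * ∑ b ∈ t, c b * G b s := by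
      funext s
      rw [Finset.sum_insert ha, one_mul]
    rw [h1, Bq_lin (c a) 1 (hG a (Finset.mem_insert_self a t)) hs, one_mul,
      ih (fun b hb => hG b (Finset.mem_insert_of_mem hb)), Finset.sum_insert ha]

theorem Bq_mul (hG : ContDiff ℝ 2 G) (hH : ContDiff ℝ 2 H) (s : SS n) :
    Bq μ q (fun s => G s * H s) s =
      G s * Bq μ q H s + H s * Bq μ q G s + ∑ k, D (q k) G s * D (q k) H s := by
  have h1 : ∀ e : SS n, T e (fun s => G s * H s) = fun s => G s * T e H s + H s * T e G s :=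
    fun e => T_mul e (d2 hG) (d2 hH)
  have h2 : ∀ e : SS n, T e (T e (fun s => G s * H s)) = fun s =>
      G s * T e (T e H) s + H s * T e (T e G) s + 2 * (T e G s * T e H s) := by
    intro e
    have dg := d1 (T_C1 e hG)
    have dh := d1 (T_C1 e hH)
    rw [h1, T_add (G := fun s => G s * T e H s) (H := fun s => H s * T e G s) e
      ((d2 hG).mul dh) ((d2 hH).mul dg), T_mul e (d2 hG) dh, T_mul e (d2 hH) dg]
    funext s
    ring
  rw [Bq_eq, Bq_eq, Bq_eq]
  simp only [h2]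
  simp only [h1, D_eq, mul_add, Finset.sum_add_distrib, Finset.mul_sum]
  have e1 : ∀ (c : ℝ) (K : SS n → ℝ), ∑ k, mo μ (ln (q k)) s * (c * T (q k, 0) K s) =
      ∑ k, c * (mo μ (ln (q k)) s * T (q k, 0) K s) := fun c K =>
    Finset.sum_congr rfl fun _ _ => by ring
  have e2 : ∀ (c : ℝ) (K : SS n → ℝ), ∑ k, (1 / 2 : ℝ) * (c * T (q k, 0) (T (q k, 0) K) s) =
      ∑ k, c * (1 / 2 * T (q k, 0) (T (q k, 0) K) s) := fun c K =>
    Finset.sum_congr rfl fun _ _ => by ring
  have e3 : ∑ k, (1 / 2 : ℝ) * (2 * (T (q k, 0) G s * T (q k, 0) H s)) =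
      ∑ k, T (q k, 0) G s * T (q k, 0) H s := Finset.sum_congr rfl fun _ _ => by ring
  rw [e1, e1, e2, e2, e3]
  ring

theorem Bq_smooth (h : Hy μ R) (hG : ContDiff ℝ ∞ G) : ContDiff ℝ ∞ (Bq μ q G) := by
  have : Bq μ q G = fun s => ∑ k, mo μ (ln (q k)) s * T (q k, 0) G s + T (0, PP q) G s +
      1 / 2 * ∑ k, T (q k, 0) (T (q k, 0) G) s := funext fun s => Bq_eq G s
  rw [this]
  refine ((ContDiff.sum fun k _ => ?_).add (T_smooth _ hG)).add
    (contDiff_const.mul (ContDiff.sum fun k _ => ?_))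
  · exact (mo_smooth h (BF.ln h (q k))).mul (T_smooth _ hG)
  · exact T_smooth _ (T_smooth _ hG)

private lemma qf_PP (q : Fin n → Eu n) (x : Eu n) : qf (PP q) x = ∑ k, ln (q k) x ^ 2 := by
  unfold qf PP ln
  have h1 : ∀ k, (inner ℝ x (q k) : ℝ) = ∑ i, q k i * x i := by
    intro k
    rw [EuclideanSpace.inner_eq_star_dotProduct]
    simp [dotProduct, mul_comm]
  simp only [h1]
  calc ∑ i, ∑ j, (∑ k, q k i * q k j) * (x i * x j)
      = ∑ i, ∑ j, ∑ k, (q k i * x i) * (q k j * x j) := by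
        refine Finset.sum_congr rfl fun i _ => Finset.sum_congr rfl fun j _ => ?_
        rw [Finset.sum_mul]
        exact Finset.sum_congr rfl fun k _ => by ring
    _ = ∑ i, ∑ k, ∑ j, (q k i * x i) * (q k j * x j) := by
        refine Finset.sum_congr rfl fun i _ => Finset.sum_comm
    _ = ∑ k, ∑ i, ∑ j, (q k i * x i) * (q k j * x j) := Finset.sum_comm
    _ = ∑ k, (∑ i, q k i * x i) ^ 2 := by
        refine Finset.sum_congr rfl fun k _ => ?_
        rw [pow_two, Finset.sum_mul_sum]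

private lemma BF_sum (h : Hy μ R) {ι : Type} (t : Finset ι) (f : ι → Eu n → ℝ)
    (hf : ∀ a ∈ t, BF μ (f a)) : BF μ (fun x => ∑ a ∈ t, f a x) := by
  classical
  induction t using Finset.induction_on with
  | empty =>
    simp only [Finset.sum_empty]
    exact BF.const h 0
  | insert a t ha ih =>
    have h1 : (fun x => ∑ b ∈ insert a t, f b x) = fun x => f a x + ∑ b ∈ t, f b x := by
      funext x
      rw [Finset.sum_insert ha]
    rw [h1]
    exact BF.add (hf a (Finset.mem_insert_self a t))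
      (ih fun b hb => hf b (Finset.mem_insert_of_mem hb))

private lemma mo_sum (h : Hy μ R) {ι : Type} (t : Finset ι) (f : ι → Eu n → ℝ)
    (hf : ∀ a ∈ t, BF μ (f a)) (s : SS n) :
    mo μ (fun x => ∑ a ∈ t, f a x) s = ∑ a ∈ t, mo μ (f a) s := by
  classical
  induction t using Finset.induction_on with
  | empty =>
    simp only [Finset.sum_empty]
    exact mo_one h 0 s
  | insert a t ha ih =>
    have h1 : (fun x => ∑ b ∈ insert a t, f b x) = fun x => 1 * f a x + 1 * ∑ b ∈ t, f b x := by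
      funext x
      rw [Finset.sum_insert ha, one_mul, one_mul]
    rw [h1, mo_lin h (hf a (Finset.mem_insert_self a t))
      (BF_sum h t f fun b hb => hf b (Finset.mem_insert_of_mem hb)),
      ih (fun b hb => hf b (Finset.mem_insert_of_mem hb)), Finset.sum_insert ha]
    ring

/-- first derivative of a mean in the direction of a vector -/
private lemma T_mo (h : Hy μ R) (hψ : BF μ ψ) (v : Eu n) : T (v, 0) (mo μ ψ) =
    fun s => mo μ (fun x => ψ x * ln v x) s - mo μ ψ s * mo μ (ln v) s := by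
  funext s
  exact F_one h hψ v s

/-- derivative of a mean in the direction of the matrix of the frame -/
private lemma T_mo_PP (h : Hy μ R) (hψ : BF μ ψ) (s : SS n) : T (0, PP q) (mo μ ψ) s =
    ∑ k, -(1 / 2) * (mo μ (fun x => ψ x * ln (q k) x ^ 2) s -
      mo μ ψ s * mo μ (fun x => ln (q k) x ^ 2) s) := by
  unfold T
  rw [mo_fderiv h hψ s 0 (PP q)]
  have hl : ∀ k, BF μ (fun x => ln (q k) x ^ 2) := fun k => (BF.ln h (q k)).sq
  have h1 : (fun x => ψ x * (ln (0 : Eu n) x - qf (PP q) x / 2)) =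
      fun x => ∑ k, -(1 / 2) * (ψ x * ln (q k) x ^ 2) := by
    funext x
    rw [qf_PP, ← Finset.mul_sum, ← Finset.mul_sum]
    have : ln (0 : Eu n) x = 0 := by simp [ln]
    rw [this]
    ring
  have h2 : (fun x => ln (0 : Eu n) x - qf (PP q) x / 2) =
      fun x => ∑ k, -(1 / 2) * ln (q k) x ^ 2 := by
    funext x
    rw [qf_PP, ← Finset.mul_sum]
    have : ln (0 : Eu n) x = 0 := by simp [ln]
    rw [this]
    ring
  have h3 : ∀ f : Eu n → ℝ, BF μ f → mo μ (fun x => -(1 / 2) * f x) s = -(1 / 2) * mo μ f s := by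
    intro f hf
    have := mo_lin h hf hf (-(1 / 2)) 0 s
    simpa using this
  rw [h1, h2, mo_sum h _ _ (fun k _ => (hψ.mul (hl k)).smul _),
    mo_sum h _ _ (fun k _ => (hl k).smul _), Finset.mul_sum, ← Finset.sum_sub_distrib]
  refine Finset.sum_congr rfl fun k _ => ?_
  rw [h3 _ (hψ.mul (hl k)), h3 _ (hl k)]
  ring

theorem Bq_mo (h : Hy μ R) (hψ : BF μ ψ) (s : SS n) : Bq μ q (mo μ ψ) s = 0 := by
  rw [Bq_eq, T_mo_PP h hψ, Finset.mul_sum, ← Finset.sum_add_distrib, ← Finset.sum_add_distrib]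
  refine Finset.sum_eq_zero fun k _ => ?_
  have hl := BF.ln h (q k)
  have hψl : BF μ (fun x => ψ x * ln (q k) x) := hψ.mul hl
  have d0 := di (mo_smooth h hψ)
  have dl := di (mo_smooth h hl)
  have dψl := di (mo_smooth h hψl)
  have h2 : T (q k, 0) (T (q k, 0) (mo μ ψ)) s =
      (mo μ (fun x => ψ x * ln (q k) x * ln (q k) x) s -
        mo μ (fun x => ψ x * ln (q k) x) s * mo μ (ln (q k)) s) -
      (mo μ ψ s * (mo μ (fun x => ln (q k) x * ln (q k) x) s -
        mo μ (ln (q k)) s * mo μ (ln (q k)) s) +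
       mo μ (ln (q k)) s * (mo μ (fun x => ψ x * ln (q k) x) s -
        mo μ ψ s * mo μ (ln (q k)) s)) := by
    rw [T_mo h hψ]
    have e1 : (fun s => mo μ (fun x => ψ x * ln (q k) x) s - mo μ ψ s * mo μ (ln (q k)) s) =
        fun s => mo μ (fun x => ψ x * ln (q k) x) s + (-1) * (mo μ ψ s * mo μ (ln (q k)) s) := by
      funext s
      ring
    have d3 : Differentiable ℝ (fun s => mo μ ψ s * mo μ (ln (q k)) s) := d0.mul dl
    rw [e1, T_add (G := mo μ (fun x => ψ x * ln (q k) x))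
      (H := fun s => (-1 : ℝ) * (mo μ ψ s * mo μ (ln (q k)) s)) (q k, 0) dψl
      (d3.const_mul _), T_smul _ _ d3, T_mul _ d0 dl, T_mo h hψl, T_mo h hψ, T_mo h hl]
    ring
  rw [h2, T_mo h hψ]
  have e2 : (fun x => ψ x * ln (q k) x ^ 2) = fun x => ψ x * ln (q k) x * ln (q k) x := by
    funext x
    ring
  have e3 : (fun x => ln (q k) x ^ 2) = fun x => ln (q k) x * ln (q k) x := by
    funext x
    ring
  rw [e2, e3]
  ring

theorem Bq_D (h : Hy μ R) (hG : ContDiff ℝ ∞ G) (v : Eu n) (s : SS n) :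
    Bq μ q (D v G) s = D v (Bq μ q G) s - ∑ k, F μ (ln (q k)) [v] s * D (q k) G s := by
  have hB : Bq μ q G = fun s => (∑ k, mo μ (ln (q k)) s * T (q k, 0) G s + T (0, PP q) G s) +
      1 / 2 * ∑ k, T (q k, 0) (T (q k, 0) G) s := funext fun s => Bq_eq G s
  have hm : ∀ k, Differentiable ℝ (mo μ (ln (q k))) := fun k => di (mo_smooth h (BF.ln h (q k)))
  have hT : ∀ e : SS n, Differentiable ℝ (T e G) := fun e => di (T_smooth e hG)
  have hTT : ∀ e : SS n, Differentiable ℝ (T e (T e G)) := fun e =>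
    di (T_smooth e (T_smooth e hG))
  have hs1 : Differentiable ℝ (fun s => ∑ k, mo μ (ln (q k)) s * T (q k, 0) G s) :=
    Differentiable.fun_sum fun k _ => (hm k).mul (hT _)
  have hs2 : Differentiable ℝ (fun s => ∑ k, T (q k, 0) (T (q k, 0) G) s) :=
    Differentiable.fun_sum fun k _ => hTT _
  have hD : D v (Bq μ q G) s =
      (∑ k, (mo μ (ln (q k)) s * T (v, 0) (T (q k, 0) G) s +
        T (q k, 0) G s * T (v, 0) (mo μ (ln (q k))) s) + T (v, 0) (T (0, PP q) G) s) +
      1 / 2 * ∑ k, T (v, 0) (T (q k, 0) (T (q k, 0) G)) s := by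
    have a1 := T_sum (v, 0) Finset.univ (fun k s => mo μ (ln (q k)) s * T (q k, 0) G s)
      (fun k _ => (hm k).mul (hT _))
    have a2 := T_sum (v, 0) Finset.univ (fun k => T (q k, 0) (T (q k, 0) G))
      (fun k _ => hTT _)
    have a3 := T_add (v, 0) hs1 (hT (0, PP q))
    have a4 := T_smul (v, 0) (1 / 2) hs2
    have a5 : Differentiable ℝ
        (fun s => ∑ k, mo μ (ln (q k)) s * T (q k, 0) G s + T (0, PP q) G s) := hs1.add (hT _)
    have a6 : Differentiable ℝ (fun s => (1 / 2 : ℝ) * ∑ k, T (q k, 0) (T (q k, 0) G) s) :=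
      hs2.const_mul _
    have a7 : ∑ k, T (v, 0) (fun s => mo μ (ln (q k)) s * T (q k, 0) G s) s =
        ∑ k, (mo μ (ln (q k)) s * T (v, 0) (T (q k, 0) G) s +
          T (q k, 0) G s * T (v, 0) (mo μ (ln (q k))) s) :=
      Finset.sum_congr rfl fun k _ => by rw [T_mul (v, 0) (hm k) (hT _)]
    rw [D_eq, hB, T_add (v, 0) a5 a6, a3, a4, a1, a2]
    simp only
    rw [a7]
  rw [hD, Bq_eq, D_eq]
  have c1 : ∀ e : SS n, T e (T (v, 0) G) = T (v, 0) (T e G) := fun e => T_comm _ _ (i2 hG)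
  have c2 : ∀ e : SS n, T e (T e (T (v, 0) G)) = T (v, 0) (T e (T e G)) := by
    intro e
    rw [c1, T_comm e (v, 0) (i2 (T_smooth e hG))]
  simp only [c2, Finset.sum_add_distrib]
  simp only [c1]
  have c3 : ∀ k, T (v, 0) (mo μ (ln (q k))) s = F μ (ln (q k)) [v] s := fun k => rfl
  have c4 : ∑ k, T (q k, 0) G s * T (v, 0) (mo μ (ln (q k))) s =
      ∑ k, F μ (ln (q k)) [v] s * D (q k) G s :=
    Finset.sum_congr rfl fun k _ => by rw [c3, D_eq]; ring
  rw [c4]
  ring

theorem Bq_F_cons (h : Hy μ R) (hψ : BF μ ψ) (v : Eu n) (L : List (Eu n)) (s : SS n) :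
    Bq μ q (F μ ψ (v :: L)) s = D v (Bq μ q (F μ ψ L)) s - XX μ ψ q [v] L s := by
  rw [F_cons, Bq_D h (F_smooth h hψ L)]
  rfl

theorem XX_smooth (h : Hy μ R) (hψ : BF μ ψ) (P Q : List (Eu n)) :
    ContDiff ℝ ∞ (XX μ ψ q P Q) := by
  unfold XX
  exact ContDiff.sum fun k _ => (F_smooth h (BF.ln h (q k)) P).mul (F_smooth h hψ _)

theorem D_XX (h : Hy μ R) (hψ : BF μ ψ) (v : Eu n) (P Q : List (Eu n)) (s : SS n) :
    D v (XX μ ψ q P Q) s = XX μ ψ q (v :: P) Q s + XX μ ψ q P (v :: Q) s := by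
  have hP : ∀ k, Differentiable ℝ (F μ (ln (q k)) P) := fun k =>
    di (F_smooth h (BF.ln h (q k)) P)
  have hQ : ∀ k, Differentiable ℝ (F μ ψ (q k :: Q)) := fun k => di (F_smooth h hψ _)
  have e0 : XX μ ψ q P Q = fun s => ∑ k, F μ (ln (q k)) P s * F μ ψ (q k :: Q) s := rfl
  have a1 := T_sum (v, 0) Finset.univ (fun k s => F μ (ln (q k)) P s * F μ ψ (q k :: Q) s)
      (fun k _ => (hP k).mul (hQ k))
  rw [D_eq, e0, a1]
  simp only
  unfold XX
  rw [← Finset.sum_add_distrib]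
  refine Finset.sum_congr rfl fun k _ => ?_
  rw [T_mul (v, 0) (hP k) (hQ k)]
  have e1 : T (v, 0) (F μ (ln (q k)) P) = F μ (ln (q k)) (v :: P) := rfl
  have e2 : T (v, 0) (F μ ψ (q k :: Q)) = F μ ψ (q k :: v :: Q) := by
    have : T (v, 0) (F μ ψ (q k :: Q)) = F μ ψ (v :: q k :: Q) := rfl
    rw [this]
    exact F_perm h hψ (List.Perm.swap _ _ _)
  rw [e1, e2]
  ring

theorem Bq_Vr (h : Hy μ R) (hψ : BF μ ψ) (s : SS n) :
    Bq μ q (Vr μ ψ) s = - ∑ k, F μ ψ [q k] s ^ 2 := by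
  have h1 : Vr μ ψ = fun s => 1 * mo μ (fun x => ψ x ^ 2) s + (-1) * (mo μ ψ s * mo μ ψ s) := by
    funext s
    unfold Vr
    ring
  have hm := mo_smooth h hψ
  rw [h1, Bq_lin 1 (-1) (i2 (mo_smooth h hψ.sq)) (i2 (hm.mul hm)), Bq_mo h hψ.sq,
    Bq_mul (i2 hm) (i2 hm), Bq_mo h hψ]
  have h2 : ∑ k, D (q k) (mo μ ψ) s * D (q k) (mo μ ψ) s = ∑ k, F μ ψ [q k] s ^ 2 := by
    refine Finset.sum_congr rfl fun k _ => ?_
    rw [pow_two]
    rfl
  rw [h2]
  ring

theorem Bq_Ab (h : Hy μ R) (δ : ℝ) (v w : Eu n) (s : SS n) :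
    Bq μ q (Ab μ δ v w) s = - ∑ k, F μ (ln (q k)) [v] s * F μ (ln (q k)) [w] s := by
  have h1 : Ab μ δ v w = fun s => 1 * F μ (ln w) [v] s + 1 * (fun _ => δ * inner ℝ v w) s := by
    funext s
    unfold Ab
    ring
  have hw := BF.ln h w
  rw [h1, Bq_lin 1 1 (i2 (F_smooth h hw [v])) contDiff_const]
  have h2 : Bq μ q (fun _ : SS n => δ * inner ℝ v w) s = 0 := Bq_const _ s
  rw [h2, Bq_F_cons h hw]
  have h3 : D v (Bq μ q (F μ (ln w) [])) s = 0 := by
    have : Bq μ q (F μ (ln w) []) = fun _ => 0 := funext fun s => Bq_mo h hw s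
    rw [this, D_eq, T_const]
  rw [h3]
  unfold XX
  have h4 : ∀ k, F μ (ln w) [q k] s = F μ (ln (q k)) [w] s := fun k => F_ln_swap h (q k) w [] s
  simp only [h4]
  ring

theorem D_Ab (h : Hy μ R) (δ : ℝ) (u v w : Eu n) (s : SS n) :
    D u (Ab μ δ v w) s = F μ (ln w) [u, v] s := by
  have h1 : Ab μ δ v w = fun s => F μ (ln w) [v] s + (fun _ => δ * inner ℝ v w) s := by
    funext s
    rfl
  rw [D_eq, h1, T_add (u, 0) (di (F_smooth h (BF.ln h w) [v])) (differentiable_const _),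
    T_const]
  simp only [add_zero]
  rfl

theorem Ab_smooth (h : Hy μ R) (δ : ℝ) (v w : Eu n) : ContDiff ℝ ∞ (Ab μ δ v w) := by
  unfold Ab
  exact (F_smooth h (BF.ln h w) [v]).add contDiff_const

end Pool.Agent.Lib.MP_6d896a_gt.FK
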