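import Mathlib
import Pool.Agent.Lib.MP_6d896a_gt.FK.LinA
import Pool.Agent.Lib.MP_6d896a_gt.FK.CalB

/-!
Project FK: the operator applied to the minorant.
-/

set_option autoImplicit false

namespace Pool.Agent.Lib.MP_6d896a_gt.FK

open MeasureTheory Filter Topology Set
open scoped ENNReal NNReal ContDiff

variable {n : ℕ} {μ : Measure (Eu n)} {R δ ε : ℝ} {ψ φ : Eu n → ℝ} {s : SS n} {q : Fin n → Eu n}

/-! ### the algebraic part -/

private lemma bql_cross {J : Type} [Fintype J] (g : Fin n → J → ℝ) (d : Fin n → Fin n → J → ℝ)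
    (h : Fin n → Fin n → Fin n → ℝ) {K2 : ℝ}
    (h2 : ∀ c : Fin n → ℝ, ∑ k, ∑ i, (∑ j, h k i j * c j) ^ 2 ≤ K2 * ∑ j, c j ^ 2) :
    ∑ k, ∑ i, ∑ I, d k i I * ∑ j, h k i j * g j I ≤
      Real.sqrt (K2 * (∑ k, ∑ i, ∑ I, d k i I ^ 2) * ∑ i, ∑ I, g i I ^ 2) := by
  apply Real.le_sqrt_of_sq_le
  have h3 : (∑ k, ∑ i, ∑ I, d k i I * ∑ j, h k i j * g j I) ^ 2 ≤
      (∑ k, ∑ i, ∑ I, d k i I ^ 2) * ∑ k, ∑ i, ∑ I, (∑ j, h k i j * g j I) ^ 2 := by
    have := Finset.sum_mul_sq_le_sq_mul_sq (Finset.univ : Finset (Fin n × Fin n × J))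
      (fun p => d p.1 p.2.1 p.2.2) (fun p => ∑ j, h p.1 p.2.1 j * g j p.2.2)
    simp only [Fintype.sum_prod_type] at this
    exact this
  have h4 : ∑ k, ∑ i, ∑ I, (∑ j, h k i j * g j I) ^ 2 ≤ K2 * ∑ i, ∑ I, g i I ^ 2 := by
    have e1 : ∑ k, ∑ i, ∑ I, (∑ j, h k i j * g j I) ^ 2 =
        ∑ I, ∑ k, ∑ i, (∑ j, h k i j * g j I) ^ 2 := by
      rw [Finset.sum_congr rfl fun k _ => Finset.sum_comm, Finset.sum_comm]
    have e2 : ∑ i, ∑ I, g i I ^ 2 = ∑ I, ∑ i, g i I ^ 2 := Finset.sum_comm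
    rw [e1, e2, Finset.mul_sum]
    exact Finset.sum_le_sum fun I _ => h2 fun j => g j I
  have h5 : 0 ≤ ∑ k, ∑ i, ∑ I, d k i I ^ 2 :=
    Finset.sum_nonneg fun _ _ => Finset.sum_nonneg fun _ _ => Finset.sum_nonneg fun _ _ =>
      sq_nonneg _
  calc _ ≤ (∑ k, ∑ i, ∑ I, d k i I ^ 2) * ∑ k, ∑ i, ∑ I, (∑ j, h k i j * g j I) ^ 2 := h3
    _ ≤ (∑ k, ∑ i, ∑ I, d k i I ^ 2) * (K2 * ∑ i, ∑ I, g i I ^ 2) :=
        mul_le_mul_of_nonneg_left h4 h5
    _ = _ := by ring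

private lemma bql_alg {J : Type} [Fintype J] (g b : Fin n → J → ℝ) (d : Fin n → Fin n → J → ℝ)
    (a : Fin n → Fin n → ℝ) (h : Fin n → Fin n → Fin n → ℝ) (hs : ∀ k i j, h k i j = h k j i)
    {K2 : ℝ} (h2 : ∀ c : Fin n → ℝ, ∑ k, ∑ i, (∑ j, h k i j * c j) ^ 2 ≤ K2 * ∑ j, c j ^ 2)
    {m : ℝ} (hm : 0 ≤ m) :
    (∑ k, ∑ i, ∑ I, d k i I ^ 2) -
        2 * m * Real.sqrt (K2 * (∑ k, ∑ i, ∑ I, d k i I ^ 2) * ∑ i, ∑ I, g i I ^ 2) -
        2 * Real.sqrt ((∑ i, ∑ I, g i I ^ 2) * ∑ i, ∑ I, b i I ^ 2) ≤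
      (m + 1) * (∑ i, ∑ I, (g i I * b i I + g i I * b i I + ∑ k, d k i I * d k i I)) +
      (-m) * (∑ i, ∑ j, ∑ I, ((if i = j then 1 else 0) *
          (g i I * b j I + g j I * b i I + ∑ k, d k i I * d k j I) +
        g i I * g j I * (-∑ k, a k i * a k j) +
        ∑ k, h k i j * (g i I * d k j I + g j I * d k i I))) := by
  classical
  -- the main part
  have hN : ∑ i, ∑ j, ∑ I, (if i = j then (1 : ℝ) else 0) *
          (g i I * b j I + g j I * b i I + ∑ k, d k i I * d k j I) =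
      ∑ i, ∑ I, (g i I * b i I + g i I * b i I + ∑ k, d k i I * d k i I) := by
    refine Finset.sum_congr rfl fun i _ => ?_
    rw [Finset.sum_eq_single i]
    · simp
    · intro j _ hj
      simp [hj.symm]
    · intro hi
      exact absurd (Finset.mem_univ i) hi
  -- the square
  have hP : ∑ i, ∑ j, ∑ I, g i I * g j I * (-∑ k, a k i * a k j) =
      - ∑ k, ∑ I, (∑ i, a k i * g i I) ^ 2 := by
    have e1 : ∀ k I, (∑ i, a k i * g i I) ^ 2 = ∑ i, ∑ j, g i I * g j I * (a k i * a k j) := by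
      intro k I
      rw [sq, Finset.sum_mul_sum]
      exact Finset.sum_congr rfl fun i _ => Finset.sum_congr rfl fun j _ => by ring
    simp only [e1, mul_neg, Finset.mul_sum, Finset.sum_neg_distrib]
    congr 1
    calc ∑ i, ∑ j, ∑ I, ∑ k, g i I * g j I * (a k i * a k j)
        = ∑ i, ∑ j, ∑ k, ∑ I, g i I * g j I * (a k i * a k j) :=
          Finset.sum_congr rfl fun i _ => Finset.sum_congr rfl fun j _ => Finset.sum_comm
      _ = ∑ i, ∑ k, ∑ j, ∑ I, g i I * g j I * (a k i * a k j) :=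
          Finset.sum_congr rfl fun i _ => Finset.sum_comm
      _ = ∑ k, ∑ i, ∑ j, ∑ I, g i I * g j I * (a k i * a k j) := Finset.sum_comm
      _ = ∑ k, ∑ i, ∑ I, ∑ j, g i I * g j I * (a k i * a k j) :=
          Finset.sum_congr rfl fun k _ => Finset.sum_congr rfl fun i _ => Finset.sum_comm
      _ = ∑ k, ∑ I, ∑ i, ∑ j, g i I * g j I * (a k i * a k j) :=
          Finset.sum_congr rfl fun k _ => Finset.sum_comm
  have hP0 : 0 ≤ ∑ k, ∑ I, (∑ i, a k i * g i I) ^ 2 :=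
    Finset.sum_nonneg fun _ _ => Finset.sum_nonneg fun _ _ => sq_nonneg _
  -- the cross term
  have hX : ∑ i, ∑ j, ∑ I, ∑ k, h k i j * (g i I * d k j I + g j I * d k i I) =
      2 * ∑ k, ∑ i, ∑ I, d k i I * ∑ j, h k i j * g j I := by
    have e1 : ∑ i, ∑ j, ∑ I, ∑ k, h k i j * (g j I * d k i I) =
        ∑ k, ∑ i, ∑ I, d k i I * ∑ j, h k i j * g j I := by
      calc ∑ i, ∑ j, ∑ I, ∑ k, h k i j * (g j I * d k i I)
          = ∑ i, ∑ j, ∑ k, ∑ I, h k i j * (g j I * d k i I) :=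
            Finset.sum_congr rfl fun i _ => Finset.sum_congr rfl fun j _ => Finset.sum_comm
        _ = ∑ i, ∑ k, ∑ j, ∑ I, h k i j * (g j I * d k i I) :=
            Finset.sum_congr rfl fun i _ => Finset.sum_comm
        _ = ∑ k, ∑ i, ∑ j, ∑ I, h k i j * (g j I * d k i I) := Finset.sum_comm
        _ = ∑ k, ∑ i, ∑ I, ∑ j, h k i j * (g j I * d k i I) :=
            Finset.sum_congr rfl fun k _ => Finset.sum_congr rfl fun i _ => Finset.sum_comm
        _ = _ := by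
            refine Finset.sum_congr rfl fun k _ => Finset.sum_congr rfl fun i _ =>
              Finset.sum_congr rfl fun I _ => ?_
            rw [Finset.mul_sum]
            exact Finset.sum_congr rfl fun j _ => by ring
    have e2 : ∑ i, ∑ j, ∑ I, ∑ k, h k i j * (g i I * d k j I) =
        ∑ i, ∑ j, ∑ I, ∑ k, h k i j * (g j I * d k i I) := by
      rw [Finset.sum_comm]
      refine Finset.sum_congr rfl fun i _ => Finset.sum_congr rfl fun j _ =>
        Finset.sum_congr rfl fun I _ => Finset.sum_congr rfl fun k _ => ?_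
      rw [hs k j i]
    have e3 : ∑ i, ∑ j, ∑ I, ∑ k, h k i j * (g i I * d k j I + g j I * d k i I) =
        ∑ i, ∑ j, ∑ I, ∑ k, h k i j * (g i I * d k j I) +
        ∑ i, ∑ j, ∑ I, ∑ k, h k i j * (g j I * d k i I) := by
      simp only [← Finset.sum_add_distrib, mul_add]
    rw [e3, e2, e1]
    ring
  have hsplit : ∑ i, ∑ j, ∑ I, ((if i = j then (1 : ℝ) else 0) *
          (g i I * b j I + g j I * b i I + ∑ k, d k i I * d k j I) +
        g i I * g j I * (-∑ k, a k i * a k j) +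
        ∑ k, h k i j * (g i I * d k j I + g j I * d k i I)) =
      ∑ i, ∑ j, ∑ I, (if i = j then (1 : ℝ) else 0) *
          (g i I * b j I + g j I * b i I + ∑ k, d k i I * d k j I) +
      ∑ i, ∑ j, ∑ I, g i I * g j I * (-∑ k, a k i * a k j) +
      ∑ i, ∑ j, ∑ I, ∑ k, h k i j * (g i I * d k j I + g j I * d k i I) := by
    simp only [← Finset.sum_add_distrib]
  have hcr := bql_cross g d h h2
  -- the scalar product
  have hgb : |∑ i, ∑ I, g i I * b i I| ≤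
      Real.sqrt ((∑ i, ∑ I, g i I ^ 2) * ∑ i, ∑ I, b i I ^ 2) := by
    apply Real.abs_le_sqrt
    have := Finset.sum_mul_sq_le_sq_mul_sq (Finset.univ : Finset (Fin n × J))
      (fun p => g p.1 p.2) (fun p => b p.1 p.2)
    simp only [Fintype.sum_prod_type] at this
    exact this
  have hgb' := (abs_le.1 hgb).1
  have hmain : ∑ i, ∑ I, (g i I * b i I + g i I * b i I + ∑ k, d k i I * d k i I) =
      2 * (∑ i, ∑ I, g i I * b i I) + ∑ k, ∑ i, ∑ I, d k i I ^ 2 := by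
    have e1 : ∑ k, ∑ i, ∑ I, d k i I ^ 2 = ∑ i, ∑ I, ∑ k, d k i I * d k i I := by
      rw [Finset.sum_comm]
      refine Finset.sum_congr rfl fun i _ => ?_
      rw [Finset.sum_comm]
      exact Finset.sum_congr rfl fun I _ => Finset.sum_congr rfl fun k _ => sq _
    rw [e1]
    simp only [Finset.sum_add_distrib]
    ring
  rw [hsplit, hN, hP, hX, hmain]
  have h1 : m * (∑ k, ∑ i, ∑ I, d k i I * ∑ j, h k i j * g j I) ≤
      m * Real.sqrt (K2 * (∑ k, ∑ i, ∑ I, d k i I ^ 2) * ∑ i, ∑ I, g i I ^ 2) :=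
    mul_le_mul_of_nonneg_left hcr hm
  have h3 : 0 ≤ m * ∑ k, ∑ I, (∑ i, a k i * g i I) ^ 2 := mul_nonneg hm hP0
  nlinarith

/-! ### the analytic part -/

private noncomputable def Gq (μ : Measure (Eu n)) (ψ : Eu n → ℝ) (q : Fin n → Eu n) {m : ℕ}
    (i : Fin n) (I : Fin m → Fin n) : SS n → ℝ :=
  F μ ψ (q i :: List.ofFn fun a => q (I a))

private lemma bql_Lj (δ : ℝ) (q : Fin n → Eu n) (m : ℕ) :
    Lj μ δ ψ q m = fun s => ((m : ℝ) + 2) * (∑ p : Fin n × (Fin m → Fin n),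
        1 * (Gq μ ψ q p.1 p.2 s * Gq μ ψ q p.1 p.2 s)) +
      (-((m : ℝ) + 1)) * (∑ p : Fin n × Fin n × (Fin m → Fin n),
        1 * (Ab μ δ (q p.1) (q p.2.1) s *
          (Gq μ ψ q p.1 p.2.2 s * Gq μ ψ q p.2.1 p.2.2 s))) := by
  funext s
  unfold Lj
  rw [nsq_succ]
  simp only [nsq, ip_eq, Fintype.sum_prod_type, one_mul, Gq, ← Finset.mul_sum]
  ring

private lemma Gq_smooth (h : Hy μ R) (hψ : BF μ ψ) (q : Fin n → Eu n) {m : ℕ}
    (i : Fin n) (I : Fin m → Fin n) : ContDiff ℝ ∞ (Gq μ ψ q i I) :=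
  F_smooth h hψ _

private lemma bql_D_mul {G H : SS n → ℝ} (hG : ContDiff ℝ ∞ G) (hH : ContDiff ℝ ∞ H)
    (v : Eu n) (s : SS n) :
    D v (fun s => G s * H s) s = G s * D v H s + H s * D v G s := by
  unfold D
  have h1 := (hG.differentiable (by simp)) s
  have h2 := (hH.differentiable (by simp)) s
  rw [fderiv_fun_mul h1 h2]
  simp

private lemma bql_two {G : SS n → ℝ} (hG : ContDiff ℝ ∞ G) : ContDiff ℝ 2 G :=
  contDiff_infty.1 hG 2

theorem Lj_smooth (h : Hy μ R) (hψ : BF μ ψ) (δ : ℝ) (q : Fin n → Eu n) (m : ℕ) :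
    ContDiff ℝ ∞ (Lj μ δ ψ q m) := by
  rw [bql_Lj]
  refine ContDiff.add (contDiff_const.mul (ContDiff.sum fun p _ => contDiff_const.mul ?_))
    (contDiff_const.mul (ContDiff.sum fun p _ => contDiff_const.mul ?_))
  · exact (Gq_smooth h hψ q _ _).mul (Gq_smooth h hψ q _ _)
  · exact (Ab_smooth h δ _ _).mul ((Gq_smooth h hψ q _ _).mul (Gq_smooth h hψ q _ _))

theorem Lj_eq (h : Hy μ R) (hψ : BF μ ψ) (hq : Ofr μ δ q s) (m : ℕ) :
    Lj μ δ ψ q m s = nsq q (m + 1) (fun L => F μ ψ L s) := by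
  unfold Lj
  have h1 : ∑ i, ∑ j, Ab μ δ (q i) (q j) s *
      ip q m (fun L => F μ ψ (q i :: L) s) (fun L => F μ ψ (q j :: L) s) =
      nsq q (m + 1) (fun L => F μ ψ L s) := by
    rw [nsq_succ]
    refine Finset.sum_congr rfl fun i _ => ?_
    rw [Finset.sum_eq_single i]
    · rw [hq i i, if_pos rfl, one_mul]
      rfl
    · intro j _ hj
      rw [hq i j, if_neg hj.symm, zero_mul]
    · intro hi
      exact absurd (Finset.mem_univ i) hi
  rw [h1]
  ring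

/-- `Bq L_j = 2 ip F (Bq F) + nsq_{m+2} F + (m+1) ∑ |A F|² - 2 (m+1) ∑ H F F` and the last sum is
at most `√(K2 nsq_{m+2} nsq_{m+1})` -/
theorem Bq_Lj (h : Hy μ R) (hψ : BF μ ψ) (hq : Ofr μ δ q s) {K2 : ℝ} (hK2 : 0 ≤ K2)
    (h2 : ∀ c : Fin n → ℝ,
      nsq q 2 (fun L => F μ (ln (∑ k, c k • q k)) L s) ≤ K2 * ∑ k, c k ^ 2) (m : ℕ) :
    nsq q (m + 2) (fun L => F μ ψ L s) -
        2 * (m + 1) * Real.sqrt (K2 * nsq q (m + 2) (fun L => F μ ψ L s) *
          nsq q (m + 1) (fun L => F μ ψ L s)) -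
        2 * Real.sqrt (nsq q (m + 1) (fun L => F μ ψ L s) *
          nsq q (m + 1) (fun L => Bq μ q (F μ ψ L) s)) ≤
      Bq μ q (Lj μ δ ψ q m) s := by
  -- the values
  set g : Fin n → (Fin m → Fin n) → ℝ := fun i I => Gq μ ψ q i I s with hg
  set b : Fin n → (Fin m → Fin n) → ℝ := fun i I => Bq μ q (Gq μ ψ q i I) s with hb
  set d : Fin n → Fin n → (Fin m → Fin n) → ℝ := fun k i I => D (q k) (Gq μ ψ q i I) s with hd
  set a : Fin n → Fin n → ℝ := fun k i => F μ (ln (q k)) [q i] s with ha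
  set hh3 : Fin n → Fin n → Fin n → ℝ := fun k i j => F μ (ln (q j)) [q k, q i] s with hh3e
  have hs : ∀ k i j, hh3 k i j = hh3 k j i := by
    intro k i j
    show F μ (ln (q j)) [q k, q i] s = F μ (ln (q i)) [q k, q j] s
    rw [F_perm h (BF.ln h _) (List.Perm.swap (q i) (q k) []), F_ln_swap h,
      F_perm h (BF.ln h _) (List.Perm.swap (q k) (q j) [])]
  have h2' : ∀ c : Fin n → ℝ, ∑ k, ∑ i, (∑ j, hh3 k i j * c j) ^ 2 ≤ K2 * ∑ j, c j ^ 2 := by
    intro c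
    have e1 : nsq q 2 (fun L => F μ (ln (∑ k, c k • q k)) L s) =
        ∑ k, ∑ i, (∑ j, hh3 k i j * c j) ^ 2 := by
      rw [nsq_succ]
      refine Finset.sum_congr rfl fun k _ => ?_
      rw [nsq_succ]
      refine Finset.sum_congr rfl fun i _ => ?_
      rw [nsq_zero, F_ln_sum h]
      congr 1
      exact Finset.sum_congr rfl fun j _ => mul_comm _ _
    rw [← e1]
    exact h2 c
  have hmain := bql_alg g b d a hh3 hs h2' (m := (m : ℝ) + 1) (by positivity)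
  -- the norms
  have n1 : nsq q (m + 1) (fun L => F μ ψ L s) = ∑ i, ∑ I, g i I ^ 2 := by
    rw [nsq_succ]
    refine Finset.sum_congr rfl fun i _ => ?_
    rw [nsq, ip_eq]
    exact Finset.sum_congr rfl fun I _ => (sq _).symm
  have n2 : nsq q (m + 1) (fun L => Bq μ q (F μ ψ L) s) = ∑ i, ∑ I, b i I ^ 2 := by
    rw [nsq_succ]
    refine Finset.sum_congr rfl fun i _ => ?_
    rw [nsq, ip_eq]
    exact Finset.sum_congr rfl fun I _ => (sq _).symm
  have n3 : nsq q (m + 2) (fun L => F μ ψ L s) = ∑ k, ∑ i, ∑ I, d k i I ^ 2 := by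
    rw [nsq_succ]
    refine Finset.sum_congr rfl fun k _ => ?_
    rw [nsq_succ]
    refine Finset.sum_congr rfl fun i _ => ?_
    rw [nsq, ip_eq]
    exact Finset.sum_congr rfl fun I _ => (sq _).symm
  -- the operator
  have sG := fun (i : Fin n) (I : Fin m → Fin n) => Gq_smooth h hψ q i I
  have sA := fun i j => Ab_smooth h δ (q i) (q j)
  have o1 : ∀ p : Fin n × (Fin m → Fin n),
      Bq μ q (fun s => Gq μ ψ q p.1 p.2 s * Gq μ ψ q p.1 p.2 s) s =
      g p.1 p.2 * b p.1 p.2 + g p.1 p.2 * b p.1 p.2 + ∑ k, d k p.1 p.2 * d k p.1 p.2 := by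
    intro p
    rw [Bq_mul (bql_two (sG _ _)) (bql_two (sG _ _))]
  have o2 : ∀ p : Fin n × Fin n × (Fin m → Fin n),
      Bq μ q (fun s => Ab μ δ (q p.1) (q p.2.1) s *
        (Gq μ ψ q p.1 p.2.2 s * Gq μ ψ q p.2.1 p.2.2 s)) s =
      (if p.1 = p.2.1 then 1 else 0) *
        (g p.1 p.2.2 * b p.2.1 p.2.2 + g p.2.1 p.2.2 * b p.1 p.2.2 +
          ∑ k, d k p.1 p.2.2 * d k p.2.1 p.2.2) +
        g p.1 p.2.2 * g p.2.1 p.2.2 * (-∑ k, a k p.1 * a k p.2.1) +
        ∑ k, hh3 k p.1 p.2.1 * (g p.1 p.2.2 * d k p.2.1 p.2.2 +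
          g p.2.1 p.2.2 * d k p.1 p.2.2) := by
    intro p
    have sP : ContDiff ℝ ∞ (fun s => Gq μ ψ q p.1 p.2.2 s * Gq μ ψ q p.2.1 p.2.2 s) :=
      (sG _ _).mul (sG _ _)
    rw [Bq_mul (bql_two (sA _ _)) (bql_two sP), Bq_mul (bql_two (sG _ _)) (bql_two (sG _ _)),
      Bq_Ab h, hq]
    congr 1
    refine Finset.sum_congr rfl fun k _ => ?_
    rw [D_Ab h, bql_D_mul (sG _ _) (sG _ _)]
  have hB : Bq μ q (Lj μ δ ψ q m) s =
      ((m : ℝ) + 2) * (∑ i, ∑ I, (g i I * b i I + g i I * b i I + ∑ k, d k i I * d k i I)) +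
      (-((m : ℝ) + 1)) * (∑ i, ∑ j, ∑ I, ((if i = j then 1 else 0) *
          (g i I * b j I + g j I * b i I + ∑ k, d k i I * d k j I) +
        g i I * g j I * (-∑ k, a k i * a k j) +
        ∑ k, hh3 k i j * (g i I * d k j I + g j I * d k i I))) := by
    rw [bql_Lj, Bq_lin, Bq_sum, Bq_sum]
    · simp only [o1, o2, one_mul, Fintype.sum_prod_type]
    · intro p _
      exact bql_two ((sA _ _).mul ((sG _ _).mul (sG _ _)))
    · intro p _
      exact bql_two ((sG _ _).mul (sG _ _))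
    · exact bql_two (ContDiff.sum fun p _ => contDiff_const.mul ((sG _ _).mul (sG _ _)))
    · exact bql_two (ContDiff.sum fun p _ => contDiff_const.mul
        ((sA _ _).mul ((sG _ _).mul (sG _ _))))
  rw [hB, n1, n2, n3]
  have e : ((m : ℝ) + 1 + 1) = (m : ℝ) + 2 := by ring
  rw [e] at hmain
  exact hmain

end Pool.Agent.Lib.MP_6d896a_gt.FK
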