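import Mathlib
import Pool.Agent.Lib.MP_6d896a_gt.FK.LinA
import Pool.Agent.Lib.MP_6d896a_gt.FK.CalB

/-!
Project FK: the drift of the cumulants.
-/

set_option autoImplicit false

namespace Pool.Agent.Lib.MP_6d896a_gt.FK

open MeasureTheory Filter Topology Set
open scoped ENNReal NNReal ContDiff

variable {n : ℕ} {μ : Measure (Eu n)} {R : ℝ} {ψ φ : Eu n → ℝ} {s : SS n} {q : Fin n → Eu n}

/-! ### masks and splittings -/

/-- all masks of length `m` -/
private def msk : ℕ → List (List Bool)
  | 0 => [[]]
  | m + 1 => (msk m).map (fun b => true :: b) ++ (msk m).map (fun b => false :: b)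

/-- the elements selected by a mask -/
private def pkT : List Bool → List (Eu n) → List (Eu n)
  | true :: b, v :: L => v :: pkT b L
  | false :: b, _ :: L => pkT b L
  | [], _ => []
  | _ :: _, [] => []

/-- the elements which are not selected by a mask -/
private def pkF : List Bool → List (Eu n) → List (Eu n)
  | true :: b, _ :: L => pkF b L
  | false :: b, v :: L => v :: pkF b L
  | [], _ => []
  | _ :: _, [] => []

private def cT : List Bool → ℕ
  | [] => 0
  | true :: b => cT b + 1
  | false :: b => cT b

private def cF : List Bool → ℕ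
  | [] => 0
  | true :: b => cF b
  | false :: b => cF b + 1

/-- the sum over all splittings of a list -/
private noncomputable def spl : List (Eu n) → (List (Eu n) → List (Eu n) → ℝ) → ℝ
  | [], f => f [] []
  | v :: L, f => spl L (fun P Q => f (v :: P) Q) + spl L (fun P Q => f P (v :: Q))

private lemma spl_add (L : List (Eu n)) (f g : List (Eu n) → List (Eu n) → ℝ) :
    spl L (fun P Q => f P Q + g P Q) = spl L f + spl L g := by
  induction L generalizing f g with
  | nil => rfl
  | cons v L ih =>
    simp only [spl]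
    rw [ih, ih]
    ring

private lemma spl_ne (L : List (Eu n)) (f : List (Eu n) → List (Eu n) → ℝ) :
    spl L (fun P Q => if P = [] then 0 else f P Q) = spl L f - f [] L := by
  induction L generalizing f with
  | nil => simp [spl]
  | cons v L ih =>
    simp only [spl]
    rw [ih (fun P Q => f P (v :: Q))]
    simp only [List.cons_ne_nil, if_false]
    ring

private lemma spl_msk (L : List (Eu n)) (f : List (Eu n) → List (Eu n) → ℝ) :
    spl L f = ((msk L.length).map (fun b => f (pkT b L) (pkF b L))).sum := by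
  induction L generalizing f with
  | nil => simp [spl, msk, pkT, pkF]
  | cons v L ih =>
    simp only [spl, List.length_cons, msk, List.map_append, List.map_map, List.sum_append]
    rw [ih, ih]
    congr 1

private lemma len_msk {m : ℕ} {b : List Bool} (hb : b ∈ msk m) : cT b + cF b = m := by
  induction m generalizing b with
  | zero =>
    simp only [msk, List.mem_singleton] at hb
    subst hb
    rfl
  | succ m ih =>
    simp only [msk, List.mem_append, List.mem_map] at hb
    rcases hb with ⟨a, ha, rfl⟩ | ⟨a, ha, rfl⟩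
    · have := ih ha
      simp only [cT, cF]
      omega
    · have := ih ha
      simp only [cT, cF]
      omega

private lemma sum_msk (m : ℕ) (g : ℕ → ℕ → ℝ) :
    ((msk m).map (fun b => g (cT b) (cF b))).sum =
      ∑ ij ∈ Finset.HasAntidiagonal.antidiagonal m, (m.choose ij.1 : ℝ) * g ij.1 ij.2 := by
  induction m generalizing g with
  | zero => simp [msk, cT, cF]
  | succ m ih =>
    rw [Finset.sum_antidiagonal_choose_succ_mul]
    simp only [msk, List.map_append, List.map_map, List.sum_append, Function.comp_def, cT, cF]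
    rw [ih (fun a b => g (a + 1) b), ih (fun a b => g a (b + 1)), add_comm]
    congr 1
    refine Finset.sum_congr rfl fun ij hij => ?_
    rw [Finset.HasAntidiagonal.mem_antidiagonal] at hij
    have : m.choose ij.1 = m.choose ij.2 := by
      rw [← hij]
      exact Nat.choose_symm_add
    rw [this]

/-! ### norms -/

private lemma nsq_congr' (m : ℕ) {Φ Ψ : List (Eu n) → ℝ} (h : ∀ L, L.length = m → Φ L = Ψ L) :
    nsq q m Φ = nsq q m Ψ := by
  induction m generalizing Φ Ψ with
  | zero => rw [nsq_zero, nsq_zero, h [] rfl]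
  | succ m ih =>
    rw [nsq_succ, nsq_succ]
    refine Finset.sum_congr rfl fun i _ => ih fun L hL => h _ ?_
    rw [List.length_cons, hL]

private lemma nsq_neg' (m : ℕ) (Φ : List (Eu n) → ℝ) :
    nsq q m (fun L => - Φ L) = nsq q m Φ := by
  induction m generalizing Φ with
  | zero => rw [nsq_zero, nsq_zero]; ring
  | succ m ih =>
    rw [nsq_succ, nsq_succ]
    exact Finset.sum_congr rfl fun i _ => ih _

private lemma nsq_zero' (m : ℕ) : nsq q m (fun _ => 0) = 0 := by
  induction m with
  | zero => rw [nsq_zero]; ring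
  | succ m ih =>
    rw [nsq_succ]
    exact Finset.sum_eq_zero fun i _ => ih

private lemma nsq_list {α : Type} (m : ℕ) (l : List α) (Θ : α → List (Eu n) → ℝ) :
    Real.sqrt (nsq q m (fun L => (l.map (fun b => Θ b L)).sum)) ≤
      (l.map (fun b => Real.sqrt (nsq q m (Θ b)))).sum := by
  induction l with
  | nil => simp [nsq_zero']
  | cons a l ih =>
    simp only [List.map_cons, List.sum_cons]
    refine nsq_add.trans ?_
    gcongr

/-- the norm of a function of two lists -/
private noncomputable def dsq (q : Fin n → Eu n) (j : ℕ) :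
    ℕ → (List (Eu n) → List (Eu n) → ℝ) → ℝ
  | 0, f => nsq q j (fun P => f P [])
  | k + 1, f => ∑ i, dsq q j k (fun P Q => f P (q i :: Q))

private lemma dsq_left (j k : ℕ) (f : List (Eu n) → List (Eu n) → ℝ) :
    dsq q (j + 1) k f = ∑ i, dsq q j k (fun P Q => f (q i :: P) Q) := by
  induction k generalizing f with
  | zero => rfl
  | succ k ih =>
    simp only [dsq]
    rw [Finset.sum_comm]
    exact Finset.sum_congr rfl fun i _ => ih _

private lemma nsq_mask (b : List Bool) (f : List (Eu n) → List (Eu n) → ℝ) :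
    nsq q (cT b + cF b) (fun L => f (pkT b L) (pkF b L)) = dsq q (cT b) (cF b) f := by
  induction b generalizing f with
  | nil => rfl
  | cons a b ih =>
    cases a
    · show nsq q (cT b + cF b + 1) _ = ∑ i, dsq q (cT b) (cF b) (fun P Q => f P (q i :: Q))
      rw [nsq_succ]
      exact Finset.sum_congr rfl fun i _ => ih (fun P Q => f P (q i :: Q))
    · show nsq q (cT b + 1 + cF b) _ = dsq q (cT b + 1) (cF b) f
      rw [dsq_left, show cT b + 1 + cF b = cT b + cF b + 1 by ring, nsq_succ]
      exact Finset.sum_congr rfl fun i _ => ih (fun P Q => f (q i :: P) Q)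

private lemma dsq_zero' (j k : ℕ) : dsq q j k (fun _ _ => 0) = 0 := by
  induction k with
  | zero => exact nsq_zero' j
  | succ k ih => exact Finset.sum_eq_zero fun i _ => ih

private lemma dsq_congr' (j k : ℕ) {f g : List (Eu n) → List (Eu n) → ℝ}
    (h : ∀ P Q, P.length = j → f P Q = g P Q) : dsq q j k f = dsq q j k g := by
  induction k generalizing f g with
  | zero => exact nsq_congr' j fun P hP => h P [] hP
  | succ k ih => exact Finset.sum_congr rfl fun i _ => ih fun P Q hP => h P _ hP

private lemma dsq_le (j k : ℕ) (f : List (Eu n) → List (Eu n) → ℝ) (A : ℝ)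
    (g : Fin n → List (Eu n) → ℝ) (h : ∀ Q, nsq q j (fun P => f P Q) ≤ A * ∑ a, g a Q ^ 2) :
    dsq q j k f ≤ A * ∑ a, nsq q k (g a) := by
  induction k generalizing f g with
  | zero =>
    refine (h []).trans (le_of_eq ?_)
    simp only [nsq_zero]
  | succ k ih =>
    simp only [dsq, nsq_succ]
    rw [Finset.sum_comm, Finset.mul_sum]
    exact Finset.sum_le_sum fun i _ => ih _ (fun a Q => g a (q i :: Q)) fun Q => h (q i :: Q)

/-! ### the drift -/

private lemma D_add' {G H : SS n → ℝ} (hG : Differentiable ℝ G) (hH : Differentiable ℝ H)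
    (v : Eu n) (s : SS n) : D v (fun s => G s + H s) s = D v G s + D v H s := by
  unfold D
  rw [fderiv_fun_add (hG s) (hH s)]
  rfl

private lemma D_sub' {G H : SS n → ℝ} (hG : Differentiable ℝ G) (hH : Differentiable ℝ H)
    (v : Eu n) (s : SS n) : D v (fun s => G s - H s) s = D v G s - D v H s := by
  unfold D
  rw [fderiv_fun_sub (hG s) (hH s)]
  rfl

private lemma D_neg' {G : SS n → ℝ} (v : Eu n) (s : SS n) :
    D v (fun s => - G s) s = - D v G s := by
  unfold D
  rw [fderiv_fun_neg]
  rfl

private lemma spl_diff (L : List (Eu n)) (G : List (Eu n) → List (Eu n) → SS n → ℝ)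
    (hG : ∀ P Q, Differentiable ℝ (G P Q)) :
    Differentiable ℝ (fun s => spl L (fun P Q => G P Q s)) := by
  induction L generalizing G with
  | nil => exact hG [] []
  | cons v L ih =>
    simp only [spl]
    exact (ih (fun P Q => G (v :: P) Q) fun P Q => hG _ _).add
      (ih (fun P Q => G P (v :: Q)) fun P Q => hG _ _)

private lemma D_spl (v : Eu n) (L : List (Eu n)) (G : List (Eu n) → List (Eu n) → SS n → ℝ)
    (hG : ∀ P Q, Differentiable ℝ (G P Q)) (s : SS n) :
    D v (fun s => spl L (fun P Q => G P Q s)) s = spl L (fun P Q => D v (G P Q) s) := by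
  induction L generalizing G with
  | nil => rfl
  | cons w L ih =>
    simp only [spl]
    rw [D_add' (spl_diff L (fun P Q => G (w :: P) Q) fun P Q => hG _ _)
      (spl_diff L (fun P Q => G P (w :: Q)) fun P Q => hG _ _),
      ih (fun P Q => G (w :: P) Q) fun P Q => hG _ _,
      ih (fun P Q => G P (w :: Q)) fun P Q => hG _ _]

private lemma drift_eq (h : Hy μ R) (hψ : BF μ ψ) (q : Fin n → Eu n) (L : List (Eu n))
    (s : SS n) : Bq μ q (F μ ψ L) s =
      -(spl L (fun P Q => XX μ ψ q P Q s) - XX μ ψ q [] L s) := by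
  induction L generalizing s with
  | nil =>
    rw [F_nil, Bq_mo h hψ]
    simp [spl]
  | cons v L ih =>
    have hX : ∀ P Q, Differentiable ℝ (XX μ ψ q P Q) := fun P Q =>
      (XX_smooth h hψ P Q).differentiable (by simp)
    rw [Bq_F_cons h hψ, show Bq μ q (F μ ψ L) = fun s =>
      -(spl L (fun P Q => XX μ ψ q P Q s) - XX μ ψ q [] L s) from funext ih, D_neg',
      D_sub' (spl_diff L (fun P Q => XX μ ψ q P Q) hX) (hX [] L),
      D_spl v L (fun P Q => XX μ ψ q P Q) hX]
    have e : (fun P Q => D v (XX μ ψ q P Q) s) =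
        fun P Q => XX μ ψ q (v :: P) Q s + XX μ ψ q P (v :: Q) s := by
      funext P Q
      exact D_XX h hψ v P Q s
    rw [e, spl_add, D_XX h hψ]
    simp only [spl]
    ring

/-- `Bq (F L) = - ∑ XX P Q` over all splittings of the positions of `L` into a nonempty list `P`
and a list `Q`; every term is bounded with `w = ∑ k, F ψ (q k :: Q) q k` -/
theorem drift_bound (h : Hy μ R) (hψ : BF μ ψ) (q : Fin n → Eu n) (s : SS n) {m : ℕ}
    (hm : 1 ≤ m) (S : ℕ → ℝ) (hS0 : ∀ j, 0 ≤ S j) {W : ℝ} (hW : 0 ≤ W)
    (h1 : ∀ j, 1 ≤ j → j ≤ m → ∀ c : Fin n → ℝ,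
      nsq q j (fun L => F μ (ln (∑ k, c k • q k)) L s) ≤ S j ^ 2 * ∑ k, c k ^ 2)
    (h2 : ∀ j, 1 ≤ j → j ≤ m → nsq q j (fun L => F μ ψ L s) ≤ S j ^ 2 * W) :
    nsq q m (fun L => Bq μ q (F μ ψ L) s) ≤ bet S m ^ 2 * W := by
  set f : List (Eu n) → List (Eu n) → ℝ := fun P Q => XX μ ψ q P Q s with hf
  set f' : List (Eu n) → List (Eu n) → ℝ := fun P Q => if P = [] then 0 else f P Q with hf'
  -- the terms
  have hterm : ∀ j k : ℕ, 1 ≤ j → j + k = m →
      dsq q j k f' ≤ (S j * S (k + 1) * Real.sqrt W) ^ 2 := by
    intro j k hj hjk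
    have e1 : dsq q j k f' = dsq q j k f := by
      refine dsq_congr' j k fun P Q hP => ?_
      have : P ≠ [] := by
        rintro rfl
        simp at hP
        omega
      simp only [hf', this, if_false]
    rw [e1]
    have e2 : dsq q j k f ≤ S j ^ 2 * ∑ a, nsq q k (fun Q => F μ ψ (q a :: Q) s) := by
      refine dsq_le j k f _ _ fun Q => ?_
      have h3 := h1 j hj (by omega) (fun a => F μ ψ (q a :: Q) s)
      refine le_trans (le_of_eq ?_) h3
      congr 1
      funext P
      rw [F_ln_sum h]
      simp only [hf, XX]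
      exact Finset.sum_congr rfl fun a _ => mul_comm _ _
    refine e2.trans ?_
    have e3 : ∑ a, nsq q k (fun Q => F μ ψ (q a :: Q) s) = nsq q (k + 1) (fun L => F μ ψ L s) :=
      (nsq_succ k (fun L => F μ ψ L s)).symm
    rw [e3]
    have h4 := h2 (k + 1) (by omega) (by omega)
    calc S j ^ 2 * nsq q (k + 1) (fun L => F μ ψ L s) ≤ S j ^ 2 * (S (k + 1) ^ 2 * W) := by
          gcongr
      _ = _ := by
          rw [mul_pow, mul_pow, Real.sq_sqrt hW]
          ring
  have e1 : nsq q m (fun L => Bq μ q (F μ ψ L) s) =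
      nsq q m (fun L => ((msk m).map (fun b => f' (pkT b L) (pkF b L))).sum) := by
    rw [← nsq_neg' m (fun L => Bq μ q (F μ ψ L) s)]
    refine nsq_congr' m fun L hL => ?_
    rw [drift_eq h hψ, neg_neg, ← spl_ne L (fun P Q => XX μ ψ q P Q s), spl_msk, hL]
  have e2 : Real.sqrt (nsq q m (fun L => Bq μ q (F μ ψ L) s)) ≤ bet S m * Real.sqrt W := by
    rw [e1]
    refine (nsq_list m (msk m) (fun b L => f' (pkT b L) (pkF b L))).trans ?_
    obtain ⟨gg, hgg⟩ : ∃ gg : ℕ → ℕ → ℝ, gg = fun j k => if j = 0 then 0 else
      S j * S (k + 1) * Real.sqrt W := ⟨_, rfl⟩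
    have e3 : ((msk m).map (fun b => Real.sqrt (nsq q m (fun L => f' (pkT b L) (pkF b L))))).sum ≤
        ((msk m).map (fun b => gg (cT b) (cF b))).sum := by
      refine List.sum_le_sum fun b hb => ?_
      rw [hgg]
      have hl := len_msk hb
      have e4 : nsq q m (fun L => f' (pkT b L) (pkF b L)) = dsq q (cT b) (cF b) f' := by
        rw [← hl, nsq_mask]
      rw [e4]
      by_cases h0 : cT b = 0
      · have : dsq q (cT b) (cF b) f' = 0 := by
          rw [← dsq_zero' (q := q) (cT b) (cF b)]
          refine dsq_congr' _ _ fun P Q hP => ?_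
          rw [h0, List.length_eq_zero_iff] at hP
          simp only [hf', hP, if_true]
        rw [this]
        simp [h0]
      · simp only [h0, if_false]
        rw [Real.sqrt_le_left (by have := hS0 (cT b); have := hS0 (cF b + 1); positivity)]
        exact hterm _ _ (by omega) hl
    refine e3.trans ?_
    rw [sum_msk m gg, Finset.Nat.sum_antidiagonal_eq_sum_range_succ_mk]
    unfold bet
    rw [Finset.sum_mul]
    refine le_of_eq ?_
    symm
    refine (Finset.sum_congr rfl fun j hj => ?_).trans (Finset.sum_subset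
      (f := fun j => ((m.choose j : ℕ) : ℝ) * gg j (m - j)) (s₁ := Finset.Icc 1 m) ?_ ?_)
    · rw [Finset.mem_Icc] at hj
      simp only [hgg]
      rw [if_neg (by omega)]
      ring
    · intro j hj
      rw [Finset.mem_Icc] at hj
      rw [Finset.mem_range]
      omega
    · intro j hj hj'
      rw [Finset.mem_range] at hj
      rw [Finset.mem_Icc] at hj'
      have : j = 0 := by omega
      simp [hgg, this]
  have hb : 0 ≤ bet S m := by
    unfold bet
    exact Finset.sum_nonneg fun j _ => mul_nonneg (mul_nonneg (by positivity) (hS0 _)) (hS0 _)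
  have h5 : nsq q m (fun L => Bq μ q (F μ ψ L) s) ≤ (bet S m * Real.sqrt W) ^ 2 := by
    rw [← Real.sqrt_le_left (by positivity)]
    exact e2
  rwa [mul_pow, Real.sq_sqrt hW] at h5

end Pool.Agent.Lib.MP_6d896a_gt.FK
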