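import Mathlib
import Pool.Agent.Lib.MP_6d896a_gt.FK.ADefs

/-!
Project FK: contractions of the frame do not increase the norm of a multilinear function of lists.
-/

set_option autoImplicit false

namespace Pool.Agent.Lib.MP_6d896a_gt.FK

variable {n : ℕ} {q : Fin n → Eu n} {m : ℕ} {Φ : List (Eu n) → ℝ}

private theorem linB1_zero (hΦ : ML Φ) (L : List (Eu n)) : Φ ((0 : Eu n) :: L) = 0 := by
  have h := hΦ [] L 0 0 0 0
  simpa using h

private theorem linB1_add (hΦ : ML Φ) (L : List (Eu n)) (a : ℝ) (v w : Eu n) :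
    Φ ((a • v + w) :: L) = a * Φ (v :: L) + Φ (w :: L) := by
  have h := hΦ [] L a 1 v w
  simpa using h

private theorem linB1_sum (hΦ : ML Φ) (L : List (Eu n)) (t : Finset (Fin n)) (c : Fin n → ℝ)
    (q : Fin n → Eu n) :
    Φ ((∑ j ∈ t, c j • q j) :: L) = ∑ j ∈ t, c j * Φ (q j :: L) := by
  classical
  induction t using Finset.induction_on with
  | empty => simpa using linB1_zero hΦ L
  | insert a s ha ih =>
    rw [Finset.sum_insert ha, Finset.sum_insert ha, linB1_add hΦ, ih]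

private theorem linB1_cons (hΦ : ML Φ) (v : Eu n) : ML (fun L => Φ (v :: L)) := by
  intro L L' a b x y
  exact hΦ (v :: L) L' a b x y

private theorem linB1_contr {W : MM n}
    (hW : ∀ c : Fin n → ℝ, ∑ i, (∑ j, W i j * c j) ^ 2 ≤ ∑ j, c j ^ 2) (q : Fin n → Eu n)
    (m : ℕ) : ∀ Ψ : Fin n → List (Eu n) → ℝ,
      ∑ i, nsq q m (fun L => ∑ j, W i j * Ψ j L) ≤ ∑ j, nsq q m (Ψ j) := by
  induction m with
  | zero =>
    intro Ψ
    have h := hW (fun j => Ψ j [])
    simpa [nsq, ip, sq] using h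
  | succ m ih =>
    intro Ψ
    have e1 : ∀ Θ : List (Eu n) → ℝ,
        nsq q (m + 1) Θ = ∑ a, nsq q m (fun L => Θ (q a :: L)) := fun _ => rfl
    simp_rw [e1]
    rw [Finset.sum_comm]
    conv_rhs => rw [Finset.sum_comm]
    exact Finset.sum_le_sum fun a _ => ih (fun j L => Ψ j (q a :: L))

/-- contractions do not increase the norm -/
theorem contr_lemma {W : MM n} (hW : ∀ c : Fin n → ℝ, ∑ i, (∑ j, W i j * c j) ^ 2 ≤ ∑ j, c j ^ 2)
    (hΦ : ML Φ) (m : ℕ) : nsq (fun i => ∑ j, W i j • q j) m Φ ≤ nsq q m Φ := by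
  induction m generalizing Φ with
  | zero => exact le_of_eq rfl
  | succ m ih =>
    have e1 : ∀ (p : Fin n → Eu n) (Θ : List (Eu n) → ℝ),
        nsq p (m + 1) Θ = ∑ a, nsq p m (fun L => Θ (p a :: L)) := fun _ _ => rfl
    rw [e1, e1]
    calc ∑ i, nsq (fun i => ∑ j, W i j • q j) m (fun L => Φ ((∑ j, W i j • q j) :: L))
        ≤ ∑ i, nsq q m (fun L => Φ ((∑ j, W i j • q j) :: L)) :=
          Finset.sum_le_sum fun i _ => ih (linB1_cons hΦ _)
      _ = ∑ i, nsq q m (fun L => ∑ j, W i j * Φ (q j :: L)) := by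
          refine Finset.sum_congr rfl fun i _ => ?_
          congr 1
          funext L
          exact linB1_sum hΦ L Finset.univ (fun j => W i j) q
      _ ≤ ∑ j, nsq q m (fun L => Φ (q j :: L)) :=
          linB1_contr hW q m (fun j L => Φ (q j :: L))

end Pool.Agent.Lib.MP_6d896a_gt.FK
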