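import Mathlib
import Pool.Agent.Lib.MP_6d896a_gt.FK.LinA

/-!
Project FK: the minorant lemma (pure linear algebra).
-/

set_option autoImplicit false

namespace Pool.Agent.Lib.MP_6d896a_gt.FK

variable {n : ℕ}

/-! ### diagonalisation -/

private theorem lb_diag (X : MM n) (hs : ∀ i j, X i j = X j i) :
    ∃ U : MM n, ∃ x : Fin n → ℝ, (∀ i j, ∑ k, U k i * U k j = if i = j then 1 else 0) ∧
      (∀ i j, ∑ k, U i k * U j k = if i = j then 1 else 0) ∧
      ∀ i j, X i j = ∑ a, x a * (U i a * U j a) := by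
  have hH : (Matrix.of X).IsHermitian := by
    ext i j
    simp [Matrix.conjTranspose_apply, hs i j]
  refine ⟨fun i j => (hH.eigenvectorUnitary : Matrix (Fin n) (Fin n) ℝ) i j, hH.eigenvalues,
    ?_, ?_, ?_⟩
  · intro i j
    have h := congrFun (congrFun (Unitary.coe_star_mul_self hH.eigenvectorUnitary) i) j
    simp only [Matrix.mul_apply, Matrix.one_apply] at h
    simpa using h
  · intro i j
    have h := congrFun (congrFun (Unitary.coe_mul_star_self hH.eigenvectorUnitary) i) j
    simp only [Matrix.mul_apply, Matrix.one_apply] at h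
    simpa using h
  · intro i j
    have h := hH.spectral_theorem
    have h2 := congrFun (congrFun h i) j
    rw [Unitary.conjStarAlgAut_apply] at h2
    simp only [Matrix.mul_apply, Matrix.star_apply, Matrix.diagonal_apply, Matrix.of_apply,
      Function.comp] at h2
    rw [h2]
    refine Finset.sum_congr rfl fun a _ => ?_
    simp
    ring

/-! ### the scalar inequality -/

private theorem lb_amgm {m : ℕ} (x : Fin (m + 1) → ℝ) (hx : ∀ a, 0 < x a) :
    ((m : ℝ) + 2) - ∑ a, x a ≤ ∏ a, (x a)⁻¹ := by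
  have h1 : ∀ a, Real.exp (1 - x a) ≤ (x a)⁻¹ := by
    intro a
    have h2 := Real.add_one_le_exp (x a - 1)
    have h3 : x a ≤ Real.exp (x a - 1) := by linarith
    have h4 : Real.exp (1 - x a) = (Real.exp (x a - 1))⁻¹ := by
      rw [← Real.exp_neg]
      congr 1
      ring
    rw [h4]
    exact inv_anti₀ (hx a) h3
  have h5 : Real.exp (∑ a, (1 - x a)) ≤ ∏ a, (x a)⁻¹ := by
    rw [Real.exp_sum]
    exact Finset.prod_le_prod (fun a _ => (Real.exp_pos _).le) fun a _ => h1 a
  have h6 := Real.add_one_le_exp (∑ a, (1 - x a))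
  have h7 : ∑ a, (1 - x a) = ((m : ℝ) + 1) - ∑ a, x a := by
    rw [Finset.sum_sub_distrib]
    simp
  linarith

/-! ### multilinear functions -/

private theorem ML.cons {Φ : List (Eu n) → ℝ} (h : ML Φ) (v : Eu n) :
    ML (fun L => Φ (v :: L)) := by
  intro L L' a b w w'
  have := h (v :: L) L' a b w w'
  simpa using this

private theorem ML.head {Φ : List (Eu n) → ℝ} (h : ML Φ) (L : List (Eu n)) (a b : ℝ)
    (v w : Eu n) : Φ ((a • v + b • w) :: L) = a * Φ (v :: L) + b * Φ (w :: L) := by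
  have := h [] L a b v w
  simpa using this

private theorem ML.head_zero {Φ : List (Eu n) → ℝ} (h : ML Φ) (L : List (Eu n)) :
    Φ (0 :: L) = 0 := by
  have := h.head L 0 0 0 0
  simpa using this

private theorem ML.head_sum {Φ : List (Eu n) → ℝ} (h : ML Φ) (L : List (Eu n)) {ι : Type}
    (t : Finset ι) (c : ι → ℝ) (v : ι → Eu n) :
    Φ ((∑ k ∈ t, c k • v k) :: L) = ∑ k ∈ t, c k * Φ (v k :: L) := by
  classical
  induction t using Finset.induction_on with
  | empty => simpa using h.head_zero L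
  | insert a t ha ih =>
    rw [Finset.sum_insert ha, Finset.sum_insert ha]
    have := h.head L (c a) 1 (v a) (∑ k ∈ t, c k • v k)
    rw [one_smul, one_mul, ih] at this
    exact this

private theorem ML.ofFn_smul (m : ℕ) : ∀ {Φ : List (Eu n) → ℝ}, ML Φ → ∀ (c : Fin m → ℝ)
    (v : Fin m → Eu n), Φ (List.ofFn fun a => c a • v a) = (∏ a, c a) * Φ (List.ofFn v) := by
  induction m with
  | zero => intro Φ _ c v; simp
  | succ m ih =>
    intro Φ h c v
    rw [List.ofFn_succ, List.ofFn_succ, Fin.prod_univ_succ]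
    have h1 := h.head (List.ofFn fun i : Fin m => c i.succ • v i.succ) (c 0) 0 (v 0) 0
    have h2 := ih (h.cons (v 0)) (fun i => c i.succ) (fun i => v i.succ)
    simp only [smul_zero, add_zero, zero_mul] at h1
    rw [h1, h2]
    ring

/-! ### orthogonal invariance -/

private theorem ip_sum_left {q : Fin n → Eu n} {m : ℕ} (c : Fin n → ℝ)
    (Θ : Fin n → List (Eu n) → ℝ) (Ψ : List (Eu n) → ℝ) :
    ip q m (fun L => ∑ a, c a * Θ a L) Ψ = ∑ a, c a * ip q m (Θ a) Ψ :=
  ip_sum Finset.univ c Θ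

private theorem ip_sum_right {q : Fin n → Eu n} {m : ℕ} (c : Fin n → ℝ)
    (Θ : Fin n → List (Eu n) → ℝ) (Ψ : List (Eu n) → ℝ) :
    ip q m Ψ (fun L => ∑ a, c a * Θ a L) = ∑ a, c a * ip q m Ψ (Θ a) := by
  rw [ip_comm, ip_sum_left]
  exact Finset.sum_congr rfl fun a _ => by rw [ip_comm]

private theorem ip_rot (U : MM n) (hU : ∀ i j, ∑ k, U i k * U j k = if i = j then 1 else 0)
    (q : Fin n → Eu n) (m : ℕ) : ∀ Φ Ψ : List (Eu n) → ℝ, ML Φ → ML Ψ →
      ip (fun i => ∑ k, U k i • q k) m Φ Ψ = ip q m Φ Ψ := by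
  induction m with
  | zero => intro Φ Ψ _ _; rfl
  | succ m ih =>
    intro Φ Ψ hΦ hΨ
    rw [ip_succ, ip_succ]
    have h1 : ∀ i, ip (fun i => ∑ k, U k i • q k) m (fun L => Φ ((∑ k, U k i • q k) :: L))
        (fun L => Ψ ((∑ k, U k i • q k) :: L)) =
        ∑ k, U k i * ∑ l, U l i * ip q m (fun L => Φ (q k :: L)) (fun L => Ψ (q l :: L)) := by
      intro i
      have e1 : (fun L => Φ ((∑ k, U k i • q k) :: L)) =
          fun L => ∑ k, U k i * Φ (q k :: L) := by
        funext L
        exact hΦ.head_sum L Finset.univ (fun k => U k i) q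
      have e2 : (fun L => Ψ ((∑ k, U k i • q k) :: L)) =
          fun L => ∑ k, U k i * Ψ (q k :: L) := by
        funext L
        exact hΨ.head_sum L Finset.univ (fun k => U k i) q
      rw [e1, e2, ip_sum_left (fun k => U k i) (fun k L => Φ (q k :: L))]
      refine Finset.sum_congr rfl fun k _ => ?_
      rw [ip_sum_right (fun k => U k i) (fun k L => Ψ (q k :: L))]
      congr 1
      refine Finset.sum_congr rfl fun l _ => ?_
      rw [ih _ _ (hΦ.cons (q k)) (hΨ.cons (q l))]
    rw [Finset.sum_congr rfl fun i _ => h1 i, Finset.sum_comm]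
    refine Finset.sum_congr rfl fun k _ => ?_
    have h2 : ∑ i, U k i * ∑ l, U l i * ip q m (fun L => Φ (q k :: L)) (fun L => Ψ (q l :: L)) =
        ∑ l, (∑ i, U k i * U l i) *
          ip q m (fun L => Φ (q k :: L)) (fun L => Ψ (q l :: L)) := by
      simp_rw [Finset.mul_sum, Finset.sum_mul]
      rw [Finset.sum_comm]
      refine Finset.sum_congr rfl fun l _ => Finset.sum_congr rfl fun i _ => ?_
      ring
    rw [h2]
    simp only [hU, ite_mul, one_mul, zero_mul, Finset.sum_ite_eq, Finset.mem_univ, if_true]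

/-- the frame `r = q U` diagonalises the form `X` -/
private theorem lb_form (U : MM n) (x : Fin n → ℝ)
    (hU : ∀ i j, ∑ k, U i k * U j k = if i = j then 1 else 0) (q : Fin n → Eu n) (m : ℕ)
    (Φ : List (Eu n) → ℝ) (hΦ : ML Φ) :
    ∑ i, ∑ j, (∑ a, x a * (U i a * U j a)) *
        ip q m (fun L => Φ (q i :: L)) (fun L => Φ (q j :: L)) =
      ∑ a, x a * nsq (fun i => ∑ k, U k i • q k) m
        (fun L => Φ ((∑ k, U k a • q k) :: L)) := by
  have h1 : ∀ a, nsq (fun i => ∑ k, U k i • q k) m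
      (fun L => Φ ((∑ k, U k a • q k) :: L)) =
      ∑ i, ∑ j, (U i a * U j a) * ip q m (fun L => Φ (q i :: L)) (fun L => Φ (q j :: L)) := by
    intro a
    have e1 : (fun L => Φ ((∑ k, U k a • q k) :: L)) =
        fun L => ∑ k, U k a * Φ (q k :: L) := by
      funext L
      exact hΦ.head_sum L Finset.univ (fun k => U k a) q
    unfold nsq
    rw [ip_rot U hU q m _ _ (hΦ.cons _) (hΦ.cons _), e1,
      ip_sum_left (fun k => U k a) (fun k L => Φ (q k :: L))]
    refine Finset.sum_congr rfl fun i _ => ?_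
    rw [ip_sum_right (fun k => U k a) (fun k L => Φ (q k :: L)), Finset.mul_sum]
    exact Finset.sum_congr rfl fun j _ => by ring
  simp_rw [h1, Finset.mul_sum, Finset.sum_mul]
  rw [Finset.sum_congr rfl fun i _ => Finset.sum_comm, Finset.sum_comm]
  refine Finset.sum_congr rfl fun a _ => Finset.sum_congr rfl fun i _ =>
    Finset.sum_congr rfl fun j _ => ?_
  ring

/-! ### sums over multi-indices -/

private theorem nsq_eq_sum (r : Fin n → Eu n) (m : ℕ) (Φ : List (Eu n) → ℝ) :
    nsq r m Φ = ∑ I : Fin m → Fin n, Φ (List.ofFn fun a => r (I a)) ^ 2 := by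
  unfold nsq
  rw [ip_eq]
  exact Finset.sum_congr rfl fun I _ => by ring

private theorem lb_zero (r : Fin n → Eu n) (x : Fin n → ℝ) (m : ℕ) (Φ : List (Eu n) → ℝ) :
    ∑ a, x a * nsq r m (fun L => Φ (r a :: L)) =
      ∑ I : Fin (m + 1) → Fin n, x (I 0) * Φ (List.ofFn fun a => r (I a)) ^ 2 := by
  rw [← (Fin.consEquiv (fun _ : Fin (m + 1) => Fin n)).sum_comp, Fintype.sum_prod_type]
  refine Finset.sum_congr rfl fun i _ => ?_
  rw [nsq_eq_sum, Finset.mul_sum]
  refine Finset.sum_congr rfl fun I _ => ?_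
  rw [List.ofFn_succ]
  simp [Fin.consEquiv]

private theorem lb_swap (r : Fin n → Eu n) (x : Fin n → ℝ) (m : ℕ) (Φ : List (Eu n) → ℝ)
    (hS : Sm Φ) (b : Fin (m + 1)) :
    ∑ I : Fin (m + 1) → Fin n, x (I b) * Φ (List.ofFn fun a => r (I a)) ^ 2 =
      ∑ I : Fin (m + 1) → Fin n, x (I 0) * Φ (List.ofFn fun a => r (I a)) ^ 2 := by
  rw [← Equiv.sum_comp (Equiv.arrowCongr (Equiv.swap 0 b) (Equiv.refl (Fin n)))
    (fun I : Fin (m + 1) → Fin n => x (I b) * Φ (List.ofFn fun a => r (I a)) ^ 2)]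
  refine Finset.sum_congr rfl fun I _ => ?_
  have h1 : (Equiv.arrowCongr (Equiv.swap 0 b) (Equiv.refl (Fin n))) I b = I 0 := by
    simp [Equiv.arrowCongr]
  have h2 : Φ (List.ofFn fun a => r ((Equiv.arrowCongr (Equiv.swap 0 b)
      (Equiv.refl (Fin n))) I a)) = Φ (List.ofFn fun a => r (I a)) := by
    apply hS
    have := Equiv.Perm.ofFn_comp_perm (Equiv.swap 0 b) (fun a => r (I a))
    exact this
  rw [h1, h2]

/-- the minorant: with an orthogonal diagonalisation of `X` and `y = x⁻¹`,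
`m + 2 ≤ ∏ y + ∑ x` for `m + 1` positive numbers -/
theorem min_lemma (q : Fin n → Eu n) (X : MM n) (hs : ∀ i j, X i j = X j i)
    (hX : ∀ c : Fin n → ℝ, c ≠ 0 → 0 < ∑ i, ∑ j, c i * c j * X i j) :
    ∃ W : MM n, (∀ i j, ∑ k, ∑ l, W i k * W j l * X k l = if i = j then 1 else 0) ∧
      ∀ (m : ℕ) (Φ : List (Eu n) → ℝ), ML Φ → Sm Φ →
        (m + 2) * nsq q (m + 1) Φ - (m + 1) * ∑ i, ∑ j, X i j *
            ip q m (fun L => Φ (q i :: L)) (fun L => Φ (q j :: L)) ≤
          nsq (fun i => ∑ j, W i j • q j) (m + 1) Φ := by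
  obtain ⟨U, x, hU1, hU2, hXU⟩ := lb_diag X hs
  -- the form in the basis `U`
  have hform : ∀ i j, ∑ k, ∑ l, U k i * U l j * X k l = if i = j then x i else 0 := by
    intro i j
    have h1 : ∀ k l, U k i * U l j * X k l = ∑ a, x a * ((U k i * U k a) * (U l j * U l a)) := by
      intro k l
      rw [hXU, Finset.mul_sum]
      exact Finset.sum_congr rfl fun a _ => by ring
    simp_rw [h1]
    rw [Finset.sum_congr rfl fun k _ => Finset.sum_comm, Finset.sum_comm]
    have h2 : ∀ a, ∑ k, ∑ l, x a * ((U k i * U k a) * (U l j * U l a)) =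
        x a * ((if i = a then 1 else 0) * (if j = a then 1 else 0)) := by
      intro a
      rw [← hU1 i a, ← hU1 j a, Finset.sum_mul_sum, Finset.mul_sum]
      exact Finset.sum_congr rfl fun k _ => by rw [Finset.mul_sum]
    simp_rw [h2]
    by_cases hij : i = j
    · subst hij
      simp
    · rw [if_neg hij]
      refine Finset.sum_eq_zero fun a _ => ?_
      by_cases hia : i = a
      · subst hia
        rw [if_pos rfl, if_neg (fun h : j = i => hij h.symm)]
        ring
      · rw [if_neg hia]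
        ring
  have hx : ∀ i, 0 < x i := by
    intro i
    have h1 := hform i i
    rw [if_pos rfl] at h1
    rw [← h1]
    apply hX (fun k => U k i)
    intro h0
    have h2 := hU1 i i
    rw [if_pos rfl] at h2
    have h3 : ∀ k, U k i = 0 := fun k => congrFun h0 k
    simp [h3] at h2
  set c : Fin n → ℝ := fun i => (Real.sqrt (x i))⁻¹ with hc
  have hc2 : ∀ i, c i * c i * x i = 1 := by
    intro i
    have h1 : Real.sqrt (x i) * Real.sqrt (x i) = x i := Real.mul_self_sqrt (hx i).le
    have h2 : Real.sqrt (x i) ≠ 0 := (Real.sqrt_pos.2 (hx i)).ne'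
    simp only [hc]
    field_simp
    rw [sq, h1]
  have hc3 : ∀ i, c i ^ 2 = (x i)⁻¹ := by
    intro i
    rw [sq]
    exact eq_inv_of_mul_eq_one_left (hc2 i)
  refine ⟨fun i k => c i * U k i, ?_, ?_⟩
  · intro i j
    have h1 : ∑ k, ∑ l, c i * U k i * (c j * U l j) * X k l =
        c i * c j * ∑ k, ∑ l, U k i * U l j * X k l := by
      rw [Finset.mul_sum]
      refine Finset.sum_congr rfl fun k _ => ?_
      rw [Finset.mul_sum]
      exact Finset.sum_congr rfl fun l _ => by ring
    rw [h1, hform]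
    by_cases hij : i = j
    · subst hij
      rw [if_pos rfl, if_pos rfl]
      exact hc2 i
    · rw [if_neg hij, if_neg hij, mul_zero]
  · intro m Φ hΦ hS
    set r : Fin n → Eu n := fun i => ∑ k, U k i • q k with hr
    have e0 : (fun i => ∑ j, (c i * U j i) • q j) = fun i => c i • r i := by
      funext i
      rw [hr, Finset.smul_sum]
      exact Finset.sum_congr rfl fun k _ => by rw [smul_smul]
    have e1 : nsq q (m + 1) Φ = ∑ I : Fin (m + 1) → Fin n,
        Φ (List.ofFn fun a => r (I a)) ^ 2 := by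
      rw [← nsq_eq_sum r (m + 1) Φ]
      exact (ip_rot U hU2 q (m + 1) Φ Φ hΦ hΦ).symm
    have e2 : ∑ i, ∑ j, X i j * ip q m (fun L => Φ (q i :: L)) (fun L => Φ (q j :: L)) =
        ∑ I : Fin (m + 1) → Fin n, x (I 0) * Φ (List.ofFn fun a => r (I a)) ^ 2 := by
      rw [← lb_zero r x m Φ, ← lb_form U x hU2 q m Φ hΦ]
      exact Finset.sum_congr rfl fun i _ => Finset.sum_congr rfl fun j _ => by rw [hXU]
    have e3 : ((m : ℝ) + 1) * ∑ I : Fin (m + 1) → Fin n,
        x (I 0) * Φ (List.ofFn fun a => r (I a)) ^ 2 =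
        ∑ I : Fin (m + 1) → Fin n, (∑ a, x (I a)) * Φ (List.ofFn fun a => r (I a)) ^ 2 := by
      have h1 : ∑ I : Fin (m + 1) → Fin n, (∑ a, x (I a)) *
          Φ (List.ofFn fun a => r (I a)) ^ 2 =
          ∑ b : Fin (m + 1), ∑ I : Fin (m + 1) → Fin n, x (I b) *
            Φ (List.ofFn fun a => r (I a)) ^ 2 := by
        rw [Finset.sum_comm]
        exact Finset.sum_congr rfl fun I _ => by rw [Finset.sum_mul]
      rw [h1, Finset.sum_congr rfl fun b _ => lb_swap r x m Φ hS b, Finset.sum_const,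
        Finset.card_univ, Fintype.card_fin, nsmul_eq_mul]
      push_cast
      ring
    have e4 : nsq (fun i => c i • r i) (m + 1) Φ = ∑ I : Fin (m + 1) → Fin n,
        (∏ a, (x (I a))⁻¹) * Φ (List.ofFn fun a => r (I a)) ^ 2 := by
      rw [nsq_eq_sum]
      refine Finset.sum_congr rfl fun I _ => ?_
      have h1 := ML.ofFn_smul (m + 1) hΦ (fun a => c (I a)) (fun a => r (I a))
      rw [h1, mul_pow, ← Finset.prod_pow]
      congr 1
      exact Finset.prod_congr rfl fun a _ => hc3 (I a)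
    rw [e0, e1, e2, e3, e4, Finset.mul_sum, ← Finset.sum_sub_distrib]
    refine Finset.sum_le_sum fun I _ => ?_
    rw [← sub_mul]
    exact mul_le_mul_of_nonneg_right (lb_amgm (fun a => x (I a)) fun a => hx _) (sq_nonneg _)

end Pool.Agent.Lib.MP_6d896a_gt.FK
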