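import Mathlib
import Pool.Agent.Lib.MP_6d896a_gt.FK.LinB
import Pool.Agent.Lib.MP_6d896a_gt.FK.Cal

/-!
Project FK: orthonormal frames of the regularised covariance form.
-/

set_option autoImplicit false

namespace Pool.Agent.Lib.MP_6d896a_gt.FK

open MeasureTheory Filter Topology Set
open scoped ENNReal NNReal ContDiff

variable {n : ℕ} {μ : Measure (Eu n)} {R δ ε : ℝ} {ψ φ : Eu n → ℝ} {s : SS n} {q : Fin n → Eu n}

theorem Ab_symm (h : Hy μ R) (v w : Eu n) (s : SS n) : Ab μ δ v w s = Ab μ δ w v s := by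
  unfold Ab
  rw [F_ln_swap h v w [] s, real_inner_comm]

theorem Ab_sum (h : Hy μ R) (c : Fin n → ℝ) (q : Fin n → Eu n) (w : Eu n) (s : SS n) :
    Ab μ δ (∑ k, c k • q k) w s = ∑ k, c k * Ab μ δ (q k) w s := by
  unfold Ab
  rw [F_ln_swap h _ w [] s, F_ln_sum h, sum_inner, Finset.mul_sum, ← Finset.sum_add_distrib]
  refine Finset.sum_congr rfl fun k _ => ?_
  rw [F_ln_swap h (q k) w [] s, real_inner_smul_left]
  ring

theorem Ab_self (h : Hy μ R) (w : Eu n) (s : SS n) :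
    Ab μ δ w w s = Vr μ (ln w) s + δ * ‖w‖ ^ 2 := by
  unfold Ab
  rw [Vr_ln h, real_inner_self_eq_norm_sq]

private theorem Ab_sum2 (h : Hy μ R) (a b : Fin n → ℝ) (q : Fin n → Eu n) (s : SS n) :
    Ab μ δ (∑ k, a k • q k) (∑ l, b l • q l) s =
      ∑ k, ∑ l, a k * b l * Ab μ δ (q k) (q l) s := by
  rw [Ab_sum h]
  refine Finset.sum_congr rfl fun k _ => ?_
  rw [Ab_symm h, Ab_sum h, Finset.mul_sum]
  refine Finset.sum_congr rfl fun l _ => ?_
  rw [Ab_symm h (q l) (q k)]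
  ring

/-- the coefficients of a vector in an orthonormal frame -/
theorem Ofr.self (h : Hy μ R) (hq : Ofr μ δ q s) (c : Fin n → ℝ) :
    Ab μ δ (∑ k, c k • q k) (∑ k, c k • q k) s = ∑ k, c k ^ 2 := by
  rw [Ab_sum2 h]
  refine Finset.sum_congr rfl fun k _ => ?_
  have h1 : ∀ l, c k * c l * Ab μ δ (q k) (q l) s = if k = l then c k * c l else 0 := by
    intro l
    rw [hq k l]
    split_ifs <;> ring
  simp_rw [h1]
  rw [Finset.sum_ite_eq, if_pos (Finset.mem_univ k), sq]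

/-- vectors of orthonormal frames are bounded -/
theorem Ofr.norm_le (h : Hy μ R) (hδ : 0 < δ) (hq : Ofr μ δ q s) (k : Fin n) :
    δ * ‖q k‖ ^ 2 ≤ 1 := by
  have h1 := hq k k
  rw [if_pos rfl, Ab_self h] at h1
  have h2 := Vr_nonneg h (BF.ln h (q k)) s
  linarith

private theorem frm_inner (c : Fin n → ℝ) (q : Fin n → Eu n) :
    ∑ i, ∑ j, c i * c j * inner ℝ (q i) (q j) = ‖∑ i, c i • q i‖ ^ 2 := by
  rw [← real_inner_self_eq_norm_sq, sum_inner]
  refine Finset.sum_congr rfl fun i _ => ?_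
  rw [inner_sum]
  refine Finset.sum_congr rfl fun j _ => ?_
  rw [real_inner_smul_left, real_inner_smul_right]
  ring

/-- orthonormal frames of the regularised form satisfy `Fr` -/
theorem Ofr.fr (h : Hy μ R) (hδ : 0 ≤ δ) (hq : Ofr μ δ q s) : Fr μ q s := by
  intro c
  have h1 := Ofr.self h hq c
  rw [Ab_sum2 h] at h1
  have h2 : ∑ i, ∑ j, c i * c j * Ab μ δ (q i) (q j) s =
      ∑ i, ∑ j, c i * c j * F μ (ln (q j)) [q i] s + δ * ‖∑ i, c i • q i‖ ^ 2 := by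
    rw [← frm_inner, Finset.mul_sum, ← Finset.sum_add_distrib]
    refine Finset.sum_congr rfl fun i _ => ?_
    rw [Finset.mul_sum, ← Finset.sum_add_distrib]
    refine Finset.sum_congr rfl fun j _ => ?_
    unfold Ab
    ring
  have h3 : 0 ≤ δ * ‖∑ i, c i • q i‖ ^ 2 := by positivity
  linarith

private theorem frm_pos (h : Hy μ R) (hδ : 0 < δ) (s : SS n) (q : Fin n → Eu n)
    (hq : ∀ c : Fin n → ℝ, ∑ i, c i • q i = 0 → c = 0) (c : Fin n → ℝ) (hc : c ≠ 0) :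
    0 < ∑ i, ∑ j, c i * c j * Ab μ δ (q i) (q j) s := by
  rw [← Ab_sum2 h, Ab_self h]
  have h1 : ∑ i, c i • q i ≠ 0 := fun h0 => hc (hq c h0)
  have h2 : 0 < ‖∑ i, c i • q i‖ := norm_pos_iff.2 h1
  have h3 := Vr_nonneg h (BF.ln h (∑ i, c i • q i)) s
  have h4 : 0 < δ * ‖∑ i, c i • q i‖ ^ 2 := by positivity
  linarith

private theorem frm_std (c : Fin n → ℝ)
    (h0 : ∑ i, c i • (EuclideanSpace.single i (1 : ℝ) : Eu n) = 0) : c = 0 := by
  funext j
  have h1 := congrArg (fun v : Eu n => v j) h0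
  simpa [Finset.sum_apply, Pi.single_apply] using h1

private theorem frm_W (h : Hy μ R) (s : SS n) (q : Fin n → Eu n) (W : MM n)
    (hW : ∀ i j, ∑ k, ∑ l, W i k * W j l * Ab μ δ (q k) (q l) s = if i = j then 1 else 0) :
    Ofr μ δ (fun i => ∑ k, W i k • q k) s := by
  intro i j
  rw [Ab_sum2 h (W i) (W j)]
  exact hW i j

theorem or_exists (h : Hy μ R) (hδ : 0 < δ) (s : SS n) : ∃ q, Ofr μ δ q s := by
  obtain ⟨W, hW, _⟩ := min_lemma (fun i => (EuclideanSpace.single i (1 : ℝ) : Eu n))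
    (fun i j => Ab μ δ (EuclideanSpace.single i (1 : ℝ)) (EuclideanSpace.single j (1 : ℝ)) s)
    (fun i j => Ab_symm h _ _ s) (frm_pos h hδ s _ frm_std)
  exact ⟨_, frm_W h s _ W hW⟩

private theorem Ofr.indep (h : Hy μ R) (hq : Ofr μ δ q s) (c : Fin n → ℝ)
    (h0 : ∑ i, c i • q i = 0) : c = 0 := by
  have h1 := Ofr.self h hq c
  have h2 : Ab μ δ (∑ k, c k • q k) (∑ k, c k • q k) s = 0 := by
    have h3 := Ab_sum (δ := δ) h (fun _ => 0) q (∑ k, c k • q k) s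
    simp only [zero_smul, Finset.sum_const_zero, zero_mul] at h3
    rw [h0] at h3 ⊢
    exact h3
  rw [h2] at h1
  funext j
  have h4 := (Finset.sum_eq_zero_iff_of_nonneg fun k _ => sq_nonneg (c k)).1 h1.symm j
    (Finset.mem_univ j)
  simpa using h4

private theorem Ofr.repr (h : Hy μ R) (hq : Ofr μ δ q s) (v : Eu n) :
    v = ∑ j, Ab μ δ v (q j) s • q j := by
  have hli : LinearIndependent ℝ q := by
    rw [Fintype.linearIndependent_iff]
    intro g hg i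
    exact congrFun (Ofr.indep h hq g hg) i
  have hspan := hli.span_eq_top_of_card_eq_finrank' (by simp)
  have hv : v ∈ Submodule.span ℝ (Set.range q) := by
    rw [hspan]
    trivial
  rw [Submodule.mem_span_range_iff_exists_fun] at hv
  obtain ⟨a, ha⟩ := hv
  have h1 : ∀ j, Ab μ δ v (q j) s = a j := by
    intro j
    rw [← ha, Ab_sum h]
    simp_rw [hq _ j]
    simp
  simp_rw [h1]
  exact ha.symm

private theorem frm_contr {W : MM n}
    (hW : ∀ c : Fin n → ℝ, ∑ k, (∑ i, c i * W i k) ^ 2 ≤ ∑ i, c i ^ 2) (c : Fin n → ℝ) :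
    ∑ i, (∑ j, W i j * c j) ^ 2 ≤ ∑ j, c j ^ 2 := by
  set d : Fin n → ℝ := fun i => ∑ j, W i j * c j with hd
  set e : Fin n → ℝ := fun k => ∑ i, d i * W i k with he
  have h1 : ∑ i, d i ^ 2 = ∑ k, e k * c k := by
    simp only [he, Finset.sum_mul]
    rw [Finset.sum_comm]
    refine Finset.sum_congr rfl fun i _ => ?_
    rw [sq]
    conv_lhs => rw [hd]
    simp only [Finset.sum_mul, Finset.mul_sum]
    refine Finset.sum_congr rfl fun k _ => ?_
    simp only [hd, Finset.sum_mul]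
    refine Finset.sum_congr rfl fun l _ => ?_
    ring
  have h2 : (∑ k, e k * c k) ^ 2 ≤ (∑ k, e k ^ 2) * ∑ k, c k ^ 2 :=
    Finset.sum_mul_sq_le_sq_mul_sq _ _ _
  have h3 : ∑ k, e k ^ 2 ≤ ∑ i, d i ^ 2 := hW d
  have h4 : 0 ≤ ∑ i, d i ^ 2 := Finset.sum_nonneg fun i _ => sq_nonneg _
  have h5 : 0 ≤ ∑ k, c k ^ 2 := Finset.sum_nonneg fun i _ => sq_nonneg _
  rw [← h1] at h2
  have h6 : (∑ i, d i ^ 2) ^ 2 ≤ (∑ i, d i ^ 2) * ∑ k, c k ^ 2 :=
    h2.trans (mul_le_mul_of_nonneg_right h3 h5)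
  rcases h4.eq_or_lt with h7 | h7
  · rw [← h7]
    exact h5
  · rw [sq] at h6
    exact le_of_mul_le_mul_left h6 h7

/-- orthonormal frames maximise `nsq` -/
theorem frame_contr (h : Hy μ R) (hδ : 0 < δ) {q q' : Fin n → Eu n} (hq' : Ofr μ δ q' s)
    (hq : ∀ c : Fin n → ℝ, ∑ i, ∑ j, c i * c j * Ab μ δ (q i) (q j) s ≤ ∑ i, c i ^ 2)
    {Φ : List (Eu n) → ℝ} (hΦ : ML Φ) (m : ℕ) : nsq q m Φ ≤ nsq q' m Φ := by
  set W : MM n := fun i j => Ab μ δ (q i) (q' j) s with hWdef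
  have h1 : q = fun i => ∑ j, W i j • q' j := by
    funext i
    exact Ofr.repr h hq' (q i)
  have h2 : ∀ c : Fin n → ℝ, ∑ k, (∑ i, c i * W i k) ^ 2 ≤ ∑ i, c i ^ 2 := by
    intro c
    have h3 := hq c
    rw [← Ab_sum2 h] at h3
    have h4 : ∑ i, c i • q i = ∑ k, (∑ i, c i * W i k) • q' k := by
      rw [Ofr.repr h hq' (∑ i, c i • q i)]
      refine Finset.sum_congr rfl fun k _ => ?_
      rw [Ab_sum h]
    rw [h4, Ofr.self h hq'] at h3
    exact h3
  have h5 := contr_lemma (q := q') (frm_contr h2) hΦ m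
  rw [← h1] at h5
  exact h5

/-- the minorant: a frame which is orthonormal in the state `s`, from a frame which is orthonormal
in another state -/
theorem frame_change (h : Hy μ R) (hδ : 0 < δ) {s0 : SS n} (hq : Ofr μ δ q s0) (s : SS n) :
    ∃ q', Ofr μ δ q' s ∧ ∀ (m : ℕ) (Φ : List (Eu n) → ℝ), ML Φ → Sm Φ →
      (m + 2) * nsq q (m + 1) Φ - (m + 1) * ∑ i, ∑ j, Ab μ δ (q i) (q j) s *
          ip q m (fun L => Φ (q i :: L)) (fun L => Φ (q j :: L)) ≤ nsq q' (m + 1) Φ := by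
  obtain ⟨W, hW, hm⟩ := min_lemma q (fun i j => Ab μ δ (q i) (q j) s)
    (fun i j => Ab_symm h _ _ s) (frm_pos h hδ s q (Ofr.indep h hq))
  exact ⟨_, frm_W h s q W hW, hm⟩

end Pool.Agent.Lib.MP_6d896a_gt.FK
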