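import Mathlib
import Pool.Agent.Lib.MP_6d896a_gt.FK.Drift
import Pool.Agent.Lib.MP_6d896a_gt.FK.Frm

/-!
Project FK: the drift of the two highest orders at an orthonormal frame.
-/

set_option autoImplicit false

namespace Pool.Agent.Lib.MP_6d896a_gt.FK

open MeasureTheory Filter Topology Set
open scoped ENNReal NNReal ContDiff

variable {n : ℕ} {μ : Measure (Eu n)} {R δ ε : ℝ} {ψ φ : Eu n → ℝ} {s : SS n} {q : Fin n → Eu n}

private lemma c1_smul (h : Hy μ R) (hψ : BF μ ψ) (a : ℝ) (L : List (Eu n)) (s : SS n) :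
    F μ (fun x => a * ψ x) L s = a * F μ ψ L s := by
  have h1 := F_lin h hψ hψ a 0 L s
  rw [zero_mul, add_zero] at h1
  rw [← h1]
  congr 1
  funext x
  ring

private lemma c1_ln_zero (h : Hy μ R) (L : List (Eu n)) (s : SS n) :
    F μ (ln (0 : Eu n)) L s = 0 := by
  have h1 := F_ln_sum h (∅ : Finset (Fin n)) (fun _ => 0) (fun _ => 0) L s
  simpa using h1

/-- scaling: the regularised inequality for linear functionals -/
theorem KS.ln (h : Hy μ R) (hδ : ε * R ^ 2 = δ) {m : ℕ} {K : ℝ} (hK0 : 0 ≤ K)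
    (hK : KS μ δ ε m K) (hs : s ∈ Dom n) (hq : Ofr μ δ q s) (c : Fin n → ℝ) :
    nsq q m (fun L => F μ (ln (∑ k, c k • q k)) L s) ≤ K * ∑ k, c k ^ 2 := by
  have hR : 0 < R := lt_of_lt_of_le one_pos h.R1
  obtain ⟨w, hw⟩ : ∃ w : Eu n, w = ∑ k, c k • q k := ⟨_, rfl⟩
  have hself : Ab μ δ w w s = ∑ k, c k ^ 2 := by
    rw [hw]; exact Ofr.self h hq c
  rw [← hw]
  by_cases hw0 : w = 0
  · have e1 : (fun L => F μ (FK.ln w) L s) = fun L => 0 * F μ (FK.ln w) L s := by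
      funext L
      rw [hw0, c1_ln_zero h]
      ring
    rw [e1, nsq_smul]
    have : 0 ≤ ∑ k, c k ^ 2 := Finset.sum_nonneg fun k _ => sq_nonneg _
    have := mul_nonneg hK0 this
    simpa using this
  · have hwp : 0 < ‖w‖ := norm_pos_iff.2 hw0
    set a : ℝ := (R * ‖w‖)⁻¹ with ha
    have hap : 0 < a := by positivity
    have hB : B1 μ (fun x => a * FK.ln w x) := by
      refine ⟨((BF.ln h w).smul a).ms, ?_⟩
      filter_upwards [h.bs] with x hx
      rw [abs_mul, abs_of_pos hap]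
      have h1 : |FK.ln w x| ≤ R * ‖w‖ := by
        refine (abs_real_inner_le_norm x w).trans ?_
        gcongr
      calc a * |FK.ln w x| ≤ a * (R * ‖w‖) := by gcongr
        _ = 1 := by rw [ha]; exact inv_mul_cancel₀ (by positivity)
    have h1 := hK s hs q hq _ hB
    have e1 : (fun L => F μ (fun x => a * FK.ln w x) L s) = fun L => a * F μ (FK.ln w) L s := by
      funext L
      exact c1_smul h (BF.ln h w) a L s
    rw [e1, nsq_smul, Vr_smul h (BF.ln h w)] at h1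
    have h2 : ε = a ^ 2 * (δ * ‖w‖ ^ 2) := by
      rw [ha, ← hδ]
      field_simp
    rw [h2] at h1
    have h3 : K * (a ^ 2 * Vr μ (FK.ln w) s + a ^ 2 * (δ * ‖w‖ ^ 2)) =
        a ^ 2 * (K * ∑ k, c k ^ 2) := by
      rw [← hself, Ab_self h]
      ring
    rw [h3] at h1
    exact le_of_mul_le_mul_left h1 (by positivity)

theorem SB.ln (h : Hy μ R) (hδ : 0 ≤ δ) {m : ℕ} {K : ℝ} (hK0 : 0 ≤ K)
    (hK : SB μ m K) (hs : s ∈ Dom n) (hq : Ofr μ δ q s) (c : Fin n → ℝ) :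
    nsq q m (fun L => F μ (ln (∑ k, c k • q k)) L s) ≤ K * ∑ k, c k ^ 2 := by
  refine (hK s hs q (Ofr.fr h hδ hq) _ (BF.ln h _)).trans ?_
  rw [← Ofr.self h hq c, Ab_self h]
  gcongr
  have : 0 ≤ δ * ‖∑ k, c k • q k‖ ^ 2 := by positivity
  linarith

private lemma c1_BF (hψ : B1 μ ψ) : BF μ ψ := ⟨hψ.1, 1, hψ.2⟩

private lemma c1_sqrt {m : ℕ} {Φ : List (Eu n) → ℝ} {b W : ℝ} (hb : 0 ≤ b)
    (h1 : nsq q m Φ ≤ b ^ 2 * W) : Real.sqrt (nsq q m Φ) ≤ b * Real.sqrt W := by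
  refine (Real.sqrt_le_sqrt h1).trans (le_of_eq ?_)
  rw [Real.sqrt_mul (sq_nonneg b), Real.sqrt_sq hb]

private lemma c1_bet_nonneg {S : ℕ → ℝ} (hS0 : ∀ j, 0 ≤ S j) (m : ℕ) : 0 ≤ bet S m := by
  unfold bet
  exact Finset.sum_nonneg fun j _ => mul_nonneg (mul_nonneg (by positivity) (hS0 _)) (hS0 _)

private lemma c1_bet_top {S : ℕ → ℝ} (hS1 : S 1 = 1) (m : ℕ) (r : ℝ) :
    bet (fun j => if j = m + 2 then r else S j) (m + 2) = (m + 3) * r + BB S m := by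
  unfold bet BB
  have e1 : Finset.Icc 1 (m + 2) = insert 1 (insert (m + 2) (Finset.Icc 2 (m + 1))) := by
    ext j
    simp only [Finset.mem_Icc, Finset.mem_insert]
    omega
  rw [e1, Finset.sum_insert, Finset.sum_insert]
  · have e2 : ∑ j ∈ Finset.Icc 2 (m + 1), ((m + 2).choose j : ℝ) *
        (if j = m + 2 then r else S j) *
        (if m + 2 - j + 1 = m + 2 then r else S (m + 2 - j + 1)) =
        ∑ j ∈ Finset.Icc 2 (m + 1), ((m + 2).choose j : ℝ) * S j * S (m + 3 - j) := by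
      refine Finset.sum_congr rfl fun j hj => ?_
      rw [Finset.mem_Icc] at hj
      rw [if_neg (by omega), if_neg (by omega), show m + 2 - j + 1 = m + 3 - j by omega]
    have h1 : (1 : ℕ) ≠ m + 2 := by omega
    have h2 : m + 2 - 1 + 1 = m + 2 := by omega
    have h3 : m + 2 - (m + 2) + 1 = 1 := by omega
    beta_reduce
    rw [e2, h2, h3, if_neg h1, if_pos rfl]
    simp only [Nat.choose_one_right, Nat.choose_self, hS1]
    push_cast
    ring
  · simp only [Finset.mem_Icc]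
    omega
  · simp only [Finset.mem_Icc, Finset.mem_insert]
    omega

/-- the drift of the highest order -/
theorem drift_top (h : Hy μ R) (hδ0 : 0 ≤ δ) (hε : 0 ≤ ε) (hδ : ε * R ^ 2 = δ) {m : ℕ}
    {S : ℕ → ℝ} (hS0 : ∀ j, 0 ≤ S j) (hS1 : S 1 = 1)
    (hS : ∀ j, 1 ≤ j → j ≤ m + 1 → SB μ j (S j ^ 2)) {K : ℝ} (hK0 : 0 ≤ K)
    (hK : KS μ δ ε (m + 2) K) (hψ : B1 μ ψ) (hs : s ∈ Dom n) (hq : Ofr μ δ q s) :
    Real.sqrt (nsq q (m + 2) (fun L => Bq μ q (F μ ψ L) s)) ≤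
      ((m + 3) * Real.sqrt K + BB S m) * Real.sqrt (Vr μ ψ s + ε) := by
  have hV : 0 ≤ Vr μ ψ s := Vr_nonneg h (c1_BF hψ) s
  obtain ⟨S', hS'⟩ : ∃ S' : ℕ → ℝ, S' = fun j => if j = m + 2 then Real.sqrt K else S j :=
    ⟨_, rfl⟩
  have h0 : ∀ j, 0 ≤ S' j := by
    intro j
    simp only [hS']
    split_ifs
    · positivity
    · exact hS0 j
  have h1 : ∀ j, 1 ≤ j → j ≤ m + 2 → ∀ c : Fin n → ℝ,
      nsq q j (fun L => F μ (FK.ln (∑ k, c k • q k)) L s) ≤ S' j ^ 2 * ∑ k, c k ^ 2 := by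
    intro j hj hj' c
    by_cases hjm : j = m + 2
    · subst hjm
      simp only [hS', if_true]
      rw [Real.sq_sqrt hK0]
      exact KS.ln h hδ hK0 hK hs hq c
    · simp only [hS', hjm, if_false]
      exact SB.ln h hδ0 (sq_nonneg _) (hS j hj (by omega)) hs hq c
  have h2 : ∀ j, 1 ≤ j → j ≤ m + 2 →
      nsq q j (fun L => F μ ψ L s) ≤ S' j ^ 2 * (Vr μ ψ s + ε) := by
    intro j hj hj'
    by_cases hjm : j = m + 2
    · subst hjm
      simp only [hS', if_true]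
      rw [Real.sq_sqrt hK0]
      exact hK s hs q hq ψ hψ
    · simp only [hS', hjm, if_false]
      refine (hS j hj (by omega) s hs q (Ofr.fr h hδ0 hq) ψ (c1_BF hψ)).trans ?_
      gcongr
      linarith
  have h3 := drift_bound h (c1_BF hψ) q s (m := m + 2) (by omega) S' h0
    (W := Vr μ ψ s + ε) (by linarith) h1 h2
  have h4 := c1_sqrt (c1_bet_nonneg h0 _) h3
  rw [hS', c1_bet_top hS1] at h4
  exact h4

/-- the drift of the order `m + 1` -/
theorem drift_low (h : Hy μ R) (hδ0 : 0 ≤ δ) (hε : 0 ≤ ε) {m : ℕ}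
    {S : ℕ → ℝ} (hS0 : ∀ j, 0 ≤ S j)
    (hS : ∀ j, 1 ≤ j → j ≤ m + 1 → SB μ j (S j ^ 2))
    (hψ : B1 μ ψ) (hs : s ∈ Dom n) (hq : Ofr μ δ q s) :
    Real.sqrt (nsq q (m + 1) (fun L => Bq μ q (F μ ψ L) s)) ≤
      bet S (m + 1) * Real.sqrt (Vr μ ψ s + ε) := by
  have hV : 0 ≤ Vr μ ψ s := Vr_nonneg h (c1_BF hψ) s
  refine c1_sqrt (c1_bet_nonneg hS0 _) ?_
  refine drift_bound h (c1_BF hψ) q s (m := m + 1) (by omega) S hS0
    (W := Vr μ ψ s + ε) (by linarith) ?_ ?_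
  · intro j hj hj' c
    exact SB.ln h hδ0 (sq_nonneg _) (hS j hj hj') hs hq c
  · intro j hj hj'
    refine (hS j hj hj' s hs q (Ofr.fr h hδ0 hq) ψ (c1_BF hψ)).trans ?_
    gcongr
    linarith

end Pool.Agent.Lib.MP_6d896a_gt.FK
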