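import Mathlib
import Pool.Agent.Lib.MP_6d896a_gt.FK.Frm
import Pool.Agent.Lib.MP_6d896a_gt.FK.CalB

/-!
Project FK: the exhaustion function.
-/

set_option autoImplicit false

namespace Pool.Agent.Lib.MP_6d896a_gt.FK

open MeasureTheory Filter Topology Set
open scoped ENNReal NNReal ContDiff

variable {n : ℕ} {μ : Measure (Eu n)} {R δ ε : ℝ} {ψ φ : Eu n → ℝ} {s : SS n} {q : Fin n → Eu n}

theorem hh_nonneg {s : SS n} (hs : s ∈ Dom n) : 0 ≤ hh s := by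
  unfold hh
  refine add_nonneg (Real.sqrt_nonneg _) (Finset.sum_nonneg fun i _ => ?_)
  have h1 := hs.2 (EuclideanSpace.single i (1 : ℝ))
  unfold qf at h1
  simpa [PiLp.single_apply] using h1

private theorem ex1_pos (c : Eu n) : 0 < 1 + ‖c‖ ^ 2 := by positivity

theorem hh_smooth : ContDiff ℝ ∞ (hh : SS n → ℝ) := by
  unfold hh
  refine ContDiff.add ?_ ?_
  · refine ContDiff.sqrt ?_ fun s => (ex1_pos s.1).ne'
    exact contDiff_const.add (contDiff_fst.norm_sq ℝ)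
  · refine ContDiff.sum fun i _ => ?_
    have h1 : ContDiff ℝ ∞ fun s : SS n => s.2 := contDiff_snd
    exact contDiff_pi.1 (contDiff_pi.1 h1 i) i

/-- the first derivative of the square root -/
private theorem ex1_sqrt (s : SS n) :
    HasFDerivAt (fun s : SS n => Real.sqrt (1 + ‖s.1‖ ^ 2))
      ((Real.sqrt (1 + ‖s.1‖ ^ 2))⁻¹ •
        (innerSL ℝ s.1).comp (ContinuousLinearMap.fst ℝ (Eu n) (MM n))) s := by
  have h1 : HasFDerivAt (fun c : Eu n => ‖c‖ ^ 2) (2 • innerSL ℝ s.1) s.1 :=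
    (hasStrictFDerivAt_norm_sq s.1).hasFDerivAt
  have h2 := ((h1.comp s (hasFDerivAt_fst (p := s))).const_add 1).sqrt (ex1_pos s.1).ne'
  refine h2.congr_fderiv ?_
  have hne : Real.sqrt (1 + ‖s.1‖ ^ 2) ≠ 0 := (Real.sqrt_pos.2 (ex1_pos s.1)).ne'
  ext w
  · simp
    field_simp
  · simp

private theorem ex1_tr (s : SS n) :
    HasFDerivAt (fun s : SS n => ∑ i, s.2 i i)
      (∑ i : Fin n, (((ContinuousLinearMap.proj (R := ℝ) (φ := fun _ : Fin n => ℝ) i).comp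
        (ContinuousLinearMap.proj (R := ℝ) (φ := fun _ : Fin n => Fin n → ℝ) i)).comp
        (ContinuousLinearMap.snd ℝ (Eu n) (MM n)) : SS n →L[ℝ] ℝ)) s := by
  have h1 : (fun s : SS n => ∑ i, s.2 i i) =
      ⇑(∑ i : Fin n, (((ContinuousLinearMap.proj (R := ℝ) (φ := fun _ : Fin n => ℝ) i).comp
        (ContinuousLinearMap.proj (R := ℝ) (φ := fun _ : Fin n => Fin n → ℝ) i)).comp
        (ContinuousLinearMap.snd ℝ (Eu n) (MM n)) : SS n →L[ℝ] ℝ)) := by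
    funext s
    simp
  rw [h1]
  exact ContinuousLinearMap.hasFDerivAt _

private theorem ex1_fderiv (s v : SS n) :
    fderiv ℝ hh s v = (Real.sqrt (1 + ‖s.1‖ ^ 2))⁻¹ * inner ℝ s.1 v.1 + ∑ i, v.2 i i := by
  have h1 := (ex1_sqrt s).add (ex1_tr s)
  have h2 : fderiv ℝ hh s = _ := h1.fderiv
  rw [h2]
  simp

private theorem ex1_D (v : Eu n) :
    D v hh = fun s => (Real.sqrt (1 + ‖s.1‖ ^ 2))⁻¹ * inner ℝ s.1 v := by
  funext s
  unfold D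
  rw [ex1_fderiv]
  simp

private theorem ex1_DD (v : Eu n) (s : SS n) : D v (D v hh) s ≤ ‖v‖ ^ 2 := by
  rw [ex1_D]
  have hp := Real.sqrt_pos.2 (ex1_pos s.1)
  have h1 : HasFDerivAt (fun s : SS n => (Real.sqrt (1 + ‖s.1‖ ^ 2))⁻¹) _ s :=
    (hasDerivAt_inv hp.ne').comp_hasFDerivAt s (ex1_sqrt s)
  have h2 : HasFDerivAt (fun s : SS n => inner ℝ s.1 v)
      ((innerSL ℝ v).comp (ContinuousLinearMap.fst ℝ (Eu n) (MM n))) s := by
    have h3 : (fun s : SS n => inner ℝ s.1 v) =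
        (innerSL ℝ v).comp (ContinuousLinearMap.fst ℝ (Eu n) (MM n)) := by
      funext s
      simp [real_inner_comm]
    rw [h3]
    exact ContinuousLinearMap.hasFDerivAt _
  have h4 := h1.mul h2
  have h5 : D v (fun s : SS n => (Real.sqrt (1 + ‖s.1‖ ^ 2))⁻¹ * inner ℝ s.1 v) s =
      (Real.sqrt (1 + ‖s.1‖ ^ 2))⁻¹ * ‖v‖ ^ 2 -
        (Real.sqrt (1 + ‖s.1‖ ^ 2))⁻¹ ^ 3 * (inner ℝ s.1 v) ^ 2 := by
    unfold D
    have h6 : fderiv ℝ (fun s : SS n => (Real.sqrt (1 + ‖s.1‖ ^ 2))⁻¹ * inner ℝ s.1 v) s = _ :=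
      h4.fderiv
    rw [h6]
    simp
    ring
  rw [h5]
  have h7 : (Real.sqrt (1 + ‖s.1‖ ^ 2))⁻¹ ≤ 1 := by
    refine inv_le_one_of_one_le₀ ?_
    refine Real.one_le_sqrt.2 ?_
    nlinarith [sq_nonneg ‖s.1‖]
  have h8 : 0 ≤ (Real.sqrt (1 + ‖s.1‖ ^ 2))⁻¹ := by positivity
  have h9 : 0 ≤ (Real.sqrt (1 + ‖s.1‖ ^ 2))⁻¹ ^ 3 * (inner ℝ s.1 v) ^ 2 := by positivity
  nlinarith [sq_nonneg ‖v‖]

private theorem ex1_ln (h : Hy μ R) (v : Eu n) (s : SS n) : |mo μ (ln v) s| ≤ R * ‖v‖ := by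
  refine mo_abs_le h (BF.ln h v) ?_ s
  filter_upwards [h.bs] with x hx
  refine (abs_real_inner_le_norm x v).trans ?_
  exact mul_le_mul_of_nonneg_right hx (norm_nonneg v)

/-- `Bq h ≤ (R + 3 / 2) ∑ |q_k|²` and the frames are bounded -/
theorem Bq_hh (h : Hy μ R) (hδ : 0 < δ) : ∃ C : ℝ, 0 ≤ C ∧ ∀ (s : SS n) (q : Fin n → Eu n),
    Ofr μ δ q s → Bq μ q hh s ≤ C := by
  have hR : 0 ≤ R := zero_le_one.trans h.R1
  refine ⟨∑ _k : Fin n, (R + 3 / 2) * (1 / δ), by positivity, ?_⟩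
  intro s q hq
  unfold Bq
  rw [ex1_fderiv]
  have hp := Real.sqrt_pos.2 (ex1_pos s.1)
  have h1 : ∀ k, ‖q k‖ ^ 2 ≤ 1 / δ := by
    intro k
    rw [le_div_iff₀ hδ, mul_comm]
    exact Ofr.norm_le h hδ hq k
  have h2 : ∑ i, ∑ k, q k i * q k i = ∑ k, ‖q k‖ ^ 2 := by
    rw [Finset.sum_comm]
    refine Finset.sum_congr rfl fun k _ => ?_
    rw [EuclideanSpace.real_norm_sq_eq]
    refine Finset.sum_congr rfl fun i _ => ?_
    ring
  have h3 : (Real.sqrt (1 + ‖s.1‖ ^ 2))⁻¹ *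
      inner ℝ s.1 (∑ k, mo μ (ln (q k)) s • q k) ≤ ∑ k, R * ‖q k‖ ^ 2 := by
    rw [inner_sum, Finset.mul_sum]
    refine Finset.sum_le_sum fun k _ => ?_
    rw [inner_smul_right]
    have h4 : |mo μ (ln (q k)) s * inner ℝ s.1 (q k)| ≤
        R * ‖q k‖ * (Real.sqrt (1 + ‖s.1‖ ^ 2) * ‖q k‖) := by
      rw [abs_mul]
      refine mul_le_mul (ex1_ln h (q k) s) ?_ (abs_nonneg _) (by positivity)
      refine (abs_real_inner_le_norm _ _).trans ?_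
      refine mul_le_mul_of_nonneg_right ?_ (norm_nonneg _)
      refine Real.le_sqrt_of_sq_le ?_
      linarith
    have h5 := (le_abs_self _).trans h4
    have h6 : (Real.sqrt (1 + ‖s.1‖ ^ 2))⁻¹ * (mo μ (ln (q k)) s * inner ℝ s.1 (q k)) ≤
        (Real.sqrt (1 + ‖s.1‖ ^ 2))⁻¹ * (R * ‖q k‖ * (Real.sqrt (1 + ‖s.1‖ ^ 2) * ‖q k‖)) :=
      mul_le_mul_of_nonneg_left h5 (by positivity)
    refine h6.trans (le_of_eq ?_)
    field_simp
  have h7 : 1 / 2 * ∑ k, D (q k) (D (q k) hh) s ≤ 1 / 2 * ∑ k, ‖q k‖ ^ 2 := by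
    refine mul_le_mul_of_nonneg_left ?_ (by norm_num)
    exact Finset.sum_le_sum fun k _ => ex1_DD (q k) s
  have h8 : ∑ k, R * ‖q k‖ ^ 2 + ∑ k, ‖q k‖ ^ 2 + 1 / 2 * ∑ k, ‖q k‖ ^ 2 ≤
      ∑ _k : Fin n, (R + 3 / 2) * (1 / δ) := by
    rw [Finset.mul_sum, ← Finset.sum_add_distrib, ← Finset.sum_add_distrib]
    refine Finset.sum_le_sum fun k _ => ?_
    nlinarith [h1 k]
  simp only at h2 h3 ⊢
  rw [h2]
  linarith

end Pool.Agent.Lib.MP_6d896a_gt.FK
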