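import Mathlib
import Pool.Agent.Lib.MP_6d896a_gt.FK.ADefs

/-!
Project FK: the maximum principle on the set of states.
-/

set_option autoImplicit false

namespace Pool.Agent.Lib.MP_6d896a_gt.FK

open MeasureTheory Filter Topology Set
open scoped ENNReal NNReal ContDiff

variable {n : ℕ} {μ : Measure (Eu n)} {R : ℝ} {G : SS n → ℝ}

private lemma mp_second {g g' : ℝ → ℝ} {a : ℝ} (h1 : ∀ t, HasDerivAt g (g' t) t)
    (h2 : HasDerivAt g' a 0) (hmax : ∀ t, g t ≤ g 0) : a ≤ 0 := by
  by_contra ha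
  push Not at ha
  have h0 : g' 0 = 0 := by
    have : IsLocalMax g 0 := Filter.Eventually.of_forall hmax
    exact this.hasDerivAt_eq_zero (h1 0)
  set f : ℝ → ℝ := fun t => g t - a / 4 * t ^ 2 with hf
  have hd : ∀ t, HasDerivAt f (g' t - a / 2 * t) t := by
    intro t
    have h3 : HasDerivAt (fun t : ℝ => a / 4 * t ^ 2) (a / 4 * (2 * t)) t := by
      have := (hasDerivAt_pow 2 t).const_mul (a / 4)
      simpa using this
    have h4 := (h1 t).sub h3
    have h5 : g' t - a / 4 * (2 * t) = g' t - a / 2 * t := by ring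
    rw [h5] at h4
    exact h4
  have hderiv : deriv f = fun t => g' t - a / 2 * t := funext fun t => (hd t).deriv
  have hdd : HasDerivAt (deriv f) (a - a / 2) 0 := by
    rw [hderiv]
    have h3 : HasDerivAt (fun t : ℝ => a / 2 * t) (a / 2) 0 := by
      simpa using (hasDerivAt_id (0 : ℝ)).const_mul (a / 2)
    exact h2.sub h3
  have hmin : IsLocalMin f 0 := by
    apply isLocalMin_of_deriv_deriv_pos
    · rw [hdd.deriv]
      linarith
    · rw [hderiv]
      simp [h0]
    · exact (hd 0).continuousAt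
  have hev : ∀ᶠ t in 𝓝[≠] (0 : ℝ), f 0 ≤ f t := hmin.filter_mono nhdsWithin_le_nhds
  have hne : ∀ᶠ t in 𝓝[≠] (0 : ℝ), t ≠ 0 := eventually_mem_nhdsWithin
  obtain ⟨t, ht1, ht2⟩ := (hev.and hne).exists
  have h5 := hmax t
  simp only [hf] at ht1
  have h6 : 0 < t ^ 2 := by positivity
  nlinarith

/-- for all `k` and signs, `(c ± √n d q_k + d² b, B + d² ∑ q q^T)` is in the domain; average and
expand to the second order at `d = 0` -/
theorem max_pr (hG : ContDiff ℝ 2 G) {s0 : SS n} (hs0 : s0 ∈ Dom n)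
    (hmax : ∀ s ∈ Dom n, G s ≤ G s0) (q : Fin n → Eu n) : Bq μ q G s0 ≤ 0 := by
  set w : SS n := (∑ k, mo μ (ln (q k)) s0 • q k, fun i j => ∑ k, q k i * q k j) with hw
  have hG1 : Differentiable ℝ G := hG.differentiable (by norm_num)
  have hG2 : Differentiable ℝ (fderiv ℝ G) :=
    (hG.fderiv_right (m := 1) (by norm_num)).differentiable (by norm_num)
  -- the curves
  have hdom : ∀ (v : Eu n) (t : ℝ), s0 + t • ((v, 0) : SS n) + t ^ 2 • w ∈ Dom n := by
    intro v t
    obtain ⟨h1, h2⟩ := hs0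
    have e2 : ∀ i j, (s0 + t • ((v, 0) : SS n) + t ^ 2 • w).2 i j =
        s0.2 i j + t ^ 2 * ∑ k, q k i * q k j := by
      intro i j
      simp [hw]
    refine ⟨fun i j => ?_, fun x => ?_⟩
    · rw [e2, e2, h1 i j]
      congr 2
      exact Finset.sum_congr rfl fun k _ => mul_comm _ _
    · have e3 : qf (s0 + t • ((v, 0) : SS n) + t ^ 2 • w).2 x =
          qf s0.2 x + t ^ 2 * ∑ k, (∑ i, q k i * x i) ^ 2 := by
        unfold qf
        simp only [e2]
        have e4 : ∀ k, (∑ i, q k i * x i) ^ 2 = ∑ i, ∑ j, q k i * q k j * (x i * x j) := by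
          intro k
          rw [sq, Finset.sum_mul_sum]
          refine Finset.sum_congr rfl fun i _ => Finset.sum_congr rfl fun j _ => ?_
          ring
        simp only [e4]
        rw [Finset.mul_sum]
        have e5 : ∑ k, t ^ 2 * ∑ i, ∑ j, q k i * q k j * (x i * x j) =
            ∑ i, ∑ j, (t ^ 2 * ∑ k, q k i * q k j) * (x i * x j) := by
          simp only [Finset.mul_sum, Finset.sum_mul]
          rw [Finset.sum_comm]
          refine Finset.sum_congr rfl fun i _ => ?_
          rw [Finset.sum_comm]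
          refine Finset.sum_congr rfl fun j _ => Finset.sum_congr rfl fun k _ => ?_
          ring
        rw [e5, ← Finset.sum_add_distrib]
        refine Finset.sum_congr rfl fun i _ => ?_
        rw [← Finset.sum_add_distrib]
        refine Finset.sum_congr rfl fun j _ => ?_
        ring
      rw [e3]
      have := h2 x
      positivity
  have hkey : ∀ v : Eu n, D v (D v G) s0 + 2 * fderiv ℝ G s0 w ≤ 0 := by
    intro v
    set V : SS n := (v, 0) with hV
    set γ : ℝ → SS n := fun t => s0 + t • V + t ^ 2 • w with hγ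
    have hγd : ∀ t, HasDerivAt γ (V + (2 * t) • w) t := by
      intro t
      have h1 : HasDerivAt (fun t : ℝ => t • V) V t := by
        simpa using (hasDerivAt_id t).smul_const V
      have h2 : HasDerivAt (fun t : ℝ => t ^ 2 • w) ((2 * t) • w) t := by
        have := (hasDerivAt_pow 2 t).smul_const w
        simpa using this
      have h3 := (h1.const_add s0).add h2
      exact h3
    have hγ0 : γ 0 = s0 := by simp [hγ]
    have h1 : ∀ t, HasDerivAt (fun t => G (γ t)) (fderiv ℝ G (γ t) (V + (2 * t) • w)) t := by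
      intro t
      exact (hG1 (γ t)).hasFDerivAt.comp_hasDerivAt t (hγd t)
    have h2 : HasDerivAt (fun t => fderiv ℝ G (γ t) (V + (2 * t) • w))
        (fderiv ℝ (fderiv ℝ G) s0 V V + fderiv ℝ G s0 ((2 : ℝ) • w)) 0 := by
      have h3 : HasDerivAt (fun t => fderiv ℝ G (γ t)) (fderiv ℝ (fderiv ℝ G) s0 V) 0 := by
        have h4 := (hG2 (γ 0)).hasFDerivAt.comp_hasDerivAt (0 : ℝ) (hγd 0)
        rw [hγ0] at h4
        exact h4.congr_deriv (by simp)
      have h5 : HasDerivAt (fun t : ℝ => V + (2 * t) • w) ((2 : ℝ) • w) 0 := by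
        have h6 : HasDerivAt (fun t : ℝ => 2 * t) 2 0 := by
          simpa using (hasDerivAt_id (0 : ℝ)).const_mul 2
        simpa using (h6.smul_const w).const_add V
      have h7 := h3.clm_apply h5
      rw [hγ0] at h7
      simpa using h7
    have h3 := mp_second h1 h2 (fun t => by
      rw [hγ0]
      exact hmax _ (hdom v t))
    have h4 : D v (D v G) s0 = fderiv ℝ (fderiv ℝ G) s0 V V := by
      unfold D
      have h5 : HasFDerivAt (fun s => fderiv ℝ G s V)
          ((ContinuousLinearMap.apply ℝ ℝ V).comp (fderiv ℝ (fderiv ℝ G) s0)) s0 :=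
        (ContinuousLinearMap.apply ℝ ℝ V).hasFDerivAt.comp s0 (hG2 s0).hasFDerivAt
      rw [← hV, h5.fderiv]
      rfl
    rw [h4]
    rw [map_smul, smul_eq_mul] at h3
    exact h3
  have hscale : ∀ (c : ℝ) (v : Eu n), D (c • v) (D (c • v) G) s0 = c ^ 2 * D v (D v G) s0 := by
    intro c v
    have h1 : ∀ (u : Eu n), D u (D u G) s0 =
        fderiv ℝ (fderiv ℝ G) s0 ((u, 0) : SS n) ((u, 0) : SS n) := by
      intro u
      unfold D
      have h5 : HasFDerivAt (fun s => fderiv ℝ G s ((u, 0) : SS n))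
          ((ContinuousLinearMap.apply ℝ ℝ ((u, 0) : SS n)).comp (fderiv ℝ (fderiv ℝ G) s0)) s0 :=
        (ContinuousLinearMap.apply ℝ ℝ ((u, 0) : SS n)).hasFDerivAt.comp s0 (hG2 s0).hasFDerivAt
      rw [h5.fderiv]
      rfl
    rw [h1, h1]
    have h2 : ((c • v, 0) : SS n) = c • ((v, 0) : SS n) := by
      ext <;> simp
    rw [h2, map_smul, map_smul, smul_apply]
    simp only [smul_eq_mul]
    ring
  rcases Nat.eq_zero_or_pos n with hn | hn
  · subst hn
    unfold Bq
    rw [← hw]
    have : w = 0 := Subsingleton.elim _ _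
    rw [this]
    simp
  have hn' : (0 : ℝ) < n := by exact_mod_cast hn
  have hsum : ∑ k, ((n : ℝ) * D (q k) (D (q k) G) s0 + 2 * fderiv ℝ G s0 w) ≤ 0 := by
    refine Finset.sum_nonpos fun k _ => ?_
    have h1 := hkey (Real.sqrt n • q k)
    rw [hscale, Real.sq_sqrt hn'.le] at h1
    exact h1
  rw [Finset.sum_add_distrib, ← Finset.mul_sum, Finset.sum_const, Finset.card_univ,
    Fintype.card_fin, nsmul_eq_mul] at hsum
  unfold Bq
  rw [← hw]
  have h2 : (n : ℝ) * (2 * (fderiv ℝ G s0 w + 1 / 2 * ∑ k, D (q k) (D (q k) G) s0)) ≤ 0 := by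
    calc (n : ℝ) * (2 * (fderiv ℝ G s0 w + 1 / 2 * ∑ k, D (q k) (D (q k) G) s0)) =
        (n : ℝ) * ∑ k, D (q k) (D (q k) G) s0 + (n : ℝ) * (2 * fderiv ℝ G s0 w) := by ring
      _ ≤ 0 := hsum
  by_contra hcon
  push Not at hcon
  have : 0 < (n : ℝ) * (2 * (fderiv ℝ G s0 w + 1 / 2 * ∑ k, D (q k) (D (q k) G) s0)) := by
    positivity
  linarith

end Pool.Agent.Lib.MP_6d896a_gt.FK
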