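import Mathlib
import Pool.Agent.Lib.MP_6d896a_gt.FK.BqL
import Pool.Agent.Lib.MP_6d896a_gt.FK.ExMax1
import Pool.Agent.Lib.MP_6d896a_gt.FK.MaxP
import Pool.Agent.Lib.MP_6d896a_gt.FK.Core1

/-!
Project FK: the inequality at a maximiser.
-/

set_option autoImplicit false

namespace Pool.Agent.Lib.MP_6d896a_gt.FK

open MeasureTheory Filter Topology Set
open scoped ENNReal NNReal ContDiff

variable {n : ℕ} {μ : Measure (Eu n)} {R δ ε : ℝ} {ψ φ : Eu n → ℝ} {s : SS n} {q : Fin n → Eu n}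

/-- the final computation -/
private theorem core_alg {N1 N2 N3 K K2 β W S1 bt BBv b1 b2 C ε' L0 L1 a2 a1 : ℝ} (hN1 : 0 ≤ N1)
    (hN2 : 0 ≤ N2) (hN3 : 0 ≤ N3) (hK : 0 ≤ K) (hK2 : 0 ≤ K2) (hβ : 0 ≤ β) (hW : 0 ≤ W)
    (hS1 : 0 ≤ S1) (hbt : b1 ≤ bt * Real.sqrt W)
    (hb1 : 0 ≤ b1) (hb2 : 0 ≤ b2) (hbb : b2 ≤ BBv * Real.sqrt W)
    (hN1W : N1 ≤ S1 ^ 2 * W) (hN2W : N2 ≤ K * W)
    (h0 : N2 - 2 * a1 * Real.sqrt (K2 * N2 * N1) - 2 * (Real.sqrt N1 * b1) ≤ L0)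
    (h1 : N3 - 2 * a2 * Real.sqrt (K2 * N3 * N2) - 2 * (Real.sqrt N2 * b2) ≤ L1)
    (hB : L1 + β * L0 - ε' * C ≤ 0) :
    (β / 2 - a2 ^ 2 * K2) * N2 ≤
      W * (2 * Real.sqrt K * BBv + β * (2 * a1 ^ 2 * K2 * S1 ^ 2 + 2 * S1 * bt)) + ε' * C := by
  -- the square roots
  have hsW : Real.sqrt W * Real.sqrt W = W := Real.mul_self_sqrt hW
  have e1 : Real.sqrt N1 ≤ S1 * Real.sqrt W := by
    have h2 : S1 * Real.sqrt W = Real.sqrt (S1 ^ 2 * W) := by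
      rw [Real.sqrt_mul (sq_nonneg _), Real.sqrt_sq hS1]
    rw [h2]
    exact Real.sqrt_le_sqrt hN1W
  have e2 : Real.sqrt N2 ≤ Real.sqrt K * Real.sqrt W := by
    rw [← Real.sqrt_mul hK]
    exact Real.sqrt_le_sqrt hN2W
  have f1 : Real.sqrt N1 * b1 ≤ S1 * bt * W := by
    calc Real.sqrt N1 * b1 ≤ (S1 * Real.sqrt W) * (bt * Real.sqrt W) :=
          mul_le_mul e1 hbt hb1 (by positivity)
      _ = S1 * bt * (Real.sqrt W * Real.sqrt W) := by ring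
      _ = S1 * bt * W := by rw [hsW]
  have f2 : Real.sqrt N2 * b2 ≤ Real.sqrt K * BBv * W := by
    calc Real.sqrt N2 * b2 ≤ (Real.sqrt K * Real.sqrt W) * (BBv * Real.sqrt W) :=
          mul_le_mul e2 hbb hb2 (by positivity)
      _ = Real.sqrt K * BBv * (Real.sqrt W * Real.sqrt W) := by ring
      _ = Real.sqrt K * BBv * W := by rw [hsW]
  have g1 : 2 * a1 * Real.sqrt (K2 * N2 * N1) ≤ N2 / 2 + 2 * a1 ^ 2 * K2 * N1 := by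
    have h2 : Real.sqrt (K2 * N2 * N1) = Real.sqrt N2 * Real.sqrt (K2 * N1) := by
      rw [← Real.sqrt_mul hN2]
      congr 1
      ring
    have h3 : Real.sqrt N2 ^ 2 = N2 := Real.sq_sqrt hN2
    have h4 : Real.sqrt (K2 * N1) ^ 2 = K2 * N1 := Real.sq_sqrt (mul_nonneg hK2 hN1)
    rw [h2]
    nlinarith [sq_nonneg (Real.sqrt N2 - 2 * a1 * Real.sqrt (K2 * N1))]
  have g2 : 2 * a2 * Real.sqrt (K2 * N3 * N2) ≤ N3 + a2 ^ 2 * K2 * N2 := by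
    have h2 : Real.sqrt (K2 * N3 * N2) = Real.sqrt N3 * Real.sqrt (K2 * N2) := by
      rw [← Real.sqrt_mul hN3]
      congr 1
      ring
    have h3 : Real.sqrt N3 ^ 2 = N3 := Real.sq_sqrt hN3
    have h4 : Real.sqrt (K2 * N2) ^ 2 = K2 * N2 := Real.sq_sqrt (mul_nonneg hK2 hN2)
    rw [h2]
    nlinarith [sq_nonneg (Real.sqrt N3 - a2 * Real.sqrt (K2 * N2))]
  have k1 : -(a2 ^ 2 * K2 * N2) - 2 * (Real.sqrt K * BBv * W) ≤ L1 := by linarith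
  have k0 : N2 / 2 - 2 * a1 ^ 2 * K2 * N1 - 2 * (S1 * bt * W) ≤ L0 := by linarith
  have k2 : 2 * a1 ^ 2 * K2 * N1 ≤ 2 * a1 ^ 2 * K2 * (S1 ^ 2 * W) :=
    mul_le_mul_of_nonneg_left hN1W (by positivity)
  have k3 : N2 / 2 - 2 * a1 ^ 2 * K2 * (S1 ^ 2 * W) - 2 * (S1 * bt * W) ≤ L0 := by linarith
  have k4 := mul_le_mul_of_nonneg_left k3 hβ
  nlinarith

private theorem Bq_G {G0 G1 : SS n → ℝ} (h0 : ContDiff ℝ ∞ G0) (h1 : ContDiff ℝ ∞ G1)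
    {V : SS n → ℝ} (hV : ContDiff ℝ ∞ V) {E : SS n → ℝ} (hE : ContDiff ℝ ∞ E) (β κ ε ε' : ℝ)
    (q : Fin n → Eu n) (s : SS n) :
    Bq μ q (fun s => 1 * (fun s => 1 * G1 s + β * G0 s) s +
        (-1) * (fun s => κ * (fun s => 1 * V s + ε * (fun _ => 1) s) s + ε' * E s) s) s =
      Bq μ q G1 s + β * Bq μ q G0 s - κ * Bq μ q V s - ε' * Bq μ q E s := by
  have h2 : (2 : WithTop ℕ∞) ≤ ((⊤ : ℕ∞) : WithTop ℕ∞) :=
    WithTop.coe_le_coe.2 le_top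
  have c0 : ContDiff ℝ 2 G0 := h0.of_le h2
  have c1 : ContDiff ℝ 2 G1 := h1.of_le h2
  have cV : ContDiff ℝ 2 V := hV.of_le h2
  have cE : ContDiff ℝ 2 E := hE.of_le h2
  have c01 : ContDiff ℝ 2 (fun s => 1 * G1 s + β * G0 s) :=
    (contDiff_const.mul c1).add (contDiff_const.mul c0)
  have cV1 : ContDiff ℝ 2 (fun s => 1 * V s + ε * (fun _ : SS n => (1 : ℝ)) s) :=
    (contDiff_const.mul cV).add (contDiff_const.mul contDiff_const)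
  have cVE : ContDiff ℝ 2 (fun s => κ * (fun s => 1 * V s + ε * (fun _ : SS n => (1 : ℝ)) s) s +
      ε' * E s) := (contDiff_const.mul cV1).add (contDiff_const.mul cE)
  rw [Bq_lin 1 (-1) c01 cVE, Bq_lin 1 β c1 c0, Bq_lin κ ε' cV1 cE,
    Bq_lin 1 ε cV contDiff_const, Bq_const]
  ring

/-- the inequality at a maximiser -/
theorem core (h : Hy μ R) (hδ0 : 0 < δ) (hε : 0 < ε) (hδ : ε * R ^ 2 = δ) :
    ∃ C' : ℝ, 0 ≤ C' ∧ ∀ (m : ℕ) (S : ℕ → ℝ) (K K2 β κ ε' : ℝ) (ψ : Eu n → ℝ) (s0 : SS n)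
      (q0 : Fin n → Eu n), (∀ j, 0 ≤ S j) → S 1 = 1 →
      (∀ j, 1 ≤ j → j ≤ m + 1 → SB μ j (S j ^ 2)) → 0 ≤ K → KS μ δ ε (m + 2) K →
      0 ≤ K2 → SB μ 2 K2 → 0 ≤ β → 0 ≤ κ → 0 ≤ ε' → B1 μ ψ → s0 ∈ Dom n → Ofr μ δ q0 s0 →
      (∀ s ∈ Dom n, ∀ q, Ofr μ δ q s →
        Ob μ ψ m β κ ε ε' (s, q) ≤ Ob μ ψ m β κ ε ε' (s0, q0)) →
      (β / 2 - (m + 2) ^ 2 * K2) * nsq q0 (m + 2) (fun L => F μ ψ L s0) ≤
        (Vr μ ψ s0 + ε) * (2 * Real.sqrt K * ((m + 3) * Real.sqrt K + BB S m) +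
          β * (2 * (m + 1) ^ 2 * K2 * S (m + 1) ^ 2 + 2 * S (m + 1) * bet S (m + 1))) +
        ε' * C' := by
  obtain ⟨C, hC0, hC⟩ := Bq_hh h hδ0
  refine ⟨C, hC0, ?_⟩
  intro m S K K2 β κ ε' ψ s0 q0 hS0 hS1 hS hK0 hK hK20 hK2 hβ hκ hε' hψ hs0 hq0 hmax
  have hbf : BF μ ψ := ⟨hψ.1, 1, hψ.2⟩
  have hdd : 0 ≤ δ := hδ0.le
  -- the objective function
  set G0 : SS n → ℝ := Lj μ δ ψ q0 m with hG0
  set G1 : SS n → ℝ := Lj μ δ ψ q0 (m + 1) with hG1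
  set G : SS n → ℝ := fun s => 1 * (fun s => 1 * G1 s + β * G0 s) s +
        (-1) * (fun s => κ * (fun s => 1 * Vr μ ψ s + ε * (fun _ => 1) s) s + ε' * hh s) s with hG
  have hc0 : ContDiff ℝ ∞ G0 := Lj_smooth h hbf δ q0 m
  have hc1 : ContDiff ℝ ∞ G1 := Lj_smooth h hbf δ q0 (m + 1)
  have hcV : ContDiff ℝ ∞ (Vr μ ψ) := Vr_smooth h hbf
  have hch : ContDiff ℝ ∞ (hh : SS n → ℝ) := hh_smooth
  have hcG : ContDiff ℝ ∞ G :=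
    (contDiff_const.mul ((contDiff_const.mul hc1).add (contDiff_const.mul hc0))).add
      (contDiff_const.mul ((contDiff_const.mul ((contDiff_const.mul hcV).add
        (contDiff_const.mul contDiff_const))).add (contDiff_const.mul hch)))
  have h2 : (2 : WithTop ℕ∞) ≤ ((⊤ : ℕ∞) : WithTop ℕ∞) :=
    WithTop.coe_le_coe.2 le_top
  have hGe : ∀ s, G s = Lj μ δ ψ q0 (m + 1) s + β * Lj μ δ ψ q0 m s -
      κ * (Vr μ ψ s + ε) - ε' * hh s := by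
    intro s
    simp only [hG]
    ring
  have hG00 : G s0 = Ob μ ψ m β κ ε ε' (s0, q0) := by
    rw [hGe, Lj_eq h hbf hq0 (m + 1), Lj_eq h hbf hq0 m]
    rfl
  have hGle : ∀ s ∈ Dom n, G s ≤ G s0 := by
    intro s hs
    obtain ⟨q', hq', hf⟩ := frame_change h hδ0 hq0 s
    rw [hG00]
    refine le_trans ?_ (hmax s hs q' hq')
    rw [hGe]
    have e1 : Lj μ δ ψ q0 (m + 1) s ≤ nsq q' (m + 2) (fun L => F μ ψ L s) :=
      hf (m + 1) (fun L => F μ ψ L s) (F_ML h hbf s) (F_Sm h hbf s)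
    have e0 : Lj μ δ ψ q0 m s ≤ nsq q' (m + 1) (fun L => F μ ψ L s) :=
      hf m (fun L => F μ ψ L s) (F_ML h hbf s) (F_Sm h hbf s)
    have e2 := mul_le_mul_of_nonneg_left e0 hβ
    show _ ≤ nsq q' (m + 2) (fun L => F μ ψ L s) + β * nsq q' (m + 1) (fun L => F μ ψ L s) -
      κ * (Vr μ ψ s + ε) - ε' * hh s
    linarith
  have hB := max_pr (μ := μ) (hcG.of_le h2) hs0 hGle q0
  rw [hG, Bq_G hc0 hc1 hcV hch, Bq_Vr h hbf] at hB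
  have hBh := hC s0 q0 hq0
  have hsq : 0 ≤ ∑ k, F μ ψ [q0 k] s0 ^ 2 := Finset.sum_nonneg fun k _ => sq_nonneg _
  have hB' : Bq μ q0 G1 s0 + β * Bq μ q0 G0 s0 - ε' * C ≤ 0 := by
    have e1 := mul_nonneg hκ hsq
    have e2 := mul_le_mul_of_nonneg_left hBh hε'
    nlinarith
  -- the ingredients
  have hW : 0 ≤ Vr μ ψ s0 + ε := by
    have := Vr_nonneg h hbf s0
    linarith
  have hlin : ∀ c : Fin n → ℝ,
      nsq q0 2 (fun L => F μ (ln (∑ k, c k • q0 k)) L s0) ≤ K2 * ∑ k, c k ^ 2 :=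
    fun c => SB.ln h hdd hK20 hK2 hs0 hq0 c
  have hL0 := Bq_Lj h hbf hq0 hK20 hlin m
  have hL1 := Bq_Lj h hbf hq0 hK20 hlin (m + 1)
  have hb2 := drift_top h hdd hε.le hδ hS0 hS1 hS hK0 hK hψ hs0 hq0
  have hb1 := drift_low h hdd hε.le hS0 hS hψ hs0 hq0
  have hN1 : nsq q0 (m + 1) (fun L => F μ ψ L s0) ≤ S (m + 1) ^ 2 * (Vr μ ψ s0 + ε) := by
    have e1 := hS (m + 1) (by omega) le_rfl s0 hs0 q0 (Ofr.fr h hdd hq0) ψ hbf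
    refine e1.trans ?_
    exact mul_le_mul_of_nonneg_left (by linarith) (sq_nonneg _)
  have hN2 : nsq q0 (m + 2) (fun L => F μ ψ L s0) ≤ K * (Vr μ ψ s0 + ε) :=
    hK s0 hs0 q0 hq0 ψ hψ
  rw [Real.sqrt_mul nsq_nonneg] at hL0 hL1
  push_cast at hL1
  have hfin := core_alg (N1 := nsq q0 (m + 1) (fun L => F μ ψ L s0))
    (N2 := nsq q0 (m + 2) (fun L => F μ ψ L s0)) (N3 := nsq q0 (m + 3) (fun L => F μ ψ L s0))
    (K := K) (K2 := K2) (β := β) (W := Vr μ ψ s0 + ε) (S1 := S (m + 1)) (bt := bet S (m + 1))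
    (BBv := (m + 3) * Real.sqrt K + BB S m)
    (b1 := Real.sqrt (nsq q0 (m + 1) (fun L => Bq μ q0 (F μ ψ L) s0)))
    (b2 := Real.sqrt (nsq q0 (m + 2) (fun L => Bq μ q0 (F μ ψ L) s0)))
    (C := C) (ε' := ε') (L0 := Bq μ q0 G0 s0) (L1 := Bq μ q0 G1 s0)
    (a1 := (m : ℝ) + 1) (a2 := (m : ℝ) + 2)
    nsq_nonneg nsq_nonneg nsq_nonneg hK0 hK20 hβ hW (hS0 _)
    hb1 (Real.sqrt_nonneg _) (Real.sqrt_nonneg _) hb2 hN1 hN2 hL0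
    (by
      refine le_trans (le_of_eq ?_) hL1
      ring_nf)
    hB'
  exact hfin

end Pool.Agent.Lib.MP_6d896a_gt.FK
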