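import Mathlib
import Pool.Agent.Lib.MP_6d896a_gt.FK.Frm
import Pool.Agent.Lib.MP_6d896a_gt.FK.CalB

/-!
Project FK: the existence of a maximiser and of an admissible constant.
-/

set_option autoImplicit false

namespace Pool.Agent.Lib.MP_6d896a_gt.FK

open MeasureTheory Filter Topology Set
open scoped ENNReal NNReal ContDiff

variable {n : ℕ} {μ : Measure (Eu n)} {R δ ε : ℝ} {ψ φ : Eu n → ℝ} {s : SS n} {q : Fin n → Eu n}

private theorem em2_ml_sum {Φ : List (Eu n) → ℝ} (hΦ : ML Φ) (L L' : List (Eu n))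
    {ι : Type} (t : Finset ι) (c : ι → ℝ) (v : ι → Eu n) :
    Φ (L ++ (∑ i ∈ t, c i • v i) :: L') = ∑ i ∈ t, c i * Φ (L ++ v i :: L') := by
  classical
  induction t using Finset.induction_on with
  | empty =>
    have h := hΦ L L' 0 0 0 0
    simpa using h
  | insert a t ha ih =>
    have h := hΦ L L' (c a) 1 (v a) (∑ i ∈ t, c i • v i)
    rw [one_smul, one_mul] at h
    rw [Finset.sum_insert ha, h, ih, Finset.sum_insert ha]

private theorem em2_expand (x : Eu n) :
    x = ∑ i, x i • (EuclideanSpace.single i (1 : ℝ) : Eu n) := by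
  ext j
  simp [Pi.single_apply]

private theorem em2_cont (h : Hy μ R) (hψ : BF μ ψ) {P : Type} [TopologicalSpace P]
    {g : P → SS n} (hg : Continuous g) (l : List (P → Eu n)) (hl : ∀ f ∈ l, Continuous f)
    (pre : List (Eu n)) :
    Continuous fun p => F μ ψ (pre ++ l.map fun f => f p) (g p) := by
  induction l generalizing pre with
  | nil =>
    simp only [List.map_nil, List.append_nil]
    exact (F_smooth h hψ pre).continuous.comp hg
  | cons f l ih =>
    have h1 : (fun p => F μ ψ (pre ++ (f :: l).map fun f => f p) (g p)) = fun p =>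
        ∑ i, f p i * F μ ψ ((pre ++ [EuclideanSpace.single i (1 : ℝ)]) ++ l.map fun f => f p)
          (g p) := by
      funext p
      rw [List.map_cons]
      conv_lhs => rw [em2_expand (f p)]
      rw [em2_ml_sum (F_ML h hψ (g p))]
      refine Finset.sum_congr rfl fun i _ => ?_
      rw [List.append_assoc, List.singleton_append]
    rw [h1]
    have hf : Continuous f := hl f (List.mem_cons_self)
    refine continuous_finsetSum _ fun i _ => Continuous.mul ?_ (ih (fun f' hf' =>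
      hl f' (List.mem_cons_of_mem _ hf')) _)
    exact (PiLp.continuous_apply 2 _ i).comp hf

private theorem em2_cont_ofFn (h : Hy μ R) (hψ : BF μ ψ) (m : ℕ) (I : Fin m → Fin n) :
    Continuous fun p : SS n × (Fin n → Eu n) =>
      F μ ψ (List.ofFn fun a => p.2 (I a)) p.1 := by
  have h1 := em2_cont (P := SS n × (Fin n → Eu n)) h hψ continuous_fst
    (List.ofFn fun a => fun p : SS n × (Fin n → Eu n) => p.2 (I a)) (by
      intro f hf
      rw [List.mem_ofFn] at hf
      obtain ⟨a, rfl⟩ := hf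
      exact (continuous_apply (I a)).comp continuous_snd) []
  simp only [List.nil_append, List.map_ofFn] at h1
  exact h1

private theorem em2_cont_nsq (h : Hy μ R) (hψ : BF μ ψ) (m : ℕ) :
    Continuous fun p : SS n × (Fin n → Eu n) => nsq p.2 m (fun L => F μ ψ L p.1) := by
  unfold nsq
  simp only [ip_eq]
  exact continuous_finsetSum _ fun I _ =>
    (em2_cont_ofFn h hψ m I).mul (em2_cont_ofFn h hψ m I)

private theorem em2_cont_Ab (h : Hy μ R) (δ : ℝ) (i j : Fin n) :
    Continuous fun p : SS n × (Fin n → Eu n) => Ab μ δ (p.2 i) (p.2 j) p.1 := by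
  unfold Ab
  have hc : ∀ k : Fin n, Continuous fun p : SS n × (Fin n → Eu n) => p.2 k := fun k =>
    (continuous_apply k).comp continuous_snd
  refine Continuous.add ?_ (continuous_const.mul ((hc i).inner (hc j)))
  have h1 : (fun p : SS n × (Fin n → Eu n) => F μ (ln (p.2 j)) [p.2 i] p.1) = fun p =>
      ∑ k, p.2 j k * F μ (ln (EuclideanSpace.single k (1 : ℝ))) [p.2 i] p.1 := by
    funext p
    conv_lhs => rw [em2_expand (p.2 j)]
    rw [F_ln_sum h]
  rw [h1]
  refine continuous_finsetSum _ fun k _ => Continuous.mul ?_ ?_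
  · exact (PiLp.continuous_apply 2 _ k).comp (hc j)
  · have h2 := em2_cont (P := SS n × (Fin n → Eu n)) h
      (BF.ln h (EuclideanSpace.single k (1 : ℝ))) continuous_fst
      [fun p : SS n × (Fin n → Eu n) => p.2 i] (by
        intro f hf
        rw [List.mem_singleton] at hf
        rw [hf]
        exact hc i) []
    exact h2

private theorem em2_cont_Vr (h : Hy μ R) (hψ : BF μ ψ) :
    Continuous fun p : SS n × (Fin n → Eu n) => Vr μ ψ p.1 :=
  (Vr_smooth h hψ).continuous.comp continuous_fst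

private theorem em2_cont_hh : Continuous fun p : SS n × (Fin n → Eu n) => hh p.1 := by
  unfold hh
  refine Continuous.add ?_ (continuous_finsetSum _ fun i _ => ?_)
  · exact Real.continuous_sqrt.comp (continuous_const.add
      ((continuous_norm.comp (continuous_fst.comp continuous_fst)).pow 2))
  · exact (continuous_apply i).comp ((continuous_apply i).comp
      (continuous_snd.comp continuous_fst))

private theorem em2_BF (hψ : B1 μ ψ) : BF μ ψ := ⟨hψ.1, 1, hψ.2⟩

private theorem em2_qf_two (B : MM n) (i j : Fin n) (c : ℝ) :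
    qf B (EuclideanSpace.single i (1 : ℝ) + c • EuclideanSpace.single j (1 : ℝ)) =
      B i i + c * B i j + c * B j i + c ^ 2 * B j j := by
  unfold qf
  have h1 : ∀ k : Fin n, (EuclideanSpace.single i (1 : ℝ) +
      c • EuclideanSpace.single j (1 : ℝ) : Eu n) k =
      (if k = i then 1 else 0) + c * (if k = j then 1 else 0) := by
    intro k
    simp
  simp only [h1]
  simp only [mul_add, add_mul, Finset.sum_add_distrib, mul_ite, ite_mul, mul_one, mul_zero,
    one_mul, zero_mul, Finset.sum_ite_eq', Finset.mem_univ, if_true, ← Finset.mul_sum,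
    Finset.sum_const_zero]
  ring

private theorem em2_diag {s : SS n} (hs : s ∈ Dom n) (i : Fin n) : 0 ≤ s.2 i i := by
  have h := hs.2 (EuclideanSpace.single i (1 : ℝ) + (0 : ℝ) • EuclideanSpace.single i (1 : ℝ))
  rw [em2_qf_two] at h
  simpa using h

private theorem em2_entry {s : SS n} (hs : s ∈ Dom n) (i j : Fin n) :
    |s.2 i j| ≤ ∑ k, s.2 k k := by
  have hle : ∀ k, s.2 k k ≤ ∑ k, s.2 k k := fun k =>
    Finset.single_le_sum (f := fun k => s.2 k k) (fun k _ => em2_diag hs k) (Finset.mem_univ k)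
  have h1 := hs.2 (EuclideanSpace.single i (1 : ℝ) + (1 : ℝ) • EuclideanSpace.single j (1 : ℝ))
  have h2 := hs.2 (EuclideanSpace.single i (1 : ℝ) +
    (-1 : ℝ) • EuclideanSpace.single j (1 : ℝ))
  rw [em2_qf_two] at h1 h2
  have h3 := hs.1 i j
  have h4 := hle i
  have h5 := hle j
  rw [← h3] at h1 h2
  rw [abs_le]
  constructor <;> linarith

private theorem em2_hh {s : SS n} (hs : s ∈ Dom n) {C : ℝ} (hC : hh s ≤ C) :
    ‖s‖ ≤ C := by
  have ht : 0 ≤ ∑ k, s.2 k k := Finset.sum_nonneg fun k _ => em2_diag hs k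
  have hsq : ‖s.1‖ ≤ Real.sqrt (1 + ‖s.1‖ ^ 2) := by
    apply Real.le_sqrt_of_sq_le
    linarith
  have h0 : 0 ≤ Real.sqrt (1 + ‖s.1‖ ^ 2) := Real.sqrt_nonneg _
  unfold hh at hC
  have hC0 : 0 ≤ C := by linarith
  rw [Prod.norm_def]
  refine max_le (by linarith) ?_
  rw [pi_norm_le_iff_of_nonneg hC0]
  intro i
  rw [pi_norm_le_iff_of_nonneg hC0]
  intro j
  rw [Real.norm_eq_abs]
  linarith [em2_entry hs i j]

private theorem em2_frame (h : Hy μ R) (hδ : 0 < δ) (hq : Ofr μ δ q s) (k : Fin n) :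
    ‖q k‖ ≤ 1 + 1 / δ := by
  have h1 := Ofr.norm_le h hδ hq k
  have h2 : ‖q k‖ ^ 2 ≤ 1 / δ := by
    rw [le_div_iff₀ hδ]
    linarith
  nlinarith [sq_nonneg (‖q k‖ - 1), norm_nonneg (q k), one_div_pos.2 hδ]

private theorem em2_prod_le {ρ : ℝ} (hρ : 0 ≤ ρ) (L : List (Eu n)) (hL : ∀ v ∈ L, ‖v‖ ≤ ρ) :
    (L.map norm).prod ≤ ρ ^ L.length ∧ 0 ≤ (L.map norm).prod := by
  induction L with
  | nil => simp
  | cons v L ih =>
    obtain ⟨h1, h2⟩ := ih fun w hw => hL w (List.mem_cons_of_mem _ hw)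
    have h3 : ‖v‖ ≤ ρ := hL v List.mem_cons_self
    rw [List.map_cons, List.prod_cons, List.length_cons, pow_succ]
    constructor
    · rw [mul_comm]
      exact mul_le_mul h1 h3 (norm_nonneg _) (pow_nonneg hρ _)
    · exact mul_nonneg (norm_nonneg _) h2

private theorem em2_nsq_le (h : Hy μ R) (hδ : 0 < δ) (m : ℕ) : ∃ K : ℝ, 0 ≤ K ∧
    ∀ ψ, B1 μ ψ → ∀ s : SS n, ∀ q, Ofr μ δ q s → nsq q m (fun L => F μ ψ L s) ≤ K := by
  obtain ⟨C, hC0, hC⟩ := F_bdd h m
  have hρ : (0 : ℝ) ≤ 1 + 1 / δ := by positivity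
  refine ⟨∑ _I : Fin m → Fin n, (C * (1 + 1 / δ) ^ m) ^ 2,
    Finset.sum_nonneg fun _ _ => sq_nonneg _, fun ψ hψ s q hq => ?_⟩
  rw [nsq, ip_eq]
  refine Finset.sum_le_sum fun I _ => ?_
  have h1 := hC ψ hψ (List.ofFn fun a => q (I a)) (List.length_ofFn) s
  have h2 := em2_prod_le hρ (List.ofFn fun a => q (I a)) (by
    intro v hv
    rw [List.mem_ofFn] at hv
    obtain ⟨a, rfl⟩ := hv
    exact em2_frame h hδ hq _)
  rw [List.length_ofFn] at h2
  have h3 : |F μ ψ (List.ofFn fun a => q (I a)) s| ≤ C * (1 + 1 / δ) ^ m :=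
    h1.trans (mul_le_mul_of_nonneg_left h2.1 hC0)
  rw [← sq, ← sq_abs]
  exact pow_le_pow_left₀ (abs_nonneg _) h3 2

/-- closed and coercive: `h` tends to infinity on `Dom`, all other terms are bounded -/
theorem exists_max (h : Hy μ R) (hδ : 0 < δ) (hψ : B1 μ ψ) (m : ℕ) {β κ ε ε' : ℝ}
    (hβ : 0 ≤ β) (hκ : 0 ≤ κ) (hε : 0 ≤ ε) (hε' : 0 < ε') :
    ∃ s0 ∈ Dom n, ∃ q0, Ofr μ δ q0 s0 ∧ ∀ s ∈ Dom n, ∀ q, Ofr μ δ q s →
      Ob μ ψ m β κ ε ε' (s, q) ≤ Ob μ ψ m β κ ε ε' (s0, q0) := by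
  have hB := em2_BF hψ
  let S : Set (SS n × (Fin n → Eu n)) := {p | p.1 ∈ Dom n ∧ Ofr μ δ p.2 p.1}
  have hOb : Continuous (Ob μ ψ m β κ ε ε') := by
    unfold Ob
    exact ((((em2_cont_nsq h hB (m + 2)).add (continuous_const.mul
      (em2_cont_nsq h hB (m + 1)))).sub (continuous_const.mul
      ((em2_cont_Vr h hB).add continuous_const))).sub (continuous_const.mul em2_cont_hh))
  have hSc : IsClosed S := by
    have e1 : S = (⋂ i, ⋂ j, {p : SS n × (Fin n → Eu n) | p.1.2 i j = p.1.2 j i}) ∩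
        (⋂ x : Eu n, {p : SS n × (Fin n → Eu n) | 0 ≤ qf p.1.2 x}) ∩
        (⋂ i, ⋂ j, {p : SS n × (Fin n → Eu n) |
          Ab μ δ (p.2 i) (p.2 j) p.1 = if i = j then 1 else 0}) := by
      ext p
      simp only [S, Dom, Ofr, mem_ofPred_eq, mem_inter_iff, mem_iInter]
    have hc : ∀ i j : Fin n, Continuous fun p : SS n × (Fin n → Eu n) => p.1.2 i j :=
      fun i j => (continuous_apply j).comp ((continuous_apply i).comp
        (continuous_snd.comp continuous_fst))
    rw [e1]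
    refine ((isClosed_iInter fun i => isClosed_iInter fun j => ?_).inter
      (isClosed_iInter fun x => ?_)).inter (isClosed_iInter fun i => isClosed_iInter fun j => ?_)
    · exact isClosed_eq (hc i j) (hc j i)
    · refine isClosed_le continuous_const ?_
      unfold qf
      exact continuous_finsetSum _ fun i _ => continuous_finsetSum _ fun j _ =>
        (hc i j).mul continuous_const
    · exact isClosed_eq (em2_cont_Ab h δ i j) continuous_const
  obtain ⟨K2, hK20, hK2⟩ := em2_nsq_le (n := n) (μ := μ) h hδ (m + 2)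
  obtain ⟨K1, hK10, hK1⟩ := em2_nsq_le (n := n) (μ := μ) h hδ (m + 1)
  have h0 : (0 : SS n) ∈ Dom n := by
    refine ⟨fun i j => rfl, fun x => ?_⟩
    unfold qf
    simp
  obtain ⟨q1, hq1⟩ := or_exists h hδ (0 : SS n)
  have hp1 : ((0 : SS n), q1) ∈ S := ⟨h0, hq1⟩
  set b := Ob μ ψ m β κ ε ε' ((0 : SS n), q1) with hb
  let T : Set (SS n × (Fin n → Eu n)) := S ∩ {p | b ≤ Ob μ ψ m β κ ε ε' p}
  have hTc : IsClosed T := hSc.inter (isClosed_le continuous_const hOb)
  have hTb : T ⊆ Metric.closedBall 0 (max ((K2 + β * K1 - b) / ε') (1 + 1 / δ)) := by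
    rintro p ⟨⟨hp1, hp2⟩, hp3⟩
    rw [mem_closedBall_zero_iff, Prod.norm_def]
    refine max_le_max ?_ ?_
    · apply em2_hh hp1
      rw [le_div_iff₀ hε']
      have e1 := hK2 ψ hψ p.1 p.2 hp2
      have e2 := hK1 ψ hψ p.1 p.2 hp2
      have e3 := Vr_nonneg h hB p.1
      have e4 : b ≤ Ob μ ψ m β κ ε ε' p := hp3
      unfold Ob at e4
      have e5 : 0 ≤ κ * (Vr μ ψ p.1 + ε) := mul_nonneg hκ (by linarith)
      have e6 := mul_le_mul_of_nonneg_left e2 hβ
      nlinarith
    · rw [pi_norm_le_iff_of_nonneg (by positivity)]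
      exact fun k => em2_frame h hδ hp2 k
  have hTk : IsCompact T := (isCompact_closedBall _ _).of_isClosed_subset hTc hTb
  obtain ⟨p0, hp0, hmax⟩ := hTk.exists_isMaxOn ⟨_, hp1, le_refl b⟩ hOb.continuousOn
  refine ⟨p0.1, hp0.1.1, p0.2, hp0.1.2, fun s hs q hq => ?_⟩
  by_cases hc : b ≤ Ob μ ψ m β κ ε ε' (s, q)
  · exact hmax (show (s, q) ∈ T from ⟨⟨hs, hq⟩, hc⟩)
  · exact (not_le.1 hc).le.trans hp0.2

/-- some constant is admissible -/
theorem KS_exists (h : Hy μ R) (hδ : 0 < δ) (hε : 0 < ε) (m : ℕ) :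
    ∃ K : ℝ, 0 ≤ K ∧ KS μ δ ε m K := by
  obtain ⟨K, hK0, hK⟩ := em2_nsq_le (n := n) (μ := μ) h hδ m
  refine ⟨K / ε, by positivity, fun s _ q hq ψ hψ => ?_⟩
  have h1 := hK ψ hψ s q hq
  have h2 := Vr_nonneg h (em2_BF hψ) s
  calc nsq q m (fun L => F μ ψ L s) ≤ K := h1
    _ = K / ε * ε := by field_simp
    _ ≤ K / ε * (Vr μ ψ s + ε) := mul_le_mul_of_nonneg_left (by linarith) (by positivity)

end Pool.Agent.Lib.MP_6d896a_gt.FK
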