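import Mathlib
import Pool.Agent.Lib.MP_6d896a_gt.FK.ExMax1
import Pool.Agent.Lib.MP_6d896a_gt.FK.ExMax2

/-!
Project FK: the exhaustion function and the existence of a maximiser (collected).
-/
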