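import Mathlib
import Pool.Agent.Lib.MP_6d896a_gt.FK.BqL
import Pool.Agent.Lib.MP_6d896a_gt.FK.Drift
import Pool.Agent.Lib.MP_6d896a_gt.FK.ExMax
import Pool.Agent.Lib.MP_6d896a_gt.FK.MaxP
import Pool.Agent.Lib.MP_6d896a_gt.FK.Core1
import Pool.Agent.Lib.MP_6d896a_gt.FK.Core2

/-!
Project FK: the inequality at a maximiser (collected).
-/
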