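import Mathlib

/-!
Project FK (the full Kannan-Lovasz-Simonovits inequality), the final numerical induction (B7):
along the tower the Rayleigh quotients stay below `2 * lam`, and the number of levels is at most
`2 * lam / kap`.
-/

set_option autoImplicit false

namespace Pool.Agent.Lib.MP_6d896a_gt.FK

open Finset

/-- geometric averages -/
private noncomputable def WW (y : ℕ → ℝ) : ℕ → ℝ
  | 0 => 0
  | k + 1 => (WW y k + y k) / 8

private lemma WW_eq (y : ℕ → ℝ) (k : ℕ) : WW y k = ∑ r ∈ range k, (1 / 8 : ℝ) ^ (k - r) * y r := by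
  induction k with
  | zero => simp [WW]
  | succ k ih =>
    rw [WW, ih, sum_range_succ, Nat.succ_sub (le_refl k), Nat.sub_self, add_div, sum_div]
    congr 1
    · refine sum_congr rfl fun r hr => ?_
      rw [Nat.succ_sub (mem_range.1 hr).le, pow_succ]
      ring
    · simp
      ring

private lemma WW_nonneg {y : ℕ → ℝ} {k : ℕ} (hy : ∀ j < k, 0 ≤ y j) : 0 ≤ WW y k := by
  rw [WW_eq]
  exact sum_nonneg fun r hr => mul_nonneg (by positivity) (hy r (mem_range.1 hr))

private lemma sum_WW {y : ℕ → ℝ} (k : ℕ) :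
    7 * ∑ j ∈ range k, WW y (j + 1) + WW y k = ∑ j ∈ range k, y j := by
  induction k with
  | zero => simp [WW]
  | succ k ih =>
    rw [sum_range_succ, sum_range_succ _ k, ← ih]
    simp only [WW]
    ring

/-- one step of the logarithmic potential -/
private lemma log_step {lam kap V z D E m V' D' : ℝ} (hl : 0 < lam) (hk : 0 < kap) (hV : 0 < V)
    (hz : 0 ≤ z) (hD0 : 0 < D) (hD : D ≤ 2 * lam * V) (hE : 0 < E)
    (hV' : V' = E - m) (hm : 0 ≤ m) (hm' : m ≤ E / 2) (hgap : lam * V' ≤ D')
    (hDE : D * E = lam * (V + z) * V) (hB : D' ≤ lam * V - kap * E) (hz3 : z ≤ 3 * V) :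
    Real.log (D' / V') + z / V / 4 + kap / (2 * lam) ≤ Real.log (D / V) + 2 * (m / E) := by
  have hVp : 0 < V' := by rw [hV']; linarith
  have hDp : 0 < D' := lt_of_lt_of_le (mul_pos hl hVp) hgap
  have hVz : 0 < V + z := by linarith
  -- the basic inequality
  have h1 : D' / E ≤ D / (V + z) - kap := by
    rw [div_le_iff₀ hE, sub_mul]
    have : D / (V + z) * E = lam * V := by
      rw [div_mul_eq_mul_div, hDE]
      field_simp
    rw [this]
    exact hB
  have h2 : D / (V + z) - kap ≤ D / (V + z) * (1 - kap / (2 * lam)) := by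
    have h3 : D / (V + z) ≤ 2 * lam := by
      rw [div_le_iff₀ hVz]
      nlinarith [mul_nonneg hl.le hz]
    have h4 : D / (V + z) * (kap / (2 * lam)) ≤ kap := by
      calc D / (V + z) * (kap / (2 * lam)) ≤ 2 * lam * (kap / (2 * lam)) :=
            mul_le_mul_of_nonneg_right h3 (by positivity)
        _ = kap := by field_simp
    linarith
  have h3 : D' / E ≤ D / (V + z) * Real.exp (-(kap / (2 * lam))) := by
    refine (h1.trans h2).trans (mul_le_mul_of_nonneg_left ?_ (by positivity))
    have := Real.add_one_le_exp (-(kap / (2 * lam)))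
    linarith
  have h4 : Real.log (D' / E) ≤ Real.log (D / (V + z)) - kap / (2 * lam) := by
    have := Real.log_le_log (by positivity) h3
    rwa [Real.log_mul (by positivity) (Real.exp_pos _).ne', Real.log_exp, ← sub_eq_add_neg] at this
  have h5 : Real.log (D' / V') = Real.log (D' / E) + Real.log (E / V') := by
    rw [← Real.log_mul (by positivity) (by positivity)]
    congr 1
    field_simp
  have h6 : Real.log (D / (V + z)) = Real.log (D / V) - Real.log ((V + z) / V) := by
    rw [← Real.log_div (by positivity) (by positivity)]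
    congr 1
    field_simp
  have h7 : Real.log (E / V') ≤ 2 * (m / E) := by
    have h8 := Real.log_le_sub_one_of_pos (show 0 < E / V' by positivity)
    have h9 : E / V' - 1 ≤ 2 * (m / E) := by
      have : E / V' - 1 = m / V' := by
        rw [hV']
        rw [hV'] at hVp
        field_simp
        ring
      rw [this, div_le_iff₀ hVp, hV']
      have h10 : 2 * (m / E) * (E - m) = 2 * m * (1 - m / E) := by field_simp
      rw [h10]
      have h11 : m / E ≤ 1 / 2 := by
        rw [div_le_iff₀ hE]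
        linarith
      nlinarith
    linarith
  have h8 : z / V / 4 ≤ Real.log ((V + z) / V) := by
    have h9 := Real.one_sub_inv_le_log_of_pos (show 0 < (V + z) / V by positivity)
    have h10 : 1 - ((V + z) / V)⁻¹ = z / (V + z) := by
      field_simp
      ring
    rw [h10] at h9
    refine le_trans ?_ h9
    rw [div_div, div_le_div_iff₀ (by positivity) hVz]
    nlinarith
  linarith

/-- the bound of the mean fraction -/
private lemma alpha_le {A lam : ℝ} {k : ℕ} (hA : 1 ≤ A) (hl : 0 < lam)
    (hy : 64 * A * lam * 8 ^ 6 ≤ 1) {E V m y : ℕ → ℝ} (hk : 1 ≤ k)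
    (hE : 0 < E k) (hy0 : ∀ j < k, 0 ≤ y j)
    (hVE : ∀ r ≤ k, V r ≤ 4 ^ (k - r) * E k)
    (h1 : m k ≤ lam * V (k - 1))
    (hl2 : ∀ l, 3 * 2 ^ l ≤ k → m k ≤ (A * lam) ^ (2 ^ l) * V (k - 2 ^ l) +
      ∑ i ∈ range l, (A * lam) ^ (2 ^ i) *
        ∑ r ∈ Ico (k - 3 * 2 ^ i + 1) (k - 2 ^ i), y r * V r) :
    m k / E k ≤ (1 / 8) ^ (k + 1) + WW y k / 7 := by
  have hAl : 0 < A * lam := by positivity
  have hw : 64 * (A * lam) ≤ (1 / 8 : ℝ) ^ 6 := by
    norm_num at hy ⊢
    linarith
  have hWW := WW_nonneg hy0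
  by_cases hk3 : k < 3
  · -- levels 1 and 2
    have h2 := hVE (k - 1) (Nat.sub_le _ _)
    rw [show k - (k - 1) = 1 by omega, pow_one] at h2
    have h3 : m k / E k ≤ 4 * lam := by
      rw [div_le_iff₀ hE]
      nlinarith
    have h4 : (1 / 8 : ℝ) ^ 6 ≤ (1 / 8) ^ (k + 1) :=
      pow_le_pow_of_le_one (by norm_num) (by norm_num) (by omega)
    have h5 : 4 * lam ≤ 64 * (A * lam) := by nlinarith
    linarith
  push Not at hk3
  set l := Nat.log 2 (k / 3) with hldef
  have hk0 : k / 3 ≠ 0 := by omega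
  have hl1 : 3 * 2 ^ l ≤ k := by
    have := Nat.pow_log_le_self 2 hk0
    rw [← hldef] at this
    omega
  have hl3 : k + 1 ≤ 6 * 2 ^ l := by
    have := Nat.lt_pow_succ_log_self (b := 2) (by norm_num) (k / 3)
    rw [← hldef, Nat.succ_eq_add_one, pow_succ] at this
    omega
  have h := hl2 l hl1
  -- first term
  have t1 : (A * lam) ^ (2 ^ l) * V (k - 2 ^ l) ≤ (1 / 8) ^ (k + 1) * E k := by
    have e1 := hVE (k - 2 ^ l) (Nat.sub_le _ _)
    have e2 : k - (k - 2 ^ l) = 2 ^ l := by
      have : 2 ^ l ≤ k := by omega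
      omega
    rw [e2] at e1
    calc (A * lam) ^ (2 ^ l) * V (k - 2 ^ l) ≤ (A * lam) ^ (2 ^ l) * (4 ^ (2 ^ l) * E k) :=
          mul_le_mul_of_nonneg_left e1 (by positivity)
      _ = (4 * (A * lam)) ^ (2 ^ l) * E k := by rw [mul_pow]; ring
      _ ≤ ((1 / 8 : ℝ) ^ 6) ^ (2 ^ l) * E k := by
          apply mul_le_mul_of_nonneg_right _ hE.le
          apply pow_le_pow_left₀ (by positivity)
          linarith
      _ = (1 / 8 : ℝ) ^ (6 * 2 ^ l) * E k := by rw [← pow_mul]
      _ ≤ (1 / 8) ^ (k + 1) * E k := by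
          apply mul_le_mul_of_nonneg_right _ hE.le
          exact pow_le_pow_of_le_one (by norm_num) (by norm_num) hl3
  -- second term
  have t2 : ∀ i ∈ range l, (A * lam) ^ (2 ^ i) *
      ∑ r ∈ Ico (k - 3 * 2 ^ i + 1) (k - 2 ^ i), y r * V r ≤ (1 / 8) ^ (i + 1) * WW y k * E k := by
    intro i hi
    have hil : 2 ^ (i + 1) ≤ 2 ^ l := Nat.pow_le_pow_right (by norm_num) (mem_range.1 hi)
    rw [pow_succ] at hil
    have hik : 3 * 2 ^ i ≤ k := by omega
    rw [WW_eq, mul_sum, mul_sum, sum_mul]
    have hsub : Ico (k - 3 * 2 ^ i + 1) (k - 2 ^ i) ⊆ range k := by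
      intro r hr
      rw [mem_Ico] at hr
      rw [mem_range]
      omega
    refine (sum_le_sum fun r hr => ?_).trans (sum_le_sum_of_subset_of_nonneg hsub
      (fun r hr _ => ?_))
    · rw [mem_Ico] at hr
      have hrk : r < k := by omega
      have e1 := hVE r hrk.le
      have e2 := hy0 r hrk
      have e3 : (4 : ℝ) ^ (k - r) ≤ 4 ^ (3 * 2 ^ i) := by
        apply pow_le_pow_right₀ (by norm_num)
        omega
      calc (A * lam) ^ (2 ^ i) * (y r * V r) ≤ (A * lam) ^ (2 ^ i) * (y r * (4 ^ (3 * 2 ^ i) * E k)) := by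
            apply mul_le_mul_of_nonneg_left _ (by positivity)
            apply mul_le_mul_of_nonneg_left _ e2
            exact e1.trans (mul_le_mul_of_nonneg_right e3 hE.le)
        _ = (64 * (A * lam)) ^ (2 ^ i) * (y r * E k) := by
            rw [pow_mul, mul_pow]
            norm_num
            ring
        _ ≤ ((1 / 8 : ℝ) ^ 6) ^ (2 ^ i) * (y r * E k) := by
            apply mul_le_mul_of_nonneg_right _ (mul_nonneg e2 hE.le)
            exact pow_le_pow_left₀ (by positivity) hw _
        _ = (1 / 8 : ℝ) ^ (3 * 2 ^ i) * (1 / 8 : ℝ) ^ (3 * 2 ^ i) * (y r * E k) := by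
            rw [← pow_mul, ← pow_add]
            congr 2
            ring
        _ ≤ (1 / 8) ^ (i + 1) * (1 / 8) ^ (k - r) * (y r * E k) := by
            apply mul_le_mul_of_nonneg_right _ (mul_nonneg e2 hE.le)
            apply mul_le_mul
            · apply pow_le_pow_of_le_one (by norm_num) (by norm_num)
              have := Nat.lt_two_pow_self (n := i)
              omega
            · apply pow_le_pow_of_le_one (by norm_num) (by norm_num)
              omega
            · positivity
            · positivity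
        _ = _ := by ring
    · have e2 := hy0 r (mem_range.1 hr)
      positivity
  have t3 : ∑ i ∈ range l, (1 / 8 : ℝ) ^ (i + 1) ≤ 1 / 7 := by
    have : ∀ l : ℕ, ∑ i ∈ range l, (1 / 8 : ℝ) ^ (i + 1) = 1 / 7 - (1 / 8) ^ l / 7 := by
      intro l
      induction l with
      | zero => simp
      | succ l ih =>
        rw [sum_range_succ, ih, pow_succ]
        ring
    rw [this]
    have : (0 : ℝ) ≤ (1 / 8) ^ l / 7 := by positivity
    linarith
  have t4 := sum_le_sum t2
  rw [← sum_mul, ← sum_mul] at t4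
  have t5 : (∑ i ∈ range l, (1 / 8 : ℝ) ^ (i + 1)) * WW y k * E k ≤ WW y k / 7 * E k := by
    apply mul_le_mul_of_nonneg_right _ hE.le
    calc _ ≤ 1 / 7 * WW y k := mul_le_mul_of_nonneg_right t3 hWW
      _ = _ := by ring
  rw [div_le_iff₀ hE, add_mul]
  linarith

/-- The final numerical induction. -/
theorem num_final {A lam kap : ℝ} {N : ℕ} (hA : 1 ≤ A) (hl : 0 < lam) (hk : 0 < kap)
    (hy : 64 * A * lam * 8 ^ 6 ≤ 1) {E V m D z : ℕ → ℝ}
    (hV : ∀ k ≤ N, V k = E k - m k) (hm0 : m 0 = 0) (hm : ∀ k ≤ N, 0 ≤ m k) (hE0 : 0 < E 0)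
    (hz : ∀ k < N, 0 ≤ z k) (hgap : ∀ k ≤ N, lam * V k ≤ D k)
    (hDE : ∀ k < N, D k * E (k + 1) = lam * (V k + z k) * V k)
    (hB : ∀ k < N, D (k + 1) ≤ lam * V k - kap * E (k + 1))
    (h1 : ∀ k < N, m (k + 1) ≤ lam * V k)
    (hl2 : ∀ k l, k ≤ N → 3 * 2 ^ l ≤ k → m k ≤ (A * lam) ^ (2 ^ l) * V (k - 2 ^ l) +
      ∑ i ∈ range l, (A * lam) ^ (2 ^ i) * ∑ r ∈ Ico (k - 3 * 2 ^ i + 1) (k - 2 ^ i), z r)
    (hD0 : D 0 ≤ 3 / 2 * lam * E 0) :
    kap * N ≤ 2 * lam := by
  have hlam : lam ≤ 1 / 1000 := by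
    have : lam ≤ A * lam := by nlinarith
    norm_num at hy
    linarith
  -- facts for one step
  have step : ∀ k < N, 0 < V k → D k ≤ 2 * lam * V k →
      0 < E (k + 1) ∧ m (k + 1) ≤ E (k + 1) / 2 ∧ 0 < V (k + 1) ∧ V k ≤ 4 * V (k + 1) ∧
        z k ≤ 3 * V k := by
    intro k hkN hVk hDk
    have hDp : 0 < D k := lt_of_lt_of_le (mul_pos hl hVk) (hgap k hkN.le)
    have hzk := hz k hkN
    have e1 := hDE k hkN
    have e2 : 0 < E (k + 1) := by
      have : 0 < D k * E (k + 1) := by rw [e1]; positivity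
      exact (pos_iff_pos_of_mul_pos this).1 hDp
    have e3 : V k + z k ≤ 2 * E (k + 1) := by
      have h5 : lam * (V k + z k) * V k ≤ 2 * lam * V k * E (k + 1) := by
        rw [← e1]
        exact mul_le_mul_of_nonneg_right hDk e2.le
      have h6 : (V k + z k) * (lam * V k) ≤ 2 * E (k + 1) * (lam * V k) := by linarith
      exact le_of_mul_le_mul_right h6 (by positivity)
    have e4 : m (k + 1) ≤ E (k + 1) / 2 := by
      have := h1 k hkN
      nlinarith
    have e5 := hV (k + 1) hkN
    have e6 := hm (k + 1) hkN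
    have e7 : V (k + 1) ≤ V k := by
      have h5 := hgap (k + 1) hkN
      have h6 := hB k hkN
      have h7 : 0 ≤ kap * E (k + 1) := by positivity
      have h8 : V (k + 1) * lam ≤ V k * lam := by linarith
      exact le_of_mul_le_mul_right h8 hl
    refine ⟨e2, e4, by linarith, by linarith, by linarith⟩
  -- the main induction
  have main : ∀ k ≤ N, (∀ j ≤ k, 0 < V j ∧ 0 < E j ∧ D j ≤ 2 * lam * V j) ∧
      Real.log (D k / V k) + (∑ j ∈ range k, z j / V j) / 4 + k * (kap / (2 * lam)) ≤
        Real.log (D 0 / V 0) + 2 * ∑ j ∈ range k, m (j + 1) / E (j + 1) ∧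
      ∑ j ∈ range k, m (j + 1) / E (j + 1) ≤ 1 / 56 - (1 / 8) ^ k / 56 +
        (∑ j ∈ range k, WW (fun r => z r / V r) (j + 1)) / 7 := by
    intro k
    induction k with
    | zero =>
      intro _
      have e0 : V 0 = E 0 := by rw [hV 0 (Nat.zero_le _), hm0, sub_zero]
      refine ⟨?_, ?_, ?_⟩
      · intro j hj
        rw [Nat.le_zero] at hj
        subst hj
        rw [e0]
        refine ⟨hE0, hE0, hD0.trans ?_⟩
        nlinarith [mul_pos hl hE0]
      · simp
      · simp
    | succ k ih =>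
      intro hkN
      obtain ⟨i1, i2, i3⟩ := ih (by omega)
      obtain ⟨v1, v2, v3⟩ := i1 k le_rfl
      have hkN' : k < N := by omega
      obtain ⟨s1, s2, s3, s4, s5⟩ := step k hkN' v1 v3
      have hyz : ∀ j < k + 1, 0 ≤ z j / V j := fun j hj =>
        div_nonneg (hz j (by omega)) (i1 j (by omega)).1.le
      have hDp : 0 < D k := lt_of_lt_of_le (mul_pos hl v1) (hgap k hkN'.le)
      have ls := log_step hl hk v1 (hz k hkN') hDp v3 s1 (hV (k + 1) hkN) (hm _ hkN) s2
        (hgap _ hkN) (hDE k hkN') (hB k hkN') s5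
      -- ratios of variances
      have hVE : ∀ r ≤ k + 1, V r ≤ 4 ^ (k + 1 - r) * E (k + 1) := by
        have aux : ∀ d ≤ k + 1, V (k + 1 - d) ≤ 4 ^ d * E (k + 1) := by
          intro d
          induction d with
          | zero =>
            intro _
            have e5 := hV (k + 1) hkN
            have e6 := hm (k + 1) hkN
            simp only [Nat.sub_zero, pow_zero, one_mul]
            linarith
          | succ d ihd =>
            intro hd
            have h5 := ihd (by omega)
            have h6 := i1 (k + 1 - (d + 1)) (by omega)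
            have h7 := (step (k + 1 - (d + 1)) (by omega) h6.1 h6.2.2).2.2.2.1
            rw [show k + 1 - (d + 1) + 1 = k + 1 - d by omega] at h7
            rw [pow_succ]
            linarith
        intro r hr
        have := aux (k + 1 - r) (Nat.sub_le _ _)
        rwa [show k + 1 - (k + 1 - r) = r by omega] at this
      have hal : m (k + 1) / E (k + 1) ≤ (1 / 8) ^ (k + 1 + 1) +
          WW (fun r => z r / V r) (k + 1) / 7 := by
        refine alpha_le hA hl hy (by omega) s1 hyz hVE (h1 k hkN') fun l hl' => ?_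
        refine (hl2 (k + 1) l hkN hl').trans (le_of_eq ?_)
        congr 1
        refine sum_congr rfl fun i _ => ?_
        congr 1
        refine sum_congr rfl fun r hr => ?_
        rw [mem_Ico] at hr
        have hp : 0 < 2 ^ i := by positivity
        have := (i1 r (by omega)).1
        field_simp
      have i3' : ∑ j ∈ range (k + 1), m (j + 1) / E (j + 1) ≤ 1 / 56 - (1 / 8) ^ (k + 1) / 56 +
          (∑ j ∈ range (k + 1), WW (fun r => z r / V r) (j + 1)) / 7 := by
        rw [sum_range_succ, sum_range_succ _ k, add_div]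
        have e9 : (1 / 8 : ℝ) ^ (k + 1 + 1) = 1 / 64 * (1 / 8) ^ k := by
          rw [pow_succ, pow_succ]
          ring
        rw [e9] at hal
        rw [show (1 / 8 : ℝ) ^ (k + 1) = (1 / 8) ^ k / 8 by rw [pow_succ]; ring]
        linarith
      have i2' : Real.log (D (k + 1) / V (k + 1)) + (∑ j ∈ range (k + 1), z j / V j) / 4 +
          ((k + 1 : ℕ) : ℝ) * (kap / (2 * lam)) ≤
          Real.log (D 0 / V 0) + 2 * ∑ j ∈ range (k + 1), m (j + 1) / E (j + 1) := by
        rw [sum_range_succ, sum_range_succ _ k]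
        push_cast
        linarith
      refine ⟨?_, i2', i3'⟩
      intro j hj
      rcases Nat.lt_or_ge j (k + 1) with hj' | hj'
      · exact i1 j (by omega)
      have hjk : j = k + 1 := by omega
      subst hjk
      refine ⟨s3, s1, ?_⟩
      -- the bound of the Rayleigh quotient
      have w1 := sum_WW (y := fun r => z r / V r) (k + 1)
      have w2 := WW_nonneg hyz
      have w3 : 0 ≤ ∑ j ∈ range (k + 1), z j / V j :=
        sum_nonneg fun r hr => hyz r (mem_range.1 hr)
      have hDp' : 0 < D (k + 1) := lt_of_lt_of_le (mul_pos hl s3) (hgap _ hkN)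
      have w4 : 0 ≤ ((k + 1 : ℕ) : ℝ) * (kap / (2 * lam)) := by positivity
      have w5 : (0 : ℝ) ≤ (1 / 8) ^ (k + 1) / 56 := by positivity
      have w6 : Real.log (D (k + 1) / V (k + 1)) ≤ Real.log (D 0 / V 0) + 1 / 28 := by
        simp only at w1
        linarith
      have e0 : V 0 = E 0 := by rw [hV 0 (Nat.zero_le _), hm0, sub_zero]
      have hD0p : 0 < D 0 := by
        refine lt_of_lt_of_le ?_ (hgap 0 (Nat.zero_le _))
        rw [e0]
        positivity
      have w7 : D (k + 1) / V (k + 1) ≤ D 0 / V 0 * Real.exp (1 / 28) := by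
        have hx : 0 < D (k + 1) / V (k + 1) := by positivity
        have hx0 : 0 < D 0 / V 0 := by rw [e0]; positivity
        have := Real.exp_le_exp.2 w6
        rwa [Real.exp_log hx, Real.exp_add, Real.exp_log hx0] at this
      have w8 : Real.exp (1 / 28) ≤ 4 / 3 := by
        have h5 := Real.exp_bound_div_one_sub_of_interval (show (0 : ℝ) ≤ 1 / 28 by norm_num)
          (show (1 / 28 : ℝ) < 1 by norm_num)
        refine h5.trans (by norm_num)
      have w9 : D 0 / V 0 ≤ 3 / 2 * lam := by
        rw [e0, div_le_iff₀ hE0]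
        exact hD0
      have w10 : D (k + 1) / V (k + 1) ≤ 2 * lam := by
        calc _ ≤ D 0 / V 0 * Real.exp (1 / 28) := w7
          _ ≤ 3 / 2 * lam * (4 / 3) := by
              apply mul_le_mul w9 w8 (Real.exp_pos _).le (by positivity)
          _ = 2 * lam := by ring
      rwa [div_le_iff₀ s3] at w10
  obtain ⟨m1, m2, m3⟩ := main N le_rfl
  have e0 : V 0 = E 0 := by rw [hV 0 (Nat.zero_le _), hm0, sub_zero]
  obtain ⟨v1, v2, v3⟩ := m1 N le_rfl
  have hyz : ∀ j < N, 0 ≤ z j / V j := fun j hj =>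
    div_nonneg (hz j hj) (m1 j hj.le).1.le
  have w1 := sum_WW (y := fun r => z r / V r) N
  have w2 := WW_nonneg hyz
  have w3 : 0 ≤ ∑ j ∈ range N, z j / V j := sum_nonneg fun r hr => hyz r (mem_range.1 hr)
  have w5 : (0 : ℝ) ≤ (1 / 8) ^ N / 56 := by positivity
  have hD0p : 0 < D 0 := by
    refine lt_of_lt_of_le ?_ (hgap 0 (Nat.zero_le _))
    rw [e0]
    positivity
  have w6 : Real.log lam ≤ Real.log (D N / V N) := by
    apply Real.log_le_log hl
    rw [le_div_iff₀ v1]
    exact hgap N le_rfl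
  have w7 : Real.log (D 0 / V 0) ≤ Real.log lam + 1 / 2 := by
    have h5 : D 0 / V 0 ≤ 3 / 2 * lam := by
      rw [e0, div_le_iff₀ hE0]
      exact hD0
    have h6 := Real.log_le_log (show 0 < D 0 / V 0 by rw [e0]; positivity) h5
    rw [Real.log_mul (by norm_num) hl.ne'] at h6
    have h7 := Real.log_le_sub_one_of_pos (show (0 : ℝ) < 3 / 2 by norm_num)
    linarith
  have w8 : (N : ℝ) * (kap / (2 * lam)) ≤ 1 := by
    simp only at w1
    linarith
  have w9 : (N : ℝ) * (kap / (2 * lam)) = kap * N / (2 * lam) := by ring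
  rw [w9, div_le_one (by positivity)] at w8
  exact w8

end Pool.Agent.Lib.MP_6d896a_gt.FK
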