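import Mathlib
import Pool.Agent.Lib.MP_6d896a_gt.FK.Iter

/-!
Project FK, piece B8: the symmetriser of the last positions and the moments with Appell
polynomials.
-/

set_option autoImplicit false

namespace Pool.Agent.Lib.MP_6d896a_gt.FK

variable {n : ℕ}

private def pcF (m a k : ℕ) (hk : m + a = k) : Fin a ≃ {i : Fin k // m ≤ i.val} where
  toFun t := ⟨⟨m + t.val, by omega⟩, Nat.le_add_right _ _⟩
  invFun i := ⟨i.1.val - m, by
    have := i.1.isLt
    have := i.2
    omega⟩
  left_inv t := by
    apply Fin.ext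
    show m + t.val - m = t.val
    omega
  right_inv i := by
    apply Subtype.ext
    apply Fin.ext
    show m + (i.1.val - m) = i.1.val
    have := i.2
    omega

private def pcE {m a k : ℕ} (hk : m + a = k) (π : Equiv.Perm (Fin a)) : Equiv.Perm (Fin k) :=
  π.extendDomain (pcF m a k hk)

private lemma pcE_last {m a k : ℕ} (hk : m + a = k) (π : Equiv.Perm (Fin a)) (t : Fin a) :
    pcE hk π ⟨m + t.val, by omega⟩ = ⟨m + (π t).val, by omega⟩ :=
  Equiv.Perm.extendDomain_apply_image π (pcF m a k hk) t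

private lemma pcE_last' {m a k : ℕ} (hk : m + a = k) (π : Equiv.Perm (Fin a)) {t u : Fin a}
    (h : π t = u) : pcE hk π ⟨m + t.val, by omega⟩ = ⟨m + u.val, by omega⟩ := by
  subst h
  exact pcE_last hk π t

private lemma pcE_first {m a k : ℕ} (hk : m + a = k) (π : Equiv.Perm (Fin a)) (i : Fin k)
    (hi : i.val < m) : pcE hk π i = i :=
  Equiv.Perm.extendDomain_apply_not_subtype π (pcF m a k hk) (by omega)

private lemma pcE_mem {m a k : ℕ} (hk : m + a = k) (π : Equiv.Perm (Fin a)) :
    pcE hk π ∈ pms (lastp k a) := by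
  rw [mem_pms]
  intro i hi
  rw [mem_lastp] at hi
  exact pcE_first hk π i (by omega)

private lemma pcR {m a k : ℕ} (hk : m + a = k) {σ : Equiv.Perm (Fin k)}
    (hσ : σ ∈ pms (lastp k a)) :
    (∀ i : Fin k, i.val < m → σ i = i) ∧
      ∃ π : Equiv.Perm (Fin a), ∀ t : Fin a, σ ⟨m + t.val, by omega⟩ = ⟨m + (π t).val, by omega⟩ := by
  have h1 : ∀ i : Fin k, i.val < m → σ i = i := by
    intro i hi
    rw [mem_pms] at hσ
    exact hσ i (by rw [mem_lastp]; omega)
  refine ⟨h1, ?_⟩
  have h2 : ∀ i : Fin k, m ≤ (σ i).val ↔ m ≤ i.val := by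
    intro i
    constructor
    · intro h
      by_contra h3
      rw [h1 i (by omega)] at h
      exact h3 h
    · intro h
      by_contra h3
      have h4 := h1 (σ i) (by omega)
      have h5 := σ.injective h4
      rw [h5] at h3
      exact h3 h
  refine ⟨(pcF m a k hk).trans ((σ.subtypePerm h2).trans (pcF m a k hk).symm), fun t => ?_⟩
  have h3 : pcF m a k hk (((pcF m a k hk).trans ((σ.subtypePerm h2).trans (pcF m a k hk).symm)) t) =
      σ.subtypePerm h2 (pcF m a k hk t) := by
    simp
  have h4 := congrArg (fun x : {i : Fin k // m ≤ i.val} => x.1) h3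
  exact h4.symm

private lemma pc_prj_tact {k : ℕ} {ι : Type} {B : Finset (Fin k)} {τ : Equiv.Perm (Fin k)}
    (hτ : τ ∈ pms B) (Z : (Fin k → ι) → ℝ) (K : Fin k → ι) :
    prj B (tact τ Z) K = prj B Z K := by
  unfold prj
  congr 1
  apply Finset.sum_bij (fun σ _ => σ * τ)
  · intro σ hσ; exact mul_mem_pms hσ hτ
  · intro σ _ σ' _ h; exact mul_right_cancel h
  · intro σ hσ
    exact ⟨σ * τ⁻¹, mul_mem_pms hσ (inv_mem_pms hτ), by group⟩
  · intro σ _; rfl

theorem prj_c {c : (k b : ℕ) → (Fin k → Fin n) → (Fin b → Fin n) → ℝ} {s : ℝ}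
    (hsym : ∀ k b J I (σ : Equiv.Perm (Fin b)), c k b J (fun s => I (σ s)) = c k b J I)
    (hrc : ∀ k b (J : Fin k → Fin n) (I : Fin (b + 1) → Fin n),
      ∑ r : Fin (b + 1), c (k + 1) b (Fin.snoc (α := fun _ => Fin n) J (I r))
        (fun s => I (r.succAbove s)) = s * c k (b + 1) J I) :
    ∀ (a m k : ℕ) (hk : m + a = k) (K : Fin k → Fin n),
      (a.factorial : ℝ) * prj (lastp k a) (fun K => c k 0 K fun i => i.elim0) K =
        s ^ a * c m a (fun t => K ⟨t.val, by omega⟩) (fun t => K ⟨m + t.val, by omega⟩) := by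
  intro a
  induction a with
  | zero =>
    intro m k hk K
    obtain rfl : m = k := by omega
    have h1 : TInv (lastp m 0) (fun K : Fin m → Fin n => c m 0 K fun i => i.elim0) := by
      intro σ hσ
      have h2 : σ = 1 := by
        ext i
        have h3 := (pcR (a := 0) (m := m) (k := m) (by omega) hσ).1 i i.isLt
        rw [h3]
        rfl
      rw [h2, tact_one]
    rw [prj_of_inv h1]
    simp only [Nat.factorial_zero, Nat.cast_one, one_mul, pow_zero]
    congr 1
    funext i
    exact i.elim0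
  | succ a ih =>
    intro m k hk K
    have hk' : (m + 1) + a = k := by omega
    have hsub : lastp k a ⊆ lastp k (a + 1) := by
      intro i hi
      rw [mem_lastp] at hi ⊢
      omega
    set B := lastp k (a + 1) with hB
    have hcard := card_pms_pos B
    -- the two arrays
    let Ra : (Fin k → Fin n) → ℝ := fun K =>
      c (m + 1) a (fun t => K ⟨t.val, by omega⟩) (fun t => K ⟨m + 1 + t.val, by omega⟩)
    let Rb : (Fin k → Fin n) → ℝ := fun K =>
      c m (a + 1) (fun t => K ⟨t.val, by omega⟩) (fun t => K ⟨m + t.val, by omega⟩)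
    have hRb : TInv B Rb := by
      intro σ hσ
      obtain ⟨h1, π, h2⟩ := pcR (m := m) (a := a + 1) hk hσ
      funext K
      show c m (a + 1) (fun t => K (σ ⟨t.val, _⟩)) (fun t => K (σ ⟨m + t.val, _⟩)) =
        c m (a + 1) (fun t => K ⟨t.val, _⟩) (fun t => K ⟨m + t.val, _⟩)
      have e1 : (fun t : Fin m => K (σ ⟨t.val, by omega⟩)) = fun t : Fin m => K ⟨t.val, by omega⟩ := by
        funext t
        rw [h1 _ t.isLt]
      have e2 : (fun t : Fin (a + 1) => K (σ ⟨m + t.val, by omega⟩)) =
          fun t : Fin (a + 1) => (fun u : Fin (a + 1) => K ⟨m + u.val, by omega⟩) (π t) := by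
        funext t
        rw [h2 t]
      rw [e1, e2]
      exact hsym m (a + 1) _ (fun u : Fin (a + 1) => K ⟨m + u.val, by omega⟩) π
    -- the recursion
    have hrec : ∀ K : Fin k → Fin n, ∑ r : Fin (a + 1), tact (pcE hk (Fin.cycleRange r)⁻¹) Ra K =
        s * Rb K := by
      intro K
      have h1 := hrc m a (fun t => K ⟨t.val, by omega⟩)
        (fun t : Fin (a + 1) => K ⟨m + t.val, by omega⟩)
      show _ = s * c m (a + 1) _ _
      rw [← h1]
      refine Finset.sum_congr rfl fun r _ => ?_
      show c (m + 1) a (fun t => K (pcE hk (Fin.cycleRange r)⁻¹ ⟨t.val, _⟩))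
        (fun t => K (pcE hk (Fin.cycleRange r)⁻¹ ⟨m + 1 + t.val, _⟩)) = _
      congr 1
      · funext t
        refine Fin.lastCases ?_ (fun t => ?_) t
        · rw [Fin.snoc_last]
          have h3 : (Fin.cycleRange r)⁻¹ 0 = r := Fin.cycleRange_symm_zero r
          exact congrArg K (pcE_last' hk (Fin.cycleRange r)⁻¹ h3)
        · rw [Fin.snoc_castSucc]
          exact congrArg K (pcE_first hk _ _ t.isLt)
      · funext t
        have h3 : (Fin.cycleRange r)⁻¹ t.succ = r.succAbove t := Fin.cycleRange_symm_succ r t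
        have h2 := pcE_last' hk (Fin.cycleRange r)⁻¹ h3
        have h4 : (⟨m + 1 + t.val, by omega⟩ : Fin k) = ⟨m + t.succ.val, by
          have := t.succ.isLt; omega⟩ := by
          apply Fin.ext
          show m + 1 + t.val = m + t.succ.val
          rw [Fin.val_succ]
          omega
        rw [h4]
        exact congrArg K h2
    have h1 : ((a : ℝ) + 1) * prj B Ra K = s * Rb K := by
      have h2 : ((a : ℝ) + 1) * prj B Ra K =
          ∑ r : Fin (a + 1), prj B (tact (pcE hk (Fin.cycleRange r)⁻¹) Ra) K := by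
        rw [Finset.sum_congr rfl fun r _ => pc_prj_tact (B := B) (pcE_mem hk _) Ra K,
          Finset.sum_const, Finset.card_univ, Fintype.card_fin, nsmul_eq_mul]
        push_cast
        rfl
      rw [h2]
      have h3 : ∑ r : Fin (a + 1), prj B (tact (pcE hk (Fin.cycleRange r)⁻¹) Ra) K =
          s * prj B Rb K := by
        unfold prj
        rw [← Finset.sum_div, Finset.sum_comm, mul_div_assoc', Finset.mul_sum]
        congr 1
        refine Finset.sum_congr rfl fun σ _ => ?_
        exact hrec (fun i => K (σ i))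
      rw [h3, prj_of_inv hRb]
    have h2 : ∀ K : Fin k → Fin n, (a.factorial : ℝ) *
        prj (lastp k a) (fun K => c k 0 K fun i => i.elim0) K = s ^ a * Ra K := fun K => ih (m + 1) k hk' K
    have h3 : (a.factorial : ℝ) * prj B (fun K => c k 0 K fun i => i.elim0) K = s ^ a * prj B Ra K := by
      rw [← prj_prj hsub]
      unfold prj at h2 ⊢
      rw [mul_div_assoc', mul_div_assoc', Finset.mul_sum, Finset.mul_sum]
      congr 1
      refine Finset.sum_congr rfl fun σ _ => ?_
      exact h2 (fun i => K (σ i))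
    rw [Nat.factorial_succ]
    push_cast
    calc ((a : ℝ) + 1) * (a.factorial : ℝ) * prj B (fun K => c k 0 K fun i => i.elim0) K
        = ((a : ℝ) + 1) * ((a.factorial : ℝ) * prj B (fun K => c k 0 K fun i => i.elim0) K) := by ring
      _ = s ^ a * (((a : ℝ) + 1) * prj B Ra K) := by rw [h3]; ring
      _ = s ^ (a + 1) * Rb K := by rw [h1]; ring

private lemma pc_sum_split {m a k : ℕ} (hk : m + a = k)
    (F : (Fin m → Fin n) → (Fin a → Fin n) → ℝ) :
    ∑ K : Fin k → Fin n, F (fun t => K ⟨t.val, by omega⟩) (fun t => K ⟨m + t.val, by omega⟩) =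
      ∑ J : Fin m → Fin n, ∑ I : Fin a → Fin n, F J I := by
  subst hk
  rw [← Fintype.sum_prod_type']
  refine (Fintype.sum_equiv (Fin.appendEquiv m a) _ _ fun p => ?_).symm
  congr 1
  · funext t
    exact (Fin.append_left p.1 p.2 t).symm
  · funext t
    exact (Fin.append_right p.1 p.2 t).symm

/-- the square of the norm -/
theorem tsq_prj_c {c : (k b : ℕ) → (Fin k → Fin n) → (Fin b → Fin n) → ℝ} {s : ℝ}
    (hsym : ∀ k b J I (σ : Equiv.Perm (Fin b)), c k b J (fun s => I (σ s)) = c k b J I)
    (hrc : ∀ k b (J : Fin k → Fin n) (I : Fin (b + 1) → Fin n),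
      ∑ r : Fin (b + 1), c (k + 1) b (Fin.snoc (α := fun _ => Fin n) J (I r))
        (fun s => I (r.succAbove s)) = s * c k (b + 1) J I) (a m k : ℕ) (hk : m + a = k) :
    (a.factorial : ℝ) ^ 2 * tsq (prj (lastp k a) (fun K => c k 0 K fun i => i.elim0)) =
      (s ^ a) ^ 2 * ∑ J : Fin m → Fin n, ∑ I : Fin a → Fin n, c m a J I ^ 2 := by
  unfold tsq
  rw [Finset.mul_sum, ← pc_sum_split hk (fun J I => c m a J I ^ 2), Finset.mul_sum]
  refine Finset.sum_congr rfl fun K _ => ?_
  rw [← mul_pow, prj_c hsym hrc a m k hk K, mul_pow]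

/-- the same for commutators with a transposition of the first positions -/
theorem tsq_prj_cmt {c : (k b : ℕ) → (Fin k → Fin n) → (Fin b → Fin n) → ℝ} {s : ℝ}
    (hsym : ∀ k b J I (σ : Equiv.Perm (Fin b)), c k b J (fun s => I (σ s)) = c k b J I)
    (hrc : ∀ k b (J : Fin k → Fin n) (I : Fin (b + 1) → Fin n),
      ∑ r : Fin (b + 1), c (k + 1) b (Fin.snoc (α := fun _ => Fin n) J (I r))
        (fun s => I (r.succAbove s)) = s * c k (b + 1) J I) (a m k : ℕ) (hk : m + a = k)
    (i j : Fin m) :
    (a.factorial : ℝ) ^ 2 * tsq (prj (lastp k a)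
        (cmt (⟨i.val, by omega⟩ : Fin k) ⟨j.val, by omega⟩ (fun K => c k 0 K fun i => i.elim0))) =
      (s ^ a) ^ 2 * ∑ J : Fin m → Fin n, ∑ I : Fin a → Fin n,
        (c m a J I - c m a (fun t => J (Equiv.swap i j t)) I) ^ 2 := by
  have hi : (⟨i.val, by omega⟩ : Fin k) ∉ lastp k a := by
    rw [mem_lastp]
    simp only
    omega
  have hj : (⟨j.val, by omega⟩ : Fin k) ∉ lastp k a := by
    rw [mem_lastp]
    simp only
    omega
  rw [← cmt_prj hi hj]
  unfold tsq
  rw [Finset.mul_sum, ← pc_sum_split hk (fun J I =>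
    (c m a J I - c m a (fun t => J (Equiv.swap i j t)) I) ^ 2), Finset.mul_sum]
  refine Finset.sum_congr rfl fun K _ => ?_
  rw [← mul_pow, ← mul_pow]
  congr 1
  unfold cmt
  rw [Pi.sub_apply, mul_sub, prj_c hsym hrc a m k hk K, mul_sub]
  congr 1
  show (a.factorial : ℝ) * prj (lastp k a) (fun K => c k 0 K fun i => i.elim0)
    (fun t => K (Equiv.swap _ _ t)) = _
  rw [prj_c hsym hrc a m k hk]
  congr 2
  · funext t
    congr 1
    by_cases h1 : t = i
    · subst h1
      rw [Equiv.swap_apply_left, Equiv.swap_apply_left]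
    · by_cases h2 : t = j
      · subst h2
        rw [Equiv.swap_apply_right, Equiv.swap_apply_right]
      · rw [Equiv.swap_apply_of_ne_of_ne h1 h2, Equiv.swap_apply_of_ne_of_ne]
        · intro h; exact h1 (Fin.ext (Fin.mk.inj_iff.1 h))
        · intro h; exact h2 (Fin.ext (Fin.mk.inj_iff.1 h))
  · funext t
    congr 1
    rw [Equiv.swap_apply_of_ne_of_ne]
    · intro h
      have := Fin.mk.inj_iff.1 h
      omega
    · intro h
      have := Fin.mk.inj_iff.1 h
      omega

end Pool.Agent.Lib.MP_6d896a_gt.FK
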