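import Mathlib
import Pool.Agent.Lib.MP_6d896a_gt.FK.DefB
import Pool.Agent.Lib.MP_6d896a_gt.FK.Num
import Pool.Agent.Lib.MP_6d896a_gt.FK.PermC

/-!
Project FK, piece B9: the number of levels of the limit data is bounded.
-/

set_option autoImplicit false

namespace Pool.Agent.Lib.MP_6d896a_gt.FK

open Pool.Agent.Lib.MP_6d896a_gt.LG

theorem td_end {n : ℕ} {lam kap C : ℝ} (hC : 1 ≤ C) (hl : 0 < lam) (hk : 0 < kap)
    (hy : 64 * (2500000000 * C ^ 2) * lam * 8 ^ 6 ≤ 1)
    (t : TD n lam kap (fun b => (C ^ (b - 1) * b.factorial) ^ 2)) (N : ℕ) :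
    kap * N ≤ 2 * lam := by
  classical
  let M : (k : ℕ) → (Fin k → Fin n) → ℝ := fun k K => t.c k 0 K (fun i => i.elim0)
  let m : ℕ → ℝ := fun k => if k = 0 then 0 else tsq (M k)
  let z : ℕ → ℝ := fun k => if t.V k = 0 then 0 else t.D k * t.E (k + 1) / (lam * t.V k) - t.V k
  have hs2 : ∀ a : ℕ, (Real.sqrt lam ^ a) ^ 2 = lam ^ a := by
    intro a
    rw [← pow_mul, mul_comm, pow_mul, Real.sq_sqrt hl.le]
  have hC0 : 0 < C := by linarith
  have hms : ∀ k, m (k + 1) = tsq (M (k + 1)) := fun k => if_neg (Nat.succ_ne_zero k)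
  have hEnn : ∀ k, 0 ≤ t.E (k + 1) := by
    intro k
    have h1 := t.hV k
    have h2 := t.Vn (k + 1)
    have h3 : 0 ≤ ∑ J, t.c (k + 1) 0 J (fun i => i.elim0) ^ 2 :=
      Finset.sum_nonneg fun _ _ => sq_nonneg _
    linarith
  have hE0 : ∀ k, t.V k = 0 → t.E (k + 1) = 0 := fun k h =>
    le_antisymm (h ▸ t.con k) (hEnn k)
  have hVpos : ∀ k, t.V k ≠ 0 → 0 < t.V k := fun k h => lt_of_le_of_ne (t.Vn k) (Ne.symm h)
  have hzn : ∀ k, 0 ≤ z k := by
    intro k
    by_cases h : t.V k = 0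
    · simp only [z]; rw [if_pos h]
    · simp only [z]; rw [if_neg h]
      have h1 := hVpos k h
      have h2 : t.V k ≤ t.D k * t.E (k + 1) / (lam * t.V k) := by
        rw [le_div_iff₀ (by positivity)]
        have := t.cs k
        nlinarith
      linarith
  -- the bounds of the symmetrised moments
  have hb1 : ∀ k a, 1 ≤ a → a ≤ k →
      tsq (prj (lastp k a) (M k)) ≤ (C ^ 2 * lam) ^ a * t.V (k - a) := by
    intro k a ha hak
    obtain ⟨b, rfl⟩ : ∃ b, a = b + 1 := ⟨a - 1, by omega⟩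
    have h1 := tsq_prj_c t.sym t.rc (b + 1) (k - (b + 1)) k (by omega)
    have h2 := t.s1 (k - (b + 1)) b
    simp only [Nat.add_sub_cancel] at h2
    have hf : (0 : ℝ) < ((b + 1).factorial : ℝ) := by exact_mod_cast Nat.factorial_pos _
    have h3 : ((b + 1).factorial : ℝ) ^ 2 * tsq (prj (lastp k (b + 1)) (M k)) ≤
        ((b + 1).factorial : ℝ) ^ 2 * (lam ^ (b + 1) * (C ^ b) ^ 2 * t.V (k - (b + 1))) := by
      calc ((b + 1).factorial : ℝ) ^ 2 * tsq (prj (lastp k (b + 1)) (M k)) =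
          lam ^ (b + 1) * ∑ J : Fin (k - (b + 1)) → Fin n, ∑ I : Fin (b + 1) → Fin n,
            t.c (k - (b + 1)) (b + 1) J I ^ 2 := by rw [← hs2]; exact h1
        _ ≤ lam ^ (b + 1) * ((C ^ b * ((b + 1).factorial : ℝ)) ^ 2 * t.V (k - (b + 1))) :=
            mul_le_mul_of_nonneg_left h2 (by positivity)
        _ = _ := by ring
    have h4 : tsq (prj (lastp k (b + 1)) (M k)) ≤
        lam ^ (b + 1) * (C ^ b) ^ 2 * t.V (k - (b + 1)) :=
      le_of_mul_le_mul_left h3 (by positivity)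
    refine h4.trans (mul_le_mul_of_nonneg_right ?_ (t.Vn _))
    have h5 : (C ^ b) ^ 2 ≤ (C ^ 2) ^ (b + 1) := by
      rw [← pow_mul, ← pow_mul, mul_comm b 2]
      exact pow_le_pow_right₀ hC (by omega)
    calc lam ^ (b + 1) * (C ^ b) ^ 2 ≤ lam ^ (b + 1) * (C ^ 2) ^ (b + 1) :=
          mul_le_mul_of_nonneg_left h5 (by positivity)
      _ = (C ^ 2 * lam) ^ (b + 1) := by rw [mul_pow]; ring
  have hPz : ∀ j, 1 ≤ j → t.P (j + 1) j ≤ 4 * z j := by
    intro j hj
    by_cases h : t.V j = 0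
    · have h1 := t.p4 j j
      rw [hE0 j h] at h1
      simp only [z]
      rw [if_pos h]
      linarith
    · simp only [z]
      rw [if_neg h]
      have h1 := hVpos j h
      have h2 := t.gap j
      have hD : 0 < t.D j := lt_of_lt_of_le (mul_pos hl h1) h2
      have h3 := t.sw j hj
      have h4 := t.cs j
      have h5 : t.P (j + 1) j ≤ 4 * (t.E (j + 1) - lam * t.V j ^ 2 / t.D j) := by
        have e1 : 4 * (t.D j * t.E (j + 1) - lam * t.V j ^ 2) =
            t.D j * (4 * (t.E (j + 1) - lam * t.V j ^ 2 / t.D j)) := by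
          field_simp
        rw [e1] at h3
        exact le_of_mul_le_mul_left h3 hD
      refine h5.trans ?_
      have h6 : 0 ≤ (t.D j - lam * t.V j) * (t.D j * t.E (j + 1) - lam * t.V j ^ 2) :=
        mul_nonneg (by linarith) (by linarith)
      have h7 : t.D j * t.E (j + 1) / (lam * t.V j) - t.V j -
          (t.E (j + 1) - lam * t.V j ^ 2 / t.D j) =
          (t.D j - lam * t.V j) * (t.D j * t.E (j + 1) - lam * t.V j ^ 2) /
            (t.D j * (lam * t.V j)) := by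
        field_simp
      have h8 : 0 ≤ (t.D j - lam * t.V j) * (t.D j * t.E (j + 1) - lam * t.V j ^ 2) /
            (t.D j * (lam * t.V j)) := div_nonneg h6 (by positivity)
      linarith
  have hPmono : ∀ j k', j + 1 ≤ k' → 1 ≤ j → t.P k' j ≤ t.P (j + 1) j := by
    intro j k' hk' hj
    induction k', hk' using Nat.le_induction with
    | base => exact le_rfl
    | succ k' hk' ih => exact (t.pc k' j hj (by omega)).trans ih
  have hb2 : ∀ k a, 1 ≤ a → ∀ i j : Fin k, j.val = i.val + 1 → j.val + a < k →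
      tsq (prj (lastp k a) (cmt i j (M k))) ≤ (C ^ 2 * lam) ^ a * (4 * z j.val) := by
    intro k a ha i j hij hja
    obtain ⟨b, rfl⟩ : ∃ b, a = b + 1 := ⟨a - 1, by omega⟩
    have h1 := tsq_prj_cmt t.sym t.rc (b + 1) (k - (b + 1)) k (by omega)
      (⟨i.val, by omega⟩ : Fin (k - (b + 1))) ⟨j.val, by omega⟩
    have h2 := t.s2 (k - (b + 1)) b (⟨i.val, by omega⟩ : Fin (k - (b + 1))) ⟨j.val, by omega⟩ hij
    simp only [Nat.add_sub_cancel] at h2
    have hf : (0 : ℝ) < ((b + 1).factorial : ℝ) := by exact_mod_cast Nat.factorial_pos _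
    have hP : t.P (k - (b + 1)) j.val ≤ 4 * z j.val :=
      (hPmono j.val (k - (b + 1)) (by omega) (by omega)).trans (hPz j.val (by omega))
    have h3 : ((b + 1).factorial : ℝ) ^ 2 * tsq (prj (lastp k (b + 1)) (cmt i j (M k))) ≤
        ((b + 1).factorial : ℝ) ^ 2 * (lam ^ (b + 1) * (C ^ b) ^ 2 * t.P (k - (b + 1)) j.val) := by
      calc ((b + 1).factorial : ℝ) ^ 2 * tsq (prj (lastp k (b + 1)) (cmt i j (M k))) =
          lam ^ (b + 1) * ∑ J : Fin (k - (b + 1)) → Fin n, ∑ I : Fin (b + 1) → Fin n,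
            (t.c (k - (b + 1)) (b + 1) J I - t.c (k - (b + 1)) (b + 1)
              (fun s => J (Equiv.swap (⟨i.val, by omega⟩ : Fin (k - (b + 1)))
                ⟨j.val, by omega⟩ s)) I) ^ 2 := by rw [← hs2]; exact h1
        _ ≤ lam ^ (b + 1) *
            ((C ^ b * ((b + 1).factorial : ℝ)) ^ 2 * t.P (k - (b + 1)) j.val) :=
            mul_le_mul_of_nonneg_left h2 (by positivity)
        _ = _ := by ring
    have h4 : tsq (prj (lastp k (b + 1)) (cmt i j (M k))) ≤
        lam ^ (b + 1) * (C ^ b) ^ 2 * t.P (k - (b + 1)) j.val :=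
      le_of_mul_le_mul_left h3 (by positivity)
    have h5 : (C ^ b) ^ 2 ≤ (C ^ 2) ^ (b + 1) := by
      rw [← pow_mul, ← pow_mul, mul_comm b 2]
      exact pow_le_pow_right₀ hC (by omega)
    have h6 : lam ^ (b + 1) * (C ^ b) ^ 2 ≤ (C ^ 2 * lam) ^ (b + 1) := by
      calc lam ^ (b + 1) * (C ^ b) ^ 2 ≤ lam ^ (b + 1) * (C ^ 2) ^ (b + 1) :=
            mul_le_mul_of_nonneg_left h5 (by positivity)
        _ = (C ^ 2 * lam) ^ (b + 1) := by rw [mul_pow]; ring
    calc tsq (prj (lastp k (b + 1)) (cmt i j (M k))) ≤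
        lam ^ (b + 1) * (C ^ b) ^ 2 * t.P (k - (b + 1)) j.val := h4
      _ ≤ (C ^ 2 * lam) ^ (b + 1) * t.P (k - (b + 1)) j.val :=
          mul_le_mul_of_nonneg_right h6 (t.Pn _ _)
      _ ≤ (C ^ 2 * lam) ^ (b + 1) * (4 * z j.val) :=
          mul_le_mul_of_nonneg_left hP (by positivity)
  refine num_final (A := 2500000000 * C ^ 2) (N := N) (E := t.E) (V := t.V) (m := m) (D := t.D)
    (z := z) (by nlinarith) hl hk hy ?_ (if_pos rfl) ?_ (by rw [t.E0]; norm_num)
    (fun k _ => hzn k) (fun k _ => t.gap k) ?_ (fun k _ => t.boc k) ?_ ?_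
    (by rw [t.E0, mul_one]; exact t.D0)
  · intro k _
    rcases Nat.eq_zero_or_pos k with h | h
    · subst h
      rw [t.V0, t.E0, show m 0 = 0 from if_pos rfl]
      norm_num
    · obtain ⟨j, rfl⟩ : ∃ j, k = j + 1 := ⟨k - 1, by omega⟩
      rw [hms]
      exact t.hV j
  · intro k _
    simp only [m]
    split_ifs
    · exact le_rfl
    · exact tsq_nonneg _
  · intro k _
    by_cases h : t.V k = 0
    · rw [hE0 k h, h]
      ring
    · simp only [z]
      rw [if_neg h]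
      have h1 := hVpos k h
      field_simp
      ring
  · intro k _
    rw [hms]
    have h1 := tsq_prj_c t.sym t.rc 1 k (k + 1) rfl
    rw [prj_lastp_one] at h1
    have h2 := t.s1 k 0
    norm_num at h1 h2
    rw [Real.sq_sqrt hl.le] at h1
    calc tsq (M (k + 1)) = lam * ∑ J : Fin k → Fin n, ∑ I : Fin 1 → Fin n, t.c k 1 J I ^ 2 := h1
      _ ≤ lam * t.V k := mul_le_mul_of_nonneg_left h2 hl.le
  · intro k l _ hkl
    have hpos : 0 < 2 ^ l := Nat.pos_of_ne_zero (by positivity)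
    obtain ⟨j, rfl⟩ : ∃ j, k = j + 1 := ⟨k - 1, by omega⟩
    rw [hms]
    exact iter (M (j + 1)) (V := t.V) (z := z) (c := C ^ 2) (lam := lam) (by positivity)
      (fun a ha hak => hb1 (j + 1) a ha hak) (fun a ha i i' h h' => hb2 (j + 1) a ha i i' h h')
      (fun j _ => t.Vn j) (fun r _ => hzn r) hkl

end Pool.Agent.Lib.MP_6d896a_gt.FK
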