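import Mathlib
import Pool.Agent.Lib.MP_6d896a_gt.LG.PA2a
import Pool.Agent.Lib.MP_6d896a_gt.LG.PA2b
import Pool.Agent.Lib.MP_6d896a_gt.LG.PA3
import Pool.Agent.Lib.MP_6d896a_gt.LG.PG2
import Pool.Agent.Lib.MP_6d896a_gt.LL.CvV
import Pool.Agent.Lib.MP_6d896a_gt.LG.PA1

/-!
Project FK: from the uniform Poincare inequality at the smooth level to the isoperimetric
inequality of Kannan, Lovasz and Simonovits for all log-concave probability measures.
-/

set_option autoImplicit false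

namespace Pool.Agent.Lib.MP_6d896a_gt.FK

open MeasureTheory ProbabilityTheory Filter Topology Metric Set LG
open scoped ENNReal NNReal ContDiff Pointwise
open UC (Ex Df pd)

variable {n : ℕ}

/-- the uniform Poincare inequality at the smooth level -/
def GapS (K0 : ℝ) : Prop :=
  ∀ (n : ℕ) (V : Eu n → ℝ) (κ Λ c0 : ℝ), SP V κ Λ c0 → CovLe V 1 →
    ∀ f : Eu n → ℝ, UC.TT f → VarE V f ≤ K0 * UC.Df V f f

private lemma coord_cont (i : Fin n) : Continuous (fun x : Eu n => x i) := by fun_prop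

private lemma coord_le (x : Eu n) (i : Fin n) : |x i| ≤ ‖x‖ := by
  rw [← Real.norm_eq_abs]
  exact PiLp.norm_apply_le x i

/-- functions with quadratic growth -/
private lemma quad_bdd {c : ℝ} (hc : 0 < c) {F : Eu n → ℝ} {A : ℝ}
    (hA : ∀ x, |F x| ≤ A * (1 + ‖x‖ ^ 2)) (hA0 : 0 ≤ A) :
    ∃ B, ∀ x, |F x| * Real.exp (-c * ‖x‖ ^ 2) ≤ B := by
  refine ⟨A * (1 + 1 / c), fun x => ?_⟩
  have h1 : Real.exp (-c * ‖x‖ ^ 2) ≤ 1 := by
    apply Real.exp_le_one_iff.mpr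
    nlinarith [sq_nonneg ‖x‖]
  have h2 : ‖x‖ ^ 2 * Real.exp (-c * ‖x‖ ^ 2) ≤ 1 / c := by
    rw [le_div_iff₀ hc]
    have h3 := Real.add_one_le_exp (c * ‖x‖ ^ 2)
    have h4 : Real.exp (c * ‖x‖ ^ 2) * Real.exp (-c * ‖x‖ ^ 2) = 1 := by
      rw [← Real.exp_add, ← Real.exp_zero]
      congr 1
      ring
    have h5 := Real.exp_pos (-c * ‖x‖ ^ 2)
    nlinarith
  have h6 := Real.exp_pos (-c * ‖x‖ ^ 2)
  calc |F x| * Real.exp (-c * ‖x‖ ^ 2) ≤ A * (1 + ‖x‖ ^ 2) * Real.exp (-c * ‖x‖ ^ 2) :=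
        mul_le_mul_of_nonneg_right (hA x) h6.le
    _ = A * (Real.exp (-c * ‖x‖ ^ 2) + ‖x‖ ^ 2 * Real.exp (-c * ‖x‖ ^ 2)) := by ring
    _ ≤ A * (1 + 1 / c) := by gcongr

private lemma cs_bdd {c : ℝ} (hc : 0 < c) {F : Eu n → ℝ} (hF : Continuous F)
    (hs : HasCompactSupport F) : ∃ B, ∀ x, |F x| * Real.exp (-c * ‖x‖ ^ 2) ≤ B := by
  obtain ⟨B, hB⟩ := hs.exists_bound_of_continuous hF
  have hB0 : 0 ≤ B := (norm_nonneg _).trans (hB 0)
  refine quad_bdd hc (A := B) (fun x => ?_) hB0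
  have h1 := hB x
  rw [Real.norm_eq_abs] at h1
  nlinarith [sq_nonneg ‖x‖]

/-- the conclusion of `ulc_approx` -/
private def Apx (ν : Measure (Eu n)) (τ : ℝ) (V : ℕ → Eu n → ℝ) : Prop :=
  ∀ F : Eu n → ℝ, Continuous F → (∃ B, ∀ x, |F x| * Real.exp (-(τ / 2) * ‖x‖ ^ 2) ≤ B) →
    Tendsto (fun k => Ex (V k) F) atTop (𝓝 (∫ x, F x ∂ν))

section lim
variable {ν : Measure (Eu n)} {τ : ℝ} {V : ℕ → Eu n → ℝ}

private lemma lim_cs (hV : Apx ν τ V) (hτ : 0 < τ) {F : Eu n → ℝ} (hF : Continuous F)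
    (hs : HasCompactSupport F) : Tendsto (fun k => Ex (V k) F) atTop (𝓝 (∫ x, F x ∂ν)) :=
  hV F hF (cs_bdd (by positivity) hF hs)

private lemma lim_coord (hV : Apx ν τ V) (hτ : 0 < τ) (i : Fin n) :
    Tendsto (fun k => Ex (V k) (fun x => x i)) atTop (𝓝 (∫ x, x i ∂ν)) := by
  apply hV _ (coord_cont i)
  refine quad_bdd (by positivity) (A := 1) (fun x => ?_) zero_le_one
  have := coord_le x i
  nlinarith [sq_nonneg (‖x‖ - 1), norm_nonneg x]

private lemma lim_coord2 (hV : Apx ν τ V) (hτ : 0 < τ) (i j : Fin n) :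
    Tendsto (fun k => Ex (V k) (fun x => x i * x j)) atTop (𝓝 (∫ x, x i * x j ∂ν)) := by
  apply hV _ ((coord_cont i).mul (coord_cont j))
  refine quad_bdd (by positivity) (A := 1) (fun x => ?_) zero_le_one
  have h0 : |x i * x j| = |x i| * |x j| := abs_mul _ _
  have h1 := mul_le_mul (coord_le x i) (coord_le x j) (abs_nonneg _) (norm_nonneg _)
  change |x i * x j| ≤ _
  rw [h0]
  nlinarith

private lemma lim_tt (hV : Apx ν τ V) (hτ : 0 < τ) (hVc : ∀ k, Continuous (V k))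
    {f : Eu n → ℝ} (hf : UC.TT f) :
    Tendsto (fun k => VarE (V k) f) atTop (𝓝 (Cv ν f f)) ∧
    Tendsto (fun k => Df (V k) f f) atTop (𝓝 (∫ x, ‖fderiv ℝ f x‖ ^ 2 ∂ν)) ∧
    (∀ i, Tendsto (fun k => Ex (V k) (pd i f)) atTop (𝓝 (∫ x, pd i f x ∂ν))) ∧
    (∀ i, Tendsto (fun k => Ex (V k) (fun x => x i * f x) - Ex (V k) (fun x => x i) *
      Ex (V k) f) atTop (𝓝 (Cv ν (fun x => x i) f))) := by
  have h0 := lim_cs hV hτ hf.continuous hf.cs
  refine ⟨?_, ?_, fun i => ?_, fun i => ?_⟩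
  · have h1 := (lim_cs hV hτ hf.sq.continuous hf.sq.cs).sub (h0.pow 2)
    have e : Cv ν f f = ∫ x, f x ^ 2 ∂ν - (∫ x, f x ∂ν) ^ 2 := by
      unfold Cv
      simp only [sq]
    rw [e]
    exact h1
  · have h1 : ∀ k, Df (V k) f f = Ex (V k) (fun x => ‖fderiv ℝ f x‖ ^ 2) := by
      intro k
      rw [UC.Df_eq _ hf (hVc k)]
      rfl
    simp only [h1]
    have hc : Continuous (fun x => ‖fderiv ℝ f x‖ ^ 2) :=
      (hf.cd.continuous_fderiv (by simp)).norm.pow 2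
    have h2 := (hf.cs.fderiv ℝ).norm
    have hk : HasCompactSupport (fun x => ‖fderiv ℝ f x‖ ^ 2) :=
      h2.comp_left (g := fun y : ℝ => y ^ 2) (by norm_num)
    exact lim_cs hV hτ hc hk
  · exact lim_cs hV hτ (hf.pd i).continuous (hf.pd i).cs
  · unfold Cv
    refine Tendsto.sub ?_ ((lim_coord hV hτ i).mul h0)
    exact lim_cs hV hτ ((coord_cont i).mul hf.continuous) hf.cs.mul_left

end lim

/-- variances of linear functions -/
private lemma var_lin {ρ : Measure (Eu n)} (h1 : ∀ i, Integrable (fun x : Eu n => x i) ρ)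
    (h2 : ∀ i j, Integrable (fun x : Eu n => x i * x j) ρ) (w : Eu n) :
    ∫ x, inner ℝ x w * inner ℝ x w ∂ρ - (∫ x, inner ℝ x w ∂ρ) * ∫ x, inner ℝ x w ∂ρ =
      ∑ i, ∑ j, w i * w j * (∫ x, x i * x j ∂ρ - (∫ x, x i ∂ρ) * ∫ x, x j ∂ρ) := by
  have e0 : ∀ x : Eu n, inner ℝ x w = ∑ i, w i * x i := by
    intro x
    rw [PiLp.inner_apply]
    exact Finset.sum_congr rfl fun i _ => by simp
  have e1 : ∫ x, inner ℝ x w ∂ρ = ∑ i, w i * ∫ x, x i ∂ρ := by
    simp only [e0]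
    rw [integral_finsetSum _ (fun i _ => (h1 i).const_mul _)]
    exact Finset.sum_congr rfl fun i _ => integral_const_mul _ _
  have e2 : ∫ x, inner ℝ x w * inner ℝ x w ∂ρ =
      ∑ i, ∑ j, w i * w j * ∫ x, x i * x j ∂ρ := by
    have e3 : ∀ x : Eu n, inner ℝ x w * inner ℝ x w = ∑ i, ∑ j, w i * w j * (x i * x j) := by
      intro x
      rw [e0, Finset.sum_mul_sum]
      exact Finset.sum_congr rfl fun i _ => Finset.sum_congr rfl fun j _ => by ring
    simp only [e3]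
    rw [integral_finsetSum _ (fun i _ => integrable_finsetSum _
      fun j _ => (h2 i j).const_mul _)]
    refine Finset.sum_congr rfl fun i _ => ?_
    rw [integral_finsetSum _ (fun j _ => (h2 i j).const_mul _)]
    exact Finset.sum_congr rfl fun j _ => integral_const_mul _ _
  rw [e1, e2, Finset.sum_mul_sum, ← Finset.sum_sub_distrib]
  refine Finset.sum_congr rfl fun i _ => ?_
  rw [← Finset.sum_sub_distrib]
  exact Finset.sum_congr rfl fun j _ => by ring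

/-- difference of the covariances -/
private lemma quad_diff (C C' : Fin n → Fin n → ℝ) (w : Eu n) :
    ∑ i, ∑ j, w i * w j * C i j ≤ ∑ i, ∑ j, w i * w j * C' i j +
      (∑ i, ∑ j, |C i j - C' i j|) * ‖w‖ ^ 2 := by
  have h1 : ∑ i, ∑ j, w i * w j * C i j - ∑ i, ∑ j, w i * w j * C' i j =
      ∑ i, ∑ j, w i * w j * (C i j - C' i j) := by
    rw [← Finset.sum_sub_distrib]
    refine Finset.sum_congr rfl fun i _ => ?_
    rw [← Finset.sum_sub_distrib]
    exact Finset.sum_congr rfl fun j _ => by ring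
  have h2 : ∑ i, ∑ j, w i * w j * (C i j - C' i j) ≤
      ∑ i, ∑ j, |C i j - C' i j| * ‖w‖ ^ 2 := by
    refine Finset.sum_le_sum fun i _ => Finset.sum_le_sum fun j _ => ?_
    have h3 : |w i * w j| ≤ ‖w‖ ^ 2 := by
      rw [abs_mul, sq]
      exact mul_le_mul (coord_le w i) (coord_le w j) (abs_nonneg _) (norm_nonneg _)
    calc w i * w j * (C i j - C' i j) ≤ |w i * w j * (C i j - C' i j)| := le_abs_self _
      _ = |C i j - C' i j| * |w i * w j| := by rw [abs_mul, mul_comm]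
      _ ≤ _ := mul_le_mul_of_nonneg_left h3 (abs_nonneg _)
  have h4 : ∑ i, ∑ j, |C i j - C' i j| * ‖w‖ ^ 2 =
      (∑ i, ∑ j, |C i j - C' i j|) * ‖w‖ ^ 2 := by
    rw [Finset.sum_mul]
    exact Finset.sum_congr rfl fun i _ => by rw [Finset.sum_mul]
  linarith

section int
variable {V : Eu n → ℝ} {κ Λ c0 : ℝ}

private lemma sp_int (h : SP V κ Λ c0) {F : Eu n → ℝ} (hF : Continuous F)
    (hb : ∀ x, |F x| ≤ (1 + ‖x‖) ^ 4) : Integrable F (tgt V) := by
  have hV := h.cd.continuous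
  have h1 : Integrable (fun x => F x * Real.exp (-V x)) := by
    refine h.int4.mono' (by fun_prop) (ae_of_all _ fun x => ?_)
    rw [Real.norm_eq_abs, abs_mul, Real.abs_exp]
    exact mul_le_mul_of_nonneg_right (hb x) (Real.exp_pos _).le
  unfold tgt
  have e3 : (fun x : Eu n => ENNReal.ofReal (Real.exp (-V x))) =
      fun x => ((Real.toNNReal (Real.exp (-V x)) : NNReal) : ℝ≥0∞) := rfl
  have hm : Measurable (fun x : Eu n => Real.exp (-V x)) := by fun_prop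
  rw [e3, integrable_withDensity_iff_integrable_smul hm.real_toNNReal]
  refine h1.congr (ae_of_all _ fun x => ?_)
  simp only [NNReal.smul_def, Real.coe_toNNReal _ (Real.exp_pos _).le, smul_eq_mul]
  ring

private lemma sp_int1 (h : SP V κ Λ c0) (i : Fin n) :
    Integrable (fun x : Eu n => x i) (tgt V) := by
  apply sp_int h (coord_cont i)
  intro x
  have h1 := coord_le x i
  have h2 : 1 + ‖x‖ ≤ (1 + ‖x‖) ^ 4 :=
    le_self_pow₀ (by linarith [norm_nonneg x]) (by norm_num)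
  linarith

private lemma sp_int2 (h : SP V κ Λ c0) (i j : Fin n) :
    Integrable (fun x : Eu n => x i * x j) (tgt V) := by
  apply sp_int h ((coord_cont i).mul (coord_cont j))
  intro x
  change |x i * x j| ≤ _
  rw [abs_mul]
  have h1 := mul_le_mul (coord_le x i) (coord_le x j) (abs_nonneg _) (norm_nonneg _)
  have h2 : (1 + ‖x‖) ^ 2 ≤ (1 + ‖x‖) ^ 4 :=
    pow_le_pow_right₀ (by linarith [norm_nonneg x]) (by norm_num)
  nlinarith [norm_nonneg x]

private lemma sp_tgt (h : SP V κ Λ c0) (F : Eu n → ℝ) : ∫ x, F x ∂(tgt V) = Ex V F :=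
  integral_tgt h.cd.continuous F

private lemma sp_varlin (h : SP V κ Λ c0) (w : Eu n) :
    VarE V (fun x => inner ℝ x w) = ∑ i, ∑ j, w i * w j *
      (Ex V (fun x => x i * x j) - Ex V (fun x => x i) * Ex V (fun x => x j)) := by
  have h1 := var_lin (sp_int1 h) (sp_int2 h) w
  simp only [sp_tgt h] at h1
  unfold VarE
  simp only [sq]
  exact h1

end int

/-- approximation with control of the covariance -/
private lemma cov_approx {ν : Measure (Eu n)} {R τ : ℝ} [IsProbabilityMeasure ν] (hR : BS R ν)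
    (hτ : 0 < τ) {V : ℕ → Eu n → ℝ} (hV : Apx ν τ V) (hSP : ∀ k, ∃ Λ c0, SP (V k) τ Λ c0)
    {s : ℝ} (hs0 : 0 ≤ s)
    (hs : ∀ w : Eu n, Cv ν (fun x => inner ℝ x w) (fun x => inner ℝ x w) ≤ s * ‖w‖ ^ 2) :
    ∃ S : ℕ → ℝ, (∀ k, 0 < S k) ∧ (∀ k, CovLe (V k) (S k)) ∧ Tendsto S atTop (𝓝 s) := by
  set C : ℕ → Fin n → Fin n → ℝ := fun k i j =>
    Ex (V k) (fun x => x i * x j) - Ex (V k) (fun x => x i) * Ex (V k) (fun x => x j) with hC
  set C' : Fin n → Fin n → ℝ := fun i j =>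
    ∫ x, x i * x j ∂ν - (∫ x, x i ∂ν) * ∫ x, x j ∂ν with hC'
  have hlim : ∀ i j, Tendsto (fun k => C k i j) atTop (𝓝 (C' i j)) := fun i j =>
    (lim_coord2 hV hτ i j).sub ((lim_coord hV hτ i).mul (lim_coord hV hτ j))
  refine ⟨fun k => s + ∑ i, ∑ j, |C k i j - C' i j| + 1 / ((k : ℝ) + 1), fun k => ?_,
    fun k w => ?_, ?_⟩
  · have h1 : 0 ≤ ∑ i, ∑ j, |C k i j - C' i j| :=
      Finset.sum_nonneg fun i _ => Finset.sum_nonneg fun j _ => abs_nonneg _
    have h2 : (0 : ℝ) < 1 / ((k : ℝ) + 1) := by positivity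
    linarith
  · obtain ⟨Λ, c0, hk⟩ := hSP k
    rw [sp_varlin hk]
    have h1 := quad_diff (C k) C' w
    have h2 := var_lin (ρ := ν) (fun i => bs_int hR (coord_cont i))
      (fun i j => bs_int hR ((coord_cont i).mul (coord_cont j))) w
    have h3 := hs w
    unfold Cv at h3
    rw [h2] at h3
    have h4 : 0 ≤ 1 / ((k : ℝ) + 1) * ‖w‖ ^ 2 := by positivity
    calc ∑ i, ∑ j, w i * w j * C k i j ≤ ∑ i, ∑ j, w i * w j * C' i j +
          (∑ i, ∑ j, |C k i j - C' i j|) * ‖w‖ ^ 2 := h1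
      _ ≤ s * ‖w‖ ^ 2 + (∑ i, ∑ j, |C k i j - C' i j|) * ‖w‖ ^ 2 +
          1 / ((k : ℝ) + 1) * ‖w‖ ^ 2 := by linarith
      _ = _ := by ring
  · have h1 : Tendsto (fun k => ∑ i, ∑ j, |C k i j - C' i j|) atTop (𝓝 0) := by
      have h2 : Tendsto (fun k => ∑ i, ∑ j, |C k i j - C' i j|) atTop
          (𝓝 (∑ i, ∑ j, |C' i j - C' i j|)) :=
        tendsto_finsetSum _ fun i _ => tendsto_finsetSum _ fun j _ =>
          ((hlim i j).sub_const _).abs
      simpa using h2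
    have h3 := (h1.const_add s).add tendsto_one_div_add_atTop_nhds_zero_nat
    simpa using h3


/-! ### scaling -/

/-- the homothety -/
private noncomputable def hom (r : ℝ) (hr : r ≠ 0) : Eu n ≃L[ℝ] Eu n :=
  ContinuousLinearEquiv.smulLeft (Units.mk0 r hr)

private lemma hom_apply (r : ℝ) (hr : r ≠ 0) (x : Eu n) : hom r hr x = r • x := rfl

theorem gap_scale {K0 : ℝ} (H : GapS K0) {V : Eu n → ℝ} {κ Λ c0 S : ℝ} (h : SP V κ Λ c0)
    (hS : 0 < S) (hc : CovLe V S) {f : Eu n → ℝ} (hf : UC.TT f) :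
    VarE V f ≤ K0 * S * UC.Df V f f := by
  have hr : 0 < Real.sqrt S := Real.sqrt_pos.2 hS
  have hrs : Real.sqrt S ^ 2 = S := Real.sq_sqrt hS.le
  set L : Eu n ≃L[ℝ] Eu n := hom (Real.sqrt S) hr.ne' with hL
  have hLa : ∀ x, L x = Real.sqrt S • x := fun x => rfl
  obtain ⟨κ', Λ', c0', h'⟩ := sp_cvV L h
  have hcov : CovLe (cvV V L) 1 := by
    intro w
    have e1 : (fun y : Eu n => (inner ℝ y w : ℝ)) =
        fun y => (fun x : Eu n => inner ℝ x ((Real.sqrt S)⁻¹ • w)) (L y) := by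
      funext y
      simp only [hLa, inner_smul_left, inner_smul_right, conj_trivial]
      field_simp
    rw [e1, varE_cvV L (fun x : Eu n => (inner ℝ x ((Real.sqrt S)⁻¹ • w) : ℝ))]
    refine (hc _).trans (le_of_eq ?_)
    rw [norm_smul, Real.norm_eq_abs, abs_inv, abs_of_pos hr, mul_pow, inv_pow, hrs]
    field_simp
  have h1 := H n _ _ _ _ h' hcov _ (tt_comp L hf)
  rw [varE_cvV L] at h1
  refine h1.trans (le_of_eq ?_)
  rw [mul_assoc]
  congr 1
  have hf1 : ContDiff ℝ 1 f := hf.cd.of_le (by exact_mod_cast le_top)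
  rw [Df_self, Df_self, Finset.mul_sum]
  refine Finset.sum_congr rfl fun i _ => ?_
  have e2 : (fun x => UC.pd i (fun y => f (L y)) x ^ 2) =
      fun y => (fun x => S * UC.pd i f x ^ 2) (L y) := by
    funext y
    rw [pd_comp L hf1]
    have e3 : ∀ j, L (EuclideanSpace.single i 1) j * UC.pd j f (L y) =
        if j = i then Real.sqrt S * UC.pd i f (L y) else 0 := by
      intro j
      rw [hLa]
      split_ifs with hj
      · subst hj; simp
      · simp [hj]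
    rw [Finset.sum_congr rfl fun j _ => e3 j]
    simp only [Finset.sum_ite_eq', Finset.mem_univ, if_true]
    rw [mul_pow, hrs]
  rw [e2, Ex_cvV L (fun x => S * UC.pd i f x ^ 2), UC.Ex_const_mul]

variable {ν : Measure (Eu n)} {R τ : ℝ}

/-- the Poincare inequality for uniformly log-concave measures with bounded support -/
theorem ulc_gap {K0 : ℝ} (H : GapS K0) (hν : IsProbabilityMeasure ν) (hR : BS R ν)
    (hτ : 0 < τ) (hu : ULC τ ν) {s : ℝ} (hs0 : 0 ≤ s) (hs : CovL ν s)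
    {f : Eu n → ℝ} (hf : ContDiff ℝ 1 f) :
    Cv ν f f ≤ K0 * s * ∫ x, ‖fderiv ℝ f x‖ ^ 2 ∂ν := by
  obtain ⟨V, hSP, hV⟩ := ulc_approx hν hR hτ hu
  have hVc : ∀ k, Continuous (V k) := fun k => by
    obtain ⟨Λ, c0, h⟩ := hSP k
    exact h.cd.continuous
  obtain ⟨S, hS0, hS, hSl⟩ := cov_approx hR hτ hV hSP hs0 hs
  have htt : ∀ g : Eu n → ℝ, UC.TT g →
      Cv ν g g ≤ K0 * s * ∫ x, ‖fderiv ℝ g x‖ ^ 2 ∂ν := by
    intro g hg
    obtain ⟨l1, l2, -, -⟩ := lim_tt hV hτ hVc hg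
    refine le_of_tendsto_of_tendsto' l1 ((hSl.const_mul K0).mul l2) fun k => ?_
    obtain ⟨Λ, c0, h⟩ := hSP k
    exact gap_scale H h (hS0 k) (hS k) hg
  obtain ⟨g, hg, l1, l2, -, -⟩ := c1_limits hR hf
  exact le_of_tendsto_of_tendsto' l1 (l2.const_mul _) fun k => htt _ (hg k)


private lemma tl_lim (hν : IsProbabilityMeasure ν) (hR : BS R ν) {t : ℕ → ℝ}
    (ht0 : ∀ k, 0 < t k) (htlim : Tendsto t atTop (𝓝 0)) {F : Eu n → ℝ} (hF : Continuous F) :
    Tendsto (fun k => ∫ x, F x ∂(tl ν (t k) 0)) atTop (𝓝 (∫ x, F x ∂ν)) := by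
  have hlim : ∀ G : Eu n → ℝ, Continuous G →
      Tendsto (fun k => ∫ x, Real.exp (-(t k / 2 * ‖x‖ ^ 2)) * G x ∂ν) atTop
        (𝓝 (∫ x, G x ∂ν)) := by
    intro G hG
    refine tendsto_integral_of_dominated_convergence (fun x => |G x|) ?_ ?_ ?_ ?_
    · intro k
      exact Continuous.aestronglyMeasurable ((by fun_prop : Continuous fun x : Eu n =>
        Real.exp (-(t k / 2 * ‖x‖ ^ 2))).mul hG)
    · exact (BM.cont hR hG).int.abs
    · intro k
      refine ae_of_all _ fun x => ?_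
      rw [norm_mul, Real.norm_eq_abs, Real.norm_eq_abs, abs_of_pos (Real.exp_pos _)]
      have h1 : Real.exp (-(t k / 2 * ‖x‖ ^ 2)) ≤ 1 := by
        apply Real.exp_le_one_iff.2
        have := ht0 k
        have : 0 ≤ t k / 2 * ‖x‖ ^ 2 := by positivity
        linarith
      exact mul_le_of_le_one_left (abs_nonneg _) h1
    · refine ae_of_all _ fun x => ?_
      have h2 : Tendsto (fun k => Real.exp (-(t k / 2 * ‖x‖ ^ 2)) * G x) atTop
          (𝓝 (Real.exp (-(0 / 2 * ‖x‖ ^ 2)) * G x)) :=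
        ((Real.continuous_exp.tendsto _).comp
          (((htlim.div_const 2).mul_const (‖x‖ ^ 2)).neg)).mul_const _
      simpa using h2
  have h1 := hlim F hF
  have h2 := hlim (fun _ => 1) continuous_const
  have h3 := h1.div h2 (by simp)
  have e3 : (∫ x, F x ∂ν) / ∫ _x : Eu n, (1 : ℝ) ∂ν = ∫ x, F x ∂ν := by simp
  rw [e3] at h3
  refine h3.congr fun k => ?_
  show (∫ x, Real.exp (-(t k / 2 * ‖x‖ ^ 2)) * F x ∂ν) /
    (∫ x, Real.exp (-(t k / 2 * ‖x‖ ^ 2)) * 1 ∂ν) = _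
  unfold tl
  rw [integral_tilted]
  simp only [inner_zero_left, zero_sub, smul_eq_mul, mul_one]
  rw [← integral_div]
  refine integral_congr_ae (ae_of_all _ fun x => ?_)
  simp only []
  ring

/-- the Poincare inequality for log-concave measures with bounded support -/
theorem plm_gap {K0 : ℝ} (H : GapS K0) (hν : IsProbabilityMeasure ν) (hR : BS R ν)
    (hpl : FP.PLm ν) {s : ℝ} (hs0 : 0 ≤ s) (hs : CovL ν s)
    {f : Eu n → ℝ} (hf : ContDiff ℝ 1 f) :
    Cv ν f f ≤ K0 * s * ∫ x, ‖fderiv ℝ f x‖ ^ 2 ∂ν := by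
  obtain ⟨R', hR0, hR'⟩ : ∃ R' : ℝ, 0 ≤ R' ∧ BS R' ν :=
    ⟨|R|, abs_nonneg _, hR.mono fun x hx => hx.trans (le_abs_self R)⟩
  have hNm : Nm ν R' (2 * n * R' ^ 2) := ⟨hν, hR0, hR', le_rfl⟩
  set t : ℕ → ℝ := fun k => 1 / ((k : ℝ) + 1) with ht
  have ht0 : ∀ k, 0 < t k := fun k => by rw [ht]; positivity
  have htlim : Tendsto t atTop (𝓝 0) := tendsto_one_div_add_atTop_nhds_zero_nat
  have hU : ∀ k, ULC (t k) (tl ν (t k) 0) := by
    intro k
    have h1 := tl_ULC hNm (ulc_zero_iff.2 hpl) (t k) 0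
    rwa [zero_add] at h1
  have hL : ∀ F : Eu n → ℝ, Continuous F →
      Tendsto (fun k => ∫ x, F x ∂(tl ν (t k) 0)) atTop (𝓝 (∫ x, F x ∂ν)) :=
    fun F hF => tl_lim hν hR' ht0 htlim hF
  have hP : ∀ k, IsProbabilityMeasure (tl ν (t k) 0) := fun k => tl_prob hNm (t k) 0
  have hB : ∀ k, BS R' (tl ν (t k) 0) := fun k => tl_BS hNm (t k) 0
  set C : ℕ → Fin n → Fin n → ℝ := fun k i j =>
    ∫ x, x i * x j ∂(tl ν (t k) 0) - (∫ x, x i ∂(tl ν (t k) 0)) * ∫ x, x j ∂(tl ν (t k) 0) with hC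
  set C' : Fin n → Fin n → ℝ := fun i j =>
    ∫ x, x i * x j ∂ν - (∫ x, x i ∂ν) * ∫ x, x j ∂ν with hC'
  have hlim : ∀ i j, Tendsto (fun k => C k i j) atTop (𝓝 (C' i j)) := fun i j =>
    (hL _ ((coord_cont i).mul (coord_cont j))).sub ((hL _ (coord_cont i)).mul
      (hL _ (coord_cont j)))
  set S : ℕ → ℝ := fun k => s + ∑ i, ∑ j, |C k i j - C' i j| with hS
  have hS0 : ∀ k, 0 ≤ S k := fun k => by
    have h1 : 0 ≤ ∑ i, ∑ j, |C k i j - C' i j| :=
      Finset.sum_nonneg fun i _ => Finset.sum_nonneg fun j _ => abs_nonneg _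
    show 0 ≤ s + ∑ i, ∑ j, |C k i j - C' i j|
    linarith
  have hSl : Tendsto S atTop (𝓝 s) := by
    have h2 : Tendsto (fun k => ∑ i, ∑ j, |C k i j - C' i j|) atTop
        (𝓝 (∑ i, ∑ j, |C' i j - C' i j|)) :=
      tendsto_finsetSum _ fun i _ => tendsto_finsetSum _ fun j _ =>
        ((hlim i j).sub_const _).abs
    have h3 := h2.const_add s
    simpa using h3
  have hcov : ∀ k, CovL (tl ν (t k) 0) (S k) := by
    intro k w
    have h0 := hP k
    have h1 := quad_diff (C k) C' w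
    have h2 := var_lin (ρ := ν) (fun i => bs_int hR' (coord_cont i))
      (fun i j => bs_int hR' ((coord_cont i).mul (coord_cont j))) w
    have h2' := var_lin (ρ := tl ν (t k) 0) (fun i => bs_int (hB k) (coord_cont i))
      (fun i j => bs_int (hB k) ((coord_cont i).mul (coord_cont j))) w
    have h3 := hs w
    unfold Cv at h3 ⊢
    rw [h2] at h3
    rw [h2']
    calc ∑ i, ∑ j, w i * w j * C k i j ≤ ∑ i, ∑ j, w i * w j * C' i j +
          (∑ i, ∑ j, |C k i j - C' i j|) * ‖w‖ ^ 2 := h1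
      _ ≤ s * ‖w‖ ^ 2 + (∑ i, ∑ j, |C k i j - C' i j|) * ‖w‖ ^ 2 := by linarith
      _ = _ := by ring
  have hfd : Continuous fun x => ‖fderiv ℝ f x‖ ^ 2 :=
    (hf.continuous_fderiv (by simp)).norm.pow 2
  have l1 : Tendsto (fun k => Cv (tl ν (t k) 0) f f) atTop (𝓝 (Cv ν f f)) :=
    (hL _ (hf.continuous.mul hf.continuous)).sub ((hL _ hf.continuous).mul
      (hL _ hf.continuous))
  refine le_of_tendsto_of_tendsto' l1 ((hSl.const_mul K0).mul (hL _ hfd)) fun k => ?_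
  exact ulc_gap H (hP k) (hB k) (ht0 k) (hU k) (hS0 k) (hcov k) hf

/-- the isoperimetric inequality of Kannan, Lovasz and Simonovits -/
theorem kls_of_gapS {K0 : ℝ} (hK0 : 1 ≤ K0) (H : GapS K0) :
    ∃ C : ℝ, 0 < C ∧ ∀ (n : ℕ) (μ : Measure (EuclideanSpace ℝ (Fin n))), IsProbabilityMeasure μ →
      (∀ (A B : Set (EuclideanSpace ℝ (Fin n))) (t : ℝ), IsCompact A → IsCompact B → 0 < t →
        t < 1 → (μ A) ^ t * (μ B) ^ (1 - t) ≤ μ (t • A + (1 - t) • B)) →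
      ∀ s : ℝ, 0 < s →
      (∀ θ : EuclideanSpace ℝ (Fin n), ‖θ‖ = 1 →
        ProbabilityTheory.variance (fun x => inner ℝ x θ) μ ≤ s) →
      ∀ S : Set (EuclideanSpace ℝ (Fin n)), MeasurableSet S →
        ENNReal.ofReal (C / Real.sqrt s) * min (μ S) (μ Sᶜ) ≤
          Filter.liminf (fun ε : ℝ => (μ (Metric.thickening ε S) - μ S) / ENNReal.ofReal ε)
            (nhdsWithin 0 (Set.Ioi 0)) := by
  obtain ⟨C, hC, hfin⟩ := final_of (M := fun _ => K0) (fun _ => hK0) (by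
    intro n μ R hμ hR hpl hc g hg hg1 l hl
    have h1 := plm_gap H hμ hR hpl zero_le_one hc hg
    have h2 : ∫ x, ‖fderiv ℝ g x‖ ^ 2 ∂μ ≤ l ^ 2 := by
      have h3 : ∫ x, ‖fderiv ℝ g x‖ ^ 2 ∂μ ≤ ∫ _x, l ^ 2 ∂μ := by
        refine integral_mono (bs_int hR ((hg.continuous_fderiv (by simp)).norm.pow 2))
          (integrable_const _) fun x => ?_
        exact pow_le_pow_left₀ (norm_nonneg _) (hl x) 2
      simpa using h3
    have h4 : 0 < FP.eta0 := FP.eta0_pos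
    calc Cv μ g g ≤ K0 * 1 * ∫ x, ‖fderiv ℝ g x‖ ^ 2 ∂μ := h1
      _ ≤ K0 * 1 * l ^ 2 := mul_le_mul_of_nonneg_left h2 (by linarith)
      _ ≤ K0 * l ^ 2 + FP.eta0 / 2 := by linarith)
  refine ⟨C / Real.sqrt K0, by positivity, ?_⟩
  intro n μ hμ hlc s hs hv S hS
  have h1 := hfin n μ hμ hlc s hs hv S hS
  have e2 : C / Real.sqrt K0 / Real.sqrt s = C / Real.sqrt (K0 * s) := by
    rw [Real.sqrt_mul (by linarith), div_div]
  rw [e2]
  exact h1

end Pool.Agent.Lib.MP_6d896a_gt.FK
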