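import Mathlib
import Pool.Agent.Lib.MP_6d896a_gt.FK.DefB
import Pool.Agent.Lib.MP_6d896a_gt.LG.PA1

/-!
Project FK, piece B3: approximate solutions of the Poisson equation for families.
-/

set_option autoImplicit false

namespace Pool.Agent.Lib.MP_6d896a_gt.FK

open MeasureTheory Filter Topology Set
open Pool.Agent.Lib.MP_6d896a_gt.LG
open scoped ENNReal NNReal ContDiff

variable {n : ℕ} {V : Eu n → ℝ} {κ Λ c0 lam η : ℝ} {T : Type} [Fintype T]

theorem vr_nonneg (hs : SP V κ Λ c0) {G : T → Eu n → ℝ} (hG : ∀ J, UC.TT (G J)) :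
    0 ≤ vr V G :=
  Finset.sum_nonneg fun J _ => hs.VarE_nonneg (SqV.of_TT hs.cont (hG J))

/-- `|L u| ≤ |G - E G| + √η` -/
theorem slv_w2_le (hs : SP V κ Λ c0) (hη : 0 ≤ η) {G u : T → Eu n → ℝ} (hG : ∀ J, UC.TT (G J))
    (hu : ∀ J, UC.TT (u J)) (h : Slv V η G u) :
    w2 V u ≤ (Real.sqrt (vr V G) + Real.sqrt η) ^ 2 := by
  have hV := hs.cont
  set e : T → ℝ := fun J =>
    UC.Ex V (fun x => (UC.LL V (u J) x + (G J x - UC.Ex V (G J))) ^ 2) with he
  have he0 : ∀ J, 0 ≤ e J := fun J => UC.Ex_nonneg fun x => sq_nonneg _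
  have hX0 : ∀ J, 0 ≤ VarE V (G J) := fun J => hs.VarE_nonneg (SqV.of_TT hV (hG J))
  have hterm : ∀ J, UC.Ex V (fun x => UC.LL V (u J) x ^ 2) ≤
      e J + 2 * (Real.sqrt (e J) * Real.sqrt (VarE V (G J))) + VarE V (G J) := by
    intro J
    have sG : SqV V (fun x => G J x - UC.Ex V (G J)) :=
      (SqV.of_TT hV (hG J)).sub hV (hs.const _)
    have sL : SqV V (UC.LL V (u J)) := hs.LL_sq (hu J)
    have sE : SqV V (fun x => UC.LL V (u J) x + (G J x - UC.Ex V (G J))) := sL.add hV sG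
    have hcs := sE.cs hV sG
    rw [hs.VarE_eq (SqV.of_TT hV (hG J))] at hcs
    have e1 : (fun x => UC.LL V (u J) x ^ 2) = fun x =>
        ((UC.LL V (u J) x + (G J x - UC.Ex V (G J))) ^ 2 -
          2 * ((UC.LL V (u J) x + (G J x - UC.Ex V (G J))) * (G J x - UC.Ex V (G J)))) +
          (G J x - UC.Ex V (G J)) ^ 2 := by
      funext x; ring
    have i1 := sE.mul_int hV sG
    have i2 : Integrable (fun x => (2 * ((UC.LL V (u J) x + (G J x - UC.Ex V (G J))) *
        (G J x - UC.Ex V (G J)))) * Real.exp (-V x)) := by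
      have := i1.const_mul 2
      refine this.congr (Eventually.of_forall fun x => ?_)
      show 2 * _ = _
      ring
    have i3 : Integrable (fun x => ((UC.LL V (u J) x + (G J x - UC.Ex V (G J))) ^ 2 -
          2 * ((UC.LL V (u J) x + (G J x - UC.Ex V (G J))) * (G J x - UC.Ex V (G J)))) *
            Real.exp (-V x)) := by
      refine (sE.2.sub i2).congr (Eventually.of_forall fun x => ?_)
      simp only [Pi.sub_apply]
      ring
    rw [e1, UC.Ex_add i3 sG.2, UC.Ex_sub sE.2 i2, UC.Ex_const_mul,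
      hs.VarE_eq (SqV.of_TT hV (hG J))]
    have h2 := (abs_le.1 hcs).1
    have h3 : Real.sqrt (UC.Ex V (fun x => (UC.LL V (u J) x +
        (G J x - UC.Ex V (G J))) ^ 2)) = Real.sqrt (e J) := rfl
    rw [h3] at h2
    have h4 : UC.Ex V (fun x => (UC.LL V (u J) x + (G J x - UC.Ex V (G J))) ^ 2) = e J := rfl
    rw [h4]
    linarith
  have hsum : w2 V u ≤ ∑ J, e J + 2 * ∑ J, (Real.sqrt (e J) * Real.sqrt (VarE V (G J))) +
      vr V G := by
    unfold w2 vr
    rw [Finset.mul_sum, ← Finset.sum_add_distrib, ← Finset.sum_add_distrib]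
    exact Finset.sum_le_sum fun J _ => hterm J
  have h1 : ∑ J, (Real.sqrt (e J) * Real.sqrt (VarE V (G J))) ≤
      Real.sqrt (∑ J, e J) * Real.sqrt (vr V G) := by
    unfold vr
    exact Real.sum_sqrt_mul_sqrt_le Finset.univ (fun J => he0 J) (fun J => hX0 J)
  have h2 : ∑ J, e J ≤ η := h
  have h3 : Real.sqrt (∑ J, e J) ≤ Real.sqrt η := Real.sqrt_le_sqrt h2
  have h4 : Real.sqrt (∑ J, e J) * Real.sqrt (vr V G) ≤ Real.sqrt η * Real.sqrt (vr V G) :=
    mul_le_mul_of_nonneg_right h3 (Real.sqrt_nonneg _)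
  have h5 : (Real.sqrt (vr V G) + Real.sqrt η) ^ 2 =
      vr V G + 2 * (Real.sqrt η * Real.sqrt (vr V G)) + η := by
    rw [add_sq, Real.sq_sqrt (vr_nonneg hs hG), Real.sq_sqrt hη]
    ring
  rw [h5]
  linarith

/-- the spectral gap for the gradients -/
theorem gap_w2 (hs : SP V κ Λ c0) (hl : 0 < lam) (hP : UC.UR.HP V (1 / lam)) {u : T → Eu n → ℝ}
    (hu : ∀ J, UC.TT (u J)) : lam * dfF V u u ≤ w2 V u := by
  unfold dfF w2
  rw [Finset.mul_sum]
  refine Finset.sum_le_sum fun J _ => ?_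
  have hV := hs.cont
  have sL : SqV V (UC.LL V (u J)) := hs.LL_sq (hu J)
  have su : SqV V (u J) := SqV.of_TT hV (hu J)
  have hg : UC.Ex V (fun x => UC.LL V (u J) x * u J x) = - UC.Df V (u J) (u J) :=
    UC.green hs.cd1 (hu J) (hu J)
  have h0 : UC.Ex V (UC.LL V (u J)) = 0 := UC.Ex_LL hs.cd1 (hu J)
  have h1 := hs.cov_le su sL h0
  have h2 : (fun x => u J x * UC.LL V (u J) x) = fun x => UC.LL V (u J) x * u J x := by
    funext x; ring
  rw [h2, hg, abs_neg, abs_of_nonneg (UC.Df_nonneg V (u J))] at h1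
  have hD := UC.Df_nonneg V (u J)
  have hW : 0 ≤ UC.Ex V (fun x => UC.LL V (u J) x ^ 2) := UC.Ex_nonneg fun x => sq_nonneg _
  have hvar : VarE V (u J) ≤ 1 / lam * UC.Df V (u J) (u J) := hP (u J) (hu J)
  have hv0 := hs.VarE_nonneg su
  set D := UC.Df V (u J) (u J) with hDdef
  set W := UC.Ex V (fun x => UC.LL V (u J) x ^ 2) with hWdef
  have h3 : D ^ 2 ≤ VarE V (u J) * W := by
    calc D ^ 2 ≤ (Real.sqrt (VarE V (u J)) * Real.sqrt W) ^ 2 :=
          pow_le_pow_left₀ hD h1 2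
      _ = VarE V (u J) * W := by rw [mul_pow, Real.sq_sqrt hv0, Real.sq_sqrt hW]
  have h4 : D ^ 2 ≤ 1 / lam * D * W := h3.trans (mul_le_mul_of_nonneg_right hvar hW)
  rcases hD.eq_or_lt with h5 | h5
  · rw [← h5]
    simpa using hW
  · have h6 : D * D ≤ D * (1 / lam * W) := by nlinarith [h4]
    have h7 := le_of_mul_le_mul_left h6 h5
    have h8 : lam * D ≤ lam * (1 / lam * W) := mul_le_mul_of_nonneg_left h7 hl.le
    have h9 : lam * (1 / lam * W) = W := by
      field_simp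
    linarith

/-- the spectral gap -/
theorem gap_vr (hl : 0 < lam) (hP : UC.UR.HP V (1 / lam)) {G : T → Eu n → ℝ}
    (hG : ∀ J, UC.TT (G J)) : lam * vr V G ≤ dfF V G G := by
  unfold vr dfF
  rw [Finset.mul_sum]
  refine Finset.sum_le_sum fun J _ => ?_
  have h1 : VarE V (G J) ≤ 1 / lam * UC.Df V (G J) (G J) := hP (G J) (hG J)
  have h2 := mul_le_mul_of_nonneg_left h1 hl.le
  have h3 : lam * (1 / lam * UC.Df V (G J) (G J)) = UC.Df V (G J) (G J) := by
    field_simp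
  linarith

theorem slv_cross (hs : SP V κ Λ c0) (hη : 0 ≤ η) {G u : T → Eu n → ℝ} (hG : ∀ J, UC.TT (G J))
    (hu : ∀ J, UC.TT (u J)) (h : Slv V η G u) :
    |dfF V u G - vr V G| ≤ Real.sqrt (η * vr V G) := by
  have hV := hs.cont
  set e : T → ℝ := fun J =>
    UC.Ex V (fun x => (UC.LL V (u J) x + (G J x - UC.Ex V (G J))) ^ 2) with he
  have he0 : ∀ J, 0 ≤ e J := fun J => UC.Ex_nonneg fun x => sq_nonneg _
  have hX0 : ∀ J, 0 ≤ VarE V (G J) := fun J => hs.VarE_nonneg (SqV.of_TT hV (hG J))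
  have hterm : ∀ J, |UC.Df V (u J) (G J) - VarE V (G J)| ≤
      Real.sqrt (e J) * Real.sqrt (VarE V (G J)) := by
    intro J
    have sg : SqV V (G J) := SqV.of_TT hV (hG J)
    have sG : SqV V (fun x => G J x - UC.Ex V (G J)) := sg.sub hV (hs.const _)
    have sL : SqV V (UC.LL V (u J)) := hs.LL_sq (hu J)
    have sE : SqV V (fun x => UC.LL V (u J) x + (G J x - UC.Ex V (G J))) := sL.add hV sG
    have hcs := sE.cs hV sG
    rw [hs.VarE_eq sg] at hcs
    have hg : UC.Ex V (fun x => UC.LL V (u J) x * G J x) = - UC.Df V (u J) (G J) :=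
      UC.green hs.cd1 (hu J) (hG J)
    have h0 : UC.Ex V (UC.LL V (u J)) = 0 := UC.Ex_LL hs.cd1 (hu J)
    have h1 : UC.Ex V (fun x => (UC.LL V (u J) x + (G J x - UC.Ex V (G J))) *
        (G J x - UC.Ex V (G J))) = - UC.Df V (u J) (G J) + VarE V (G J) := by
      have e1 : (fun x => (UC.LL V (u J) x + (G J x - UC.Ex V (G J))) *
          (G J x - UC.Ex V (G J))) = fun x => UC.LL V (u J) x * (G J x - UC.Ex V (G J)) +
            (G J x - UC.Ex V (G J)) ^ 2 := by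
        funext x; ring
      rw [e1, UC.Ex_add (sL.mul_int hV sG) sG.2, hs.VarE_eq sg,
        hs.Ex_mul_sub sL sg (hs.const _), hs.Ex_mul_const, h0, hg]
      ring
    rw [h1] at hcs
    have h2 : |UC.Df V (u J) (G J) - VarE V (G J)| =
        |- UC.Df V (u J) (G J) + VarE V (G J)| := by
      rw [← abs_neg]
      congr 1
      ring
    rw [h2]
    exact hcs
  have hsum : |dfF V u G - vr V G| ≤ ∑ J, (Real.sqrt (e J) * Real.sqrt (VarE V (G J))) := by
    unfold dfF vr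
    rw [← Finset.sum_sub_distrib]
    exact (Finset.abs_sum_le_sum_abs _ _).trans (Finset.sum_le_sum fun J _ => hterm J)
  have h1 : ∑ J, (Real.sqrt (e J) * Real.sqrt (VarE V (G J))) ≤
      Real.sqrt (∑ J, e J) * Real.sqrt (vr V G) := by
    unfold vr
    exact Real.sum_sqrt_mul_sqrt_le Finset.univ (fun J => he0 J) (fun J => hX0 J)
  have h2 : ∑ J, e J ≤ η := h
  have h3 : Real.sqrt (∑ J, e J) * Real.sqrt (vr V G) ≤ Real.sqrt η * Real.sqrt (vr V G) :=
    mul_le_mul_of_nonneg_right (Real.sqrt_le_sqrt h2) (Real.sqrt_nonneg _)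
  rw [Real.sqrt_mul hη]
  exact hsum.trans (h1.trans h3)

theorem dfF_cs (hs : SP V κ Λ c0) {G u : T → Eu n → ℝ} (hG : ∀ J, UC.TT (G J))
    (hu : ∀ J, UC.TT (u J)) : dfF V u G ^ 2 ≤ dfF V u u * dfF V G G := by
  have hterm : ∀ J, |UC.Df V (u J) (G J)| ≤
      Real.sqrt (UC.Df V (u J) (u J)) * Real.sqrt (UC.Df V (G J) (G J)) := by
    intro J
    rw [← Real.sqrt_mul (UC.Df_nonneg V (u J))]
    exact Real.abs_le_sqrt (hs.Df_cs (hu J) (hG J))
  have h1 : |dfF V u G| ≤ Real.sqrt (dfF V u u) * Real.sqrt (dfF V G G) := by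
    unfold dfF
    refine (Finset.abs_sum_le_sum_abs _ _).trans ((Finset.sum_le_sum fun J _ => hterm J).trans ?_)
    exact Real.sum_sqrt_mul_sqrt_le Finset.univ (fun J => UC.Df_nonneg V (u J))
      (fun J => UC.Df_nonneg V (G J))
  have hu0 : 0 ≤ dfF V u u := Finset.sum_nonneg fun J _ => UC.Df_nonneg V (u J)
  have hG0 : 0 ≤ dfF V G G := Finset.sum_nonneg fun J _ => UC.Df_nonneg V (G J)
  calc dfF V u G ^ 2 = |dfF V u G| ^ 2 := (sq_abs _).symm
    _ ≤ (Real.sqrt (dfF V u u) * Real.sqrt (dfF V G G)) ^ 2 :=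
        pow_le_pow_left₀ (abs_nonneg _) h1 2
    _ = dfF V u u * dfF V G G := by rw [mul_pow, Real.sq_sqrt hu0, Real.sq_sqrt hG0]

/-- the variance and the second moment -/
theorem vr_eq (hs : SP V κ Λ c0) {G : T → Eu n → ℝ} (hG : ∀ J, UC.TT (G J)) :
    vr V G = e2 V G - ∑ J, UC.Ex V (G J) ^ 2 := by
  unfold vr e2 VarE
  rw [Finset.sum_sub_distrib]

end Pool.Agent.Lib.MP_6d896a_gt.FK
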