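import Mathlib
import Pool.Agent.Lib.MP_6d896a_gt.FK.PolyInt

/-!
Project FK, piece B6: moments of the families of a tower with an Appell family.
-/

set_option autoImplicit false

namespace Pool.Agent.Lib.MP_6d896a_gt.FK

open MeasureTheory Filter Topology Set
open Pool.Agent.Lib.MP_6d896a_gt.LG
open scoped ENNReal NNReal ContDiff

variable {n : ℕ} {V : Eu n → ℝ} {κ Λ c0 lam η : ℝ} {p : (m : ℕ) → (Fin m → Fin n) → Eu n → ℝ}

private lemma twApp_cd1 {f : Eu n → ℝ} (hf : UC.TT f) : ContDiff ℝ 1 f :=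
  hf.cd.of_le (by exact_mod_cast le_top)

private lemma twApp_green {f g : Eu n → ℝ} (hV : ContDiff ℝ 1 V) (hf : ContDiff ℝ 1 f)
    (hg : UC.TT g) :
    UC.Ex V (fun x => f x * UC.LL V g x) =
      - ∑ j, UC.Ex V (fun x => UC.pd j f x * UC.pd j g x) := by
  have hc : ∀ j, Continuous (UC.pd j V) := fun j =>
    (hV.continuous_fderiv (by simp)).clm_apply continuous_const
  have h1 : ∀ j, UC.Ex V (fun x => UC.pd j f x * UC.pd j g x) =
      - UC.Ex V (fun x => f x * (UC.pd j (UC.pd j g) x - UC.pd j V x * UC.pd j g x)) := fun j =>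
    UC.ibp hV hf (twApp_cd1 (hg.pd j)) (hg.pd j).cs j
  have hi : ∀ j ∈ (Finset.univ : Finset (Fin n)), Integrable (fun x =>
      (f x * (UC.pd j (UC.pd j g) x - UC.pd j V x * UC.pd j g x)) * Real.exp (-V x)) := by
    intro j _
    refine UC.int_cs hV.continuous (hf.continuous.mul
      (((hg.pd j).pd j).continuous.sub ((hc j).mul (hg.pd j).continuous))) ?_
    exact (((hg.pd j).pd j).cs.sub (hg.pd j).cs.mul_left).mul_left
  have h2 := UC.Ex_sum (V := V) Finset.univ hi
  have e : (fun x => f x * UC.LL V g x) = fun x =>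
      ∑ j, f x * (UC.pd j (UC.pd j g) x - UC.pd j V x * UC.pd j g x) := by
    funext x
    rw [← Finset.mul_sum, Finset.sum_sub_distrib]
    rfl
  rw [e, h2, ← Finset.sum_neg_distrib]
  refine Finset.sum_congr rfl fun j _ => ?_
  rw [h1 j, neg_neg]

/-- integration by parts against Appell polynomials -/
theorem app_ibp (hs : SP V κ Λ c0) (hp : App V p) {u : Eu n → ℝ} (hu : UC.TT u) (b : ℕ)
    (I : Fin (b + 1) → Fin n) :
    UC.Ex V (fun x => UC.LL V u x * p (b + 1) I x) =
      - ∑ r : Fin (b + 1), UC.Ex V (fun x => UC.pd (I r) u x * p b (fun s => I (r.succAbove s)) x) := by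
  have hc1 : ContDiff ℝ 1 (p (b + 1) I) := (hp.cd (b + 1) I).of_le (by exact_mod_cast le_top)
  have h1 := twApp_green hs.cd1 hc1 hu
  have e1 : (fun x => UC.LL V u x * p (b + 1) I x) = fun x => p (b + 1) I x * UC.LL V u x := by
    funext x
    ring
  rw [e1, h1]
  congr 1
  have h2 : ∀ j : Fin n, UC.Ex V (fun x => UC.pd j (p (b + 1) I) x * UC.pd j u x) =
      ∑ r : Fin (b + 1), (if I r = j then
        UC.Ex V (fun x => UC.pd (I r) u x * p b (fun s => I (r.succAbove s)) x) else 0) := by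
    intro j
    have e2 : (fun x => UC.pd j (p (b + 1) I) x * UC.pd j u x) = fun x =>
        ∑ r : Fin (b + 1), (if I r = j then p b (fun s => I (r.succAbove s)) x else 0) *
          UC.pd j u x := by
      funext x
      rw [hp.der, Finset.sum_mul]
    have hi : ∀ r ∈ (Finset.univ : Finset (Fin (b + 1))), Integrable (fun x =>
        ((if I r = j then p b (fun s => I (r.succAbove s)) x else 0) * UC.pd j u x) *
          Real.exp (-V x)) := by
      intro r _
      refine UC.int_cs hs.cont ?_ (hu.pd j).cs.mul_left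
      refine Continuous.mul ?_ (hu.pd j).continuous
      split_ifs
      · exact (hp.cd b _).continuous
      · exact continuous_const
    rw [e2, UC.Ex_sum (V := V) Finset.univ hi]
    refine Finset.sum_congr rfl fun r _ => ?_
    by_cases hr : I r = j
    · subst hr
      simp only [if_true]
      congr 1
      funext x
      ring
    · simp only [hr, if_false]
      have e3 : (fun x => (0 : ℝ) * UC.pd j u x) = fun x => (0 : ℝ) * (0 : ℝ) := by
        funext x
        ring
      rw [e3, UC.Ex_const_mul, zero_mul]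
  simp_rw [h2]
  rw [Finset.sum_comm]
  refine Finset.sum_congr rfl fun r _ => ?_
  rw [Finset.sum_ite_eq]
  simp

theorem cA_rec (hs : SP V κ Λ c0) (hp : App V p) (hl : 0 < lam)
    {G u : (k : ℕ) → (Fin k → Fin n) → Eu n → ℝ} (h : Tw V lam η G u) (k b : ℕ)
    (J : Fin k → Fin n) (I : Fin (b + 1) → Fin n) :
    |∑ r : Fin (b + 1), cA V p G (k + 1) b (Fin.snoc (α := fun _ => Fin n) J (I r))
        (fun s => I (r.succAbove s)) - Real.sqrt lam * cA V p G k (b + 1) J I| ≤
      Real.sqrt lam * (Real.sqrt η * Real.sqrt (UC.Ex V (fun x => p (b + 1) I x ^ 2))) := by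
  have hsq : SqV V (p (b + 1) I) := App.sqV hs hp (b + 1) I
  have hG : SqV V (G k J) := SqV.of_TT hs.cont (h.ttG k J)
  have hL : SqV V (UC.LL V (u k J)) := hs.LL_sq (h.ttu k J)
  have hcm : SqV V (fun x => G k J x - UC.Ex V (G k J)) := hG.sub hs.cont (hs.const _)
  have hsum : SqV V (fun x => UC.LL V (u k J) x + (G k J x - UC.Ex V (G k J))) :=
    hL.add hs.cont hcm
  -- the terms of the sum
  have e1 : ∀ r : Fin (b + 1), cA V p G (k + 1) b (Fin.snoc (α := fun _ => Fin n) J (I r))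
      (fun s => I (r.succAbove s)) = Real.sqrt lam *
        UC.Ex V (fun x => UC.pd (I r) (u k J) x * p b (fun s => I (r.succAbove s)) x) := by
    intro r
    unfold cA
    rw [← UC.Ex_const_mul]
    congr 1
    funext x
    rw [h.nx k]
    unfold nxt
    simp only [Fin.snoc_last, Fin.snoc_castSucc]
    ring
  have e2 : ∑ r : Fin (b + 1), cA V p G (k + 1) b (Fin.snoc (α := fun _ => Fin n) J (I r))
      (fun s => I (r.succAbove s)) =
      - (Real.sqrt lam * UC.Ex V (fun x => UC.LL V (u k J) x * p (b + 1) I x)) := by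
    rw [app_ibp hs hp (h.ttu k J) b I]
    simp_rw [e1]
    rw [← Finset.mul_sum]
    ring
  have e3 : UC.Ex V (fun x => (UC.LL V (u k J) x + (G k J x - UC.Ex V (G k J))) *
      p (b + 1) I x) = UC.Ex V (fun x => UC.LL V (u k J) x * p (b + 1) I x) +
        UC.Ex V (fun x => G k J x * p (b + 1) I x) := by
    have f1 : (fun x => (UC.LL V (u k J) x + (G k J x - UC.Ex V (G k J))) * p (b + 1) I x) =
        fun x => p (b + 1) I x * (UC.LL V (u k J) x + (G k J x - UC.Ex V (G k J))) := by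
      funext x
      ring
    rw [f1, hs.Ex_mul_add hsq hL hcm, hs.Ex_mul_sub hsq hG (hs.const _), hs.Ex_mul_const,
      hp.mean, mul_zero, sub_zero]
    congr 1
    · congr 1
      funext x
      ring
    · congr 1
      funext x
      ring
  have e4 : ∑ r : Fin (b + 1), cA V p G (k + 1) b (Fin.snoc (α := fun _ => Fin n) J (I r))
      (fun s => I (r.succAbove s)) - Real.sqrt lam * cA V p G k (b + 1) J I =
      - (Real.sqrt lam * UC.Ex V (fun x => (UC.LL V (u k J) x +
        (G k J x - UC.Ex V (G k J))) * p (b + 1) I x)) := by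
    rw [e2, e3]
    unfold cA
    ring
  rw [e4, abs_neg, abs_mul, abs_of_nonneg (Real.sqrt_nonneg _)]
  refine mul_le_mul_of_nonneg_left ?_ (Real.sqrt_nonneg _)
  refine (hsum.cs hs.cont hsq).trans ?_
  refine mul_le_mul_of_nonneg_right ?_ (Real.sqrt_nonneg _)
  refine Real.sqrt_le_sqrt ?_
  refine le_trans ?_ (h.err k)
  exact Finset.single_le_sum (f := fun J => UC.Ex V (fun x => (UC.LL V (u k J) x +
    (G k J x - UC.Ex V (G k J))) ^ 2)) (fun J _ => UC.Ex_nonneg fun x => sq_nonneg _)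
    (Finset.mem_univ J)

theorem cA_abs (hs : SP V κ Λ c0) (hp : App V p)
    {G : (k : ℕ) → (Fin k → Fin n) → Eu n → ℝ} (hG : ∀ k J, UC.TT (G k J)) (k b : ℕ)
    (J : Fin k → Fin n) (I : Fin b → Fin n) :
    |cA V p G k b J I| ≤ Real.sqrt (e2 V (G k)) * Real.sqrt (UC.Ex V (fun x => p b I x ^ 2)) := by
  refine ((SqV.of_TT hs.cont (hG k J)).cs hs.cont (App.sqV hs hp b I)).trans ?_
  refine mul_le_mul_of_nonneg_right ?_ (Real.sqrt_nonneg _)
  refine Real.sqrt_le_sqrt ?_
  exact Finset.single_le_sum (f := fun J => UC.Ex V (fun x => G k J x ^ 2))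
    (fun J _ => UC.Ex_nonneg fun x => sq_nonneg _) (Finset.mem_univ J)

/-- the higher order thin shell inequality for families -/
theorem cA_s1 {S : ℝ} {b : ℕ}
    (hS : ∀ ψ : Eu n → ℝ, UC.TT ψ →
      ∑ I : Fin (b + 1) → Fin n, UC.Ex V (fun x => ψ x * p (b + 1) I x) ^ 2 ≤ S * VarE V ψ)
    {G : (k : ℕ) → (Fin k → Fin n) → Eu n → ℝ} (hG : ∀ k J, UC.TT (G k J)) (k : ℕ) :
    ∑ J, ∑ I, cA V p G k (b + 1) J I ^ 2 ≤ S * vr V (G k) := by
  unfold vr
  rw [Finset.mul_sum]
  exact Finset.sum_le_sum fun J _ => hS (G k J) (hG k J)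

theorem cA_s2 (hs : SP V κ Λ c0) (hp : App V p) {S : ℝ} (hS0 : 0 ≤ S) {b : ℕ}
    (hS : ∀ ψ : Eu n → ℝ, UC.TT ψ →
      ∑ I : Fin (b + 1) → Fin n, UC.Ex V (fun x => ψ x * p (b + 1) I x) ^ 2 ≤ S * VarE V ψ)
    {G : (k : ℕ) → (Fin k → Fin n) → Eu n → ℝ} (hG : ∀ k J, UC.TT (G k J)) (k : ℕ)
    (i j : Fin k) :
    ∑ J, ∑ I, (cA V p G k (b + 1) J I - cA V p G k (b + 1) (fun s => J (Equiv.swap i j s)) I) ^ 2 ≤
      S * e2 V (cmF i j (G k)) := by
  unfold e2
  rw [Finset.mul_sum]
  refine Finset.sum_le_sum fun J _ => ?_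
  have hT : UC.TT (cmF i j (G k) J) := (hG k J).sub (hG k _)
  have h1 : ∀ I : Fin (b + 1) → Fin n, cA V p G k (b + 1) J I -
      cA V p G k (b + 1) (fun s => J (Equiv.swap i j s)) I =
        UC.Ex V (fun x => cmF i j (G k) J x * p (b + 1) I x) := by
    intro I
    have hsq : SqV V (p (b + 1) I) := App.sqV hs hp (b + 1) I
    unfold cA
    rw [← UC.Ex_sub ((SqV.of_TT hs.cont (hG k J)).mul_int hs.cont hsq)
      ((SqV.of_TT hs.cont (hG k _)).mul_int hs.cont hsq)]
    congr 1
    funext x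
    unfold cmF
    ring
  simp_rw [h1]
  exact (hS _ hT).trans (mul_le_mul_of_nonneg_left (hs.VarE_le _) hS0)

end Pool.Agent.Lib.MP_6d896a_gt.FK
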