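import Mathlib
import Pool.Agent.Lib.MP_6d896a_gt.FK.DefB
import Pool.Agent.Lib.MP_6d896a_gt.LG.PA1

/-!
Project FK, piece B4: the next family of a tower; Bochner's inequality.
-/

set_option autoImplicit false

namespace Pool.Agent.Lib.MP_6d896a_gt.FK

open MeasureTheory Filter Topology Set
open Pool.Agent.Lib.MP_6d896a_gt.LG
open scoped ENNReal NNReal ContDiff

variable {n : ℕ} {V : Eu n → ℝ} {κ Λ c0 lam η : ℝ}

/-- the sum over the indices of the next family -/
private theorem sum_snocB {k : ℕ} (F : Fin n → (Fin k → Fin n) → ℝ) :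
    ∑ J : Fin (k + 1) → Fin n, F (J (Fin.last k)) (fun s => J s.castSucc) =
      ∑ J : Fin k → Fin n, ∑ j, F j J := by
  rw [← (Fin.snocEquiv (fun _ : Fin (k + 1) => Fin n)).sum_comp, Fintype.sum_prod_type,
    Finset.sum_comm]
  refine Finset.sum_congr rfl fun J _ => Finset.sum_congr rfl fun j _ => ?_
  simp [Fin.snocEquiv]

theorem e2_nxt (hl : 0 < lam) {k : ℕ} {u : (Fin k → Fin n) → Eu n → ℝ} :
    e2 V (nxt lam u) = lam * dfF V u u := by
  unfold e2 nxt dfF UC.Df
  rw [sum_snocB (fun j J => UC.Ex V fun x => (Real.sqrt lam * UC.pd j (u J) x) ^ 2),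
    Finset.mul_sum]
  refine Finset.sum_congr rfl fun J _ => ?_
  rw [Finset.mul_sum]
  refine Finset.sum_congr rfl fun j _ => ?_
  rw [← UC.Ex_const_mul]
  congr 1
  funext x
  rw [mul_pow, Real.sq_sqrt hl.le]
  ring

theorem df_nxt (hs : SP V κ Λ c0) (hl : 0 < lam) {k : ℕ} {u : (Fin k → Fin n) → Eu n → ℝ}
    (hu : ∀ J, UC.TT (u J)) :
    dfF V (nxt lam u) (nxt lam u) ≤ lam * w2 V u - κ * e2 V (nxt lam u) := by
  have h1 : dfF V (nxt lam u) (nxt lam u) =
      ∑ J : Fin k → Fin n, ∑ j, lam * UC.Df V (UC.pd j (u J)) (UC.pd j (u J)) := by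
    unfold dfF
    rw [← sum_snocB (fun j J => lam * UC.Df V (UC.pd j (u J)) (UC.pd j (u J)))]
    refine Finset.sum_congr rfl fun J _ => ?_
    have hd : Differentiable ℝ (UC.pd (J (Fin.last k)) (u fun s => J s.castSucc)) :=
      ((hu _).pd _).differentiable
    show UC.Df V (fun x => Real.sqrt lam * UC.pd (J (Fin.last k)) (u fun s => J s.castSucc) x)
      (fun x => Real.sqrt lam * UC.pd (J (Fin.last k)) (u fun s => J s.castSucc) x) = _
    rw [UC.Df_const_mul_left V hd, UC.Df_const_mul_right V hd, ← mul_assoc,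
      Real.mul_self_sqrt hl.le]
  rw [h1, e2_nxt hl]
  unfold w2 dfF
  rw [Finset.mul_sum, Finset.mul_sum, Finset.mul_sum, ← Finset.sum_sub_distrib]
  refine Finset.sum_le_sum fun J _ => ?_
  rw [← Finset.mul_sum]
  have h2 := hs.bochner (hu J)
  have h3 := mul_le_mul_of_nonneg_left h2 hl.le
  linarith [h3]

end Pool.Agent.Lib.MP_6d896a_gt.FK
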