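import Mathlib
import Pool.Agent.Lib.MP_6d896a_gt.FK.DefB
import Pool.Agent.Lib.MP_6d896a_gt.LG.PA1

/-!
Project FK, piece B2: existence of approximate towers.
-/

set_option autoImplicit false

namespace Pool.Agent.Lib.MP_6d896a_gt.FK

open MeasureTheory Filter Topology Set
open Pool.Agent.Lib.MP_6d896a_gt.LG
open scoped ENNReal NNReal ContDiff

variable {n : ℕ} {V : Eu n → ℝ} {κ Λ c0 lam η : ℝ}

theorem slv_ex {T : Type} [Fintype T] (hs : SP V κ Λ c0) {G : T → Eu n → ℝ}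
    (hG : ∀ J, UC.TT (G J)) (hη : 0 < η) : ∃ u : T → Eu n → ℝ, (∀ J, UC.TT (u J)) ∧ Slv V η G u := by
  have hc : (0 : ℝ) < (Fintype.card T : ℝ) + 1 := by positivity
  have h : ∀ J, ∃ u : Eu n → ℝ, UC.TT u ∧
      UC.Ex V (fun x => (UC.LL V u x + (G J x - UC.Ex V (G J))) ^ 2) ≤
        η / ((Fintype.card T : ℝ) + 1) := fun J => hs.dense (hG J) (by positivity)
  choose u hu hres using h
  refine ⟨u, hu, ?_⟩
  unfold Slv
  refine (Finset.sum_le_sum fun J _ => hres J).trans ?_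
  rw [Finset.sum_const, Finset.card_univ, nsmul_eq_mul, mul_div_assoc', div_le_iff₀ hc]
  nlinarith

theorem nxt_tt {k : ℕ} {u : (Fin k → Fin n) → Eu n → ℝ} (hu : ∀ J, UC.TT (u J)) :
    ∀ J, UC.TT (nxt lam u J) := by
  intro J
  unfold nxt
  exact ((hu _).pd _).const_mul _

theorem cmF_tt {k : ℕ} (i j : Fin k) {u : (Fin k → Fin n) → Eu n → ℝ} (hu : ∀ J, UC.TT (u J)) :
    ∀ J, UC.TT (cmF i j u J) := by
  intro J
  unfold cmF
  exact (hu _).sub (hu _)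

theorem tower_ex (hs : SP V κ Λ c0) (hη : 0 < η) {f : Eu n → ℝ} (hf : UC.TT f) :
    ∃ G u : (k : ℕ) → (Fin k → Fin n) → Eu n → ℝ, Tw V lam η G u ∧ G 0 = fun _ => f := by
  classical
  have hst : ∀ (k : ℕ) (G : {G : (Fin k → Fin n) → Eu n → ℝ // ∀ J, UC.TT (G J)}),
      ∃ u : (Fin k → Fin n) → Eu n → ℝ, (∀ J, UC.TT (u J)) ∧ Slv V η G.1 u :=
    fun k G => slv_ex hs G.2 hη
  choose S hS1 hS2 using hst
  let GG : (k : ℕ) → {G : (Fin k → Fin n) → Eu n → ℝ // ∀ J, UC.TT (G J)} := fun k =>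
    Nat.rec (motive := fun k => {G : (Fin k → Fin n) → Eu n → ℝ // ∀ J, UC.TT (G J)})
      ⟨fun _ => f, fun _ => hf⟩ (fun k G => ⟨nxt lam (S k G), nxt_tt (hS1 k G)⟩) k
  refine ⟨fun k => (GG k).1, fun k => S k (GG k), ⟨fun k => (GG k).2, fun k => hS1 k (GG k),
    fun k => hS2 k (GG k), fun k => rfl⟩, rfl⟩

end Pool.Agent.Lib.MP_6d896a_gt.FK
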