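import Mathlib
import Pool.Agent.Lib.MP_6d896a_gt.FK.DefB
import Pool.Agent.Lib.MP_6d896a_gt.LG.PA1

/-!
Project FK, piece B5: commutators of the families of a tower with transpositions.
-/

set_option autoImplicit false

namespace Pool.Agent.Lib.MP_6d896a_gt.FK

open MeasureTheory Filter Topology Set
open Pool.Agent.Lib.MP_6d896a_gt.LG
open scoped ENNReal NNReal ContDiff

variable {n : ℕ} {V : Eu n → ℝ} {κ Λ c0 lam η : ℝ}

/-! ### elementary facts -/

private lemma sw_LL_sub (V : Eu n → ℝ) {u v : Eu n → ℝ} (hu : UC.TT u) (hv : UC.TT v) (x : Eu n) :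
    UC.LL V (fun x => u x - v x) x = UC.LL V u x - UC.LL V v x := by
  have e : ∀ j, UC.pd j (fun x => u x - v x) = fun x => UC.pd j u x - UC.pd j v x := fun j =>
    funext fun x => UC.pd_sub hu.differentiable hv.differentiable j x
  unfold UC.LL
  simp only [e]
  have e2 : ∀ j, UC.pd j (fun x => UC.pd j u x - UC.pd j v x) x =
      UC.pd j (UC.pd j u) x - UC.pd j (UC.pd j v) x := fun j =>
    UC.pd_sub (hu.pd j).differentiable (hv.pd j).differentiable j x
  simp only [e2]
  rw [Finset.sum_sub_distrib]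
  have e3 : ∀ j, UC.pd j V x * (UC.pd j u x - UC.pd j v x) =
      UC.pd j V x * UC.pd j u x - UC.pd j V x * UC.pd j v x := fun j => by ring
  simp only [e3]
  rw [Finset.sum_sub_distrib]
  ring

/-- composition with a permutation of the positions as a bijection of the index set -/
private def swE {k : ℕ} (n : ℕ) (i j : Fin k) : (Fin k → Fin n) ≃ (Fin k → Fin n) where
  toFun J := fun s => J (Equiv.swap i j s)
  invFun J := fun s => J (Equiv.swap i j s)
  left_inv J := by funext s; simp
  right_inv J := by funext s; simp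

private lemma sw_sum {k : ℕ} (i j : Fin k) (F : (Fin k → Fin n) → ℝ) :
    ∑ J : Fin k → Fin n, F (fun s => J (Equiv.swap i j s)) = ∑ J, F J :=
  Equiv.sum_comp (swE n i j) F

/-- the square of a difference -/
private lemma sw_sq (hs : SP V κ Λ c0) {f g : Eu n → ℝ} (hf : SqV V f) (hg : SqV V g) :
    UC.Ex V (fun x => (f x - g x) ^ 2) ≤
      2 * UC.Ex V (fun x => f x ^ 2) + 2 * UC.Ex V (fun x => g x ^ 2) := by
  have h1 : Integrable (fun x => (2 * f x ^ 2) * Real.exp (-V x)) := by
    have := hf.2.const_mul 2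
    simpa only [mul_assoc] using this
  have h2 : Integrable (fun x => (2 * g x ^ 2) * Real.exp (-V x)) := by
    have := hg.2.const_mul 2
    simpa only [mul_assoc] using this
  have h3 : Integrable (fun x => (2 * f x ^ 2 + 2 * g x ^ 2) * Real.exp (-V x)) := by
    refine (h1.add h2).congr (Filter.Eventually.of_forall fun x => ?_)
    simp only [Pi.add_apply]; ring
  calc UC.Ex V (fun x => (f x - g x) ^ 2)
      ≤ UC.Ex V (fun x => 2 * f x ^ 2 + 2 * g x ^ 2) :=
        UC.Ex_mono (hf.sub hs.cont hg).2 h3 fun x => by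
          nlinarith [sq_nonneg (f x + g x)]
    _ = 2 * UC.Ex V (fun x => f x ^ 2) + 2 * UC.Ex V (fun x => g x ^ 2) := by
        rw [UC.Ex_add h1 h2, UC.Ex_const_mul, UC.Ex_const_mul]

private lemma sw_fam (hs : SP V κ Λ c0) {k : ℕ} (i j : Fin k)
    {a : (Fin k → Fin n) → Eu n → ℝ} (ha : ∀ J, SqV V (a J)) :
    ∑ J, UC.Ex V (fun x => (a J x - a (fun s => J (Equiv.swap i j s)) x) ^ 2) ≤
      4 * ∑ J, UC.Ex V (fun x => a J x ^ 2) := by
  calc ∑ J, UC.Ex V (fun x => (a J x - a (fun s => J (Equiv.swap i j s)) x) ^ 2)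
      ≤ ∑ J, (2 * UC.Ex V (fun x => a J x ^ 2) +
          2 * UC.Ex V (fun x => a (fun s => J (Equiv.swap i j s)) x ^ 2)) :=
        Finset.sum_le_sum fun J _ => sw_sq hs (ha J) (ha _)
    _ = 2 * ∑ J, UC.Ex V (fun x => a J x ^ 2) +
          2 * ∑ J : Fin k → Fin n, UC.Ex V (fun x => a (fun s => J (Equiv.swap i j s)) x ^ 2) := by
        rw [Finset.sum_add_distrib, Finset.mul_sum, Finset.mul_sum]
    _ = 4 * ∑ J, UC.Ex V (fun x => a J x ^ 2) := by
        rw [sw_sum i j (fun J => UC.Ex V (fun x => a J x ^ 2))]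
        ring

private lemma sw_e2_nxt (hl : 0 < lam) {k : ℕ} {u : (Fin k → Fin n) → Eu n → ℝ} :
    e2 V (nxt lam u) = lam * dfF V u u := by
  have h1 : ∀ J : Fin (k + 1) → Fin n, UC.Ex V (fun x => nxt lam u J x ^ 2) =
      lam * UC.Ex V (fun x => UC.pd (J (Fin.last k)) (u fun s => J s.castSucc) x ^ 2) := by
    intro J
    rw [← UC.Ex_const_mul]
    congr 1
    funext x
    unfold nxt
    rw [mul_pow, Real.sq_sqrt hl.le]
  unfold e2 dfF
  simp only [h1]
  rw [← Finset.mul_sum]
  congr 1
  rw [← Equiv.sum_comp (Fin.snocEquiv fun _ => Fin n)]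
  rw [Fintype.sum_prod_type, Finset.sum_comm]
  refine Finset.sum_congr rfl fun J _ => ?_
  unfold UC.Df
  refine Finset.sum_congr rfl fun i _ => ?_
  congr 1
  funext x
  simp only [Fin.snocEquiv_apply, Fin.snoc_last, Fin.snoc_castSucc]
  ring

/-! ### the statements -/

theorem cmF_nxt {k : ℕ} (i j : Fin k) {u : (Fin k → Fin n) → Eu n → ℝ}
    (hu : ∀ J, UC.TT (u J)) :
    cmF i.castSucc j.castSucc (nxt lam u) = nxt lam (cmF i j u) := by
  have hsw : ∀ s : Fin k, Equiv.swap i.castSucc j.castSucc s.castSucc =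
      (Equiv.swap i j s).castSucc := by
    intro s
    exact ((Fin.castSucc_injective k).map_swap i j s).symm
  have hl : Equiv.swap i.castSucc j.castSucc (Fin.last k) = Fin.last k :=
    Equiv.swap_apply_of_ne_of_ne (Fin.castSucc_lt_last i).ne' (Fin.castSucc_lt_last j).ne'
  funext J x
  have e1 : nxt lam (cmF i j u) J x = Real.sqrt lam * UC.pd (J (Fin.last k))
      (fun x => u (fun s => J s.castSucc) x - u (fun s => J (Equiv.swap i j s).castSucc) x) x :=
    rfl
  rw [e1, UC.pd_sub (hu _).differentiable (hu _).differentiable]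
  simp only [cmF, nxt, hsw, hl]
  ring

theorem slv_cmF (hs : SP V κ Λ c0) {k : ℕ} (i j : Fin k) {G u : (Fin k → Fin n) → Eu n → ℝ}
    (hG : ∀ J, UC.TT (G J)) (hu : ∀ J, UC.TT (u J)) (h : Slv V η G u) :
    Slv V (4 * η) (cmF i j G) (cmF i j u) := by
  unfold Slv at h ⊢
  set a : (Fin k → Fin n) → Eu n → ℝ := fun J x =>
    UC.LL V (u J) x + (G J x - UC.Ex V (G J)) with ha
  have hsq : ∀ J, SqV V (a J) := fun J =>
    (hs.LL_sq (hu J)).add hs.cont ((SqV.of_TT hs.cont (hG J)).sub hs.cont (hs.const _))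
  have h1 : ∀ J : Fin k → Fin n, (fun x => (UC.LL V (cmF i j u J) x +
      (cmF i j G J x - UC.Ex V (cmF i j G J))) ^ 2) =
      fun x => (a J x - a (fun s => J (Equiv.swap i j s)) x) ^ 2 := by
    intro J
    funext x
    have e1 : UC.LL V (cmF i j u J) x = UC.LL V (u J) x -
        UC.LL V (u (fun s => J (Equiv.swap i j s))) x := sw_LL_sub V (hu _) (hu _) x
    have e2 : UC.Ex V (cmF i j G J) = UC.Ex V (G J) -
        UC.Ex V (G (fun s => J (Equiv.swap i j s))) :=
      UC.Ex_sub ((hG _).int hs.cont) ((hG _).int hs.cont)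
    rw [e1, e2]
    simp only [cmF, ha]
    ring
  simp only [h1]
  calc _ ≤ 4 * ∑ J, UC.Ex V (fun x => a J x ^ 2) := sw_fam hs i j hsq
    _ ≤ 4 * η := by linarith

theorem e2_cmF (hs : SP V κ Λ c0) {k : ℕ} (i j : Fin k) {G : (Fin k → Fin n) → Eu n → ℝ}
    (hG : ∀ J, UC.TT (G J)) : e2 V (cmF i j G) ≤ 4 * e2 V G :=
  sw_fam hs i j fun J => SqV.of_TT hs.cont (hG J)

/-- the last two indices: `v` is the solution of the previous level, `G = nxt lam v` -/
theorem swap_top (hs : SP V κ Λ c0) (hl : 0 < lam) {k : ℕ} {v : (Fin k → Fin n) → Eu n → ℝ}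
    {u : (Fin (k + 1) → Fin n) → Eu n → ℝ} (hv : ∀ J, UC.TT (v J)) (hu : ∀ J, UC.TT (u J))
    (c : ℝ) :
    e2 V (cmF (Fin.last k).castSucc (Fin.last (k + 1)) (nxt lam u)) ≤
      4 * lam * (dfF V u u - 2 * c * dfF V u (nxt lam v) +
        c ^ 2 * dfF V (nxt lam v) (nxt lam v)) := by
  have hG : ∀ J, UC.TT (nxt lam v J) := fun J => ((hv _).pd _).const_mul _
  set h : (Fin (k + 1) → Fin n) → Eu n → ℝ := fun J x => u J x - c * nxt lam v J x with hh
  have hhT : ∀ J, UC.TT (h J) := fun J => (hu J).sub ((hG J).const_mul c)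
  have hnT : ∀ J, UC.TT (nxt lam h J) := fun J => ((hhT _).pd _).const_mul _
  -- the symmetric part
  have hsym : ∀ (J : Fin (k + 2) → Fin n) (x : Eu n),
      nxt lam (nxt lam v) J x = nxt lam (nxt lam v)
        (fun s => J (Equiv.swap (Fin.last k).castSucc (Fin.last (k + 1)) s)) x := by
    intro J x
    have hkey : ∀ J : Fin (k + 2) → Fin n, nxt lam (nxt lam v) J x =
        Real.sqrt lam * (Real.sqrt lam * UC.pd (J (Fin.last (k + 1)))
          (UC.pd (J (Fin.last k).castSucc) (v fun s => J s.castSucc.castSucc)) x) := by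
      intro J
      show Real.sqrt lam * UC.pd (J (Fin.last (k + 1)))
        (fun x => Real.sqrt lam * UC.pd (J (Fin.last k).castSucc)
          (v fun s => J s.castSucc.castSucc) x) x = _
      rw [UC.pd_const_mul ((hv _).pd _).differentiable]
    rw [hkey, hkey]
    have e1 : Equiv.swap (Fin.last k).castSucc (Fin.last (k + 1)) (Fin.last (k + 1)) =
        (Fin.last k).castSucc := Equiv.swap_apply_right _ _
    have e2 : Equiv.swap (Fin.last k).castSucc (Fin.last (k + 1)) (Fin.last k).castSucc =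
        Fin.last (k + 1) := Equiv.swap_apply_left _ _
    have e3 : ∀ s : Fin k, Equiv.swap (Fin.last k).castSucc (Fin.last (k + 1))
        s.castSucc.castSucc = s.castSucc.castSucc := by
      intro s
      refine Equiv.swap_apply_of_ne_of_ne ?_ (Fin.castSucc_lt_last _).ne
      intro hc
      exact (Fin.castSucc_lt_last s).ne (Fin.castSucc_injective _ hc)
    simp only [e1, e2, e3]
    rw [UC.pd_comm ((hv _).cd.of_le (by norm_cast))]
  have hdec : ∀ (J : Fin (k + 2) → Fin n) (x : Eu n),
      nxt lam u J x = nxt lam h J x + c * nxt lam (nxt lam v) J x := by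
    intro J x
    have e : u (fun s : Fin (k + 1) => J s.castSucc) = fun x => h (fun s => J s.castSucc) x +
        c * nxt lam v (fun s => J s.castSucc) x := by
      funext x; simp only [hh]; ring
    have e1 : nxt lam u J x = Real.sqrt lam * UC.pd (J (Fin.last (k + 1)))
        (u fun s : Fin (k + 1) => J s.castSucc) x := rfl
    have e2 : nxt lam h J x = Real.sqrt lam * UC.pd (J (Fin.last (k + 1)))
        (h fun s : Fin (k + 1) => J s.castSucc) x := rfl
    have e3 : nxt lam (nxt lam v) J x = Real.sqrt lam * UC.pd (J (Fin.last (k + 1)))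
        (nxt lam v fun s : Fin (k + 1) => J s.castSucc) x := rfl
    rw [e1, e2, e3, e]
    rw [UC.pd_add (hhT _).differentiable ((hG _).const_mul c).differentiable,
      UC.pd_const_mul (hG _).differentiable]
    ring_nf
  have hcm : cmF (Fin.last k).castSucc (Fin.last (k + 1)) (nxt lam u) =
      cmF (Fin.last k).castSucc (Fin.last (k + 1)) (nxt lam h) := by
    funext J x
    simp only [cmF]
    rw [hdec, hdec, ← hsym J x]
    ring
  rw [hcm]
  have hD : dfF V h h = dfF V u u - 2 * c * dfF V u (nxt lam v) +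
      c ^ 2 * dfF V (nxt lam v) (nxt lam v) := by
    unfold dfF
    rw [Finset.mul_sum, Finset.mul_sum, ← Finset.sum_sub_distrib, ← Finset.sum_add_distrib]
    refine Finset.sum_congr rfl fun J _ => ?_
    show UC.Df V (fun x => u J x - c * nxt lam v J x) (fun x => u J x - c * nxt lam v J x) = _
    rw [UC.Df_sub hs.cont (hu J) ((hG J).const_mul c),
      UC.Df_const_mul_right V (hG J).differentiable,
      UC.Df_const_mul_right V (hG J).differentiable,
      UC.Df_const_mul_left V (hG J).differentiable]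
    ring
  calc e2 V (cmF (Fin.last k).castSucc (Fin.last (k + 1)) (nxt lam h))
      ≤ 4 * e2 V (nxt lam h) := e2_cmF hs _ _ hnT
    _ = 4 * lam * dfF V h h := by rw [sw_e2_nxt hl]; ring
    _ = _ := by rw [hD]

end Pool.Agent.Lib.MP_6d896a_gt.FK
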