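import Mathlib
import Pool.Agent.Lib.MP_6d896a_gt.LG.Chain
import Pool.Agent.Lib.MP_6d896a_gt.FK.TwEx
import Pool.Agent.Lib.MP_6d896a_gt.FK.TwA
import Pool.Agent.Lib.MP_6d896a_gt.FK.TwB
import Pool.Agent.Lib.MP_6d896a_gt.FK.TwSw
import Pool.Agent.Lib.MP_6d896a_gt.FK.TwApp

/-!
Project FK, piece B7: the limit of the towers.
-/

set_option autoImplicit false

namespace Pool.Agent.Lib.MP_6d896a_gt.FK

open MeasureTheory Filter Topology Set
open Pool.Agent.Lib.MP_6d896a_gt.LG
open scoped ENNReal NNReal ContDiff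

variable {n : ℕ} {V : Eu n → ℝ} {κ Λ c0 lam η : ℝ} {p : (m : ℕ) → (Fin m → Fin n) → Eu n → ℝ}

private theorem lim_e2_nn {T : Type} [Fintype T] (V : Eu n → ℝ) (G : T → Eu n → ℝ) :
    0 ≤ e2 V G :=
  Finset.sum_nonneg fun _ _ => integral_nonneg fun x => by positivity

private theorem lim_vr_le (hs : SP V κ Λ c0) {T : Type} [Fintype T] {G : T → Eu n → ℝ}
    (hG : ∀ J, UC.TT (G J)) : vr V G ≤ e2 V G := by
  rw [vr_eq hs hG]
  have : 0 ≤ ∑ J, UC.Ex V (G J) ^ 2 := Finset.sum_nonneg fun _ _ => sq_nonneg _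
  linarith

private theorem lim_w2_step (hs : SP V κ Λ c0) (hη : 0 ≤ η) (hη1 : η ≤ 1) {T : Type} [Fintype T]
    {G u : T → Eu n → ℝ} (hG : ∀ J, UC.TT (G J)) (hu : ∀ J, UC.TT (u J)) (h : Slv V η G u)
    {a : ℝ} (ha : 0 ≤ a) (he : e2 V G ≤ a ^ 2) : w2 V u ≤ (a + 1) ^ 2 := by
  have h1 := slv_w2_le hs hη hG hu h
  have h2 : Real.sqrt (vr V G) ≤ a := by
    rw [Real.sqrt_le_left ha]
    exact (lim_vr_le hs hG).trans he
  have h3 : Real.sqrt η ≤ 1 := by
    rw [Real.sqrt_le_left zero_le_one]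
    simpa using hη1
  have h4 := Real.sqrt_nonneg (vr V G)
  have h5 := Real.sqrt_nonneg η
  refine h1.trans ?_
  apply pow_le_pow_left₀ (by positivity)
  linarith

/-- second moments along a tower -/
theorem e2_bd (hs : SP V κ Λ c0) (hl : 0 < lam) (hP : UC.UR.HP V (1 / lam)) (hη : 0 ≤ η)
    (hη1 : η ≤ 1) {G u : (k : ℕ) → (Fin k → Fin n) → Eu n → ℝ} (h : Tw V lam η G u) {f : Eu n → ℝ}
    (h0 : G 0 = fun _ => f) (k : ℕ) :
    e2 V (G k) ≤ (Real.sqrt (UC.Ex V (fun x => f x ^ 2)) + k) ^ 2 ∧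
      w2 V (u k) ≤ (Real.sqrt (UC.Ex V (fun x => f x ^ 2)) + k + 1) ^ 2 := by
  have hF : 0 ≤ Real.sqrt (UC.Ex V (fun x => f x ^ 2)) := Real.sqrt_nonneg _
  induction k with
  | zero =>
    have h1 : e2 V (G 0) ≤ (Real.sqrt (UC.Ex V (fun x => f x ^ 2)) + ((0 : ℕ) : ℝ)) ^ 2 := by
      have h2 : 0 ≤ UC.Ex V (fun x => f x ^ 2) := integral_nonneg fun x => by positivity
      rw [Nat.cast_zero, add_zero, Real.sq_sqrt h2]
      unfold e2
      rw [h0]
      simp
    exact ⟨h1, lim_w2_step hs hη hη1 (h.ttG 0) (h.ttu 0) (h.err 0) (by positivity) h1⟩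
  | succ k ih =>
    have h1 : e2 V (G (k + 1)) ≤
        (Real.sqrt (UC.Ex V (fun x => f x ^ 2)) + ((k + 1 : ℕ) : ℝ)) ^ 2 := by
      rw [h.nx k, e2_nxt hl]
      refine (gap_w2 hs hl hP (h.ttu k)).trans (ih.2.trans (le_of_eq ?_))
      push_cast
      ring
    exact ⟨h1, lim_w2_step hs hη hη1 (h.ttG (k + 1)) (h.ttu (k + 1)) (h.err (k + 1))
      (by positivity) h1⟩

/-- the numbers `P k j` of a tower -/
private noncomputable def limP (V : Eu n → ℝ) (G : (k : ℕ) → (Fin k → Fin n) → Eu n → ℝ)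
    (k j : ℕ) : ℝ :=
  if h : 1 ≤ j ∧ j < k then
    e2 V (cmF (⟨j - 1, by omega⟩ : Fin k) (⟨j, h.2⟩ : Fin k) (G k)) else 0

private theorem limP_nn (V : Eu n → ℝ) (G : (k : ℕ) → (Fin k → Fin n) → Eu n → ℝ) (k j : ℕ) :
    0 ≤ limP V G k j := by
  unfold limP
  split_ifs
  · exact lim_e2_nn _ _
  · exact le_rfl

private theorem limP_le (hs : SP V κ Λ c0) {G : (k : ℕ) → (Fin k → Fin n) → Eu n → ℝ}
    (hG : ∀ k J, UC.TT (G k J)) (k j : ℕ) : limP V G k j ≤ 4 * e2 V (G k) := by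
  unfold limP
  split_ifs
  · exact e2_cmF hs _ _ (hG k)
  · have := lim_e2_nn V (G k)
    linarith

private theorem limP_eq (V : Eu n → ℝ) (G : (k : ℕ) → (Fin k → Fin n) → Eu n → ℝ) (k : ℕ)
    (i j : Fin k) (hij : j.val = i.val + 1) : limP V G k j.val = e2 V (cmF i j (G k)) := by
  unfold limP
  rw [dif_pos ⟨by omega, j.2⟩]
  have h1 : (⟨j.val - 1, by omega⟩ : Fin k) = i := by
    apply Fin.ext
    simp only
    omega
  rw [h1]

private theorem limP_top (hs : SP V κ Λ c0) (hl : 0 < lam)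
    {G u : (k : ℕ) → (Fin k → Fin n) → Eu n → ℝ} (h : Tw V lam η G u) (k : ℕ) (hk : 1 ≤ k)
    (c : ℝ) :
    limP V G (k + 1) k ≤ 4 * lam * (dfF V (u k) (u k) - 2 * c * dfF V (u k) (G k) +
      c ^ 2 * dfF V (G k) (G k)) := by
  obtain ⟨k, rfl⟩ : ∃ k', k = k' + 1 := ⟨k - 1, by omega⟩
  have h1 := swap_top hs hl (h.ttu k) (h.ttu (k + 1)) c
  rw [← h.nx k, ← h.nx (k + 1)] at h1
  have h2 := limP_eq V G (k + 1 + 1) (Fin.last k).castSucc (Fin.last (k + 1)) (by simp)
  rw [Fin.val_last] at h2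
  rw [h2]
  exact h1

private theorem limP_down (hs : SP V κ Λ c0) (hl : 0 < lam) (hP : UC.UR.HP V (1 / lam))
    (hη : 0 ≤ η) {G u : (k : ℕ) → (Fin k → Fin n) → Eu n → ℝ} (h : Tw V lam η G u) (k j : ℕ)
    (hj : 1 ≤ j) (hjk : j < k) :
    limP V G (k + 1) j ≤ (Real.sqrt (limP V G k j) + Real.sqrt (4 * η)) ^ 2 := by
  set i' : Fin k := ⟨j - 1, by omega⟩ with hi'
  set j' : Fin k := ⟨j, hjk⟩ with hj'
  have h1 : limP V G k j = e2 V (cmF i' j' (G k)) := by
    have := limP_eq V G k i' j' (by simp only [hi', hj']; omega)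
    rwa [hj'] at this
  have h2 : limP V G (k + 1) j = e2 V (cmF i'.castSucc j'.castSucc (G (k + 1))) := by
    have := limP_eq V G (k + 1) i'.castSucc j'.castSucc
      (by simp only [hi', hj', Fin.val_castSucc]; omega)
    simpa only [hj', Fin.val_castSucc] using this
  rw [h1, h2, h.nx k, cmF_nxt i' j' (h.ttu k), e2_nxt hl]
  have h3 := cmF_tt i' j' (h.ttu k)
  have h4 := cmF_tt i' j' (h.ttG k)
  refine (gap_w2 hs hl hP h3).trans ?_
  refine (slv_w2_le hs (by positivity) h4 h3 (slv_cmF hs i' j' (h.ttG k) (h.ttu k) (h.err k))).trans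
    ?_
  have h5 := Real.sqrt_le_sqrt (lim_vr_le hs h4)
  have h6 := Real.sqrt_nonneg (vr V (cmF i' j' (G k)))
  have h7 := Real.sqrt_nonneg (4 * η)
  apply pow_le_pow_left₀ (by positivity)
  linarith

private theorem lim_sqrt_zero (c : ℝ) :
    Tendsto (fun t : ℕ => Real.sqrt (c * (1 / ((t : ℝ) + 1)))) (hyperfilter ℕ : Filter ℕ)
      (𝓝 0) := by
  have h1 : Tendsto (fun t : ℕ => c * (1 / ((t : ℝ) + 1))) atTop (𝓝 0) := by
    have := (tendsto_one_div_add_atTop_nhds_zero_nat (𝕜 := ℝ)).const_mul c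
    simpa using this
  have h2 := (Real.continuous_sqrt.tendsto 0).comp h1
  rw [Real.sqrt_zero] at h2
  exact h2.mono_left Nat.hyperfilter_le_atTop

/-- the limit data -/
theorem lim_ex (hs : SP V κ Λ c0) (hl : 0 < lam) (hP : UC.UR.HP V (1 / lam)) (hp : App V p)
    {S : ℕ → ℝ} (hS0 : ∀ b, 0 ≤ S b)
    (hS : ∀ (b : ℕ) (ψ : Eu n → ℝ), UC.TT ψ →
      ∑ I : Fin (b + 1) → Fin n, UC.Ex V (fun x => ψ x * p (b + 1) I x) ^ 2 ≤
        S (b + 1) * VarE V ψ)
    {f : Eu n → ℝ} (hf : UC.TT f) (hf1 : VarE V f = 1) (hfD : UC.Df V f f ≤ 3 / 2 * lam) :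
    Nonempty (TD n lam κ S) := by
  classical
  have ht : ∀ t : ℕ, ∃ G u : (k : ℕ) → (Fin k → Fin n) → Eu n → ℝ,
      Tw V lam (1 / ((t : ℝ) + 1)) G u ∧ G 0 = fun _ => f := fun t =>
    tower_ex hs (by positivity) hf
  choose G u hT hG0 using ht
  have hη0 : ∀ t : ℕ, (0 : ℝ) ≤ 1 / ((t : ℝ) + 1) := fun t => by positivity
  have hη1 : ∀ t : ℕ, (1 : ℝ) / ((t : ℝ) + 1) ≤ 1 := fun t => by
    rw [div_le_one (by positivity)]
    have : (0 : ℝ) ≤ t := Nat.cast_nonneg _
    linarith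
  set F : ℝ := Real.sqrt (UC.Ex V (fun x => f x ^ 2)) with hF
  have hF0 : 0 ≤ F := Real.sqrt_nonneg _
  -- uniform bounds
  have be : ∀ k t, e2 V (G t k) ≤ (F + k) ^ 2 := fun k t =>
    (e2_bd hs hl hP (hη0 t) (hη1 t) (hT t) (hG0 t) k).1
  have bw : ∀ k t, w2 V (u t k) ≤ (F + k + 1) ^ 2 := fun k t =>
    (e2_bd hs hl hP (hη0 t) (hη1 t) (hT t) (hG0 t) k).2
  have e0 : ∀ k t, 0 ≤ e2 V (G t k) := fun k t => lim_e2_nn _ _
  have v0 : ∀ k t, 0 ≤ vr V (G t k) := fun k t => vr_nonneg hs ((hT t).ttG k)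
  have ve : ∀ k t, vr V (G t k) ≤ e2 V (G t k) := fun k t => lim_vr_le hs ((hT t).ttG k)
  have w0 : ∀ k t, 0 ≤ w2 V (u t k) := fun k t =>
    Finset.sum_nonneg fun _ _ => integral_nonneg fun x => by positivity
  have vd : ∀ k t, lam * vr V (G t k) ≤ dfF V (G t k) (G t k) := fun k t =>
    gap_vr hl hP ((hT t).ttG k)
  have d0 : ∀ k t, 0 ≤ dfF V (G t k) (G t k) := fun k t =>
    (mul_nonneg hl.le (v0 k t)).trans (vd k t)
  have em : ∀ k t, e2 V (G t (k + 1)) = lam * dfF V (u t k) (u t k) := fun k t => by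
    rw [(hT t).nx k, e2_nxt hl]
  have m0 : ∀ k t, 0 ≤ dfF V (u t k) (u t k) := fun k t => by
    have h1 := e0 (k + 1) t
    rw [em] at h1
    exact nonneg_of_mul_nonneg_right h1 hl
  have dw : ∀ k t, dfF V (G t (k + 1)) (G t (k + 1)) ≤
      lam * w2 V (u t k) - κ * e2 V (G t (k + 1)) := fun k t => by
    rw [(hT t).nx k]
    exact df_nxt hs hl ((hT t).ttu k)
  have bd : ∀ k, ∃ C, ∀ t, |dfF V (G t k) (G t k)| ≤ C := by
    intro k
    cases k with
    | zero =>
      refine ⟨|UC.Df V f f|, fun t => ?_⟩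
      unfold dfF
      rw [hG0 t]
      simp
    | succ k =>
      refine ⟨lam * (F + k + 1) ^ 2, fun t => ?_⟩
      rw [abs_of_nonneg (d0 (k + 1) t)]
      have h1 := dw k t
      have h2 := mul_le_mul_of_nonneg_left (bw k t) hl.le
      have h3 := mul_nonneg hs.kpos.le (e0 (k + 1) t)
      linarith
  -- the limits
  have te : ∀ k, Tendsto (fun t => e2 V (G t k)) (hyperfilter ℕ : Filter ℕ)
      (𝓝 (ul fun t => e2 V (G t k))) := fun k =>
    ul_tendsto ⟨(F + k) ^ 2, fun t => by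
      rw [abs_of_nonneg (e0 k t)]
      exact be k t⟩
  have tv : ∀ k, Tendsto (fun t => vr V (G t k)) (hyperfilter ℕ : Filter ℕ)
      (𝓝 (ul fun t => vr V (G t k))) := fun k =>
    ul_tendsto ⟨(F + k) ^ 2, fun t => by
      rw [abs_of_nonneg (v0 k t)]
      exact (ve k t).trans (be k t)⟩
  have td : ∀ k, Tendsto (fun t => dfF V (G t k) (G t k)) (hyperfilter ℕ : Filter ℕ)
      (𝓝 (ul fun t => dfF V (G t k) (G t k))) := fun k => ul_tendsto (bd k)
  have tP : ∀ k j, Tendsto (fun t => limP V (G t) k j) (hyperfilter ℕ : Filter ℕ)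
      (𝓝 (ul fun t => limP V (G t) k j)) := fun k j =>
    ul_tendsto ⟨4 * (F + k) ^ 2, fun t => by
      rw [abs_of_nonneg (limP_nn _ _ _ _)]
      have := limP_le hs (hT t).ttG k j
      have := be k t
      linarith⟩
  have tc : ∀ k b J I, Tendsto (fun t => cA V p (G t) k b J I) (hyperfilter ℕ : Filter ℕ)
      (𝓝 (ul fun t => cA V p (G t) k b J I)) := fun k b J I =>
    ul_tendsto ⟨(F + k) * Real.sqrt (UC.Ex V (fun x => p b I x ^ 2)), fun t => by
      refine (cA_abs hs hp (hT t).ttG k b J I).trans ?_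
      refine mul_le_mul_of_nonneg_right ?_ (Real.sqrt_nonneg _)
      rw [Real.sqrt_le_left (by positivity)]
      exact be k t⟩
  have tm : ∀ k, Tendsto (fun t => dfF V (u t k) (u t k)) (hyperfilter ℕ : Filter ℕ)
      (𝓝 ((ul fun t => e2 V (G t (k + 1))) / lam)) := fun k => by
    have h1 := (te (k + 1)).div_const lam
    refine h1.congr fun t => ?_
    rw [em]
    field_simp
  have tx : ∀ k, Tendsto (fun t => dfF V (u t k) (G t k)) (hyperfilter ℕ : Filter ℕ)
      (𝓝 (ul fun t => vr V (G t k))) := fun k => by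
    have h1 : Tendsto (fun t : ℕ => dfF V (u t k) (G t k) - vr V (G t k))
        (hyperfilter ℕ : Filter ℕ) (𝓝 0) := by
      refine squeeze_zero_norm (a := fun t : ℕ =>
        Real.sqrt ((F + k) ^ 2 * (1 / ((t : ℝ) + 1)))) (fun t => ?_) (lim_sqrt_zero _)
      rw [Real.norm_eq_abs]
      refine (slv_cross hs (hη0 t) ((hT t).ttG k) ((hT t).ttu k) ((hT t).err k)).trans ?_
      apply Real.sqrt_le_sqrt
      rw [mul_comm]
      exact mul_le_mul_of_nonneg_right ((ve k t).trans (be k t)) (hη0 t)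
    have h2 := h1.add (tv k)
    rw [zero_add] at h2
    refine h2.congr fun t => ?_
    ring
  -- the bound `w ≤ (√v + √η)²` in the limit
  have tw : ∀ k, Tendsto (fun t => (Real.sqrt (vr V (G t k)) +
      Real.sqrt (1 / ((t : ℝ) + 1))) ^ 2) (hyperfilter ℕ : Filter ℕ)
      (𝓝 (ul fun t => vr V (G t k))) := fun k => by
    have h1 : Tendsto (fun t : ℕ => Real.sqrt (1 / ((t : ℝ) + 1))) (hyperfilter ℕ : Filter ℕ)
        (𝓝 0) := by
      have := lim_sqrt_zero 1
      simpa only [one_mul] using this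
    have h2 := ((Real.continuous_sqrt.tendsto _).comp (tv k)).add h1
    have h3 := h2.pow 2
    rw [add_zero, Real.sq_sqrt (ge_of_tendsto' (tv k) fun t => v0 k t)] at h3
    exact h3
  have ww : ∀ k t, w2 V (u t k) ≤ (Real.sqrt (vr V (G t k)) +
      Real.sqrt (1 / ((t : ℝ) + 1))) ^ 2 := fun k t =>
    slv_w2_le hs (hη0 t) ((hT t).ttG k) ((hT t).ttu k) ((hT t).err k)
  refine ⟨{
    c := fun k b J I => ul fun t => cA V p (G t) k b J I
    E := fun k => if k = 0 then 1 else ul fun t => e2 V (G t k)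
    V := fun k => ul fun t => vr V (G t k)
    D := fun k => ul fun t => dfF V (G t k) (G t k)
    P := fun k j => ul fun t => limP V (G t) k j
    Vn := fun k => ge_of_tendsto' (tv k) fun t => v0 k t
    Pn := fun k j => ge_of_tendsto' (tP k j) fun t => limP_nn _ _ _ _
    E0 := by simp
    V0 := ?_
    D0 := ?_
    hV := ?_
    gap := ?_
    boc := ?_
    cs := ?_
    con := ?_
    sw := ?_
    p4 := ?_
    pc := ?_
    sym := ?_
    rc := ?_
    s1 := ?_
    s2 := ?_ }⟩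
  · -- V0
    apply ul_eq
    have : (fun t => vr V (G t 0)) = fun _ => (1 : ℝ) := by
      funext t
      unfold vr
      rw [hG0 t]
      simp [hf1]
    rw [this]
    exact tendsto_const_nhds
  · -- D0
    refine le_of_tendsto' (td 0) fun t => ?_
    unfold dfF
    rw [hG0 t]
    simpa using hfD
  · -- hV
    intro k
    have h1 : Tendsto (fun t => e2 V (G t (k + 1)) - ∑ J, cA V p (G t) (k + 1) 0 J
        (fun i => i.elim0) ^ 2) (hyperfilter ℕ : Filter ℕ)
        (𝓝 ((ul fun t => e2 V (G t (k + 1))) -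
          ∑ J, (ul fun t => cA V p (G t) (k + 1) 0 J (fun i => i.elim0)) ^ 2)) :=
      (te (k + 1)).sub (tendsto_finsetSum _ fun J _ => (tc (k + 1) 0 J _).pow 2)
    have h2 : ∀ t, vr V (G t (k + 1)) = e2 V (G t (k + 1)) - ∑ J, cA V p (G t) (k + 1) 0 J
        (fun i => i.elim0) ^ 2 := by
      intro t
      rw [vr_eq hs ((hT t).ttG (k + 1))]
      congr 1
      refine Finset.sum_congr rfl fun J _ => ?_
      unfold cA
      simp only [hp.one, mul_one]
    simp only [Nat.add_eq_zero_iff, one_ne_zero, and_false, if_false]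
    exact tendsto_nhds_unique (tv (k + 1)) (h1.congr fun t => (h2 t).symm)
  · -- gap
    intro k
    exact le_of_tendsto_of_tendsto' ((tv k).const_mul lam) (td k) fun t => vd k t
  · -- boc
    intro k
    simp only [Nat.add_eq_zero_iff, one_ne_zero, and_false, if_false]
    have h1 := ((tw k).const_mul lam).sub ((te (k + 1)).const_mul κ)
    refine le_of_tendsto_of_tendsto' (td (k + 1)) h1 fun t => ?_
    have h2 := dw k t
    have h3 := mul_le_mul_of_nonneg_left (ww k t) hl.le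
    linarith
  · -- cs
    intro k
    simp only [Nat.add_eq_zero_iff, one_ne_zero, and_false, if_false]
    have h1 := ((tx k).pow 2).const_mul lam
    have h2 := (td k).mul (te (k + 1))
    refine le_of_tendsto_of_tendsto' h1 h2 fun t => ?_
    have h3 := dfF_cs hs ((hT t).ttG k) ((hT t).ttu k)
    rw [em]
    have h4 := mul_le_mul_of_nonneg_left h3 hl.le
    linarith
  · -- con
    intro k
    simp only [Nat.add_eq_zero_iff, one_ne_zero, and_false, if_false]
    refine le_of_tendsto_of_tendsto' (te (k + 1)) (tw k) fun t => ?_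
    rw [em]
    exact (gap_w2 hs hl hP ((hT t).ttu k)).trans (ww k t)
  · -- sw
    intro k hk
    simp only [Nat.add_eq_zero_iff, one_ne_zero, and_false, if_false]
    set E' : ℝ := ul fun t => e2 V (G t (k + 1)) with hE'
    set V' : ℝ := ul fun t => vr V (G t k) with hV'
    set D' : ℝ := ul fun t => dfF V (G t k) (G t k) with hD'
    set P' : ℝ := ul fun t => limP V (G t) (k + 1) k with hP'
    have hV0 : 0 ≤ V' := ge_of_tendsto' (tv k) fun t => v0 k t
    have hgap : lam * V' ≤ D' :=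
      le_of_tendsto_of_tendsto' ((tv k).const_mul lam) (td k) fun t => vd k t
    have key : ∀ c : ℝ, P' ≤ 4 * lam * (E' / lam - 2 * c * V' + c ^ 2 * D') := by
      intro c
      have h1 := ((((tm k).sub ((tx k).const_mul (2 * c))).add
        ((td k).const_mul (c ^ 2))).const_mul (4 * lam))
      exact le_of_tendsto_of_tendsto' (tP (k + 1) k) h1 fun t => limP_top hs hl (hT t) k hk c
    rcases (mul_nonneg hl.le hV0 |>.trans hgap).eq_or_lt with h0 | h0
    · have h1 : V' = 0 := by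
        have : lam * V' ≤ 0 := by linarith
        nlinarith
      rw [← h0, h1]
      simp
    · have h1 := key (V' / D')
      have h2 := mul_le_mul_of_nonneg_left h1 h0.le
      refine h2.trans (le_of_eq ?_)
      field_simp
      ring
  · -- p4
    intro k j
    simp only [Nat.add_eq_zero_iff, one_ne_zero, and_false, if_false]
    exact le_of_tendsto_of_tendsto' (tP (k + 1) j) ((te (k + 1)).const_mul 4) fun t =>
      limP_le hs (hT t).ttG (k + 1) j
  · -- pc
    intro k j hj hjk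
    have h1 := ((Real.continuous_sqrt.tendsto _).comp (tP k j)).add (lim_sqrt_zero 4)
    have h2 := h1.pow 2
    rw [add_zero, Real.sq_sqrt (ge_of_tendsto' (tP k j) fun t => limP_nn _ _ _ _)] at h2
    exact le_of_tendsto_of_tendsto' (tP (k + 1) j) h2 fun t =>
      limP_down hs hl hP (hη0 t) (hT t) k j hj hjk
  · -- sym
    intro k b J I σ
    have h1 : ∀ t, cA V p (G t) k b J (fun s => I (σ s)) = cA V p (G t) k b J I := fun t => by
      unfold cA
      rw [hp.sym]
    simp only [h1]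
  · -- rc
    intro k b J I
    have h1 : Tendsto (fun t => ∑ r : Fin (b + 1), cA V p (G t) (k + 1) b
        (Fin.snoc (α := fun _ => Fin n) J (I r)) (fun s => I (r.succAbove s)) -
        Real.sqrt lam * cA V p (G t) k (b + 1) J I) (hyperfilter ℕ : Filter ℕ) (𝓝 0) := by
      have h2 := ((lim_sqrt_zero 1).mul_const
        (Real.sqrt (UC.Ex V (fun x => p (b + 1) I x ^ 2)))).const_mul (Real.sqrt lam)
      rw [zero_mul, mul_zero] at h2
      refine squeeze_zero_norm (fun t => ?_) h2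
      rw [Real.norm_eq_abs, one_mul]
      exact cA_rec hs hp hl (hT t) k b J I
    have h3 := (tendsto_finsetSum (Finset.univ : Finset (Fin (b + 1))) fun r _ =>
      tc (k + 1) b (Fin.snoc (α := fun _ => Fin n) J (I r)) (fun s => I (r.succAbove s))).sub
        ((tc k (b + 1) J I).const_mul (Real.sqrt lam))
    have h4 := tendsto_nhds_unique h3 h1
    linarith
  · -- s1
    intro k b
    refine le_of_tendsto_of_tendsto' (tendsto_finsetSum _ fun J _ =>
      tendsto_finsetSum _ fun I _ => (tc k (b + 1) J I).pow 2)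
      ((tv k).const_mul _) fun t => ?_
    exact cA_s1 (hS b) (hT t).ttG k
  · -- s2
    intro k b i j hij
    refine le_of_tendsto_of_tendsto' (tendsto_finsetSum _ fun J _ =>
      tendsto_finsetSum _ fun I _ => ((tc k (b + 1) J I).sub (tc k (b + 1) _ I)).pow 2)
      ((tP k j.val).const_mul _) fun t => ?_
    rw [limP_eq V (G t) k i j hij]
    exact cA_s2 hs hp (hS0 (b + 1)) (hS b) (hT t).ttG k i j

end Pool.Agent.Lib.MP_6d896a_gt.FK
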