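import Mathlib
import Pool.Agent.Lib.MP_6d896a_gt.FK.Lim
import Pool.Agent.Lib.MP_6d896a_gt.FK.EndB

/-!
Project FK, piece B10: the spectral gap of smooth potentials from the higher order thin shell
inequality.
-/

set_option autoImplicit false

namespace Pool.Agent.Lib.MP_6d896a_gt.FK

open MeasureTheory Filter Topology Set
open Pool.Agent.Lib.MP_6d896a_gt.LG
open scoped ENNReal NNReal ContDiff

/-- the best Poincare constant and nearly extremal functions -/
private lemma gapOf_extremal {n : ℕ} {V : Eu n → ℝ} {κ Λ c0 : ℝ} (hs : SP V κ Λ c0) {K : ℝ}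
    (hK : 0 < K) (hn : ¬ UC.UR.HP V K) :
    ∃ C : ℝ, K < C ∧ UC.UR.HP V C ∧ ∀ θ : ℝ, 0 < θ → ∃ f : Eu n → ℝ, UC.TT f ∧ VarE V f = 1 ∧
      UC.Df V f f * C - 1 ≤ θ := by
  set A : Set ℝ := {c | 0 < c ∧ UC.UR.HP V c} with hA
  have hmono : ∀ c c' : ℝ, UC.UR.HP V c → c ≤ c' → UC.UR.HP V c' := by
    intro c c' hc hcc f hf
    exact (hc f hf).trans (mul_le_mul_of_nonneg_right hcc (UC.Df_nonneg V f))
  have hne : A.Nonempty := ⟨c0, hs.cpos, hs.hp⟩
  have hlb : ∀ c ∈ A, K ≤ c := by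
    intro c hc
    by_contra hcc
    push Not at hcc
    exact hn (hmono c K hc.2 hcc.le)
  have hbdd : BddBelow A := ⟨K, hlb⟩
  set C := sInf A with hC
  have hKC : K ≤ C := le_csInf hne hlb
  have hPC : UC.UR.HP V C := by
    intro f hf
    refine le_of_forall_pos_le_add fun ε hε => ?_
    obtain ⟨c, hcA, hcε⟩ := exists_lt_of_csInf_lt hne
      (show sInf A < C + ε / (UC.Df V f f + 1) by
        rw [← hC]
        have := UC.Df_nonneg V f
        have : 0 < ε / (UC.Df V f f + 1) := by positivity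
        linarith)
    have h1 := hcA.2 f hf
    have h0 := UC.Df_nonneg V f
    have h2 : c * UC.Df V f f ≤ (C + ε / (UC.Df V f f + 1)) * UC.Df V f f :=
      mul_le_mul_of_nonneg_right hcε.le h0
    have h3 : ε / (UC.Df V f f + 1) * UC.Df V f f ≤ ε := by
      rw [div_mul_eq_mul_div, div_le_iff₀ (by linarith)]
      nlinarith
    nlinarith
  have hKC' : K < C := by
    rcases hKC.lt_or_eq with h | h
    · exact h
    · rw [← h] at hPC
      exact absurd hPC hn
  have hC0 : 0 < C := hK.trans hKC'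
  refine ⟨C, hKC', hPC, fun θ hθ => ?_⟩
  have hc1 : C / (1 + θ) < C := by
    rw [div_lt_iff₀ (by linarith)]
    nlinarith
  have hc10 : 0 < C / (1 + θ) := by positivity
  have hnP : ¬ UC.UR.HP V (C / (1 + θ)) := by
    intro hP
    have : C ≤ C / (1 + θ) := csInf_le hbdd ⟨hc10, hP⟩
    linarith
  unfold UC.UR.HP at hnP
  push Not at hnP
  obtain ⟨f, hf, hlt⟩ := hnP
  have hD0 := UC.Df_nonneg V f
  have hv : 0 < VarE V f := lt_of_le_of_lt (by positivity) hlt
  have hsq : 0 < Real.sqrt (VarE V f) := Real.sqrt_pos.2 hv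
  set a := 1 / Real.sqrt (VarE V f) with ha
  have ha2 : a ^ 2 = 1 / VarE V f := by
    rw [ha, div_pow, one_pow, Real.sq_sqrt hv.le]
  refine ⟨fun x => a * f x, hf.const_mul a, ?_, ?_⟩
  · have e1 : (fun x => (a * f x) ^ 2) = fun x => a ^ 2 * f x ^ 2 := by
      funext x; ring
    have : VarE V (fun x => a * f x) = a ^ 2 * VarE V f := by
      unfold VarE
      rw [e1, UC.Ex_const_mul, UC.Ex_const_mul]
      ring
    rw [this, ha2]
    field_simp
  · rw [UC.Df_const_mul_left V hf.differentiable, UC.Df_const_mul_right V hf.differentiable,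
      ← mul_assoc, ← sq, ha2]
    have hlt' : C / (1 + θ) * UC.Df V f f < VarE V f := hlt
    rw [div_mul_eq_mul_div, div_lt_iff₀ (by linarith)] at hlt'
    have : 1 / VarE V f * UC.Df V f f * C = (C * UC.Df V f f) / VarE V f := by ring
    rw [this, sub_le_iff_le_add, div_le_iff₀ hv]
    nlinarith

theorem gap_of {C : ℝ} (hC : 1 ≤ C) (hS : SBd C) :
    ∀ (n : ℕ) (V : Eu n → ℝ) (κ Λ c0 : ℝ), SP V κ Λ c0 → CovLe V 1 →
      ∀ f : Eu n → ℝ, UC.TT f →
        VarE V f ≤ 64 * (2500000000 * C ^ 2) * 8 ^ 6 * UC.Df V f f := by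
  intro n V κ Λ c0 hs hcov f₀ hf₀
  have hK : (0 : ℝ) < 64 * (2500000000 * C ^ 2) * 8 ^ 6 := by positivity
  have hP : UC.UR.HP V (64 * (2500000000 * C ^ 2) * 8 ^ 6) := by
    by_contra hn
    obtain ⟨C', hKC, hPC, hext⟩ := gapOf_extremal hs hK hn
    have hC'0 : 0 < C' := hK.trans hKC
    have hl : 0 < 1 / C' := by positivity
    have hP' : UC.UR.HP V (1 / (1 / C')) := by
      rw [one_div_one_div]
      exact hPC
    have hy : 64 * (2500000000 * C ^ 2) * (1 / C') * 8 ^ 6 ≤ 1 := by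
      have h1 : 64 * (2500000000 * C ^ 2) * (1 / C') * 8 ^ 6 =
          (64 * (2500000000 * C ^ 2) * 8 ^ 6) / C' := by ring
      rw [h1, div_le_one hC'0]
      exact hKC.le
    obtain ⟨f, hf, hf1, hfe⟩ := hext (1 / 2) (by norm_num)
    have hfD : UC.Df V f f ≤ 3 / 2 * (1 / C') := by
      rw [mul_one_div, le_div_iff₀ hC'0]
      linarith
    obtain ⟨p, hp, hbd⟩ := hS n V κ Λ c0 hs hcov
    obtain ⟨t⟩ := lim_ex hs hl hP' hp (S := fun b => (C ^ (b - 1) * b.factorial) ^ 2)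
      (fun b => by positivity) (fun b ψ hψ => hbd b ψ hψ) hf hf1 hfD
    obtain ⟨N, hN⟩ := exists_nat_gt (2 * (1 / C') / κ)
    have h1 := td_end hC hl hs.kpos hy t N
    rw [div_lt_iff₀ hs.kpos] at hN
    linarith
  exact hP f₀ hf₀

end Pool.Agent.Lib.MP_6d896a_gt.FK
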