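import Mathlib
import Pool.Agent.Lib.MP_6d896a_gt.FK.ADefs

/-!
Project FK: the numbers of the induction.
-/

set_option autoImplicit false

namespace Pool.Agent.Lib.MP_6d896a_gt.FK

private theorem choose_term (C : ℝ) {M j : ℕ} (h1 : 1 ≤ j) (h2 : j ≤ M) :
    (M.choose j : ℝ) * sc C j * sc C (M - j + 1) =
      C ^ (M - 1) * M.factorial * ((M - j + 1 : ℕ) : ℝ) := by
  have e1 : (M.choose j : ℝ) * (j.factorial : ℝ) * ((M - j).factorial : ℝ) = M.factorial := by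
    exact_mod_cast Nat.choose_mul_factorial_mul_factorial h2
  have e2 : ((M - j + 1).factorial : ℝ) = ((M - j + 1 : ℕ) : ℝ) * ((M - j).factorial : ℝ) := by
    rw [Nat.factorial_succ]; push_cast; ring
  have e3 : C ^ (j - 1) * C ^ (M - j + 1 - 1) = C ^ (M - 1) := by
    rw [← pow_add]; congr 1; omega
  unfold sc
  rw [e2]
  calc (M.choose j : ℝ) * (C ^ (j - 1) * (j.factorial : ℝ)) *
        (C ^ (M - j + 1 - 1) * (((M - j + 1 : ℕ) : ℝ) * ((M - j).factorial : ℝ)))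
      = (C ^ (j - 1) * C ^ (M - j + 1 - 1)) *
        ((M.choose j : ℝ) * (j.factorial : ℝ) * ((M - j).factorial : ℝ)) *
          ((M - j + 1 : ℕ) : ℝ) := by ring
    _ = _ := by rw [e3, e1]

private theorem sum_Icc_rev (m : ℕ) :
    ∑ j ∈ Finset.Icc 1 m, ((m - j + 1 : ℕ) : ℝ) = (m : ℝ) * (m + 1) / 2 := by
  have h1 : ∑ j ∈ Finset.Icc 1 m, ((m - j + 1 : ℕ) : ℝ) =
      ∑ j ∈ Finset.Icc 1 m, ((m : ℝ) + 1 - j) := by
    refine Finset.sum_congr rfl fun j hj => ?_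
    rw [Finset.mem_Icc] at hj
    have : ((m - j + 1 : ℕ) : ℝ) = (m : ℝ) - j + 1 := by
      rw [Nat.cast_add, Nat.cast_sub hj.2]; simp
    rw [this]; ring
  have h2 : ∀ k : ℕ, ∑ j ∈ Finset.Icc 1 k, ((m : ℝ) + 1 - j) =
      (k : ℝ) * (m + 1) - (k : ℝ) * (k + 1) / 2 := by
    intro k
    induction k with
    | zero => simp
    | succ k ih =>
      rw [Finset.sum_Icc_succ_top (by omega), ih]
      push_cast; ring
  rw [h1, h2]; ring

/-- `bet (sc C) m = C ^ (m - 1) * m! * (m (m + 1) / 2)` -/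
theorem bet_sc {C : ℝ} {m : ℕ} (hm : 1 ≤ m) : bet (sc C) m = sc C m * (m * (m + 1) / 2) := by
  unfold bet
  have h : ∀ j ∈ Finset.Icc 1 m, (m.choose j : ℝ) * sc C j * sc C (m - j + 1) =
      C ^ (m - 1) * m.factorial * ((m - j + 1 : ℕ) : ℝ) := by
    intro j hj
    rw [Finset.mem_Icc] at hj
    exact choose_term C hj.1 hj.2
  rw [Finset.sum_congr rfl h, ← Finset.mul_sum, sum_Icc_rev]
  unfold sc
  ring

theorem BB_sc_le {C : ℝ} (hC : 0 ≤ C) (m : ℕ) : BB (sc C) m ≤ sc C (m + 2) * ((m + 2) ^ 2 / 2) := by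
  have hs : ∀ k, 0 ≤ sc C k := fun k => by unfold sc; positivity
  have h1 : BB (sc C) m ≤ bet (sc C) (m + 2) := by
    unfold BB bet
    have e : ∀ j ∈ Finset.Icc 2 (m + 1), ((m + 2).choose j : ℝ) * sc C j * sc C (m + 3 - j) =
        ((m + 2).choose j : ℝ) * sc C j * sc C (m + 2 - j + 1) := by
      intro j hj
      rw [Finset.mem_Icc] at hj
      have : m + 3 - j = m + 2 - j + 1 := by omega
      rw [this]
    rw [Finset.sum_congr rfl e]
    refine Finset.sum_le_sum_of_subset_of_nonneg ?_ ?_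
    · intro j hj
      rw [Finset.mem_Icc] at hj ⊢
      omega
    · intro j _ _
      have := hs j
      have := hs (m + 2 - j + 1)
      positivity
  have h2 : BB (sc C) m ≤ bet (sc C) (m + 2) - sc C (m + 2) * (m + 2) := by
    unfold BB bet
    have e : ∀ j ∈ Finset.Icc 2 (m + 1), ((m + 2).choose j : ℝ) * sc C j * sc C (m + 3 - j) =
        ((m + 2).choose j : ℝ) * sc C j * sc C (m + 2 - j + 1) := by
      intro j hj
      rw [Finset.mem_Icc] at hj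
      have : m + 3 - j = m + 2 - j + 1 := by omega
      rw [this]
    rw [Finset.sum_congr rfl e]
    have e2 : Finset.Icc 1 (m + 2) = insert 1 (insert (m + 2) (Finset.Icc 2 (m + 1))) := by
      ext j
      simp only [Finset.mem_insert, Finset.mem_Icc]
      omega
    rw [e2, Finset.sum_insert (by simp), Finset.sum_insert (by simp)]
    have e3 := choose_term C (M := m + 2) (j := 1) le_rfl (by omega)
    have e4 : 0 ≤ ((m + 2).choose (m + 2) : ℝ) * sc C (m + 2) * sc C (m + 2 - (m + 2) + 1) := by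
      have := hs (m + 2)
      have := hs (m + 2 - (m + 2) + 1)
      positivity
    rw [e3]
    have e5 : ((m + 2 - 1 + 1 : ℕ) : ℝ) = (m : ℝ) + 2 := by
      have : m + 2 - 1 + 1 = m + 2 := by omega
      rw [this]; push_cast; ring
    rw [e5]
    have e6 : C ^ (m + 2 - 1) * ((m + 2).factorial : ℝ) * ((m : ℝ) + 2) = sc C (m + 2) * (m + 2) := by
      unfold sc; ring
    rw [e6]
    linarith
  rw [bet_sc (by omega)] at h2
  have h3 := hs (m + 2)
  push_cast at h2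
  have hm : (0 : ℝ) ≤ m := Nat.cast_nonneg m
  nlinarith [mul_nonneg h3 hm]

/-- the quadratic inequality: with `M = m + 2 ≥ 3`, `β = 2 M² (K2 + 5)`,
`Y = √K / sc C M` one gets `4 Y² ≤ Y + 1` -/
theorem real_step {K2 C : ℝ} (hK2 : 0 ≤ K2) (hC : 0 < C)
    (hC2 : (2 * K2 + 10) * (2 * K2 + 6) ≤ C ^ 2) {m : ℕ} (hm : 1 ≤ m) {K : ℝ} (hK : 0 ≤ K)
    (h : ((2 * (m + 2) ^ 2 * (K2 + 5)) / 2 - (m + 2) ^ 2 * K2) *
        (K - 2 * (m + 2) ^ 2 * (K2 + 5) * sc C (m + 1) ^ 2) ≤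
      2 * Real.sqrt K * ((m + 3) * Real.sqrt K + BB (sc C) m) +
        2 * (m + 2) ^ 2 * (K2 + 5) * (2 * (m + 1) ^ 2 * K2 * sc C (m + 1) ^ 2 +
          2 * sc C (m + 1) * bet (sc C) (m + 1))) :
    K ≤ sc C (m + 2) ^ 2 := by
  obtain ⟨T, hT⟩ : ∃ T, T = sc C (m + 2) := ⟨_, rfl⟩
  obtain ⟨S, hS⟩ : ∃ S, S = sc C (m + 1) := ⟨_, rfl⟩
  obtain ⟨M, hM⟩ : ∃ M : ℝ, M = (m : ℝ) + 2 := ⟨_, rfl⟩
  obtain ⟨y, hy⟩ : ∃ y, y = Real.sqrt K := ⟨_, rfl⟩
  have hM3 : 3 ≤ M := by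
    have : (1 : ℝ) ≤ m := by exact_mod_cast hm
    linarith
  have hTS : T = C * M * S := by
    rw [hT, hS, hM]
    unfold sc
    have e1 : C ^ (m + 2 - 1) = C * C ^ (m + 1 - 1) := by
      have : m + 2 - 1 = (m + 1 - 1) + 1 := by omega
      rw [this, pow_succ]; ring
    have e2 : ((m + 2).factorial : ℝ) = ((m : ℝ) + 2) * ((m + 1).factorial : ℝ) := by
      rw [Nat.factorial_succ]; push_cast; ring
    rw [e1, e2]; ring
  have hS0 : 0 < S := by
    rw [hS]; unfold sc; positivity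
  have hT0 : 0 < T := by
    rw [hTS]; positivity
  have hy0 : 0 ≤ y := by rw [hy]; positivity
  have hyK : y ^ 2 = K := by rw [hy]; exact Real.sq_sqrt hK
  have hBB : BB (sc C) m ≤ T * (M ^ 2 / 2) := by
    rw [hT, hM]; exact BB_sc_le hC.le m
  have hbet : bet (sc C) (m + 1) = S * ((M - 1) * M / 2) := by
    rw [bet_sc (by omega), hS, hM]; push_cast; ring
  rw [hbet, ← hS, ← hy, ← hyK] at h
  have em : (m : ℝ) = M - 2 := by rw [hM]; ring
  rw [em] at h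
  -- simplify
  have h1 : 5 * M ^ 2 * y ^ 2 ≤ 2 * (M + 1) * y ^ 2 + 2 * y * BB (sc C) m +
      2 * M ^ 2 * (K2 + 5) * S ^ 2 * (5 * M ^ 2 + 2 * (M - 1) ^ 2 * K2 + (M - 1) * M) := by
    nlinarith [h]
  have h2 : 2 * y * BB (sc C) m ≤ M ^ 2 * (y * T) := by
    have := mul_le_mul_of_nonneg_left hBB (by positivity : 0 ≤ 2 * y)
    nlinarith [this]
  have h3 : 2 * M ^ 2 * (K2 + 5) * S ^ 2 * (5 * M ^ 2 + 2 * (M - 1) ^ 2 * K2 + (M - 1) * M) ≤
      M ^ 2 * T ^ 2 := by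
    have e1 : 5 * M ^ 2 + 2 * (M - 1) ^ 2 * K2 + (M - 1) * M ≤ M ^ 2 * (2 * K2 + 6) := by
      have : (M - 1) ^ 2 * K2 ≤ M ^ 2 * K2 := by
        apply mul_le_mul_of_nonneg_right _ hK2
        nlinarith
      nlinarith
    have e2 : 0 ≤ 2 * M ^ 2 * (K2 + 5) * S ^ 2 := by positivity
    calc 2 * M ^ 2 * (K2 + 5) * S ^ 2 * (5 * M ^ 2 + 2 * (M - 1) ^ 2 * K2 + (M - 1) * M)
        ≤ 2 * M ^ 2 * (K2 + 5) * S ^ 2 * (M ^ 2 * (2 * K2 + 6)) :=
          mul_le_mul_of_nonneg_left e1 e2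
      _ = (M ^ 2 * M ^ 2 * S ^ 2) * ((2 * K2 + 10) * (2 * K2 + 6)) := by ring
      _ ≤ (M ^ 2 * M ^ 2 * S ^ 2) * C ^ 2 := mul_le_mul_of_nonneg_left hC2 (by positivity)
      _ = M ^ 2 * T ^ 2 := by rw [hTS]; ring
  have h4 : 4 * M ^ 2 * y ^ 2 ≤ (5 * M ^ 2 - 2 * (M + 1)) * y ^ 2 := by
    apply mul_le_mul_of_nonneg_right _ (sq_nonneg y)
    nlinarith
  have h5 : 4 * y ^ 2 ≤ y * T + T ^ 2 := by
    have hM0 : 0 < M ^ 2 := by positivity
    have : M ^ 2 * (4 * y ^ 2) ≤ M ^ 2 * (y * T + T ^ 2) := by nlinarith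
    exact le_of_mul_le_mul_left this hM0
  have h6 : y ≤ T := by
    by_contra hc
    rw [not_le] at hc
    nlinarith
  rw [← hT, ← hyK]
  exact pow_le_pow_left₀ hy0 h6 2

end Pool.Agent.Lib.MP_6d896a_gt.FK
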