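import Mathlib
import Pool.Agent.Lib.MP_6d896a_gt.FK.Core

/-!
Project FK: the supremum argument and the removal of the regularisation.
-/

set_option autoImplicit false

namespace Pool.Agent.Lib.MP_6d896a_gt.FK

open MeasureTheory Filter Topology Set
open scoped ENNReal NNReal ContDiff

variable {n : ℕ} {μ : Measure (Eu n)} {R δ ε : ℝ} {ψ φ : Eu n → ℝ} {s : SS n} {q : Fin n → Eu n}

private theorem supA_BF (hψ : B1 μ ψ) : BF μ ψ := ⟨hψ.1, 1, hψ.2⟩

private theorem supA_eps {a b c : ℝ} (hc : 0 ≤ c)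
    (h : ∀ e : ℝ, 0 < e → a ≤ b + e * c) : a ≤ b := by
  by_contra hn
  push Not at hn
  have h1 : 0 < (a - b) / (2 * (c + 1)) := by
    apply div_pos (by linarith) (by linarith)
  have h2 := h _ h1
  have h3 : (a - b) / (2 * (c + 1)) * c ≤ (a - b) / 2 := by
    rw [div_mul_eq_mul_div, div_le_div_iff₀ (by linarith) (by norm_num)]
    nlinarith
  linarith

/-- the optimal constant of the regularised inequality satisfies the inequality of `core` -/
theorem sup_arg (h : Hy μ R) (hδ0 : 0 < δ) (hε : 0 < ε) (hδ : ε * R ^ 2 = δ) {m : ℕ}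
    {S : ℕ → ℝ} (hS0 : ∀ j, 0 ≤ S j) (hS1 : S 1 = 1)
    (hS : ∀ j, 1 ≤ j → j ≤ m + 1 → SB μ j (S j ^ 2)) {K2 β : ℝ} (hK2 : 0 ≤ K2)
    (h2 : SB μ 2 K2) (hβ : (m + 2) ^ 2 * K2 ≤ β / 2) :
    ∃ K : ℝ, 0 ≤ K ∧ KS μ δ ε (m + 2) K ∧
      (β / 2 - (m + 2) ^ 2 * K2) * (K - β * S (m + 1) ^ 2) ≤
        2 * Real.sqrt K * ((m + 3) * Real.sqrt K + BB S m) +
          β * (2 * (m + 1) ^ 2 * K2 * S (m + 1) ^ 2 + 2 * S (m + 1) * bet S (m + 1)) := by
  have hβ0 : 0 ≤ β := by
    have : (0 : ℝ) ≤ (m + 2) ^ 2 * K2 := by positivity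
    linarith
  set KK : Set ℝ := {K | 0 ≤ K ∧ KS μ δ ε (m + 2) K} with hKK
  obtain ⟨K₁, hK₁0, hK₁⟩ := KS_exists h hδ0 hε (m + 2)
  have hne : KK.Nonempty := ⟨K₁, hK₁0, hK₁⟩
  have hbd : BddBelow KK := ⟨0, fun K hK => hK.1⟩
  set K := sInf KK with hKdef
  have hK0 : 0 ≤ K := le_csInf hne fun K' hK' => hK'.1
  have hVpos : ∀ s : SS n, ∀ ψ, B1 μ ψ → 0 < Vr μ ψ s + ε := by
    intro s ψ hψ
    have := Vr_nonneg h (supA_BF hψ) s
    linarith
  have hKS : KS μ δ ε (m + 2) K := by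
    intro s hs q hq ψ hψ
    have h1 : nsq q (m + 2) (fun L => F μ ψ L s) / (Vr μ ψ s + ε) ≤ K := by
      refine le_csInf hne fun K' hK' => ?_
      rw [div_le_iff₀ (hVpos s ψ hψ)]
      exact hK'.2 s hs q hq ψ hψ
    rwa [div_le_iff₀ (hVpos s ψ hψ)] at h1
  refine ⟨K, hK0, hKS, ?_⟩
  obtain ⟨C', hC'0, hcore⟩ := core (μ := μ) (R := R) h hδ0 hε hδ
  set X : ℝ := 2 * Real.sqrt K * ((m + 3) * Real.sqrt K + BB S m) +
    β * (2 * (m + 1) ^ 2 * K2 * S (m + 1) ^ 2 + 2 * S (m + 1) * bet S (m + 1)) with hX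
  set L₀ : ℝ := β / 2 - (m + 2) ^ 2 * K2 with hL₀
  have hL0 : 0 ≤ L₀ := by
    rw [hL₀]; linarith
  have hBB : 0 ≤ BB S m := by
    unfold BB
    exact Finset.sum_nonneg fun j _ => mul_nonneg (mul_nonneg (Nat.cast_nonneg _) (hS0 _)) (hS0 _)
  have hbet : 0 ≤ bet S (m + 1) := by
    unfold bet
    exact Finset.sum_nonneg fun j _ => mul_nonneg (mul_nonneg (Nat.cast_nonneg _) (hS0 _)) (hS0 _)
  have hX0 : 0 ≤ X := by
    have h1 := Real.sqrt_nonneg K
    have h2 := hS0 (m + 1)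
    rw [hX]
    positivity
  -- the key inequality for every smaller constant
  have key : ∀ κ : ℝ, 0 ≤ κ → κ < K → L₀ * (κ - β * S (m + 1) ^ 2) ≤ X := by
    intro κ hκ0 hκ
    have hnot : κ ∉ KK := fun hmem => absurd (csInf_le hbd hmem) (not_le.2 hκ)
    have hnot2 : ¬ KS μ δ ε (m + 2) κ := fun hks => hnot ⟨hκ0, hks⟩
    unfold KS at hnot2
    push Not at hnot2
    obtain ⟨s, hs, q, hq, ψ, hψ, hlt⟩ := hnot2
    set g : ℝ := nsq q (m + 2) (fun L => F μ ψ L s) - κ * (Vr μ ψ s + ε) with hg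
    have hg0 : 0 < g := by
      rw [hg]; linarith
    have hhh := hh_nonneg hs
    refine supA_eps (c := C' * (g / (hh s + 1)) / ε) (by positivity) fun e he => ?_
    -- choose the parameter of the exhaustion function
    set ε' : ℝ := min (e) (1 / 2) * (g / (hh s + 1)) with hε'
    have hg1 : 0 < g / (hh s + 1) := div_pos hg0 (by linarith)
    have hε'0 : 0 < ε' := mul_pos (lt_min he (by norm_num)) hg1
    have hε'1 : ε' ≤ e * (g / (hh s + 1)) :=
      mul_le_mul_of_nonneg_right (min_le_left _ _) hg1.le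
    have hε'2 : ε' * hh s < g := by
      have h1 : ε' ≤ 1 / 2 * (g / (hh s + 1)) :=
        mul_le_mul_of_nonneg_right (min_le_right _ _) hg1.le
      have h2 : ε' * hh s ≤ 1 / 2 * (g / (hh s + 1)) * hh s :=
        mul_le_mul_of_nonneg_right h1 hhh
      have h3 : g / (hh s + 1) * hh s ≤ g := by
        rw [div_mul_eq_mul_div, div_le_iff₀ (by linarith)]
        nlinarith
      nlinarith
    obtain ⟨s0, hs0, q0, hq0, hmax⟩ := exists_max (μ := μ) (R := R) h hδ0 hψ m hβ0 hκ0 hε.le hε'0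
    have hmax1 := hmax s hs q hq
    have hOb : 0 < Ob μ ψ m β κ ε ε' (s, q) := by
      unfold Ob
      have h1 : 0 ≤ β * nsq q (m + 1) (fun L => F μ ψ L s) :=
        mul_nonneg hβ0 nsq_nonneg
      simp only
      rw [hg] at hε'2
      linarith
    have hOb0 := hOb.trans_le hmax1
    have hc := hcore m S K K2 β κ ε' ψ s0 q0 hS0 hS1 hS hK0 hKS hK2 h2 hβ0 hκ0 hε'0.le hψ hs0
      hq0 hmax
    have hV := hVpos s0 ψ hψ
    have hVn := Vr_nonneg h (supA_BF hψ) s0
    have hm1 : nsq q0 (m + 1) (fun L => F μ ψ L s0) ≤ S (m + 1) ^ 2 * (Vr μ ψ s0 + ε) := by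
      have h1 := hS (m + 1) (by omega) le_rfl s0 hs0 q0 (hq0.fr h hδ0.le) ψ (supA_BF hψ)
      refine h1.trans (mul_le_mul_of_nonneg_left (by linarith) (sq_nonneg _))
    have hlow : (κ - β * S (m + 1) ^ 2) * (Vr μ ψ s0 + ε) ≤
        nsq q0 (m + 2) (fun L => F μ ψ L s0) := by
      unfold Ob at hOb0
      simp only at hOb0
      have h3 : 0 ≤ ε' * hh s0 := mul_nonneg hε'0.le (hh_nonneg hs0)
      have h4 : β * nsq q0 (m + 1) (fun L => F μ ψ L s0) ≤
          β * (S (m + 1) ^ 2 * (Vr μ ψ s0 + ε)) := mul_le_mul_of_nonneg_left hm1 hβ0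
      nlinarith
    have h5 : L₀ * ((κ - β * S (m + 1) ^ 2) * (Vr μ ψ s0 + ε)) ≤
        (Vr μ ψ s0 + ε) * X + ε' * C' :=
      (mul_le_mul_of_nonneg_left hlow hL0).trans hc
    have h6 : L₀ * (κ - β * S (m + 1) ^ 2) ≤ X + ε' * C' / (Vr μ ψ s0 + ε) := by
      have h7 : L₀ * (κ - β * S (m + 1) ^ 2) =
          L₀ * ((κ - β * S (m + 1) ^ 2) * (Vr μ ψ s0 + ε)) / (Vr μ ψ s0 + ε) := by
        field_simp
      have h8 : X + ε' * C' / (Vr μ ψ s0 + ε) =
          ((Vr μ ψ s0 + ε) * X + ε' * C') / (Vr μ ψ s0 + ε) := by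
        field_simp
      rw [h7, h8]
      exact div_le_div_of_nonneg_right h5 hV.le
    have h9 : ε' * C' / (Vr μ ψ s0 + ε) ≤ e * (C' * (g / (hh s + 1)) / ε) := by
      calc ε' * C' / (Vr μ ψ s0 + ε) ≤ ε' * C' / ε :=
            div_le_div_of_nonneg_left (by positivity) hε (by linarith)
        _ ≤ e * (g / (hh s + 1)) * C' / ε := by gcongr
        _ = e * (C' * (g / (hh s + 1)) / ε) := by ring
    linarith
  -- let the constant tend to `K`
  rcases hK0.eq_or_lt with h0 | hpos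
  · rw [← h0]
    have h1 : L₀ * (0 - β * S (m + 1) ^ 2) ≤ 0 := by
      have : 0 ≤ L₀ * (β * S (m + 1) ^ 2) := by positivity
      linarith
    exact h1.trans hX0
  · refine supA_eps (c := L₀ * K) (by positivity) fun e he => ?_
    set κ : ℝ := K - min e (1 / 2) * K with hκ
    have h1 : 0 < min e (1 / 2) := lt_min he (by norm_num)
    have h2 : min e (1 / 2) ≤ 1 / 2 := min_le_right _ _
    have h3 : min e (1 / 2) ≤ e := min_le_left _ _
    have hκ0 : 0 ≤ κ := by
      rw [hκ]; nlinarith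
    have hκ1 : κ < K := by
      rw [hκ]; nlinarith
    have h4 := key κ hκ0 hκ1
    have h5 : L₀ * (K - β * S (m + 1) ^ 2) =
        L₀ * (κ - β * S (m + 1) ^ 2) + min e (1 / 2) * (L₀ * K) := by
      rw [hκ]; ring
    rw [h5]
    have h6 : min e (1 / 2) * (L₀ * K) ≤ e * (L₀ * K) :=
      mul_le_mul_of_nonneg_right h3 (by positivity)
    linarith

/-- removal of the regularisation -/
theorem sb_of_KS (h : Hy μ R) {m : ℕ} {K : ℝ} (hK0 : 0 ≤ K)
    (hK : ∀ ε : ℝ, 0 < ε → KS μ (ε * R ^ 2) ε m K) : SB μ m K := by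
  have hR : 0 < R := lt_of_lt_of_le one_pos h.R1
  -- the inequality for functions bounded by one
  have hone : ∀ s ∈ Dom n, ∀ q : Fin n → Eu n, Fr μ q s → ∀ ψ, B1 μ ψ →
      nsq q m (fun L => F μ ψ L s) ≤ K * Vr μ ψ s := by
    intro s hs q hq ψ hψ
    have hBF := supA_BF hψ
    set c : ℝ := ∑ k, ‖q k‖ ^ 2 with hc
    have hc0 : 0 ≤ c := Finset.sum_nonneg fun k _ => sq_nonneg _
    have hV := Vr_nonneg h hBF s
    have hmain : ∀ e : ℝ, 0 < e → nsq q m (fun L => F μ ψ L s) ≤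
        (1 + e * R ^ 2 * c) ^ m * (K * (Vr μ ψ s + e)) := by
      intro e he
      set δ' : ℝ := e * R ^ 2 with hδ'
      have hδ'0 : 0 < δ' := by positivity
      have ha0 : 0 < 1 + δ' * c := by positivity
      set a : ℝ := (Real.sqrt (1 + δ' * c))⁻¹ with ha
      have ha2 : a ^ 2 = (1 + δ' * c)⁻¹ := by
        rw [ha, inv_pow, Real.sq_sqrt ha0.le]
      obtain ⟨q', hq'⟩ := or_exists (μ := μ) (R := R) h hδ'0 s
      have hfr : ∀ d : Fin n → ℝ, ∑ i, ∑ j, d i * d j * Ab μ δ' (a • q i) (a • q j) s ≤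
          ∑ i, d i ^ 2 := by
        intro d
        have h1 := hq d
        have hAb : ∀ i j, Ab μ δ' (a • q i) (a • q j) s = a ^ 2 * (F μ (ln (q j)) [q i] s +
            δ' * inner ℝ (q i) (q j)) := by
          intro i j
          have e1 : Ab μ δ' (a • q i) (a • q j) s = a * Ab μ δ' (q i) (a • q j) s := by
            have e2 := F_ML h (BF.ln h (a • q j)) s [] [] a 0 (q i) (q i)
            simp only [List.nil_append, zero_smul, add_zero, zero_mul] at e2
            unfold Ab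
            rw [e2, inner_smul_left]
            simp only [conj_trivial]
            ring
          have e3 : Ab μ δ' (q i) (a • q j) s = a * Ab μ δ' (q i) (q j) s := by
            rw [Ab_symm h, Ab_symm h (q i) (q j)]
            have e2 := F_ML h (BF.ln h (q i)) s [] [] a 0 (q j) (q j)
            simp only [List.nil_append, zero_smul, add_zero, zero_mul] at e2
            unfold Ab
            rw [e2, inner_smul_left]
            simp only [conj_trivial]
            ring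
          rw [e1, e3]
          unfold Ab
          ring
        simp only [hAb]
        have e4 : ∑ i, ∑ j, d i * d j * (a ^ 2 * (F μ (ln (q j)) [q i] s +
            δ' * inner ℝ (q i) (q j))) = a ^ 2 * (∑ i, ∑ j, d i * d j * F μ (ln (q j)) [q i] s +
            δ' * ‖∑ i, d i • q i‖ ^ 2) := by
          have e5 : ‖∑ i, d i • q i‖ ^ 2 = ∑ i, ∑ j, d i * d j * inner ℝ (q i) (q j) := by
            rw [← real_inner_self_eq_norm_sq, sum_inner]
            refine Finset.sum_congr rfl fun i _ => ?_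
            rw [inner_sum]
            refine Finset.sum_congr rfl fun j _ => ?_
            rw [real_inner_smul_left, real_inner_smul_right]
            ring
          rw [e5, mul_add, Finset.mul_sum, Finset.mul_sum, Finset.mul_sum,
            ← Finset.sum_add_distrib]
          refine Finset.sum_congr rfl fun i _ => ?_
          rw [Finset.mul_sum, Finset.mul_sum, Finset.mul_sum, ← Finset.sum_add_distrib]
          refine Finset.sum_congr rfl fun j _ => ?_
          ring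
        rw [e4, ha2]
        have e6 : ‖∑ i, d i • q i‖ ^ 2 ≤ (∑ i, d i ^ 2) * c := by
          have e7 : ‖∑ i, d i • q i‖ ≤ ∑ i, |d i| * ‖q i‖ := by
            refine (norm_sum_le _ _).trans (le_of_eq ?_)
            refine Finset.sum_congr rfl fun i _ => ?_
            rw [norm_smul, Real.norm_eq_abs]
          have e8 : (∑ i, |d i| * ‖q i‖) ^ 2 ≤ (∑ i, |d i| ^ 2) * ∑ i, ‖q i‖ ^ 2 :=
            Finset.sum_mul_sq_le_sq_mul_sq _ _ _
          simp only [sq_abs] at e8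
          exact (pow_le_pow_left₀ (norm_nonneg _) e7 2).trans e8
        rw [inv_mul_le_iff₀ ha0]
        nlinarith [mul_le_mul_of_nonneg_left e6 hδ'0.le]
      have h3 := frame_contr (μ := μ) (R := R) h hδ'0 (q := fun i => a • q i) hq' hfr
        (F_ML h hBF s) m
      rw [nsq_scale (F_ML h hBF s)] at h3
      have h4 := hK e he s hs q' hq' ψ hψ
      have h5 : (a ^ 2) ^ m * nsq q m (fun L => F μ ψ L s) ≤ K * (Vr μ ψ s + e) := h3.trans h4
      rw [ha2, inv_pow, inv_mul_le_iff₀ (pow_pos ha0 m)] at h5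
      exact h5
    -- let `e` tend to zero
    have ht : Tendsto (fun e : ℝ => (1 + e * R ^ 2 * c) ^ m * (K * (Vr μ ψ s + e))) (𝓝[>] 0)
        (𝓝 (K * Vr μ ψ s)) := by
      have hcont : Continuous fun e : ℝ => (1 + e * R ^ 2 * c) ^ m * (K * (Vr μ ψ s + e)) := by
        fun_prop
      have h1 := hcont.tendsto 0
      simp only [zero_mul, add_zero, one_pow, one_mul] at h1
      exact h1.mono_left nhdsWithin_le_nhds
    refine ge_of_tendsto ht ?_
    filter_upwards [self_mem_nhdsWithin] with e he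
    exact hmain e he
  intro s hs q hq ψ hψ
  obtain ⟨C, hC⟩ := hψ.bd
  set C₀ : ℝ := max C 1 with hC₀
  have hC0 : 0 < C₀ := lt_of_lt_of_le one_pos (le_max_right _ _)
  have hB1 : B1 μ (fun x => C₀⁻¹ * ψ x) := by
    refine ⟨hψ.ms.const_mul _, ?_⟩
    filter_upwards [hC] with x hx
    rw [abs_mul, abs_of_pos (inv_pos.2 hC0), inv_mul_le_iff₀ hC0, mul_one]
    exact hx.trans (le_max_left _ _)
  have h1 := hone s hs q hq _ hB1
  have hF : ∀ L, F μ (fun x => C₀⁻¹ * ψ x) L s = C₀⁻¹ * F μ ψ L s := by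
    intro L
    have h2 := F_lin h hψ hψ C₀⁻¹ 0 L s
    simp only [zero_mul, add_zero] at h2
    exact h2
  simp only [hF] at h1
  rw [nsq_smul, Vr_smul h hψ] at h1
  have h3 : 0 < (C₀⁻¹) ^ 2 := by positivity
  have h4 : (C₀⁻¹) ^ 2 * nsq q m (fun L => F μ ψ L s) ≤ (C₀⁻¹) ^ 2 * (K * Vr μ ψ s) := by
    linarith
  exact le_of_mul_le_mul_left h4 h3

end Pool.Agent.Lib.MP_6d896a_gt.FK
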