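import Mathlib
import Pool.Agent.Lib.MP_6d896a_gt.FK.SupA
import Pool.Agent.Lib.MP_6d896a_gt.FK.RealA
import Pool.Agent.Lib.MP_6d896a_gt.FK.Base

/-!
Project FK: the higher order thin shell inequalities of all orders.
-/

set_option autoImplicit false

namespace Pool.Agent.Lib.MP_6d896a_gt.FK

open MeasureTheory Filter Topology Set
open Pool.Agent.Lib.MP_6d896a_gt.LG (BS Cv Thin CovL SP VarE CovLe)
open scoped ENNReal NNReal ContDiff

private lemma SB_mono {n : ℕ} {μ : Measure (Eu n)} {R : ℝ} (h : Hy μ R) {m : ℕ} {K K' : ℝ}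
    (hK : K ≤ K') (hS : SB μ m K) : SB μ m K' := by
  intro s hs q hq ψ hψ
  exact (hS s hs q hq ψ hψ).trans (mul_le_mul_of_nonneg_right hK (Vr_nonneg h hψ s))

private lemma KS_mono {n : ℕ} {μ : Measure (Eu n)} {R δ ε : ℝ} (h : Hy μ R) (hε : 0 < ε) {m : ℕ}
    {K K' : ℝ} (hK : K ≤ K') (hS : KS μ δ ε m K) : KS μ δ ε m K' := by
  intro s hs q hq ψ hψ
  have hψ' : BF μ ψ := ⟨hψ.1, 1, hψ.2⟩
  have h1 := Vr_nonneg h hψ' s
  exact (hS s hs q hq ψ hψ).trans (mul_le_mul_of_nonneg_right hK (by linarith))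

/-- the higher order thin shell inequalities -/
theorem sb_all {C0 : ℝ} (hC0 : 1 ≤ C0) (hW : ∀ n, Thin n C0) :
    ∃ C : ℝ, 1 ≤ C ∧ ∀ (n : ℕ) (μ : Measure (Eu n)) (R : ℝ), Hy μ R → FP.PLm μ →
      ∀ m : ℕ, 1 ≤ m → SB μ m (sc C m ^ 2) := by
  set K2 : ℝ := 2 * C0 with hK2def
  have hK2 : 0 ≤ K2 := by linarith
  set C : ℝ := (2 * K2 + 10) * (2 * K2 + 6) with hCdef
  have hC1 : 1 ≤ C := by nlinarith
  have hC0' : 0 < C := by linarith
  have hC2 : (2 * K2 + 10) * (2 * K2 + 6) ≤ C ^ 2 := by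
    rw [← hCdef]
    nlinarith
  refine ⟨C, hC1, fun n μ R h hpl => ?_⟩
  have hR : 0 < R := by linarith [h.R1]
  have h2 : SB μ 2 K2 := sb_two (by linarith) hW h hpl
  have hsc0 : ∀ j, 0 ≤ sc C j := fun j => by unfold sc; positivity
  have hsc1 : sc C 1 = 1 := by simp [sc]
  intro m
  induction m using Nat.strong_induction_on with
  | _ m ih =>
    intro hm
    rcases Nat.lt_or_ge m 3 with h3 | h3
    · interval_cases m
      · rw [hsc1, one_pow]
        exact sb_one h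
      · refine SB_mono h ?_ h2
        have : sc C 2 = C * 2 := by simp [sc]
        rw [this]
        nlinarith
    · obtain ⟨k, rfl⟩ : ∃ k, m = k + 2 := ⟨m - 2, by omega⟩
      have hk : 1 ≤ k := by omega
      refine sb_of_KS h (sq_nonneg _) fun ε hε => ?_
      obtain ⟨K, hK0, hK, hineq⟩ := sup_arg (m := k) h (δ := ε * R ^ 2) (by positivity) hε rfl
        (S := sc C) hsc0 hsc1 (fun j hj1 hj2 => ih j (by omega) hj1) hK2 h2
        (β := 2 * ((k : ℝ) + 2) ^ 2 * (K2 + 5)) (by nlinarith [sq_nonneg ((k : ℝ) + 2)])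
      exact KS_mono h hε (real_step hK2 hC0' hC2 hk hK0 hineq) hK

end Pool.Agent.Lib.MP_6d896a_gt.FK
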