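import Mathlib
import Pool.Agent.Lib.MP_6d896a_gt.FK.Cal
import Pool.Agent.Lib.MP_6d896a_gt.FK.LinA
import Pool.Agent.Lib.MP_6d896a_gt.FK.Apl
import Pool.Agent.Lib.MP_6d896a_gt.LG.PA3a

/-!
Project FK: from the higher order thin shell inequality for measures with bounded support
(functional form, all states) to strongly log-concave densities and Appell polynomials.
-/

set_option autoImplicit false

namespace Pool.Agent.Lib.MP_6d896a_gt.FK

open MeasureTheory Filter Topology Set
open Pool.Agent.Lib.MP_6d896a_gt.LG (BS Cv Thin CovL SP VarE CovLe pa3r pa3r_tendsto pa3r_prob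
  pa3r_plm pa3r_BS pa3r_Cv)
open scoped ENNReal NNReal ContDiff

variable {n : ℕ} {μ : Measure (Eu n)} {R : ℝ} {ψ φ : Eu n → ℝ} {s : SS n}

/-! ### moments and cumulants -/

/-- products of linear functionals -/
noncomputable def yL (L : List (Eu n)) (x : Eu n) : ℝ := (L.map fun v => ln v x).prod

theorem yL_nil (x : Eu n) : yL [] x = 1 := rfl

theorem yL_cons (v : Eu n) (L : List (Eu n)) (x : Eu n) : yL (v :: L) x = ln v x * yL L x := by
  simp [yL]

theorem yL_BF (h : Hy μ R) (L : List (Eu n)) : BF μ (yL L) := by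
  induction L with
  | nil => exact BF.const h 1
  | cons v L ih =>
    have e : yL (v :: L) = fun x => ln v x * yL L x := funext fun x => yL_cons v L x
    rw [e]
    exact (BF.ln h v).mul ih

private theorem D_mo (h : Hy μ R) (hψ : BF μ ψ) (v : Eu n) (s : SS n) :
    D v (mo μ ψ) s = mo μ (fun x => ψ x * ln v x) s - mo μ ψ s * mo μ (ln v) s :=
  F_one h hψ v s

private theorem D_mul' {G H : SS n → ℝ} (v : Eu n) (hG : DifferentiableAt ℝ G s)
    (hH : DifferentiableAt ℝ H s) :
    D v (fun s => G s * H s) s = D v G s * H s + G s * D v H s := by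
  unfold D
  rw [fderiv_fun_mul hG hH]
  simp
  ring

/-- moments in terms of cumulants and moments -/
theorem mo_split (h : Hy μ R) (hψ : BF μ ψ) (L : List (Eu n)) (s : SS n) :
    mo μ (fun x => ψ x * yL L x) s = spl L (fun S T => F μ ψ S s * mo μ (yL T) s) := by
  induction L generalizing s with
  | nil =>
    simp only [spl, F_nil]
    have e1 : (fun x => ψ x * yL [] x) = ψ := by
      funext x; rw [yL_nil, mul_one]
    have e2 : (yL [] : Eu n → ℝ) = fun _ => 1 := rfl
    rw [e1, e2, mo_one h, mul_one]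
  | cons v L ih =>
    have hB := hψ.mul (yL_BF h L)
    have e0 : (fun x => ψ x * yL (v :: L) x) = fun x => (ψ x * yL L x) * ln v x := by
      funext x; rw [yL_cons]; ring
    have e1 := D_mo h hB v s
    have e2 : mo μ (fun x => ψ x * yL L x) =
        fun s => spl L (fun S T => F μ ψ S s * mo μ (yL T) s) := funext fun s => ih s
    have hF : ∀ S : List (Eu n), DifferentiableAt ℝ (F μ ψ S) s := fun S =>
      ((F_smooth h hψ S).differentiable (by simp)).differentiableAt
    have hm : ∀ T : List (Eu n), DifferentiableAt ℝ (mo μ (yL T)) s := fun T =>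
      ((mo_smooth h (yL_BF h T)).differentiable (by simp)).differentiableAt
    have e3 := (spl_fun (Pr := fun G : SS n → ℝ => DifferentiableAt ℝ G s)
      (E := fun G => D v G s) (fun f g hf hg => hf.add hg)
      (fun f g hf hg => by
        show fderiv ℝ (fun x => f x + g x) s (v, 0) = _
        rw [fderiv_fun_add hf hg]
        rfl) L
      (Θ := fun S T s => F μ ψ S s * mo μ (yL T) s) fun S T => (hF S).mul (hm T)).2
    rw [e2] at e1
    have e4 : D v (fun s => spl L (fun S T => F μ ψ S s * mo μ (yL T) s)) s =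
        spl L (fun S T => F μ ψ (v :: S) s * mo μ (yL T) s +
          F μ ψ S s * (mo μ (yL (v :: T)) s - mo μ (yL T) s * mo μ (ln v) s)) := by
      refine e3.trans (spl_congr L fun S T _ => ?_)
      rw [D_mul' v (hF S) (hm T), D_mo h (yL_BF h T) v s]
      have e5 : (fun x => yL T x * ln v x) = yL (v :: T) := by
        funext x; rw [yL_cons]; ring
      rw [e5]
      rfl
    have e6 : spl L (fun S T => F μ ψ (v :: S) s * mo μ (yL T) s +
          F μ ψ S s * (mo μ (yL (v :: T)) s - mo μ (yL T) s * mo μ (ln v) s)) =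
        spl L (fun S T => F μ ψ (v :: S) s * mo μ (yL T) s) +
          (spl L (fun S T => F μ ψ S s * mo μ (yL (v :: T)) s) -
            mo μ (ln v) s * spl L (fun S T => F μ ψ S s * mo μ (yL T) s)) := by
      rw [spl_add]
      congr 1
      have e7 : (fun S T => F μ ψ S s * (mo μ (yL (v :: T)) s - mo μ (yL T) s * mo μ (ln v) s)) =
          fun S T => F μ ψ S s * mo μ (yL (v :: T)) s +
            (-mo μ (ln v) s) * (F μ ψ S s * mo μ (yL T) s) := by
        funext S T; ring
      rw [e7, spl_add, spl_smul]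
      ring
    rw [e4, e6] at e1
    simp only [spl]
    rw [e0]
    have e8 := ih s
    have e9 : (fun s => spl L fun S T => F μ ψ S s * mo μ (yL T) s) s =
      spl L fun S T => F μ ψ S s * mo μ (yL T) s := rfl
    rw [e9] at e1
    linarith

theorem mo_zero (h : Hy μ R) (ψ : Eu n → ℝ) : mo μ ψ 0 = ∫ x, ψ x ∂μ := by
  have := h.pr
  have e : ∀ x : Eu n, ex (0 : SS n) x = 0 := by
    intro x
    simp [ex, qf]
  unfold mo Nf
  simp [e]

theorem spl_map {α β : Type} (f : α → β) (L : List α) (Φ : List β → List β → ℝ) :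
    spl (L.map f) Φ = spl L (fun S T => Φ (S.map f) (T.map f)) := by
  induction L generalizing Φ with
  | nil => rfl
  | cons v L ih =>
    simp only [List.map_cons, spl]
    rw [ih, ih]

theorem ln_ej (i : Fin n) (x : Eu n) : ln (ej i) x = x i := by
  simp [ln, ej, EuclideanSpace.inner_single_right]

theorem yL_ej (L : List (Fin n)) (x : Eu n) : yL (L.map ej) x = xm L x := by
  unfold yL xm
  rw [List.map_map]
  congr 1
  exact List.map_congr_left fun i _ => ln_ej i x

/-- the cumulants solve the triangular system of the moments -/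
theorem F_eq_UU (h : Hy μ R) (hψ : BF μ ψ) (L : List (Fin n)) :
    F μ ψ (L.map ej) 0 =
      UU (fun L => ∫ x, xm L x ∂μ) (fun L => ∫ x, ψ x * xm L x ∂μ) L := by
  have h1 : (fun L : List (Fin n) => F μ ψ (L.map ej) 0) =
      UU (fun L => ∫ x, xm L x ∂μ) (fun L => ∫ x, ψ x * xm L x ∂μ) := by
    have := h.pr
    refine UU_unique fun L => ?_
    have e1 := mo_split h hψ (L.map ej) 0
    rw [mo_zero h, spl_map] at e1
    simp only [yL_ej] at e1
    have e2 : ∀ T : List (Fin n), mo μ (yL (T.map ej)) 0 = ∫ x, xm T x ∂μ := by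
      intro T
      rw [mo_zero h]
      simp only [yL_ej]
    simp only [e2] at e1
    rw [e1, spl_eq]
    have e3 : ∫ x, xm (n := n) [] x ∂μ = 1 := by
      simp [xm]
    rw [e3]
    ring
  exact congrFun h1 L

/-! ### the inequality at the state zero for truncations -/

section trunc
variable {V : Eu n → ℝ} {κ Λ c0 : ℝ}

private theorem PG.intT (hs : SP V κ Λ c0) {f : Eu n → ℝ} (hf : PG f) :
    Integrable f (tgt V) :=
  (LG.pa3_integrable_iff hs f).2 (hf.int hs)

private theorem TT_PG {f : Eu n → ℝ} (hf : UC.TT f) : PG f := by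
  obtain ⟨C, hC⟩ := hf.cs.exists_bound_of_continuous hf.cd.continuous
  refine ⟨hf.cd, C, 0, (norm_nonneg _).trans (hC 0), fun x => ?_⟩
  simpa using hC x

private theorem TT_BF {f : Eu n → ℝ} (hf : UC.TT f) (μ : Measure (Eu n)) : BF μ f := by
  obtain ⟨C, hC⟩ := hf.cs.exists_bound_of_continuous hf.cd.continuous
  exact ⟨hf.cd.continuous.aestronglyMeasurable, C, ae_of_all _ fun x => by simpa using hC x⟩

private theorem int_tgt (hs : SP V κ Λ c0) (f : Eu n → ℝ) : ∫ x, f x ∂(tgt V) = UC.Ex V f :=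
  LG.pa3_tgt_Ex hs f

private theorem tr_hy (hs : SP V κ Λ c0) {k : ℕ} (hk1 : 1 ≤ k)
    (hk : tgt V (Metric.closedBall 0 (k : ℝ)) ≠ 0) : Hy (pa3r (tgt V) k) k := by
  have := LG.pa3_prob hs
  exact ⟨pa3r_prob _ hk, by exact_mod_cast hk1, pa3r_BS _ k⟩

private theorem tr_pos (hs : SP V κ Λ c0) :
    ∀ᶠ k : ℕ in atTop, tgt V (Metric.closedBall 0 (k : ℝ)) ≠ 0 := by
  have := LG.pa3_prob hs
  have h1 : Tendsto (fun k : ℕ => tgt V (Metric.closedBall (0 : Eu n) (k : ℝ))) atTop
      (𝓝 (tgt V (⋃ k : ℕ, Metric.closedBall (0 : Eu n) (k : ℝ)))) :=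
    tendsto_measure_iUnion_atTop
      (fun a b hab => Metric.closedBall_subset_closedBall (by exact_mod_cast hab))
  rw [Metric.iUnion_closedBall_nat, measure_univ] at h1
  exact (h1.eventually (lt_mem_nhds (by norm_num : (0 : ℝ≥0∞) < 1))).mono fun k hk => hk.ne'

/-- cumulants of the truncations converge -/
private theorem tr_F (hs : SP V κ Λ c0) (hψ : UC.TT ψ) (L : List (Fin n)) :
    Tendsto (fun k => F (pa3r (tgt V) k) ψ (L.map ej) 0) atTop
      (𝓝 (UC.Ex V (fun x => ψ x * pL V L x))) := by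
  have := LG.pa3_prob hs
  rw [Ex_pL hs (TT_PG hψ)]
  have h1 : Tendsto (fun k => UU (fun L => ∫ x, xm L x ∂(pa3r (tgt V) k))
      (fun L => ∫ x, ψ x * xm L x ∂(pa3r (tgt V) k)) L) atTop
      (𝓝 (UU (fun L => UC.Ex V (xm L)) (fun L => UC.Ex V (fun x => ψ x * xm L x)) L)) := by
    refine UU_tendsto (fun L => ?_) (fun L => ?_) L
    · rw [← int_tgt hs]
      exact pa3r_tendsto _ (PG.intT hs (PG.xm L))
    · rw [← int_tgt hs]
      exact pa3r_tendsto _ (PG.intT hs ((TT_PG hψ).mul (PG.xm L)))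
  refine h1.congr' ?_
  filter_upwards [tr_pos hs, eventually_ge_atTop 1] with k hk hk1
  exact (F_eq_UU (tr_hy hs hk1 hk) (TT_BF hψ _) L).symm

private theorem tr_Vr (hs : SP V κ Λ c0) (hψ : UC.TT ψ) :
    Tendsto (fun k => Vr (pa3r (tgt V) k) ψ 0) atTop (𝓝 (VarE V ψ)) := by
  have := LG.pa3_prob hs
  have h1 : Tendsto (fun k => (∫ x, ψ x ^ 2 ∂(pa3r (tgt V) k)) -
      (∫ x, ψ x ∂(pa3r (tgt V) k)) ^ 2) atTop (𝓝 (VarE V ψ)) := by
    unfold VarE
    rw [← int_tgt hs, ← int_tgt hs]
    refine (pa3r_tendsto _ ?_).sub ((pa3r_tendsto _ (PG.intT hs (TT_PG hψ))).pow 2)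
    exact PG.intT hs (TT_PG hψ.sq)
  refine h1.congr' ?_
  filter_upwards [tr_pos hs, eventually_ge_atTop 1] with k hk hk1
  unfold Vr
  rw [mo_zero (tr_hy hs hk1 hk), mo_zero (tr_hy hs hk1 hk)]

/-- the frames of the truncations -/
private theorem tr_frame (hs : SP V κ Λ c0) (hc : CovLe V 1) :
    ∃ t : ℕ → ℝ, Tendsto t atTop (𝓝 1) ∧ (∀ k, 0 < t k) ∧
      ∀ᶠ k in atTop, Fr (pa3r (tgt V) k) (fun i => t k • ej i) 0 := by
  have := LG.pa3_prob hs
  set ρ := tgt V with hρ
  set a : ℕ → Fin n → Fin n → ℝ := fun k i j => Cv (pa3r ρ k) (fun x => x i) (fun x => x j)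
    with ha
  set b : Fin n → Fin n → ℝ := fun i j => Cv ρ (fun x => x i) (fun x => x j) with hb
  have hlim : ∀ i j, Tendsto (fun k => a k i j) atTop (𝓝 (b i j)) := fun i j =>
    pa3r_Cv ρ (PG.intT hs (PG.coord i)) (PG.intT hs (PG.coord j))
      (PG.intT hs ((PG.coord i).mul (PG.coord j)))
  set d : ℕ → ℝ := fun k => ∑ i, ∑ j, |a k i j - b i j| with hd
  have hd0 : ∀ k, 0 ≤ d k := fun k =>
    Finset.sum_nonneg fun i _ => Finset.sum_nonneg fun j _ => abs_nonneg _
  have hdl : Tendsto d atTop (𝓝 0) := by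
    have h1 : Tendsto d atTop (𝓝 (∑ i : Fin n, ∑ j : Fin n, |b i j - b i j|)) :=
      tendsto_finsetSum _ fun i _ => tendsto_finsetSum _ fun j _ =>
        ((hlim i j).sub tendsto_const_nhds).abs
    simpa using h1
  refine ⟨fun k => (Real.sqrt (1 + d k))⁻¹, ?_, fun k => by
    have := hd0 k
    positivity, ?_⟩
  · have h1 : Tendsto (fun k => (Real.sqrt (1 + d k))⁻¹) atTop (𝓝 (Real.sqrt (1 + 0))⁻¹) := by
      refine (((Real.continuous_sqrt.tendsto _).comp (tendsto_const_nhds.add hdl))).inv₀ ?_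
      simp
    simpa using h1
  · filter_upwards [tr_pos hs, eventually_ge_atTop 1] with k hk hk1
    have hy := tr_hy hs hk1 hk
    intro c
    set t := (Real.sqrt (1 + d k))⁻¹ with ht
    have ht2 : t ^ 2 * (1 + d k) = 1 := by
      rw [ht, inv_pow, Real.sq_sqrt (by linarith [hd0 k])]
      exact inv_mul_cancel₀ (by linarith [hd0 k])
    have e1 : ∀ i j, F (pa3r (tgt V) k) (ln (t • ej j)) [t • ej i] 0 = t ^ 2 * a k i j := by
      intro i j
      rw [F_one hy (BF.ln hy _), mo_zero hy, mo_zero hy, mo_zero hy]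
      have e2 : ∀ (l : Fin n) (x : Eu n), ln (t • ej l) x = t * x l := by
        intro l x
        rw [← ln_ej l x]
        simp [ln, inner_smul_right]
      simp only [e2, ha, Cv]
      rw [integral_const_mul, integral_const_mul]
      have e3 : ∫ x : Eu n, t * x j * (t * x i) ∂(pa3r (tgt V) k) =
          t ^ 2 * ∫ x : Eu n, x i * x j ∂(pa3r (tgt V) k) := by
        rw [← integral_const_mul]
        congr 1
        funext x
        ring
      rw [e3]
      ring
    have e4 : ∑ i, ∑ j, c i * c j * F (pa3r (tgt V) k) (ln (t • ej j)) [t • ej i] 0 =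
        t ^ 2 * ∑ i, ∑ j, c i * c j * a k i j := by
      simp only [e1, Finset.mul_sum]
      refine Finset.sum_congr rfl fun i _ => Finset.sum_congr rfl fun j _ => ?_
      ring
    rw [e4]
    -- the covariance of the limit
    have e5 : ∑ i, ∑ j, c i * c j * b i j ≤ ∑ i, c i ^ 2 := by
      have h1 := hc (WithLp.toLp 2 c)
      have h2 : ‖(WithLp.toLp 2 c : Eu n)‖ ^ 2 = ∑ i, c i ^ 2 := by
        rw [EuclideanSpace.norm_sq_eq]
        simp
      rw [h2, one_mul] at h1
      have h3 : VarE V (fun x => inner ℝ x (WithLp.toLp 2 c)) = ∑ i, ∑ j, c i * c j * b i j := by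
        have h4 : ∀ x : Eu n, inner ℝ x (WithLp.toLp 2 c) = ∑ i, c i * x i := by
          intro x
          simp [PiLp.inner_apply]
        unfold VarE
        simp only [h4]
        have h5 : (fun x : Eu n => (∑ i, c i * x i) ^ 2) =
            fun x => ∑ i, ∑ j, (c i * c j) * (x i * x j) := by
          funext x
          rw [sq, Finset.sum_mul_sum]
          refine Finset.sum_congr rfl fun i _ => Finset.sum_congr rfl fun j _ => ?_
          ring
        rw [h5]
        have hI : ∀ i j, Integrable (fun x : Eu n => (c i * c j) * (x i * x j)) ρ := fun i j =>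
          (PG.intT hs ((PG.coord i).mul (PG.coord j))).const_mul _
        have h6 : UC.Ex V (fun x => ∑ i, ∑ j, (c i * c j) * (x i * x j)) =
            ∑ i, ∑ j, (c i * c j) * ∫ x : Eu n, x i * x j ∂ρ := by
          rw [← int_tgt hs, integral_finsetSum _ fun i _ => integrable_finsetSum _ fun j _ => hI i j]
          refine Finset.sum_congr rfl fun i _ => ?_
          rw [integral_finsetSum _ fun j _ => hI i j]
          refine Finset.sum_congr rfl fun j _ => ?_
          rw [integral_const_mul]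
        have h7 : UC.Ex V (fun x => ∑ i, c i * x i) = ∑ i, c i * ∫ x : Eu n, x i ∂ρ := by
          rw [← int_tgt hs, integral_finsetSum _ fun i _ => (PG.intT hs (PG.coord i)).const_mul _]
          refine Finset.sum_congr rfl fun i _ => ?_
          rw [integral_const_mul]
        rw [h6, h7, sq, Finset.sum_mul_sum, ← Finset.sum_sub_distrib]
        refine Finset.sum_congr rfl fun i _ => ?_
        rw [← Finset.sum_sub_distrib]
        refine Finset.sum_congr rfl fun j _ => ?_
        simp only [hb, Cv]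
        ring
      rw [← h3]
      exact h1
    have hcc : ∀ i j, |c i * c j| ≤ ∑ l, c l ^ 2 := by
      intro i j
      have h1 : c i ^ 2 ≤ ∑ l, c l ^ 2 :=
        Finset.single_le_sum (f := fun l => c l ^ 2) (fun l _ => sq_nonneg _) (Finset.mem_univ i)
      have h2 : c j ^ 2 ≤ ∑ l, c l ^ 2 :=
        Finset.single_le_sum (f := fun l => c l ^ 2) (fun l _ => sq_nonneg _) (Finset.mem_univ j)
      rw [abs_mul]
      nlinarith [sq_nonneg (|c i| - |c j|), sq_abs (c i), sq_abs (c j)]
    have e6 : ∑ i, ∑ j, c i * c j * a k i j ≤ (1 + d k) * ∑ i, c i ^ 2 := by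
      have h1 : ∑ i, ∑ j, c i * c j * a k i j - ∑ i, ∑ j, c i * c j * b i j =
          ∑ i, ∑ j, c i * c j * (a k i j - b i j) := by
        rw [← Finset.sum_sub_distrib]
        refine Finset.sum_congr rfl fun i _ => ?_
        rw [← Finset.sum_sub_distrib]
        exact Finset.sum_congr rfl fun j _ => by ring
      have h2 : ∑ i, ∑ j, c i * c j * (a k i j - b i j) ≤ d k * ∑ i, c i ^ 2 := by
        rw [hd, Finset.sum_mul]
        refine Finset.sum_le_sum fun i _ => ?_
        rw [Finset.sum_mul]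
        refine Finset.sum_le_sum fun j _ => ?_
        calc c i * c j * (a k i j - b i j) ≤ |c i * c j * (a k i j - b i j)| := le_abs_self _
          _ = |a k i j - b i j| * |c i * c j| := by rw [abs_mul, mul_comm]
          _ ≤ |a k i j - b i j| * ∑ l, c l ^ 2 :=
            mul_le_mul_of_nonneg_left (hcc i j) (abs_nonneg _)
      linarith
    calc t ^ 2 * ∑ i, ∑ j, c i * c j * a k i j ≤ t ^ 2 * ((1 + d k) * ∑ i, c i ^ 2) :=
          mul_le_mul_of_nonneg_left e6 (sq_nonneg _)
      _ = (t ^ 2 * (1 + d k)) * ∑ i, c i ^ 2 := by ring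
      _ = ∑ i, c i ^ 2 := by rw [ht2, one_mul]

end trunc

/-- from bounded supports to strongly log-concave densities -/
theorem sbd_of_sb {C : ℝ}
    (H : ∀ (n : ℕ) (μ : Measure (Eu n)) (R : ℝ), Hy μ R → FP.PLm μ → ∀ m, 1 ≤ m →
      SB μ m (sc C m ^ 2)) : SBd C := by
  intro n V κ Λ c0 hs hc
  refine ⟨pA V, app_pA hs, fun m ψ hψ => ?_⟩
  have := LG.pa3_prob hs
  obtain ⟨t, ht1, ht0, hfr⟩ := tr_frame hs hc
  have hsc : sc C (m + 1) = C ^ m * (m + 1).factorial := by simp [sc]
  have l1 : Tendsto (fun k => (t k ^ 2) ^ (m + 1) * ∑ I : Fin (m + 1) → Fin n,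
      F (pa3r (tgt V) k) ψ ((List.ofFn I).map ej) 0 ^ 2) atTop
      (𝓝 ((1 ^ 2) ^ (m + 1) * ∑ I : Fin (m + 1) → Fin n,
        UC.Ex V (fun x => ψ x * pL V (List.ofFn I) x) ^ 2)) :=
    ((ht1.pow 2).pow (m + 1)).mul (tendsto_finsetSum _ fun I _ => (tr_F hs hψ _).pow 2)
  have l2 : Tendsto (fun k => sc C (m + 1) ^ 2 * Vr (pa3r (tgt V) k) ψ 0) atTop
      (𝓝 (sc C (m + 1) ^ 2 * VarE V ψ)) := (tr_Vr hs hψ).const_mul _
  rw [one_pow, one_pow, one_mul] at l1
  rw [← hsc]
  refine le_of_tendsto_of_tendsto l1 l2 ?_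
  filter_upwards [tr_pos hs, eventually_ge_atTop 1, hfr] with k hk hk1 hf
  have hy := tr_hy hs hk1 hk
  have h0 : (0 : SS n) ∈ Dom n := by
    refine ⟨fun i j => rfl, fun x => ?_⟩
    simp [qf]
  have h1 := H n (pa3r (tgt V) k) k hy (pa3r_plm _ (LG.pa3_plm hs) hk) (m + 1) (by omega) 0 h0
    (fun i => t k • ej i) hf ψ (TT_BF hψ _)
  rw [nsq_scale (F_ML hy (TT_BF hψ _) 0)] at h1
  have e1 : nsq (fun i => (ej i : Eu n)) (m + 1) (fun L => F (pa3r (tgt V) k) ψ L 0) =
      ∑ I : Fin (m + 1) → Fin n, F (pa3r (tgt V) k) ψ ((List.ofFn I).map ej) 0 ^ 2 := by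
    unfold nsq
    rw [ip_eq]
    refine Finset.sum_congr rfl fun I _ => ?_
    rw [← sq, List.map_ofFn]
    rfl
  rw [e1] at h1
  exact h1

end Pool.Agent.Lib.MP_6d896a_gt.FK
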