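import Mathlib
import Pool.Agent.Lib.MP_6d896a_gt.FK.Ind
import Pool.Agent.Lib.MP_6d896a_gt.FK.ToSBd
import Pool.Agent.Lib.MP_6d896a_gt.FK.GapOf
import Pool.Agent.Lib.MP_6d896a_gt.FK.Fin
import Pool.Agent.Lib.MP_6d896a_gt.LG.Glue

/-!
Project FK: the isoperimetric inequality of Kannan, Lovasz and Simonovits for all log-concave
probability measures, with an absolute constant.
-/

set_option autoImplicit false

namespace Pool.Agent.Lib.MP_6d896a_gt.FK

open MeasureTheory Filter Topology Metric Set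
open scoped ENNReal Pointwise

/-- the uniform Poincare inequality at the smooth level -/
theorem gapS_main : ∃ K0 : ℝ, 1 ≤ K0 ∧ GapS K0 := by
  obtain ⟨C, hC, H⟩ := sb_all (C0 := 4 * (222 * (100 * 2 ^ 22))) (by norm_num) LG.thin
  have hC2 : 1 ≤ C ^ 2 := one_le_pow₀ hC
  exact ⟨64 * (2500000000 * C ^ 2) * 8 ^ 6, by nlinarith, fun n V κ Λ c0 hs hc f hf =>
    gap_of hC (sbd_of_sb H) n V κ Λ c0 hs hc f hf⟩

/-- the isoperimetric inequality -/
theorem kls :
    ∃ C : ℝ, 0 < C ∧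
      ∀ (n : ℕ) (μ : Measure (EuclideanSpace ℝ (Fin n))), IsProbabilityMeasure μ →
        (∀ (A B : Set (EuclideanSpace ℝ (Fin n))) (t : ℝ), IsCompact A → IsCompact B → 0 < t →
          t < 1 → (μ A) ^ t * (μ B) ^ (1 - t) ≤ μ (t • A + (1 - t) • B)) →
        ∀ s : ℝ, 0 < s →
          (∀ θ : EuclideanSpace ℝ (Fin n), ‖θ‖ = 1 →
            ProbabilityTheory.variance (fun x => inner ℝ x θ) μ ≤ s) →
          ∀ S : Set (EuclideanSpace ℝ (Fin n)), MeasurableSet S →
            ENNReal.ofReal (C / Real.sqrt s) * min (μ S) (μ Sᶜ) ≤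
              liminf (fun ε : ℝ => (μ (thickening ε S) - μ S) / ENNReal.ofReal ε)
                (𝓝[>] 0) := by
  obtain ⟨K0, hK0, H⟩ := gapS_main
  exact kls_of_gapS hK0 H

end Pool.Agent.Lib.MP_6d896a_gt.FK
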